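import Mathlib
import Pool.Agent.H39.UN.Ineq
import Pool.Agent.H39.UN.Rat
import Pool.Agent.H39.UN.RhoA
import Pool.Agent.H39.UN.Rho
import Pool.Agent.H39.UN.PlG

/-!
[H39 UP RB]  (MP_bcc40c_pr)  Bounds for the ratios of the numbers `bc n v` in the region `ω1 n ≤ v ≤ ω2 n`.

PROOFS.  lamw_lt: `lamw ω = lam (thw ω)`, thw_spec, lam_facts: `0 < lamw ω < lamc`.
rb: `lp = (lamw ω2 + lamc)/2` (if `ω2 ≤ 0` the region is empty for `n ≥ 1`; so assume `ω1 ≤ ω2`, otherwise it is empty too, any constants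
do).  Apply rho with the interval `[ω1/2, ω2]` and `ε = (lamc - lamw ω2)/2`: for `n'` large and `w'/n' ∈ [ω1/2, ω2]`, right parity,
`bc (n'-1) (w'-1) ≤ (lamw (w'/n') + ε) bc n' w' ≤ lp bc n' w'` (lamw is increasing; `bc n' w' > 0` by bc_pos).  Choose
`δ ≤ 1/2`, `δ ≤ ω1/4`: the points `(n-j, w-j)`, `j < s ≤ δ n`, satisfy `(w-j)/(n-j) ≤ w/n ≤ ω2` (as `w ≤ n`) and `w - j ≥ (ω1/2)(n-j)`, `n - j ≥ n/2`.
So `bc (n-s) (w-s) ≤ lp^s bc n w`; then rat_twog (or `g` times rat_two) at `(n-s, w-s)`, `w-s ≥ ω1 n/4`: each factor is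
`6(3(n-s)+2)/(w-s)^3 ≤ C/n^2`.  If `w` and `n` have different parity all the numbers are 0 (bc_supp).
rb_up: rho at `(n+1, w+1)` (interval `[ω1/2, (1+ω2)/2]`) and `lamw ≥ lamw (ω1/2) > 0`.  rb_lo: rho at `(n, w)`.
rlim: for sizes along an ultrafilter, product of `s` ratio limits (rho_seq, sq_shift); for `s` negative use `Nat` subtraction only on the
smaller side: the statement is for `s : ℕ`.
-/

set_option autoImplicit false

namespace UN39

open Filter Topology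

theorem lamw_lt {ω : ℝ} (h0 : 0 < ω) (h1 : ω < 1) : 0 < lamw ω ∧ lamw ω < lamc := by
  obtain ⟨a1, a2, -, -⟩ := thw_spec h0 h1
  obtain ⟨b1, b2, -, -⟩ := lam_facts a1 a2
  exact ⟨b1, b2⟩

private theorem rb_zero {n w : ℕ} (h : w % 2 ≠ n % 2) : bc n w = 0 := by
  by_contra hne
  exact h (bc_supp hne).2.2

/-- the ratio bound at one pair -/
private theorem rb_one {ω1 ω2 ε : ℝ} (h1 : 0 < ω1) (h2 : ω2 < 1) {N : ℕ}
    (hN : ∀ n v : ℕ, N ≤ n → ω1 * n ≤ v → (v : ℝ) ≤ ω2 * n → v % 2 = n % 2 →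
      |bc (n - 1) (v - 1) / bc n v - lamw ((v : ℝ) / n)| ≤ ε) {n v : ℕ} (hn : N ≤ n) (hn1 : 1 ≤ n)
    (ha : ω1 * n ≤ v) (hb : (v : ℝ) ≤ ω2 * n) (hp : v % 2 = n % 2) :
    0 < bc n v ∧ ω1 ≤ (v : ℝ) / n ∧ (v : ℝ) / n ≤ ω2 ∧
      (lamw ((v : ℝ) / n) - ε) * bc n v ≤ bc (n - 1) (v - 1) ∧
      bc (n - 1) (v - 1) ≤ (lamw ((v : ℝ) / n) + ε) * bc n v := by
  have hn0 : (0 : ℝ) < n := by exact_mod_cast hn1
  have hv0 : 0 < v := by
    have h3 : (0 : ℝ) < v := lt_of_lt_of_le (mul_pos h1 hn0) ha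
    exact_mod_cast h3
  have hvn : v ≤ n := by
    have h3 : (v : ℝ) ≤ n := by nlinarith
    exact_mod_cast h3
  have hpos : 0 < bc n v := bc_pos hn1 hv0 (by omega) hp
  have h3 := abs_le.1 (hN n v hn ha hb hp)
  refine ⟨hpos, ?_, ?_, ?_, ?_⟩
  · rw [le_div_iff₀ hn0]
    exact ha
  · rw [div_le_iff₀ hn0]
    exact hb
  · rw [← le_div_iff₀ hpos]
    linarith [h3.1]
  · rw [← div_le_iff₀ hpos]
    linarith [h3.2]

theorem rb {ω1 ω2 : ℝ} (h1 : 0 < ω1) (h2 : ω2 < 1) : ∃ lp C δ : ℝ, ∃ n0 : ℕ, 0 < lp ∧ lp < lamc ∧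
    0 < C ∧ 0 < δ ∧ ∀ n w s g : ℕ, n0 ≤ n → ω1 * n ≤ w → (w : ℝ) ≤ ω2 * n → (s : ℝ) ≤ δ * n →
      bc (n - s) (w - s + 2 * g) ≤ lp ^ s * (C / (n : ℝ) ^ 2) ^ g * bc n w := by
  have hlc := lamc_pos.1
  rcases lt_or_ge ω2 ω1 with hlt | hle
  · refine ⟨lamc / 2, 1, 1, 1, by linarith, by linarith, one_pos, one_pos, ?_⟩
    intro n w s g hn ha hb _
    exfalso
    have hn0 : (0 : ℝ) < n := by exact_mod_cast hn
    have h3 : ω1 * n ≤ ω2 * n := ha.trans hb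
    have h4 : ω2 * n < ω1 * n := mul_lt_mul_of_pos_right hlt hn0
    linarith
  have hω2 : 0 < ω2 := by linarith
  obtain ⟨l1, l2⟩ := lamw_lt hω2 h2
  obtain ⟨N, hN⟩ := rho (ω1 := ω1 / 2) (ω2 := ω2) (by linarith) h2
    (ε := (lamc - lamw ω2) / 2) (by linarith)
  have hδ0 : 0 < min (1 / 2) (ω1 / 4) := lt_min (by norm_num) (by linarith)
  have hδ1 : min (1 / 2) (ω1 / 4) ≤ 1 / 2 := min_le_left _ _
  have hδ2 : min (1 / 2) (ω1 / 4) ≤ ω1 / 4 := min_le_right _ _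
  set δ : ℝ := min (1 / 2) (ω1 / 4) with hδ
  refine ⟨(lamw ω2 + lamc) / 2, 240 / ω1 ^ 3, δ, 2 * N + 2, by linarith, by linarith,
    by positivity, hδ0, ?_⟩
  intro n w s g hn ha hb hs
  have hn1 : (1 : ℝ) ≤ n := by exact_mod_cast (by omega : 1 ≤ n)
  have hn0 : (0 : ℝ) < n := by linarith
  have hlp0 : 0 < (lamw ω2 + lamc) / 2 := by linarith
  have hsn2 : (s : ℝ) ≤ n / 2 := by
    have h3 := mul_le_mul_of_nonneg_right hδ1 hn0.le
    linarith
  have hsw : (s : ℝ) ≤ ω1 / 4 * n := hs.trans (mul_le_mul_of_nonneg_right hδ2 hn0.le)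
  have hω1n : 0 < ω1 * n := mul_pos h1 hn0
  have hsw' : s < w := by
    have h3 : (s : ℝ) < w := by linarith
    exact_mod_cast h3
  have hsn' : 2 * s ≤ n := by
    have h3 : 2 * (s : ℝ) ≤ n := by linarith
    exact_mod_cast h3
  by_cases hp : w % 2 = n % 2
  swap
  · rw [rb_zero (n := n - s) (w := w - s + 2 * g) (by omega)]
    have := bc_nonneg n w
    positivity
  -- the chain
  have hchain : ∀ t : ℕ, t ≤ s → bc (n - t) (w - t) ≤ ((lamw ω2 + lamc) / 2) ^ t * bc n w := by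
    intro t
    induction t with
    | zero =>
      intro _
      rw [Nat.sub_zero, Nat.sub_zero, pow_zero, one_mul]
    | succ t ih =>
      intro ht
      have iht := ih (by omega)
      have htR : (t : ℝ) ≤ s := by exact_mod_cast (by omega : t ≤ s)
      have ht0 : (0 : ℝ) ≤ t := Nat.cast_nonneg t
      have cn : ((n - t : ℕ) : ℝ) = n - t := Nat.cast_sub (by omega)
      have cw : ((w - t : ℕ) : ℝ) = w - t := Nat.cast_sub (by omega)
      have hω1t : 0 ≤ ω1 / 2 * (t : ℝ) := by positivity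
      have hone := rb_one (ω1 := ω1 / 2) (ω2 := ω2) (by linarith) h2 hN (n := n - t) (v := w - t)
        (by omega) (by omega) (by
          rw [cn, cw, mul_sub]
          linarith) (by
          rw [cn, cw, mul_sub]
          have h3 : ω2 * (t : ℝ) ≤ 1 * t := mul_le_mul_of_nonneg_right h2.le ht0
          linarith) (by omega)
      obtain ⟨q1, q2, q3, -, q5⟩ := hone
      have hmono : lamw (((w - t : ℕ) : ℝ) / ((n - t : ℕ) : ℝ)) ≤ lamw ω2 :=
        lamw_cont.2.monotoneOn ⟨by linarith, by linarith⟩ ⟨hω2, h2⟩ q3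
      have e1 : n - (t + 1) = n - t - 1 := by omega
      have e2 : w - (t + 1) = w - t - 1 := by omega
      rw [e1, e2]
      calc bc (n - t - 1) (w - t - 1)
          ≤ (lamw (((w - t : ℕ) : ℝ) / ((n - t : ℕ) : ℝ)) + (lamc - lamw ω2) / 2) *
            bc (n - t) (w - t) := q5
        _ ≤ ((lamw ω2 + lamc) / 2) * bc (n - t) (w - t) := by
            apply mul_le_mul_of_nonneg_right _ q1.le
            linarith
        _ ≤ ((lamw ω2 + lamc) / 2) * (((lamw ω2 + lamc) / 2) ^ t * bc n w) :=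
            mul_le_mul_of_nonneg_left iht hlp0.le
        _ = _ := by rw [pow_succ]; ring
  have hc := hchain s le_rfl
  have hg := rat_twog (n - s) (w - s) g (by omega)
  have cn : ((n - s : ℕ) : ℝ) = n - s := Nat.cast_sub (by omega)
  have cw : ((w - s : ℕ) : ℝ) = w - s := Nat.cast_sub (by omega)
  have hs0 : (0 : ℝ) ≤ s := Nat.cast_nonneg s
  have hfac : 6 * (3 * ((n - s : ℕ) : ℝ) + 2) / ((w - s : ℕ) : ℝ) ^ 3 ≤
      240 / ω1 ^ 3 / (n : ℝ) ^ 2 := by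
    rw [cn, cw]
    have h3 : ω1 / 2 * n ≤ (w : ℝ) - s := by linarith
    have h4 : 0 < ω1 / 2 * (n : ℝ) := by positivity
    have h5 : (ω1 / 2 * (n : ℝ)) ^ 3 ≤ ((w : ℝ) - s) ^ 3 := pow_le_pow_left₀ h4.le h3 3
    calc 6 * (3 * ((n : ℝ) - s) + 2) / ((w : ℝ) - s) ^ 3
        ≤ (30 * n) / (ω1 / 2 * (n : ℝ)) ^ 3 := by
          apply div_le_div₀ (by positivity) _ (by positivity) h5
          linarith
      _ = 240 / ω1 ^ 3 / (n : ℝ) ^ 2 := by
          field_simp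
          norm_num
  have hfac0 : 0 ≤ 6 * (3 * ((n - s : ℕ) : ℝ) + 2) / ((w - s : ℕ) : ℝ) ^ 3 := by positivity
  calc bc (n - s) (w - s + 2 * g)
      ≤ (6 * (3 * ((n - s : ℕ) : ℝ) + 2) / ((w - s : ℕ) : ℝ) ^ 3) ^ g * bc (n - s) (w - s) := hg
    _ ≤ (240 / ω1 ^ 3 / (n : ℝ) ^ 2) ^ g * (((lamw ω2 + lamc) / 2) ^ s * bc n w) := by
        apply mul_le_mul (pow_le_pow_left₀ hfac0 hfac g) hc (bc_nonneg _ _)
        positivity
    _ = _ := by ring

theorem rb_up {ω1 ω2 : ℝ} (h1 : 0 < ω1) (h2 : ω2 < 1) : ∃ C : ℝ, ∃ n0 : ℕ, 0 < C ∧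
    ∀ n w : ℕ, n0 ≤ n → ω1 * n ≤ w → (w : ℝ) ≤ ω2 * n → bc (n + 1) (w + 1) ≤ C * bc n w := by
  rcases lt_or_ge ω2 ω1 with hlt | hle
  · refine ⟨1, 1, one_pos, ?_⟩
    intro n w hn ha hb
    exfalso
    have hn0 : (0 : ℝ) < n := by exact_mod_cast hn
    have h3 : ω1 * n ≤ ω2 * n := ha.trans hb
    have h4 : ω2 * n < ω1 * n := mul_lt_mul_of_pos_right hlt hn0
    linarith
  obtain ⟨l1, l2⟩ := lamw_lt (ω := ω1 / 2) (by linarith) (by linarith)
  obtain ⟨N, hN⟩ := rho (ω1 := ω1 / 2) (ω2 := (1 + ω2) / 2) (by linarith) (by linarith)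
    (ε := lamw (ω1 / 2) / 2) (by linarith)
  refine ⟨1 / (lamw (ω1 / 2) / 2), N + 1, by positivity, ?_⟩
  intro n w hn ha hb
  have hn1 : (1 : ℝ) ≤ n := by exact_mod_cast (by omega : 1 ≤ n)
  by_cases hp : w % 2 = n % 2
  swap
  · rw [rb_zero (n := n + 1) (w := w + 1) (by omega)]
    have := bc_nonneg n w
    positivity
  have hone := rb_one (ω1 := ω1 / 2) (ω2 := (1 + ω2) / 2) (by linarith) (by linarith) hN
    (n := n + 1) (v := w + 1) (by omega) (by omega) (by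
      push_cast
      have h3 := mul_le_mul_of_nonneg_left hn1 (show 0 ≤ ω1 / 2 by linarith)
      linarith) (by
      push_cast
      have h3 := mul_le_mul_of_nonneg_left hn1 (show 0 ≤ (1 - ω2) / 2 by linarith)
      linarith) (by omega)
  obtain ⟨q1, q2, q3, q4, -⟩ := hone
  have hmono : lamw (ω1 / 2) ≤ lamw (((w + 1 : ℕ) : ℝ) / ((n + 1 : ℕ) : ℝ)) :=
    lamw_cont.2.monotoneOn ⟨by linarith, by linarith⟩ ⟨by linarith, by linarith⟩ q2
  rw [Nat.add_sub_cancel, Nat.add_sub_cancel] at q4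
  have h5 : lamw (ω1 / 2) / 2 * bc (n + 1) (w + 1) ≤ bc n w := by
    refine le_trans (mul_le_mul_of_nonneg_right ?_ q1.le) q4
    linarith
  rw [one_div, inv_mul_eq_div, le_div_iff₀ (by linarith), mul_comm]
  exact h5

theorem rb_lo {ω1 ω2 : ℝ} (h1 : 0 < ω1) (h2 : ω2 < 1) : ∃ c : ℝ, ∃ n0 : ℕ, 0 < c ∧
    ∀ n w : ℕ, n0 ≤ n → ω1 * n ≤ w → (w : ℝ) ≤ ω2 * n → c * bc n w ≤ bc (n - 1) (w - 1) := by
  rcases lt_or_ge ω2 ω1 with hlt | hle
  · refine ⟨1, 1, one_pos, ?_⟩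
    intro n w hn ha hb
    exfalso
    have hn0 : (0 : ℝ) < n := by exact_mod_cast hn
    have h3 : ω1 * n ≤ ω2 * n := ha.trans hb
    have h4 : ω2 * n < ω1 * n := mul_lt_mul_of_pos_right hlt hn0
    linarith
  obtain ⟨l1, l2⟩ := lamw_lt (ω := ω1) h1 (by linarith)
  obtain ⟨N, hN⟩ := rho (ω1 := ω1) (ω2 := ω2) h1 h2 (ε := lamw ω1 / 2) (by linarith)
  refine ⟨lamw ω1 / 2, N + 1, by positivity, ?_⟩
  intro n w hn ha hb
  by_cases hp : w % 2 = n % 2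
  swap
  · rw [rb_zero hp, mul_zero]
    exact bc_nonneg _ _
  obtain ⟨q1, q2, q3, q4, -⟩ := rb_one h1 h2 hN (n := n) (v := w) (by omega) (by omega) ha hb hp
  have hmono : lamw ω1 ≤ lamw ((w : ℝ) / (n : ℝ)) :=
    lamw_cont.2.monotoneOn ⟨h1, by linarith⟩ ⟨by linarith, by linarith⟩ q2
  refine le_trans (mul_le_mul_of_nonneg_right ?_ q1.le) q4
  linarith

theorem rlim {ι : Type} {U : Ultrafilter ι} {n v : ι → ℕ} {ω : ℝ} (h : Sq U n v ω) (s : ℕ) :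
    Tendsto (fun i => bc (n i - s) (v i - s) / bc (n i) (v i)) U (𝓝 (lamw ω ^ s)) := by
  induction s with
  | zero =>
    rw [pow_zero]
    refine tendsto_const_nhds.congr' ?_
    filter_upwards [sq_pos h 0] with i hi
    rw [Nat.sub_zero, Nat.sub_zero, div_self hi.2.2.2.2.1.ne']
  | succ s ih =>
    have h1 := rho_seq (sq_shift h s s rfl)
    have h2 := h1.mul ih
    rw [← pow_succ'] at h2
    refine h2.congr' ?_
    filter_upwards [sq_pos h s] with i hi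
    rw [Nat.sub_sub, Nat.sub_sub, div_mul_div_cancel₀ hi.2.2.2.2.2.ne']

end UN39
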