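import Mathlib
import Pool.Agent.H39.UN.SeB
import Pool.Agent.H39.UN.Ineq
import Pool.Agent.H39.UN.PlA
import Pool.Agent.H39.UN.PlC

/-!
[H39 UP BET]  (MP_bcc40c_pr)  Upper bound for the numbers `bc n v` close to the planar case.

`qd δ = (1+δ)/(1-3δ/2)`, `qd δ → 1` as `δ → 0`.

PROOF of beta1, by strong induction on `n` (`δ` and `N` with `(n+2)/δ ≤ N` are given; the hypothesis holds for the smaller `n` too).
Write `B m = ∑_v bc m v N^v = (bb m).eval N` (degree `≤ m+2` by bc_supp).  `n = 0`: `bb 0 = X^2`, `b0 0 = 1`.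
`n ≥ 1`: evaluate SE at `N`:  `2(3n+2) B n = N (Dl (bb n)).eval N + ∑_{i<n} 2(3i+2) B i * (Dl (bb (n-1-i))).eval N`, and
`(Dl (bb m)).eval N = ∑_v bc m v ((N+1)^v - (N-1)^v) = ∑_v bc m v N^v ((1+1/N)^v - (1-1/N)^v)`.  For `v ≤ m+2 ≤ n+2` put `y = v/N ≤ δ ≤ 1/2`:
`(1+1/N)^v ≤ exp y ≤ 1 + y + y^2` and `(1-1/N)^v ≥ 1 - y` (Bernoulli), so the difference is at most `2y + y^2 ≤ 2 y (1+δ) ≤ 2 (1+δ)(m+2)/N`
(for `v ≤ m+2`; the terms with `v > m+2` vanish).  So `2(3n+2) B n ≤ 2(1+δ)(n+2) B n + (4(1+δ)/N) ∑ (3i+2)(n+1-i) B i B (n-1-i)`.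
Now `2(3n+2) - 2(1+δ)(n+2) = 4n - 2δ(n+2) ≥ 4n (1 - 3δ/2)` because `n + 2 ≤ 3n`.  Insert the induction hypothesis
`B i ≤ q^i b0 i N^(i+2)`: `4n(1-3δ/2) B n ≤ 4(1+δ) q^(n-1) N^(n+2) ∑ (3i+2)(n+1-i) b0 i b0 (n-1-i) = 4 (1+δ) q^(n-1) N^(n+2) n b0 n` (b0_rec).
beta_pt: one term of the sum.  b0_le: one term of the sum f_val at `lamc` (`Aof lamc = √3` by psi_A, psi_ends and psi_mono; the value
`3 (3-√3)/(√3+1)` is `< 2`).  beta_np: with `N = (i+2)/δ`: `bc i (i+2-2g) ≤ q^i b0 i N^(2g)` and a geometric series with ratio `x N^2 ≤ 1/2`.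
-/

set_option autoImplicit false

namespace UN39

open Filter Topology

noncomputable def qd (δ : ℝ) : ℝ := (1 + δ) / (1 - 3 / 2 * δ)

theorem qd_one {δ : ℝ} (h0 : 0 < δ) (h1 : δ ≤ 1 / 2) : 1 ≤ qd δ := by
  unfold qd
  rw [le_div_iff₀ (by linarith)]
  linarith

theorem qd_lim {η : ℝ} (h : 1 < η) : ∃ δ : ℝ, 0 < δ ∧ δ ≤ 1 / 2 ∧ ∀ δ', 0 < δ' → δ' ≤ δ → qd δ' ≤ η := by
  have h0 : 0 < 1 + 3 / 2 * η := by linarith
  refine ⟨min (1 / 2) ((η - 1) / (1 + 3 / 2 * η)), lt_min (by norm_num) (div_pos (by linarith) h0),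
    min_le_left _ _, ?_⟩
  intro δ' h1 h2
  have h3 : δ' ≤ 1 / 2 := h2.trans (min_le_left _ _)
  have h4 : δ' ≤ (η - 1) / (1 + 3 / 2 * η) := h2.trans (min_le_right _ _)
  rw [le_div_iff₀ h0] at h4
  unfold qd
  rw [div_le_iff₀ (by linarith)]
  linarith

private theorem bet_deg (i : ℕ) : (bb i).natDegree < i + 3 := by
  have h : (bb i).natDegree ≤ i + 2 := by
    rw [Polynomial.natDegree_le_iff_coeff_eq_zero]
    intro v hv
    by_contra h
    have := (bc_supp (n := i) (v := v) h).2.1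
    omega
  omega

private theorem bet_eval (m : ℕ) (N : ℝ) :
    (bb m).eval N = ∑ v ∈ Finset.range (m + 3), bc m v * N ^ v :=
  Polynomial.eval_eq_sum_range' (bet_deg m) N

private theorem bet_Dl (m : ℕ) (N : ℝ) :
    (Dl (bb m)).eval N = ∑ v ∈ Finset.range (m + 3), bc m v * ((N + 1) ^ v - (N - 1) ^ v) := by
  unfold Dl
  rw [Polynomial.eval_sub, Polynomial.eval_comp, Polynomial.eval_comp, Polynomial.eval_add,
    Polynomial.eval_sub, Polynomial.eval_X, Polynomial.eval_one, bet_eval, bet_eval,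
    ← Finset.sum_sub_distrib]
  refine Finset.sum_congr rfl fun v _ => ?_
  ring

private theorem bet_pow {δ : ℝ} (h0 : 0 < δ) (h1 : δ ≤ 1 / 2) {m v : ℕ} {N : ℝ} (hN0 : 0 < N)
    (hN : ((m : ℝ) + 2) / δ ≤ N) (hv : v ≤ m + 2) :
    (N + 1) ^ v - (N - 1) ^ v ≤ N ^ v * (2 * (1 + δ) * ((m : ℝ) + 2) / N) := by
  have hvm : (v : ℝ) ≤ m + 2 := by exact_mod_cast hv
  have hv0 : (0 : ℝ) ≤ v := Nat.cast_nonneg v
  rw [div_le_iff₀ h0] at hN
  have hy0 : 0 ≤ (v : ℝ) / N := div_nonneg hv0 hN0.le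
  have hy1 : (v : ℝ) / N ≤ δ := by
    rw [div_le_iff₀ hN0]
    linarith
  have e1 : (N + 1) ^ v = N ^ v * (1 + 1 / N) ^ v := by
    rw [← mul_pow]
    congr 1
    field_simp
  have e2 : (N - 1) ^ v = N ^ v * (1 + -(1 / N)) ^ v := by
    rw [← mul_pow]
    congr 1
    field_simp
    ring
  have h2 : (1 + 1 / N) ^ v ≤ 1 + (v : ℝ) / N + ((v : ℝ) / N) ^ 2 := by
    have h3 : (1 + 1 / N) ^ v ≤ Real.exp ((v : ℝ) / N) := by
      have h4 : 1 + 1 / N ≤ Real.exp (1 / N) := by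
        have := Real.add_one_le_exp (1 / N)
        linarith
      refine (pow_le_pow_left₀ (by positivity) h4 v).trans ?_
      rw [← Real.exp_nat_mul]
      apply le_of_eq
      congr 1
      ring
    have h5 := Real.abs_exp_sub_one_sub_id_le (x := (v : ℝ) / N) (by
      rw [abs_of_nonneg hy0]
      linarith)
    have h6 := (abs_le.1 h5).2
    linarith
  have h7 : 1 - (v : ℝ) / N ≤ (1 + -(1 / N)) ^ v := by
    have hN2 : 2 ≤ N := by
      have h8 : (2 : ℝ) ≤ N * δ := by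
        have : (0 : ℝ) ≤ m := Nat.cast_nonneg m
        linarith
      nlinarith
    have h9 : 1 / N ≤ 1 := by
      rw [div_le_one hN0]
      linarith
    have h10 := one_add_mul_le_pow (a := -(1 / N)) (by linarith) v
    have h11 : 1 + (v : ℝ) * -(1 / N) = 1 - (v : ℝ) / N := by ring
    rwa [h11] at h10
  have h8 : (1 + 1 / N) ^ v - (1 + -(1 / N)) ^ v ≤ 2 * (1 + δ) * ((m : ℝ) + 2) / N := by
    have h9 : (1 + 1 / N) ^ v - (1 + -(1 / N)) ^ v ≤ 2 * ((v : ℝ) / N) + ((v : ℝ) / N) ^ 2 := by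
      linarith
    have h10 : ((v : ℝ) / N) ^ 2 ≤ δ * ((v : ℝ) / N) := by
      rw [pow_two]
      exact mul_le_mul_of_nonneg_right hy1 hy0
    have h11 : (v : ℝ) / N ≤ ((m : ℝ) + 2) / N := div_le_div_of_nonneg_right hvm hN0.le
    have h12 : 2 * (1 + δ) * ((m : ℝ) + 2) / N = 2 * (1 + δ) * (((m : ℝ) + 2) / N) := by ring
    rw [h12]
    have h13 := mul_le_mul_of_nonneg_left h11 (show 0 ≤ 2 * (1 + δ) by linarith)
    have h14 : 2 * ((v : ℝ) / N) + δ * ((v : ℝ) / N) ≤ 2 * (1 + δ) * ((v : ℝ) / N) := by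
      have h15 : 0 ≤ δ * ((v : ℝ) / N) := mul_nonneg h0.le hy0
      linarith
    linarith
  rw [e1, e2, ← mul_sub]
  exact mul_le_mul_of_nonneg_left h8 (by positivity)

private theorem bet_Dl_le {δ : ℝ} (h0 : 0 < δ) (h1 : δ ≤ 1 / 2) {m : ℕ} {N : ℝ} (hN0 : 0 < N)
    (hN : ((m : ℝ) + 2) / δ ≤ N) :
    (Dl (bb m)).eval N ≤ (2 * (1 + δ) * ((m : ℝ) + 2) / N) * (bb m).eval N := by
  rw [bet_Dl, bet_eval, Finset.mul_sum]
  apply Finset.sum_le_sum
  intro v hv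
  rw [Finset.mem_range] at hv
  have h2 := mul_le_mul_of_nonneg_left (bet_pow h0 h1 hN0 hN (by omega : v ≤ m + 2))
    (bc_nonneg m v)
  refine h2.trans (le_of_eq ?_)
  ring

private theorem bet_nonneg (m : ℕ) {N : ℝ} (hN0 : 0 ≤ N) : 0 ≤ (bb m).eval N := by
  rw [bet_eval]
  exact Finset.sum_nonneg fun v _ => mul_nonneg (bc_nonneg m v) (pow_nonneg hN0 v)

private theorem bet_main {δ : ℝ} (h0 : 0 < δ) (h1 : δ ≤ 1 / 2) (n : ℕ) :
    ∀ N : ℝ, ((n : ℝ) + 2) / δ ≤ N → (bb n).eval N ≤ qd δ ^ n * b0 n * N ^ (n + 2) := by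
  induction n using Nat.strong_induction_on with
  | _ n ih =>
    intro N hN
    have hn0 : (0 : ℝ) ≤ n := Nat.cast_nonneg n
    have hN0 : 0 < N := lt_of_lt_of_le (by positivity) hN
    rcases Nat.eq_zero_or_pos n with hz | hpos
    · subst hz
      rw [bb_zero, b0_zero, Polynomial.eval_pow, Polynomial.eval_X]
      simp
    have hn1 : (1 : ℝ) ≤ n := by exact_mod_cast hpos
    have hle : ∀ m : ℕ, m ≤ n → ((m : ℝ) + 2) / δ ≤ N := by
      intro m hm
      refine le_trans (div_le_div_of_nonneg_right ?_ h0.le) hN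
      have : (m : ℝ) ≤ n := by exact_mod_cast hm
      linarith
    have hSE := congrArg (Polynomial.eval N) (SE n)
    rw [Polynomial.eval_mul, Polynomial.eval_C, Polynomial.eval_add, Polynomial.eval_mul,
      Polynomial.eval_X, Polynomial.eval_finsetSum] at hSE
    obtain ⟨q, hq⟩ : ∃ q, q = qd δ := ⟨_, rfl⟩
    have hq1 : 1 ≤ q := by
      rw [hq]
      exact qd_one h0 h1
    have hq0 : 0 < q := by linarith
    have hqn : q * (1 - 3 / 2 * δ) = 1 + δ := by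
      rw [hq]
      unfold qd
      rw [div_mul_cancel₀]
      linarith
    have hB := bet_nonneg n hN0.le
    have t1 : N * (Dl (bb n)).eval N ≤ 2 * (1 + δ) * ((n : ℝ) + 2) * (bb n).eval N := by
      have h2 := mul_le_mul_of_nonneg_left (bet_Dl_le h0 h1 hN0 hN) hN0.le
      refine h2.trans (le_of_eq ?_)
      field_simp
    have t2 : ∑ i ∈ Finset.range n,
        (Polynomial.C (2 * (3 * (i : ℝ) + 2)) * bb i * Dl (bb (n - 1 - i))).eval N ≤
        4 * (1 + δ) * q ^ (n - 1) * N ^ (n + 2) * ((n : ℝ) * b0 n) := by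
      rw [b0_rec, Finset.mul_sum]
      apply Finset.sum_le_sum
      intro i hi
      rw [Finset.mem_range] at hi
      rw [Polynomial.eval_mul, Polynomial.eval_mul, Polynomial.eval_C]
      have hj : n - 1 - i < n := by omega
      have b1 := ih i hi N (hle i (by omega))
      have b2 := ih (n - 1 - i) hj N (hle _ (by omega))
      rw [← hq] at b1 b2
      have b3 := bet_Dl_le h0 h1 hN0 (hle (n - 1 - i) (by omega))
      have hcast : ((n - 1 - i : ℕ) : ℝ) + 2 = (n : ℝ) + 1 - i := by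
        have h3 : (n - 1 - i) + 2 + i = n + 1 := by omega
        have h4 : ((n - 1 - i : ℕ) : ℝ) + 2 + i = n + 1 := by exact_mod_cast h3
        linarith
      rw [hcast] at b3
      have hni : 0 ≤ (n : ℝ) + 1 - i := by
        have : (i : ℝ) ≤ n := by exact_mod_cast hi.le
        linarith
      have c1 : 0 ≤ 2 * (1 + δ) * ((n : ℝ) + 1 - i) / N := by positivity
      have b4 := b3.trans (mul_le_mul_of_nonneg_left b2 c1)
      have hbi := bet_nonneg i hN0.le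
      have hb1 := (b0_pos i).le
      have hb2 := (b0_pos (n - 1 - i)).le
      have c2 : 0 ≤ 2 * (1 + δ) * ((n : ℝ) + 1 - i) / N *
          (q ^ (n - 1 - i) * b0 (n - 1 - i) * N ^ (n - 1 - i + 2)) := by positivity
      have c3 : 0 ≤ 2 * (3 * (i : ℝ) + 2) := by positivity
      calc 2 * (3 * (i : ℝ) + 2) * (bb i).eval N * (Dl (bb (n - 1 - i))).eval N
          ≤ 2 * (3 * (i : ℝ) + 2) * (bb i).eval N * (2 * (1 + δ) * ((n : ℝ) + 1 - i) / N *
            (q ^ (n - 1 - i) * b0 (n - 1 - i) * N ^ (n - 1 - i + 2))) :=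
            mul_le_mul_of_nonneg_left b4 (mul_nonneg c3 hbi)
        _ ≤ 2 * (3 * (i : ℝ) + 2) * (q ^ i * b0 i * N ^ (i + 2)) *
            (2 * (1 + δ) * ((n : ℝ) + 1 - i) / N *
            (q ^ (n - 1 - i) * b0 (n - 1 - i) * N ^ (n - 1 - i + 2))) := by
            apply mul_le_mul_of_nonneg_right _ c2
            exact mul_le_mul_of_nonneg_left b1 c3
        _ = 4 * (1 + δ) * (q ^ i * q ^ (n - 1 - i)) * ((N ^ (i + 2) * N ^ (n - 1 - i + 2)) / N) *
            ((3 * (i : ℝ) + 2) * ((n : ℝ) + 1 - i) * b0 i * b0 (n - 1 - i)) := by ring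
        _ = 4 * (1 + δ) * q ^ (n - 1) * N ^ (n + 2) *
            ((3 * (i : ℝ) + 2) * ((n : ℝ) + 1 - i) * b0 i * b0 (n - 1 - i)) := by
            rw [← pow_add, ← pow_add]
            have e1 : i + (n - 1 - i) = n - 1 := by omega
            have e2 : i + 2 + (n - 1 - i + 2) = n + 2 + 1 := by omega
            rw [e1, e2, pow_succ N (n + 2), mul_div_cancel_right₀ _ hN0.ne']
    have t3 : 4 * (n : ℝ) * (1 - 3 / 2 * δ) * (bb n).eval N ≤
        4 * (1 + δ) * q ^ (n - 1) * N ^ (n + 2) * ((n : ℝ) * b0 n) := by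
      have h2 : (2 * (3 * (n : ℝ) + 2) - 2 * (1 + δ) * ((n : ℝ) + 2)) * (bb n).eval N ≤
          4 * (1 + δ) * q ^ (n - 1) * N ^ (n + 2) * ((n : ℝ) * b0 n) := by
        rw [sub_mul, hSE]
        linarith
      refine le_trans (mul_le_mul_of_nonneg_right ?_ hB) h2
      nlinarith
    have e3 : q ^ n = q * q ^ (n - 1) := by
      have : n = n - 1 + 1 := by omega
      conv_lhs => rw [this]
      rw [pow_succ]
      ring
    rw [← hq, e3]
    have hden : 0 < 4 * (n : ℝ) * (1 - 3 / 2 * δ) := by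
      apply mul_pos (by linarith)
      linarith
    have h5 : 4 * (1 + δ) * q ^ (n - 1) * N ^ (n + 2) * ((n : ℝ) * b0 n) =
        4 * (n : ℝ) * (1 - 3 / 2 * δ) * (q * q ^ (n - 1) * b0 n * N ^ (n + 2)) := by
      rw [← hqn]
      ring
    rw [h5] at t3
    exact le_of_mul_le_mul_left t3 hden

theorem beta1 {δ : ℝ} (h0 : 0 < δ) (h1 : δ ≤ 1 / 2) (n : ℕ) {N : ℝ} (hN : ((n : ℝ) + 2) / δ ≤ N) :
    ∑ v ∈ Finset.range (n + 3), bc n v * N ^ v ≤ qd δ ^ n * b0 n * N ^ (n + 2) := by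
  rw [← bet_eval]
  exact bet_main h0 h1 n N hN

theorem beta_pt {δ : ℝ} (h0 : 0 < δ) (h1 : δ ≤ 1 / 2) (n : ℕ) {N : ℝ} (hN : ((n : ℝ) + 2) / δ ≤ N)
    (g : ℕ) (hg : 2 * g ≤ n + 2) : bc n (n + 2 - 2 * g) ≤ qd δ ^ n * b0 n * N ^ (2 * g) := by
  have hN0 : 0 < N := lt_of_lt_of_le (by positivity) hN
  have h2 := beta1 h0 h1 n hN
  have h3 : bc n (n + 2 - 2 * g) * N ^ (n + 2 - 2 * g) ≤
      ∑ v ∈ Finset.range (n + 3), bc n v * N ^ v :=
    Finset.single_le_sum (f := fun v => bc n v * N ^ v)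
      (fun v _ => mul_nonneg (bc_nonneg n v) (pow_nonneg hN0.le v))
      (Finset.mem_range.2 (by omega))
  have h4 : N ^ (n + 2) = N ^ (2 * g) * N ^ (n + 2 - 2 * g) := by
    rw [← pow_add]
    congr 1
    omega
  have h5 := h3.trans h2
  rw [h4, ← mul_assoc] at h5
  exact le_of_mul_le_mul_right h5 (pow_pos hN0 _)

theorem b0_le (n : ℕ) : b0 n ≤ 2 * (1 / lamc) ^ n := by
  have hl := lamc_pos.1
  have h1 := f_val hl.le le_rfl
  obtain ⟨a1, a2, -⟩ := psi_A hl.le le_rfl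
  have h2 : b0 n * lamc ^ n ≤ Aof lamc ^ 2 * (3 - Aof lamc) / (Aof lamc + 1) :=
    le_hasSum h1 n fun j _ => mul_nonneg (b0_pos j).le (pow_nonneg hl.le j)
  have h3 : Aof lamc ^ 2 * (3 - Aof lamc) / (Aof lamc + 1) ≤ 2 := by
    rw [div_le_iff₀ (by linarith)]
    have h4 : Real.sqrt 3 ≤ 2 := by
      rw [Real.sqrt_le_left (by norm_num)]
      norm_num
    have h5 : 0 ≤ (Aof lamc - 1) * (2 - Aof lamc) := mul_nonneg (by linarith) (by linarith)
    have h6 : (Aof lamc - 1) * (2 - Aof lamc) ≤ 1 := by nlinarith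
    have h7 : Aof lamc * ((Aof lamc - 1) * (2 - Aof lamc)) ≤ 2 := by
      calc Aof lamc * ((Aof lamc - 1) * (2 - Aof lamc)) ≤ 2 * 1 :=
            mul_le_mul (by linarith) h6 h5 (by norm_num)
        _ = 2 := by norm_num
    have h8 : Aof lamc ^ 2 * (3 - Aof lamc) =
        2 * Aof lamc + Aof lamc * ((Aof lamc - 1) * (2 - Aof lamc)) := by ring
    rw [h8]
    linarith
  have h9 : b0 n * lamc ^ n ≤ 2 := h2.trans h3
  rw [one_div, inv_pow, ← div_eq_mul_inv, le_div_iff₀ (pow_pos hl n)]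
  exact h9

private theorem bet_geom {r : ℝ} (h0 : 0 ≤ r) (h1 : r ≤ 1 / 2) (m : ℕ) :
    ∑ g ∈ Finset.range m, r ^ g ≤ 2 := by
  have h2 := geom_sum_mul_neg r m
  have h3 : 0 ≤ r ^ m := pow_nonneg h0 m
  have h4 : 0 ≤ ∑ g ∈ Finset.range m, r ^ g := Finset.sum_nonneg fun g _ => pow_nonneg h0 g
  nlinarith

private theorem bet_shift (f : ℕ → ℝ) (m : ℕ) :
    ∑ g ∈ Finset.Icc 1 m, f g = ∑ g ∈ Finset.range m, f (g + 1) := by
  induction m with
  | zero => simp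
  | succ m ih => rw [Finset.sum_Icc_succ_top (by omega), ih, Finset.sum_range_succ]

/-- sum over all genera, and over the positive genera -/
theorem beta_np {δ : ℝ} (h0 : 0 < δ) (h1 : δ ≤ 1 / 2) (i : ℕ) {x : ℝ} (hx : 0 ≤ x)
    (hx1 : x * (((i : ℝ) + 2) / δ) ^ 2 ≤ 1 / 2) :
    (∑ g ∈ Finset.range (i + 2), (if 2 * g ≤ i + 2 then bc i (i + 2 - 2 * g) * x ^ g else 0) ≤
      2 * qd δ ^ i * b0 i) ∧
    (∑ g ∈ Finset.Icc 1 (i + 2), (if 2 * g ≤ i + 2 then bc i (i + 2 - 2 * g) * x ^ g else 0) ≤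
      2 * x * (((i : ℝ) + 2) / δ) ^ 2 * (qd δ ^ i * b0 i)) := by
  obtain ⟨r, hr⟩ : ∃ r, r = x * (((i : ℝ) + 2) / δ) ^ 2 := ⟨_, rfl⟩
  have hr0 : 0 ≤ r := by
    rw [hr]
    positivity
  have hr1 : r ≤ 1 / 2 := by
    rw [hr]
    exact hx1
  have hQ : 0 ≤ qd δ ^ i * b0 i :=
    mul_nonneg (pow_nonneg (by linarith [qd_one h0 h1]) i) (b0_pos i).le
  have hterm : ∀ g : ℕ, (if 2 * g ≤ i + 2 then bc i (i + 2 - 2 * g) * x ^ g else 0) ≤
      qd δ ^ i * b0 i * r ^ g := by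
    intro g
    split_ifs with hg
    · have h2 := mul_le_mul_of_nonneg_right (beta_pt h0 h1 i (N := ((i : ℝ) + 2) / δ) le_rfl g hg)
        (pow_nonneg hx g)
      refine h2.trans (le_of_eq ?_)
      rw [hr, mul_pow, ← pow_mul]
      ring
    · exact mul_nonneg hQ (pow_nonneg hr0 g)
  constructor
  · refine (Finset.sum_le_sum fun g _ => hterm g).trans ?_
    rw [← Finset.mul_sum]
    have h2 := mul_le_mul_of_nonneg_left (bet_geom hr0 hr1 (i + 2)) hQ
    linarith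
  · refine (Finset.sum_le_sum fun g _ => hterm g).trans ?_
    rw [← Finset.mul_sum, bet_shift]
    have h3 : ∑ g ∈ Finset.range (i + 2), r ^ (g + 1) = r * ∑ g ∈ Finset.range (i + 2), r ^ g := by
      rw [Finset.mul_sum]
      refine Finset.sum_congr rfl fun g _ => ?_
      rw [pow_succ]
      ring
    rw [h3]
    have h2 := mul_le_mul_of_nonneg_left (bet_geom hr0 hr1 (i + 2)) hr0
    have h4 := mul_le_mul_of_nonneg_left h2 hQ
    refine h4.trans (le_of_eq ?_)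
    rw [hr]
    ring

end UN39
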