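import Mathlib
import Pool.Agent.H39.UN.Ineq
import Pool.Agent.H39.UN.RhoA
import Pool.Agent.H39.UN.Rho
import Pool.Agent.H39.UP.Bet
import Pool.Agent.H39.UN.MacN

/-!
[H39 UP MAC]  (MP_bcc40c_pr)  Two macroscopic pieces are exponentially unlikely.  (Part designed by helper91; this file is the
final assembly of his modules.)
-/

set_option autoImplicit false

namespace UN39

theorem macrob {ω1 ω2 δ : ℝ} (h1 : 0 < ω1) (h2 : ω2 < 1) (hδ : 0 < δ) : ∃ c : ℝ, 0 < c ∧ ∃ n0 : ℕ,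
    ∀ n w i u i' u' : ℕ, n0 ≤ n → ω1 * n ≤ w → (w : ℝ) ≤ ω2 * n → i + i' = n → u + u' = w + 2 →
      δ * n ≤ i → δ * n ≤ i' → bc i u * bc i' u' ≤ Real.exp (-c * n) * bc n w := by
  obtain ⟨c, hc, n0, h⟩ := macro_split h1 h2 hδ
  refine ⟨c, hc, n0, fun n w i u i' u' hn hw1 hw2 hi hu hd1 hd2 => ?_⟩
  rw [neg_mul]
  exact h n w i u i' u' hn hw1 hw2 hi hu hd1 hd2

end UN39
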