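import Mathlib
import Pool.Agent.H39.UN.Ineq
import Pool.Agent.H39.UN.Rat
import Pool.Agent.H39.UP.Mac

/-!
[H39 UP MACK]  (MP_bcc40c_pr)  Two macroscopic pieces, with general offsets.

PROOF.  First `l = 0`: `i + i' + e = n`, `u + u' + e = w + 2`, `e ≤ 2`: `bc i' u' ≤ bc (i'+e) (u'+e)` (bc_mono, bc_nonneg), then macrob for
`(i, u)`, `(i'+e, u'+e)`.
Induction on `l`: let `u + u' + e = w + 2 + 2 (l+1)`.  By symmetry let `u' ≥ u` (then `δ n ≤ i'` and `i' ≤ n`).  `u' ≥ (w + 2)/2 ≥ 3` for large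
`n`, so rat_two with `w' = u' - 2 ≥ ω1 n/4`: `bc i' u' ≤ (6(3i'+2)/w'^3) bc i' (u'-2) ≤ (C/n^2) bc i' (u'-2)` with `C` depending only on `ω1`.
Apply the induction hypothesis to `(i, u)`, `(i', u'-2)`.
-/

set_option autoImplicit false

namespace UN39

theorem mack {ω1 ω2 δ : ℝ} (h1 : 0 < ω1) (h2 : ω2 < 1) (hδ : 0 < δ) : ∃ c C : ℝ, ∃ n0 : ℕ, 0 < c ∧ 0 < C ∧
    ∀ n w i u i' u' e l : ℕ, n0 ≤ n → ω1 * n ≤ w → (w : ℝ) ≤ ω2 * n → e ≤ 2 → i + i' + e = n →
      u + u' + e = w + 2 + 2 * l → δ * n ≤ i → δ * n ≤ i' →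
      bc i u * bc i' u' ≤ Real.exp (-c * n) * (C / (n : ℝ) ^ 2) ^ l * bc n w := by
  obtain ⟨c, hc, N, hN⟩ := macrob h1 h2 hδ
  obtain ⟨N2, hN2⟩ := exists_nat_ge (4 / ω1)
  refine ⟨c, 1920 / ω1 ^ 3, N + N2 + 1, hc, by positivity, ?_⟩
  intro n w i u i' u' e l hn ha hb he hi hu hd hd'
  have hn0 : (0 : ℝ) < n := by exact_mod_cast (by omega : 0 < n)
  have hw4 : (4 : ℝ) ≤ w := by
    rw [div_le_iff₀ h1] at hN2
    have h3 : (N2 : ℝ) ≤ n := by exact_mod_cast (by omega : N2 ≤ n)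
    have h4 := mul_le_mul_of_nonneg_right h3 h1.le
    linarith
  have hw4' : 4 ≤ w := by exact_mod_cast hw4
  have hE : 0 < Real.exp (-c * n) := Real.exp_pos _
  induction l generalizing i u i' u' with
  | zero =>
    rw [pow_zero, mul_one]
    have h3 := rat_up e i' u'
    have h4 : bc i' u' ≤ 2 ^ e * bc i' u' := by
      have h5 : (1 : ℝ) ≤ 2 ^ e := one_le_pow₀ (by norm_num)
      have h6 := mul_le_mul_of_nonneg_right h5 (bc_nonneg i' u')
      linarith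
    refine (mul_le_mul_of_nonneg_left (h4.trans h3) (bc_nonneg i u)).trans ?_
    refine hN n w i u (i' + e) (u' + e) (by omega) ha hb (by omega) (by omega) hd ?_
    push_cast
    have : (0 : ℝ) ≤ e := Nat.cast_nonneg e
    linarith
  | succ l ih =>
    have key : ∀ i u i' u' : ℕ, i + i' + e = n → u + u' + e = w + 2 + 2 * (l + 1) → δ * n ≤ i →
        δ * n ≤ i' → u ≤ u' →
        bc i u * bc i' u' ≤ Real.exp (-c * n) * (1920 / ω1 ^ 3 / (n : ℝ) ^ 2) ^ (l + 1) * bc n w := by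
      intro i u i' u' hi hu hd hd' huu
      obtain ⟨v, rfl⟩ : ∃ v, u' = v + 2 := ⟨u' - 2, by omega⟩
      have h3 := ih i u i' v hi (by omega) hd hd'
      have hv : ω1 * n / 4 ≤ v := by
        have h4 : w ≤ 2 * v + 2 := by omega
        have h5 : (w : ℝ) ≤ 2 * v + 2 := by exact_mod_cast h4
        linarith
      have hv0 : (0 : ℝ) < v := lt_of_lt_of_le (by positivity) hv
      have hv1 : 1 ≤ v := by exact_mod_cast hv0
      have h6 := rat_two i' v hv1
      have hin : (i' : ℝ) ≤ n := by exact_mod_cast (by omega : i' ≤ n)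
      have hn1 : (1 : ℝ) ≤ n := by exact_mod_cast (by omega : 1 ≤ n)
      have hv3 : (ω1 * n / 4) ^ 3 ≤ (v : ℝ) ^ 3 := pow_le_pow_left₀ (by positivity) hv 3
      have h7 : bc i' (v + 2) ≤ (1920 / ω1 ^ 3 / (n : ℝ) ^ 2) * bc i' v := by
        have h8 : bc i' (v + 2) ≤ (6 * (3 * (i' : ℝ) + 2) / (v : ℝ) ^ 3) * bc i' v := by
          rw [div_mul_eq_mul_div, le_div_iff₀ (pow_pos hv0 3), mul_comm]
          exact h6
        refine h8.trans (mul_le_mul_of_nonneg_right ?_ (bc_nonneg i' v))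
        calc 6 * (3 * (i' : ℝ) + 2) / (v : ℝ) ^ 3 ≤ (30 * n) / (ω1 * n / 4) ^ 3 := by
              apply div_le_div₀ (by positivity) _ (by positivity) hv3
              linarith
          _ = 1920 / ω1 ^ 3 / (n : ℝ) ^ 2 := by
              field_simp
              norm_num
      have hC0 : 0 ≤ 1920 / ω1 ^ 3 / (n : ℝ) ^ 2 := by positivity
      calc bc i u * bc i' (v + 2) ≤ bc i u * ((1920 / ω1 ^ 3 / (n : ℝ) ^ 2) * bc i' v) :=
            mul_le_mul_of_nonneg_left h7 (bc_nonneg i u)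
        _ = (1920 / ω1 ^ 3 / (n : ℝ) ^ 2) * (bc i u * bc i' v) := by ring
        _ ≤ (1920 / ω1 ^ 3 / (n : ℝ) ^ 2) *
            (Real.exp (-c * n) * (1920 / ω1 ^ 3 / (n : ℝ) ^ 2) ^ l * bc n w) :=
            mul_le_mul_of_nonneg_left h3 hC0
        _ = _ := by rw [pow_succ]; ring
    rcases le_total u u' with h3 | h3
    · exact key i u i' u' hi hu hd hd' h3
    · rw [mul_comm (bc i u)]
      exact key i' u' i u (by omega) (by omega) hd' hd h3

end UN39
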