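import Mathlib
import Pool.Agent.H39.UN.SeB
import Pool.Agent.H39.UN.Ineq

/-!
[H39 UP SEC]  (MP_bcc40c_pr)  The string equation and the Toda equation for the coefficients.

`Ti e n w i` is the part of the double sum with a first factor of size `i`; `e = 1`: string equation, `e = 2`: Toda equation.

PROOF.  Dl_coeff and its analogue for `D2` (comp_coeff): `(Dl f).coeff u = 2 ∑_j C(u+2j+1, 2j+1) f.coeff (u+2j+1)` and
`(D2 f).coeff u = 2 ∑_j C(u+2j+2, 2j+2) f.coeff (u+2j+2)` (in comp_coeff the term `i = u + k` has the factor `C(i,u) = C(u+k,k)`; `1 - (-1)^k` resp.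
`1 + (-1)^k`, and for D2 the term `k = 0` cancels with `-2f`).  All `j ≥ n+3` vanish (bc_supp).  SEc: coefficient of `X^w` in SE, `w ≥ 1` (the
coefficient of `X^w` in `X * Dl (bb n)` is the one of `X^(w-1)` in `Dl (bb n)`: `C(w-1+2j+1, 2j+1) bc n (w-1+2j+1)`), divided by 2; GJc: coefficient of `X^w`
in GJ.  `w - u` is natural subtraction with `u ≤ w`.
-/

set_option autoImplicit false

namespace UN39

/-- one part of the double sum -/
noncomputable def Ti (e n w i : ℕ) : ℝ := (3 * (i : ℝ) + 2) * ∑ u ∈ Finset.range (w + 1), bc i u *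
  ∑ j ∈ Finset.range (n + 3), ((w - u + 2 * j + e).choose (2 * j + e) : ℝ) *
    bc (n + e - 2 - i) (w - u + 2 * j + e)

open Polynomial in
private theorem sec_even (g : ℕ → ℝ) (J : ℕ) :
    ∑ k ∈ Finset.range (2 * J), g k = ∑ j ∈ Finset.range J, (g (2 * j) + g (2 * j + 1)) := by
  induction J with
  | zero => simp
  | succ J ih =>
    rw [show 2 * (J + 1) = 2 * J + 1 + 1 by ring, Finset.sum_range_succ, Finset.sum_range_succ,
      ih, Finset.sum_range_succ]
    ring

open Polynomial in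
private theorem sec_Dl {f : Polynomial ℝ} {J : ℕ} (hJ : 1 ≤ J) (hf : f.natDegree ≤ J) (u : ℕ) :
    (Dl f).coeff u = 2 * ∑ j ∈ Finset.range J, ((u + 2 * j + 1).choose (2 * j + 1) : ℝ) *
      f.coeff (u + 2 * j + 1) := by
  rw [Dl_coeff (N := u + 2 * J) (by omega), Finset.sum_range_add]
  have h1 : ∑ i ∈ Finset.range u, f.coeff i * ((1 - (-1 : ℝ) ^ (i - u)) * (i.choose u : ℝ)) = 0 := by
    refine Finset.sum_eq_zero fun i hi => ?_
    rw [Nat.choose_eq_zero_of_lt (Finset.mem_range.1 hi)]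
    simp
  rw [h1, zero_add, sec_even, Finset.mul_sum]
  refine Finset.sum_congr rfl fun j _ => ?_
  have e1 : (-1 : ℝ) ^ (u + 2 * j - u) = 1 := by
    rw [Nat.add_sub_cancel_left, pow_mul]
    simp
  have e2 : (-1 : ℝ) ^ (u + (2 * j + 1) - u) = -1 := by
    rw [Nat.add_sub_cancel_left, pow_succ, pow_mul]
    simp
  have e3 : (u + (2 * j + 1)).choose u = (u + 2 * j + 1).choose (2 * j + 1) := by
    rw [Nat.choose_symm_add, add_assoc]
  rw [e1, e2, e3, ← add_assoc]
  ring

open Polynomial in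
private theorem sec_D2 {f : Polynomial ℝ} {J : ℕ} (hJ : 1 ≤ J) (hf : f.natDegree ≤ J) (u : ℕ) :
    (D2 f).coeff u = 2 * ∑ j ∈ Finset.range J, ((u + 2 * j + 2).choose (2 * j + 2) : ℝ) *
      f.coeff (u + 2 * j + 2) := by
  have h1 : D2 f = f.comp (X + C 1) - 2 * f + f.comp (X + C (-1)) := by
    unfold D2
    rw [C_1, C_neg, C_1, sub_eq_add_neg X]
  have h2 : (2 * f : Polynomial ℝ).coeff u = 2 * f.coeff u := by
    rw [two_mul, coeff_add, two_mul]
  rw [h1, coeff_add, coeff_sub, h2, comp_coeff (N := u + (2 * J + 1)) (by omega),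
    comp_coeff (N := u + (2 * J + 1)) (by omega)]
  have h3 : ∀ a : ℝ, ∑ i ∈ Finset.range (u + (2 * J + 1)), f.coeff i *
      (a ^ (i - u) * (i.choose u : ℝ)) = f.coeff u + ∑ j ∈ Finset.range J,
        (f.coeff (u + 2 * j + 1) * (a ^ (2 * j + 1) * ((u + 2 * j + 1).choose u : ℝ)) +
          f.coeff (u + 2 * j + 2) * (a ^ (2 * j + 2) * ((u + 2 * j + 2).choose u : ℝ))) := by
    intro a
    rw [Finset.sum_range_add]
    have h4 : ∑ i ∈ Finset.range u, f.coeff i * (a ^ (i - u) * (i.choose u : ℝ)) = 0 := by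
      refine Finset.sum_eq_zero fun i hi => ?_
      rw [Nat.choose_eq_zero_of_lt (Finset.mem_range.1 hi)]
      simp
    rw [h4, zero_add, Finset.sum_range_succ', sec_even, add_comm]
    have h5 : f.coeff (u + 0) * (a ^ (u + 0 - u) * ((u + 0).choose u : ℝ)) = f.coeff u := by
      simp
    rw [h5]
    congr 1
    refine Finset.sum_congr rfl fun j _ => ?_
    rw [show u + (2 * j + 1) = u + 2 * j + 1 by ring, show u + (2 * j + 1 + 1) = u + 2 * j + 2 by ring,
      show u + 2 * j + 1 - u = 2 * j + 1 by omega, show u + 2 * j + 2 - u = 2 * j + 2 by omega]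
  rw [h3, h3]
  rw [show ∀ x s1 s2 : ℝ, x + s1 - 2 * x + (x + s2) = s1 + s2 from fun x s1 s2 => by ring,
    ← Finset.sum_add_distrib, Finset.mul_sum]
  refine Finset.sum_congr rfl fun j _ => ?_
  have e1 : (-1 : ℝ) ^ (2 * j + 1) = -1 := by
    rw [pow_succ, pow_mul]
    simp
  have e2 : (-1 : ℝ) ^ (2 * j + 2) = 1 := by
    rw [show 2 * j + 2 = 2 * (j + 1) by ring, pow_mul]
    simp
  have e3 : (u + 2 * j + 2).choose u = (u + 2 * j + 2).choose (2 * j + 2) := by
    rw [add_assoc, Nat.choose_symm_add]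
  rw [e1, e2, e3, one_pow, one_pow]
  ring

private theorem sec_deg (n : ℕ) : (bb n).natDegree ≤ n + 2 := by
  rw [Polynomial.natDegree_le_iff_coeff_eq_zero]
  intro v hv
  by_contra h
  have h1 := bc_supp (n := n) (v := v) h
  omega

open Polynomial in
private theorem sec_prod (a : ℝ) (i w : ℕ) (g : Polynomial ℝ) :
    (C (2 * a) * bb i * g).coeff w =
      2 * (a * ∑ u ∈ Finset.range (w + 1), bc i u * g.coeff (w - u)) := by
  rw [mul_assoc, coeff_C_mul, coeff_mul, Finset.Nat.sum_antidiagonal_eq_sum_range_succ_mk]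
  unfold bc
  ring

theorem SEc (n w : ℕ) (hn : 1 ≤ n) (hw : 1 ≤ w) : (3 * (n : ℝ) + 2) * bc n w =
    ∑ j ∈ Finset.range (n + 3), ((w + 2 * j).choose (2 * j + 1) : ℝ) * bc n (w + 2 * j) +
      2 * ∑ i ∈ Finset.range n, Ti 1 n w i := by
  have h := congrArg (fun f : Polynomial ℝ => f.coeff w) (SE n)
  simp only [Polynomial.coeff_add, Polynomial.finsetSum_coeff] at h
  obtain ⟨w', rfl⟩ : ∃ w', w = w' + 1 := ⟨w - 1, by omega⟩
  rw [Polynomial.coeff_C_mul, Polynomial.coeff_X_mul,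
    sec_Dl (J := n + 3) (by omega) ((sec_deg n).trans (by omega))] at h
  have h1 : ∀ i ∈ Finset.range n, (Polynomial.C (2 * (3 * (i : ℝ) + 2)) * bb i *
      Dl (bb (n - 1 - i))).coeff (w' + 1) = 4 * Ti 1 n (w' + 1) i := by
    intro i hi
    rw [sec_prod]
    unfold Ti
    have h2 : ∀ u ∈ Finset.range (w' + 1 + 1), bc i u * (Dl (bb (n - 1 - i))).coeff (w' + 1 - u) =
        2 * (bc i u * ∑ j ∈ Finset.range (n + 3),
          ((w' + 1 - u + 2 * j + 1).choose (2 * j + 1) : ℝ) *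
            bc (n + 1 - 2 - i) (w' + 1 - u + 2 * j + 1)) := by
      intro u _
      rw [sec_Dl (J := n + 3) (by omega) ((sec_deg _).trans (by omega)),
        show n + 1 - 2 - i = n - 1 - i by omega]
      unfold bc
      ring
    rw [Finset.sum_congr rfl h2, ← Finset.mul_sum]
    ring
  rw [Finset.sum_congr rfl h1, ← Finset.mul_sum] at h
  have h3 : ∑ j ∈ Finset.range (n + 3), ((w' + 2 * j + 1).choose (2 * j + 1) : ℝ) *
      (bb n).coeff (w' + 2 * j + 1) = ∑ j ∈ Finset.range (n + 3),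
        ((w' + 1 + 2 * j).choose (2 * j + 1) : ℝ) * bc n (w' + 1 + 2 * j) := by
    refine Finset.sum_congr rfl fun j _ => ?_
    rw [show w' + 2 * j + 1 = w' + 1 + 2 * j by ring]
    rfl
  rw [h3] at h
  have h4 : (bb n).coeff (w' + 1) = bc n (w' + 1) := rfl
  rw [h4] at h
  linarith

theorem GJc (n w : ℕ) (hn : 1 ≤ n) (hw : 1 ≤ w) : 12 * ((n : ℝ) + 1) * (3 * (n : ℝ) + 2) * bc n w =
    2 * ∑ j ∈ Finset.range (n + 3), ((w + 1 + 2 * j).choose (2 * j + 2) : ℝ) *
      bc (n + 1) (w + 1 + 2 * j) +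
      4 * ∑ i ∈ Finset.range n, Ti 2 n w i := by
  have h := congrArg (fun f : Polynomial ℝ => f.coeff w) (GJ n)
  simp only [Polynomial.coeff_add, Polynomial.finsetSum_coeff] at h
  obtain ⟨w', rfl⟩ : ∃ w', w = w' + 1 := ⟨w - 1, by omega⟩
  rw [Polynomial.coeff_C_mul, Polynomial.coeff_X_mul,
    sec_D2 (J := n + 3) (by omega) ((sec_deg (n + 1)).trans (by omega))] at h
  have h1 : ∀ i ∈ Finset.range n, (Polynomial.C (2 * (3 * (i : ℝ) + 2)) * bb i *
      D2 (bb (n - i))).coeff (w' + 1) = 4 * Ti 2 n (w' + 1) i := by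
    intro i hi
    rw [sec_prod]
    unfold Ti
    have h2 : ∀ u ∈ Finset.range (w' + 1 + 1), bc i u * (D2 (bb (n - i))).coeff (w' + 1 - u) =
        2 * (bc i u * ∑ j ∈ Finset.range (n + 3),
          ((w' + 1 - u + 2 * j + 2).choose (2 * j + 2) : ℝ) *
            bc (n + 2 - 2 - i) (w' + 1 - u + 2 * j + 2)) := by
      intro u _
      rw [sec_D2 (J := n + 3) (by omega) ((sec_deg _).trans (by omega)),
        show n + 2 - 2 - i = n - i by omega]
      unfold bc
      ring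
    rw [Finset.sum_congr rfl h2, ← Finset.mul_sum]
    ring
  rw [Finset.sum_congr rfl h1, ← Finset.mul_sum] at h
  have h3 : ∑ j ∈ Finset.range (n + 3), ((w' + 2 * j + 2).choose (2 * j + 2) : ℝ) *
      (bb (n + 1)).coeff (w' + 2 * j + 2) = ∑ j ∈ Finset.range (n + 3),
        ((w' + 1 + 1 + 2 * j).choose (2 * j + 2) : ℝ) * bc (n + 1) (w' + 1 + 1 + 2 * j) := by
    refine Finset.sum_congr rfl fun j _ => ?_
    rw [show w' + 2 * j + 2 = w' + 1 + 1 + 2 * j by ring]
    rfl
  rw [h3] at h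
  have h4 : (bb n).coeff (w' + 1) = bc n (w' + 1) := rfl
  rw [h4] at h
  linarith

end UN39
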