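import Mathlib
import Pool.Agent.H39.UN.Ineq
import Pool.Agent.H39.UN.PlA
import Pool.Agent.H39.UP.Bet
import Pool.Agent.H39.UP.Rb
import Pool.Agent.H39.UP.Sec

/-!
[H39 UP TSM]  (MP_bcc40c_pr)  The small first factors in the double sum: main term and error `O(1/n)`.

`Jc n = (log_2 n)^2` (cut off), `Bn n w s j = n^(2j) bc (n-s) (w-s+2j)/bc n w`.

PROOF of tsm.  Constants `lp < lamc`, `C0`, `δ1` from rb (region `ω1, ω2`).  Choose (qd_lim) `δ2 ≤ 1/2` with `θ := qd δ2 * lp/lamc < 1`.  `δ0`: so small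
that `δ0 ≤ δ1/2`, and `C0/n^2 * ((i+2)/δ2)^2 ≤ 1/2` for `i ≤ δ0 n`, `n` large.  Let `i ≤ δ n`, `δ ≤ δ0`, `b = bc n w > 0` (if `w`, `n` have different parity, `bc n w = 0`
and all terms vanish: both sides are 0 since division by 0 gives 0 and all numbers are 0; so assume the same parity, bc_pos).
In `Ti e n w i` put `u = i + 2 - 2g` (only these `u` give a nonzero `bc i u`, bc_supp; `u ≤ w` for large `n`); the second factor is
`bc (n-s) (w-s+2(g+j))` with `s = i+2-e ≤ δ1 n`, so it is `≤ lp^s (C0/n^2)^(g+j) b` (rb).  The binomial coefficient is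
`C(w-u+2j+e, 2j+e) = (1/m!) ∏_{l=1}^{m} (w-u+l)`, `m = 2j+e`; if `w-u+m ≤ n+2` (otherwise the second factor vanishes, or: `≤ 2n`) then
`|∏ (w-u+l) - w^m| ≤ m (i+2+m) (2n)^(m-1)`, and `∏ ≤ (2n)^m`.
 (1) `g ≥ 1`: `Ti/(n^e b)` restricted to `g ≥ 1` is `≤ (3i+2) lp^s ∑_{g≥1} bc i (i+2-2g) (C0/n^2)^g ∑_j (2^m C0^j/m!) ≤ C (3i+2) lp^s (i+2)^2/n^2 qd^i b0 i`
   `≤ C (i+2)^3 θ^i/n^2` (beta_np, b0_le, `s ≥ i`).  Summable in `i`.
 (2) `g = 0`: replace the binomial by `w^m/m!`: the error is `≤ C (3i+2) b0 i lp^s ∑_j 2^m m(i+2+m) C0^j/m! /n ≤ C (i+2)^2 θ^i/n`.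
 (3) `g = 0`, `i ≥ Jc n` or `j ≥ Jc n`: `≤ C (i+2) θ^i C0^j/j!`, the sum over these is `≤ C θ'^(Jc n) ≤ C/n` for `n` large
   (`(Nat.log 2 n)^2 * log(1/θ') ≥ log n` eventually).  The same bound for the terms of `Ms` is not needed: `Ms` has exactly the terms
   `i, j < Jc n`, and `Jc n ≤ δ n` for large `n`.
-/

set_option autoImplicit false

namespace UN39

/-- cut off -/
def Jc (n : ℕ) : ℕ := (Nat.log 2 n) ^ 2

/-- normalised ratios -/
noncomputable def Bn (n w s j : ℕ) : ℝ := (n : ℝ) ^ (2 * j) * bc (n - s) (w - s + 2 * j) / bc n w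

/-- main term -/
noncomputable def Ms (e n w : ℕ) : ℝ := ∑ i ∈ Finset.range (Jc n), ∑ j ∈ Finset.range (Jc n),
  (3 * (i : ℝ) + 2) * b0 i * (((w : ℝ) / n) ^ (2 * j + e) / ((2 * j + e).factorial : ℝ)) *
    Bn n w (i + 2 - e) j

open Filter Topology

/-- reindexation by the genus -/
theorem tsm_reindex (i w : ℕ) (hw : i + 2 ≤ w) (F : ℕ → ℝ) :
    ∑ u ∈ Finset.range (w + 1), bc i u * F u =
      ∑ g ∈ Finset.range (i + 2),
        (if 2 * g ≤ i + 2 then bc i (i + 2 - 2 * g) * F (i + 2 - 2 * g) else 0) := by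
  rw [← Finset.sum_filter]
  symm
  rw [← Finset.sum_image (f := fun u => bc i u * F u) (g := fun g => i + 2 - 2 * g)]
  · apply Finset.sum_subset
    · intro u hu
      rw [Finset.mem_image] at hu
      obtain ⟨g, hg, rfl⟩ := hu
      rw [Finset.mem_filter, Finset.mem_range] at hg
      rw [Finset.mem_range]
      omega
    · intro u _ hu
      by_contra hne
      obtain ⟨h2, h3, h4⟩ := bc_supp (left_ne_zero_of_mul hne)
      apply hu
      rw [Finset.mem_image]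
      refine ⟨(i + 2 - u) / 2, ?_, ?_⟩
      · rw [Finset.mem_filter, Finset.mem_range]
        omega
      · omega
  · intro a ha b hb hab
    have ha' := Finset.mem_coe.1 ha
    have hb' := Finset.mem_coe.1 hb
    rw [Finset.mem_filter, Finset.mem_range] at ha' hb'
    dsimp only at hab
    omega

/-- polynomial times geometric -/
theorem tsm_geo {θ θ' : ℝ} (h0 : 0 ≤ θ) (h1 : θ < θ') (k : ℕ) :
    ∃ K : ℝ, 0 < K ∧ ∀ i : ℕ, ((i : ℝ) + 2) ^ k * θ ^ i ≤ K * θ' ^ i := by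
  have hθ' : 0 < θ' := by linarith
  have hr0 : 0 ≤ θ / θ' := div_nonneg h0 hθ'.le
  have hr1 : θ / θ' < 1 := by rw [div_lt_one hθ']; exact h1
  have ht := tendsto_pow_const_mul_const_pow_of_abs_lt_one k (r := θ / θ')
    (by rw [abs_of_nonneg hr0]; exact hr1)
  obtain ⟨M, hM⟩ := ht.bddAbove_range
  have hM' : ∀ i : ℕ, (i : ℝ) ^ k * (θ / θ') ^ i ≤ M := fun i => hM ⟨i, rfl⟩
  refine ⟨3 ^ k * |M| + 2 ^ k, by positivity, fun i => ?_⟩
  have key : ((i : ℝ) + 2) ^ k * (θ / θ') ^ i ≤ 3 ^ k * |M| + 2 ^ k := by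
    rcases Nat.eq_zero_or_pos i with rfl | hi
    · simp only [Nat.cast_zero, zero_add, pow_zero, mul_one]
      have : (0 : ℝ) ≤ 3 ^ k * |M| := by positivity
      linarith
    · have hi1 : (1 : ℝ) ≤ i := by exact_mod_cast hi
      have h2 : ((i : ℝ) + 2) ^ k ≤ (3 * i) ^ k := pow_le_pow_left₀ (by linarith) (by linarith) k
      have h3 : 0 ≤ (θ / θ') ^ i := pow_nonneg hr0 i
      have h4 := mul_le_mul_of_nonneg_right h2 h3
      rw [mul_pow, mul_assoc] at h4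
      have h5 : (3 : ℝ) ^ k * ((i : ℝ) ^ k * (θ / θ') ^ i) ≤ 3 ^ k * |M| :=
        mul_le_mul_of_nonneg_left ((hM' i).trans (le_abs_self M)) (by positivity)
      have h6 : (0 : ℝ) ≤ 2 ^ k := by positivity
      linarith
  have h7 : θ ^ i = (θ / θ') ^ i * θ' ^ i := by
    rw [← mul_pow, div_mul_cancel₀ _ hθ'.ne']
  rw [h7, ← mul_assoc]
  exact mul_le_mul_of_nonneg_right key (by positivity)

theorem tsm_sum_geo {ρ : ℝ} (h0 : 0 ≤ ρ) (h1 : ρ < 1) (S : Finset ℕ) :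
    ∑ i ∈ S, ρ ^ i ≤ (1 - ρ)⁻¹ := by
  rw [← tsum_geometric_of_lt_one h0 h1]
  exact (summable_geometric_of_lt_one h0 h1).sum_le_tsum S (fun i _ => pow_nonneg h0 i)

theorem tsm_Jc_pow {ρ : ℝ} (h0 : 0 ≤ ρ) (h1 : ρ < 1) :
    ∃ n0 : ℕ, ∀ n : ℕ, n0 ≤ n → ρ ^ Jc n ≤ 2 / n := by
  have ht := tendsto_pow_atTop_nhds_zero_of_lt_one h0 h1
  obtain ⟨L0, hL0⟩ := (ht.eventually (ge_mem_nhds (show (0 : ℝ) < 1 / 2 by norm_num))).exists_forall_of_atTop
  refine ⟨2 ^ L0, fun n hn => ?_⟩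
  have hn1 : 0 < n := lt_of_lt_of_le (by positivity) hn
  have hn0 : (0 : ℝ) < n := by exact_mod_cast hn1
  have hL : L0 ≤ Nat.log 2 n := Nat.le_log_of_pow_le (by norm_num) hn
  have h2 := hL0 _ hL
  have h3 : ρ ^ Jc n ≤ (1 / 2) ^ Nat.log 2 n := by
    unfold Jc
    rw [pow_two, pow_mul]
    exact pow_le_pow_left₀ (by positivity) h2 _
  refine h3.trans ?_
  have h4 : (n : ℝ) < 2 ^ (Nat.log 2 n + 1) := by
    exact_mod_cast Nat.lt_pow_succ_log_self (by norm_num) n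
  rw [le_div_iff₀ hn0, one_div, inv_pow, inv_mul_le_iff₀ (by positivity)]
  rw [pow_succ] at h4
  exact h4.le

theorem tsm_Jc_le {δ : ℝ} (hδ : 0 < δ) : ∃ n0 : ℕ, ∀ n : ℕ, n0 ≤ n → (Jc n : ℝ) ≤ δ * n := by
  have ht := tendsto_pow_const_div_const_pow_of_one_lt 2 (show (1 : ℝ) < 2 by norm_num)
  obtain ⟨L0, hL0⟩ := (ht.eventually (ge_mem_nhds hδ)).exists_forall_of_atTop
  refine ⟨2 ^ L0, fun n hn => ?_⟩
  have hn1 : 0 < n := lt_of_lt_of_le (by positivity) hn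
  have hL : L0 ≤ Nat.log 2 n := Nat.le_log_of_pow_le (by norm_num) hn
  have h2 := hL0 _ hL
  rw [div_le_iff₀ (by positivity)] at h2
  have h3 : ((2 : ℝ) ^ Nat.log 2 n) ≤ n := by
    exact_mod_cast Nat.pow_log_le_self 2 hn1.ne'
  unfold Jc
  push_cast
  exact h2.trans (mul_le_mul_of_nonneg_left h3 hδ.le)

/-- the falling factorial is close to the power -/
theorem tsm_desc {N : ℕ} {w D M : ℝ} (hM : (N : ℝ) ≤ M) (hw0 : 0 ≤ w) (hw : w ≤ M) (hD : 0 ≤ D)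
    (m : ℕ) (h : ∀ l < m, |((N - l : ℕ) : ℝ) - w| ≤ D) :
    |(N.descFactorial m : ℝ) - w ^ m| * M ≤ m * D * M ^ m := by
  have hM0 : 0 ≤ M := (Nat.cast_nonneg N).trans hM
  induction m with
  | zero => simp
  | succ m ih =>
    have ih' := ih (fun l hl => h l (by omega))
    have h1 := h m (by omega)
    have h2 : (N.descFactorial m : ℝ) ≤ M ^ m := by
      have h3 : (N.descFactorial m : ℝ) ≤ (N : ℝ) ^ m := by
        exact_mod_cast Nat.descFactorial_le_pow N m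
      exact h3.trans (pow_le_pow_left₀ (Nat.cast_nonneg N) hM m)
    have e1 : (N.descFactorial (m + 1) : ℝ) - w ^ (m + 1) =
        (((N - m : ℕ) : ℝ) - w) * (N.descFactorial m : ℝ) +
          w * ((N.descFactorial m : ℝ) - w ^ m) := by
      rw [Nat.descFactorial_succ]
      push_cast
      ring
    have h3 : |(((N - m : ℕ) : ℝ) - w) * (N.descFactorial m : ℝ)| ≤ D * M ^ m := by
      rw [abs_mul, abs_of_nonneg (Nat.cast_nonneg (N.descFactorial m) : (0 : ℝ) ≤ _)]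
      exact mul_le_mul h1 h2 (Nat.cast_nonneg _) hD
    have h4 : |w * ((N.descFactorial m : ℝ) - w ^ m)| * M ≤ M * (m * D * M ^ m) := by
      rw [abs_mul, abs_of_nonneg hw0, mul_assoc]
      exact mul_le_mul hw ih' (by positivity) hM0
    rw [e1]
    calc |(((N - m : ℕ) : ℝ) - w) * (N.descFactorial m : ℝ) +
          w * ((N.descFactorial m : ℝ) - w ^ m)| * M
        ≤ (|(((N - m : ℕ) : ℝ) - w) * (N.descFactorial m : ℝ)| +
          |w * ((N.descFactorial m : ℝ) - w ^ m)|) * M :=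
            mul_le_mul_of_nonneg_right (abs_add_le _ _) hM0
      _ = |(((N - m : ℕ) : ℝ) - w) * (N.descFactorial m : ℝ)| * M +
          |w * ((N.descFactorial m : ℝ) - w ^ m)| * M := by ring
      _ ≤ D * M ^ m * M + M * (m * D * M ^ m) :=
          add_le_add (mul_le_mul_of_nonneg_right h3 hM0) h4
      _ = _ := by
          push_cast
          ring

/-- the constants -/
structure TsK (ω1 ω2 lp C0 δ2 δ0 ρ K : ℝ) (n0 : ℕ) : Prop where
  lp0 : 0 < lp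
  lp1 : lp < 1
  C00 : 0 < C0
  d20 : 0 < δ2
  d21 : δ2 ≤ 1 / 2
  d00 : 0 < δ0
  r0 : 1 / 2 ≤ ρ
  r1 : ρ < 1
  K0 : 0 < K
  geo : ∀ i : ℕ, ((i : ℝ) + 2) ^ 3 * (b0 i * lp ^ i * qd δ2 ^ i) ≤ K * (ρ ^ i * ρ ^ i)
  n2 : 4 ≤ n0
  main : ∀ n w : ℕ, n0 ≤ n → ω1 * n ≤ w → (w : ℝ) ≤ ω2 * n → w ≤ n ∧
    ∀ i : ℕ, (i : ℝ) ≤ δ0 * n → i + 6 ≤ w ∧ C0 / (n : ℝ) ^ 2 * (((i : ℝ) + 2) / δ2) ^ 2 ≤ 1 / 2 ∧
      ∀ s : ℕ, s ≤ i + 2 → ∀ g : ℕ,
        bc (n - s) (w - s + 2 * g) ≤ lp ^ s * (C0 / (n : ℝ) ^ 2) ^ g * bc n w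

theorem tsm_const {ω1 ω2 : ℝ} (h1 : 0 < ω1) (h2 : ω2 < 1) :
    ∃ lp C0 δ2 δ0 ρ K : ℝ, ∃ n0 : ℕ, TsK ω1 ω2 lp C0 δ2 δ0 ρ K n0 := by
  obtain ⟨lp, C0, δ1, N, hlp0, hlp1, hC0, hδ1, hrb⟩ := rb h1 h2
  have hlc := lamc_pos
  have hη : 1 < (1 + lamc / lp) / 2 := by
    have : 1 < lamc / lp := by rw [one_lt_div hlp0]; exact hlp1
    linarith
  obtain ⟨δ2, hd20, hd21, hqd⟩ := qd_lim hη
  have hq1 := hqd δ2 hd20 le_rfl
  have hq0 := qd_one hd20 hd21
  set θ1 : ℝ := (1 + lp / lamc) / 2 with hθ1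
  have hl1 : lp / lamc < 1 := by rw [div_lt_one hlc.1]; exact hlp1
  have hl0 : 0 < lp / lamc := div_pos hlp0 hlc.1
  have hθ : qd δ2 * (lp / lamc) ≤ θ1 := by
    have h3 := mul_le_mul_of_nonneg_right hq1 hl0.le
    refine h3.trans (le_of_eq ?_)
    rw [hθ1]
    have := hlc.1.ne'
    have := hlp0.ne'
    field_simp
    ring
  set ρ : ℝ := (1 + θ1) / 2 with hρ
  have hθ11 : θ1 < 1 := by rw [hθ1]; linarith
  have hθ10 : 0 < θ1 := by rw [hθ1]; linarith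
  have hρ2 : qd δ2 * (lp / lamc) < ρ * ρ := by
    have h3 : ρ * ρ - θ1 = ((1 - θ1) / 2) ^ 2 := by rw [hρ]; ring
    have h4 : 0 < ((1 - θ1) / 2) ^ 2 := by
      have : 0 < (1 - θ1) / 2 := by linarith
      positivity
    linarith
  obtain ⟨K, hK0, hK⟩ := tsm_geo (θ := qd δ2 * (lp / lamc)) (θ' := ρ * ρ)
    (by positivity) hρ2 3
  set δ0 : ℝ := min (min (ω1 / 2) (δ1 / 2)) (δ2 / (8 * (C0 + 1))) with hδ0
  have hδ00 : 0 < δ0 := by
    rw [hδ0]
    exact lt_min (lt_min (by linarith) (by linarith)) (by positivity)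
  have hδ01 : δ0 ≤ ω1 / 2 := (min_le_left _ _).trans (min_le_left _ _)
  have hδ02 : δ0 ≤ δ1 / 2 := (min_le_left _ _).trans (min_le_right _ _)
  have hδ03 : δ0 ≤ δ2 / (8 * (C0 + 1)) := min_le_right _ _
  obtain ⟨n1, hn1⟩ := exists_nat_ge (12 / ω1)
  obtain ⟨n2, hn2⟩ := exists_nat_ge (4 / δ1)
  obtain ⟨n3, hn3⟩ := exists_nat_ge (2 / δ0)
  refine ⟨lp, C0, δ2, δ0, ρ, 2 * K, N + n1 + n2 + n3 + 4, hlp0, by linarith [hlc.2], hC0, hd20,
    hd21, hδ00, by rw [hρ]; linarith, by rw [hρ]; linarith, by linarith, ?_, by omega, ?_⟩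
  · intro i
    have h3 := hK i
    have h4 : b0 i * lp ^ i * qd δ2 ^ i ≤ 2 * (qd δ2 * (lp / lamc)) ^ i := by
      have h5 := mul_le_mul_of_nonneg_right (b0_le i)
        (show 0 ≤ lp ^ i * qd δ2 ^ i by positivity)
      have e1 : 2 * (1 / lamc) ^ i * (lp ^ i * qd δ2 ^ i) = 2 * (qd δ2 * (lp / lamc)) ^ i := by
        rw [mul_pow, div_pow, div_pow, one_pow]
        ring
      rw [e1] at h5
      calc _ = b0 i * (lp ^ i * qd δ2 ^ i) := by ring
        _ ≤ _ := h5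
    have h5 : (0 : ℝ) ≤ ((i : ℝ) + 2) ^ 3 := by positivity
    calc ((i : ℝ) + 2) ^ 3 * (b0 i * lp ^ i * qd δ2 ^ i)
        ≤ ((i : ℝ) + 2) ^ 3 * (2 * (qd δ2 * (lp / lamc)) ^ i) := mul_le_mul_of_nonneg_left h4 h5
      _ = 2 * (((i : ℝ) + 2) ^ 3 * (qd δ2 * (lp / lamc)) ^ i) := by ring
      _ ≤ 2 * (K * (ρ * ρ) ^ i) := by linarith
      _ = _ := by rw [mul_pow]; ring
  · intro n w hn ha hb
    have hn' : ((N + n1 + n2 + n3 + 4 : ℕ) : ℝ) ≤ n := by exact_mod_cast hn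
    push_cast at hn'
    have hN0 : (0 : ℝ) ≤ N := Nat.cast_nonneg _
    have hn10 : (0 : ℝ) ≤ n1 := Nat.cast_nonneg _
    have hn20 : (0 : ℝ) ≤ n2 := Nat.cast_nonneg _
    have hn30 : (0 : ℝ) ≤ n3 := Nat.cast_nonneg _
    have hn0 : (0 : ℝ) < n := by linarith
    have a1 : 12 ≤ ω1 * n := by
      have : 12 / ω1 ≤ n := by linarith
      rw [div_le_iff₀ h1] at this
      linarith
    have a2 : 4 ≤ δ1 * n := by
      have : 4 / δ1 ≤ n := by linarith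
      rw [div_le_iff₀ hδ1] at this
      linarith
    have a3 : 2 ≤ δ0 * n := by
      have : 2 / δ0 ≤ n := by linarith
      rw [div_le_iff₀ hδ00] at this
      linarith
    refine ⟨?_, ?_⟩
    · have h3 : (w : ℝ) ≤ n := by nlinarith
      exact_mod_cast h3
    · intro i hi
      refine ⟨?_, ?_, ?_⟩
      · have h3 : ((i + 6 : ℕ) : ℝ) ≤ w := by
          push_cast
          have := mul_le_mul_of_nonneg_right hδ01 hn0.le
          linarith
        exact_mod_cast h3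
      · have h3 : ((i : ℝ) + 2) ≤ 2 * δ0 * n := by linarith
        have h4 : ((i : ℝ) + 2) / δ2 ≤ n / (4 * (C0 + 1)) := by
          rw [div_le_iff₀ hd20]
          refine h3.trans ?_
          have h5 := mul_le_mul_of_nonneg_right hδ03 hn0.le
          calc 2 * δ0 * n = 2 * (δ0 * n) := by ring
            _ ≤ 2 * (δ2 / (8 * (C0 + 1)) * n) := by linarith
            _ = n / (4 * (C0 + 1)) * δ2 := by
              field_simp
              ring
        have h5 : (((i : ℝ) + 2) / δ2) ^ 2 ≤ (n / (4 * (C0 + 1))) ^ 2 :=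
          pow_le_pow_left₀ (by positivity) h4 2
        have h6 : 0 ≤ C0 / (n : ℝ) ^ 2 := by positivity
        refine (mul_le_mul_of_nonneg_left h5 h6).trans ?_
        have e1 : C0 / (n : ℝ) ^ 2 * (n / (4 * (C0 + 1))) ^ 2 = C0 / (16 * (C0 + 1) ^ 2) := by
          field_simp
          ring
        rw [e1, div_le_iff₀ (by positivity)]
        nlinarith
      · intro s hs g
        apply hrb n w s g (by omega) ha hb
        have h3 : (s : ℝ) ≤ i + 2 := by exact_mod_cast hs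
        have := mul_le_mul_of_nonneg_right hδ02 hn0.le
        linarith

/-- the summand in `j` -/
noncomputable def TsEj (C0 : ℝ) (j : ℕ) : ℝ := 64 * ((64 * C0) ^ j / (j.factorial : ℝ))

theorem TsEj_nonneg {C0 : ℝ} (hC : 0 ≤ C0) (j : ℕ) : 0 ≤ TsEj C0 j := by
  unfold TsEj
  positivity

theorem TsEj_sum {C0 : ℝ} (hC : 0 ≤ C0) (m : ℕ) :
    ∑ j ∈ Finset.range m, TsEj C0 j ≤ 64 * Real.exp (64 * C0) := by
  unfold TsEj
  rw [← Finset.mul_sum]
  exact mul_le_mul_of_nonneg_left (Real.sum_le_exp_of_nonneg (by positivity) m) (by norm_num)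

theorem tsm_m {C0 : ℝ} (hC : 0 ≤ C0) {e : ℕ} (he : e ≤ 2) (j : ℕ) :
    (((2 * j + e : ℕ) : ℝ) + 1) * (((2 * j + e : ℕ) : ℝ) + 1) * 2 ^ (2 * j + e) * C0 ^ j /
      ((2 * j + e).factorial : ℝ) ≤ TsEj C0 j := by
  have h1 : (((2 * j + e : ℕ) : ℝ) + 1) ≤ 2 ^ (2 * j + e) := by
    have := Nat.lt_two_pow_self (n := 2 * j + e)
    exact_mod_cast this
  have h0 : (0 : ℝ) ≤ ((2 * j + e : ℕ) : ℝ) + 1 := by positivity
  have h2 : (((2 * j + e : ℕ) : ℝ) + 1) * (((2 * j + e : ℕ) : ℝ) + 1) * 2 ^ (2 * j + e) ≤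
      64 * 64 ^ j := by
    calc _ ≤ (2 : ℝ) ^ (2 * j + e) * 2 ^ (2 * j + e) * 2 ^ (2 * j + e) := by
          apply mul_le_mul_of_nonneg_right _ (by positivity)
          exact mul_le_mul h1 h1 h0 (by positivity)
      _ = (8 : ℝ) ^ (2 * j + e) := by
          rw [← mul_pow, ← mul_pow]
          norm_num
      _ = (8 : ℝ) ^ e * 64 ^ j := by
          rw [pow_add, pow_mul]
          norm_num
          ring
      _ ≤ (8 : ℝ) ^ 2 * 64 ^ j := by
          apply mul_le_mul_of_nonneg_right _ (by positivity)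
          exact pow_le_pow_right₀ (by norm_num) he
      _ = _ := by norm_num
  have h3 : (j.factorial : ℝ) ≤ ((2 * j + e).factorial : ℝ) := by
    exact_mod_cast Nat.factorial_le (by omega)
  have h4 : (0 : ℝ) < (j.factorial : ℝ) := by exact_mod_cast j.factorial_pos
  unfold TsEj
  calc _ ≤ (64 * 64 ^ j) * C0 ^ j / ((2 * j + e).factorial : ℝ) := by
        apply div_le_div_of_nonneg_right _ (by positivity)
        exact mul_le_mul_of_nonneg_right h2 (by positivity)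
    _ ≤ (64 * 64 ^ j) * C0 ^ j / (j.factorial : ℝ) := by
        apply div_le_div_of_nonneg_left (by positivity) h4 h3
    _ = _ := by rw [mul_pow]; ring

theorem tsm_m1 {C0 : ℝ} (hC : 0 ≤ C0) {e : ℕ} (he : e ≤ 2) (j : ℕ) :
    2 ^ (2 * j + e) * C0 ^ j / ((2 * j + e).factorial : ℝ) ≤ TsEj C0 j := by
  refine le_trans ?_ (tsm_m hC he j)
  apply div_le_div_of_nonneg_right _ (by positivity)
  have h1 : (1 : ℝ) ≤ (((2 * j + e : ℕ) : ℝ) + 1) * (((2 * j + e : ℕ) : ℝ) + 1) := by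
    have : (0 : ℝ) ≤ ((2 * j + e : ℕ) : ℝ) := Nat.cast_nonneg _
    nlinarith
  have h2 : (0 : ℝ) ≤ 2 ^ (2 * j + e) * C0 ^ j := by positivity
  calc (2 : ℝ) ^ (2 * j + e) * C0 ^ j = 1 * (2 ^ (2 * j + e) * C0 ^ j) := by ring
    _ ≤ (((2 * j + e : ℕ) : ℝ) + 1) * (((2 * j + e : ℕ) : ℝ) + 1) * (2 ^ (2 * j + e) * C0 ^ j) :=
      mul_le_mul_of_nonneg_right h1 h2
    _ = _ := by ring

section
variable {ω1 ω2 lp C0 δ2 δ0 ρ K : ℝ} {n0 : ℕ} {n w i e : ℕ}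

theorem tsm_X (tk : TsK ω1 ω2 lp C0 δ2 δ0 ρ K n0) (hn : n0 ≤ n) (ha : ω1 * n ≤ w)
    (hb : (w : ℝ) ≤ ω2 * n) (he : e = 1 ∨ e = 2) (hi : (i : ℝ) ≤ δ0 * n) (g j : ℕ) :
    ((w - (i + 2 - e) + 2 * (g + j)).choose (2 * j + e) : ℝ) *
        bc (n - (i + 2 - e)) (w - (i + 2 - e) + 2 * (g + j)) ≤
      (n : ℝ) ^ e * bc n w * lp ^ (i + 2 - e) * (C0 / (n : ℝ) ^ 2) ^ g * TsEj C0 j := by
  have hn4 : 4 ≤ n := tk.n2.trans hn
  have hn0 : (0 : ℝ) < n := by exact_mod_cast (by omega : 0 < n)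
  obtain ⟨m1, m2⟩ := tk.main n w hn ha hb
  obtain ⟨m3, m4, m5⟩ := m2 i hi
  have hC := tk.C00
  have hlp := tk.lp0
  have hb0 := bc_nonneg n w
  have h5 := m5 (i + 2 - e) (by omega) (g + j)
  have hE := TsEj_nonneg hC.le j
  by_cases hz : bc (n - (i + 2 - e)) (w - (i + 2 - e) + 2 * (g + j)) = 0
  · rw [hz, mul_zero]
    positivity
  obtain ⟨s1, s2, s3⟩ := bc_supp hz
  set N : ℕ := w - (i + 2 - e) + 2 * (g + j) with hN
  have hN2 : (N : ℝ) ≤ 2 * n := by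
    have : N ≤ 2 * n := by omega
    exact_mod_cast this
  have h6 : (N.choose (2 * j + e) : ℝ) ≤ (2 * n) ^ (2 * j + e) / ((2 * j + e).factorial : ℝ) := by
    refine (Nat.choose_le_pow_div (2 * j + e) N).trans ?_
    apply div_le_div_of_nonneg_right _ (by positivity)
    exact pow_le_pow_left₀ (Nat.cast_nonneg _) hN2 _
  calc (N.choose (2 * j + e) : ℝ) * bc (n - (i + 2 - e)) N
      ≤ ((2 * n) ^ (2 * j + e) / ((2 * j + e).factorial : ℝ)) *
        (lp ^ (i + 2 - e) * (C0 / (n : ℝ) ^ 2) ^ (g + j) * bc n w) :=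
        mul_le_mul h6 h5 (bc_nonneg _ _) (by positivity)
    _ = (n : ℝ) ^ e * bc n w * lp ^ (i + 2 - e) * (C0 / (n : ℝ) ^ 2) ^ g *
        (2 ^ (2 * j + e) * C0 ^ j / ((2 * j + e).factorial : ℝ)) := by
        have e1 : (C0 / (n : ℝ) ^ 2) ^ (g + j) = (C0 / (n : ℝ) ^ 2) ^ g * (C0 ^ j / (n : ℝ) ^ (2 * j)) := by
          rw [pow_add, div_pow C0 ((n : ℝ) ^ 2) j, ← pow_mul]
        have e2 : (2 * (n : ℝ)) ^ (2 * j + e) = 2 ^ (2 * j + e) * ((n : ℝ) ^ (2 * j) * (n : ℝ) ^ e) := by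
          rw [mul_pow, pow_add (n : ℝ)]
        rw [e1, e2]
        have h7 : (n : ℝ) ^ (2 * j) ≠ 0 := by positivity
        field_simp
    _ ≤ _ := by
        apply mul_le_mul_of_nonneg_left (tsm_m1 hC.le (by omega) j)
        positivity

theorem tsm_Xsum (tk : TsK ω1 ω2 lp C0 δ2 δ0 ρ K n0) (hn : n0 ≤ n) (ha : ω1 * n ≤ w)
    (hb : (w : ℝ) ≤ ω2 * n) (he : e = 1 ∨ e = 2) (hi : (i : ℝ) ≤ δ0 * n) (g m : ℕ) :
    ∑ j ∈ Finset.range m, ((w - (i + 2 - e) + 2 * (g + j)).choose (2 * j + e) : ℝ) *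
        bc (n - (i + 2 - e)) (w - (i + 2 - e) + 2 * (g + j)) ≤
      (n : ℝ) ^ e * bc n w * lp ^ (i + 2 - e) * (C0 / (n : ℝ) ^ 2) ^ g *
        (64 * Real.exp (64 * C0)) := by
  refine (Finset.sum_le_sum fun j _ => tsm_X tk hn ha hb he hi g j).trans ?_
  rw [← Finset.mul_sum]
  apply mul_le_mul_of_nonneg_left (TsEj_sum tk.C00.le m)
  have hC := tk.C00
  have hlp := tk.lp0
  have hb0 := bc_nonneg n w
  positivity

theorem tsm_A (tk : TsK ω1 ω2 lp C0 δ2 δ0 ρ K n0) (hn : n0 ≤ n) (ha : ω1 * n ≤ w)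
    (hb : (w : ℝ) ≤ ω2 * n) (he : e = 1 ∨ e = 2) (hi : (i : ℝ) ≤ δ0 * n) (hbp : 0 < bc n w)
    (j : ℕ) :
    |((w - (i + 2 - e) + 2 * (0 + j)).choose (2 * j + e) : ℝ) *
        bc (n - (i + 2 - e)) (w - (i + 2 - e) + 2 * (0 + j)) / ((n : ℝ) ^ e * bc n w) -
      ((w : ℝ) / n) ^ (2 * j + e) / ((2 * j + e).factorial : ℝ) * Bn n w (i + 2 - e) j| ≤
      lp ^ (i + 2 - e) * ((i : ℝ) + 2) * TsEj C0 j / n := by
  have hn4 : 4 ≤ n := tk.n2.trans hn
  have hn0 : (0 : ℝ) < n := by exact_mod_cast (by omega : 0 < n)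
  obtain ⟨m1, m2⟩ := tk.main n w hn ha hb
  obtain ⟨m3, m4, m5⟩ := m2 i hi
  have hC := tk.C00
  have hlp := tk.lp0
  have h5 := m5 (i + 2 - e) (by omega) j
  have hE := TsEj_nonneg hC.le j
  unfold Bn
  rw [zero_add]
  by_cases hz : bc (n - (i + 2 - e)) (w - (i + 2 - e) + 2 * j) = 0
  · rw [hz]
    simp only [mul_zero, zero_div, sub_zero, abs_zero]
    positivity
  obtain ⟨s1, s2, s3⟩ := bc_supp hz
  set N : ℕ := w - (i + 2 - e) + 2 * j with hN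
  set β : ℝ := bc (n - (i + 2 - e)) N with hβ
  have hβ0 : 0 ≤ β := bc_nonneg _ _
  have hN2 : (N : ℝ) ≤ 2 * n := by
    have : N ≤ 2 * n := by omega
    exact_mod_cast this
  have hwn : (w : ℝ) ≤ n := by exact_mod_cast m1
  have hdesc := tsm_desc (N := N) (w := (w : ℝ)) (D := ((i : ℝ) + 2) + ((2 * j + e : ℕ) : ℝ))
    (M := 2 * n) hN2 (Nat.cast_nonneg _) (by linarith) (by positivity) (2 * j + e) (by
      intro l hl
      have e1 : N - l = w - (i + 2) + (2 * j + e - l) := by omega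
      have e2 : ((N - l : ℕ) : ℝ) = (w - (i + 2)) + (((2 * j + e : ℕ) : ℝ) - l) := by
        rw [e1, Nat.cast_add, Nat.cast_sub (by omega : i + 2 ≤ w),
          Nat.cast_sub (by omega : l ≤ 2 * j + e)]
        push_cast
        ring
      rw [e2, abs_le]
      have hl' : (l : ℝ) ≤ ((2 * j + e : ℕ) : ℝ) := by exact_mod_cast hl.le
      have hl0 : (0 : ℝ) ≤ l := Nat.cast_nonneg l
      have hi0 : (0 : ℝ) ≤ i := Nat.cast_nonneg i
      constructor <;> linarith)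
  set m : ℕ := 2 * j + e with hm
  have hf0 : (0 : ℝ) < (m.factorial : ℝ) := by exact_mod_cast m.factorial_pos
  have e3 : (N.choose m : ℝ) = (N.descFactorial m : ℝ) / (m.factorial : ℝ) := by
    rw [Nat.descFactorial_eq_factorial_mul_choose]
    push_cast
    field_simp
  have e4 : (n : ℝ) ^ m = (n : ℝ) ^ (2 * j) * (n : ℝ) ^ e := by rw [hm, pow_add]
  have e5 : (N.choose m : ℝ) * β / ((n : ℝ) ^ e * bc n w) -
      ((w : ℝ) / n) ^ m / (m.factorial : ℝ) * ((n : ℝ) ^ (2 * j) * β / bc n w) =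
      ((N.descFactorial m : ℝ) - (w : ℝ) ^ m) * (β / ((m.factorial : ℝ) * (n : ℝ) ^ e * bc n w)) := by
    rw [e3, div_pow, e4]
    have h7 : (n : ℝ) ^ (2 * j) ≠ 0 := by positivity
    have h8 : (n : ℝ) ^ e ≠ 0 := by positivity
    have h9 := hbp.ne'
    field_simp
  rw [e5, abs_mul, abs_of_nonneg (show 0 ≤ β / ((m.factorial : ℝ) * (n : ℝ) ^ e * bc n w) by
    positivity)]
  have h6 : |(N.descFactorial m : ℝ) - (w : ℝ) ^ m| ≤
      (m : ℝ) * (((i : ℝ) + 2) + m) * (2 * n) ^ m / (2 * n) := by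
    rw [le_div_iff₀ (by positivity)]
    exact hdesc
  have h7 : β / ((m.factorial : ℝ) * (n : ℝ) ^ e * bc n w) ≤
      (lp ^ (i + 2 - e) * (C0 / (n : ℝ) ^ 2) ^ j * bc n w) /
        ((m.factorial : ℝ) * (n : ℝ) ^ e * bc n w) :=
    div_le_div_of_nonneg_right h5 (by positivity)
  refine (mul_le_mul h6 h7 (by positivity) (by positivity)).trans ?_
  have e6 : (m : ℝ) * (((i : ℝ) + 2) + m) * (2 * n) ^ m / (2 * n) *
      ((lp ^ (i + 2 - e) * (C0 / (n : ℝ) ^ 2) ^ j * bc n w) /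
        ((m.factorial : ℝ) * (n : ℝ) ^ e * bc n w)) =
      lp ^ (i + 2 - e) * ((m : ℝ) * (((i : ℝ) + 2) + m) / 2 * (2 ^ m * C0 ^ j /
        (m.factorial : ℝ))) / n := by
    rw [mul_pow, e4, div_pow, ← pow_mul]
    have h7 : (n : ℝ) ^ (2 * j) ≠ 0 := by positivity
    have h8 : (n : ℝ) ^ e ≠ 0 := by positivity
    have h9 := hbp.ne'
    field_simp
  rw [e6]
  apply div_le_div_of_nonneg_right _ hn0.le
  rw [mul_assoc]
  apply mul_le_mul_of_nonneg_left _ (by positivity)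
  have h10 := tsm_m hC.le (e := e) (by omega) j
  rw [← hm] at h10
  have h11 : (m : ℝ) * (((i : ℝ) + 2) + m) / 2 ≤ ((i : ℝ) + 2) * (((m : ℝ) + 1) * ((m : ℝ) + 1)) := by
    have hi0 : (0 : ℝ) ≤ i := Nat.cast_nonneg i
    have hm0 : (0 : ℝ) ≤ m := Nat.cast_nonneg m
    have : (0 : ℝ) ≤ i * m := by positivity
    have : (0 : ℝ) ≤ i * m * m := by positivity
    nlinarith
  calc (m : ℝ) * (((i : ℝ) + 2) + m) / 2 * (2 ^ m * C0 ^ j / (m.factorial : ℝ))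
      ≤ ((i : ℝ) + 2) * (((m : ℝ) + 1) * ((m : ℝ) + 1)) * (2 ^ m * C0 ^ j / (m.factorial : ℝ)) :=
        mul_le_mul_of_nonneg_right h11 (by positivity)
    _ = ((i : ℝ) + 2) * (((m : ℝ) + 1) * ((m : ℝ) + 1) * 2 ^ m * C0 ^ j / (m.factorial : ℝ)) := by
        ring
    _ ≤ _ := mul_le_mul_of_nonneg_left h10 (by positivity)

theorem tsm_Bn_nonneg (n w s j : ℕ) : 0 ≤ Bn n w s j := by
  unfold Bn
  have := bc_nonneg n w
  have := bc_nonneg (n - s) (w - s + 2 * j)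
  positivity

theorem tsm_Bn_le (tk : TsK ω1 ω2 lp C0 δ2 δ0 ρ K n0) (hn : n0 ≤ n) (ha : ω1 * n ≤ w)
    (hb : (w : ℝ) ≤ ω2 * n) (hi : (i : ℝ) ≤ δ0 * n) (hbp : 0 < bc n w) {s : ℕ} (hs : s ≤ i + 2)
    (j : ℕ) : Bn n w s j ≤ lp ^ s * C0 ^ j := by
  have hn4 : 4 ≤ n := tk.n2.trans hn
  have hn0 : (0 : ℝ) < n := by exact_mod_cast (by omega : 0 < n)
  obtain ⟨m1, m2⟩ := tk.main n w hn ha hb
  obtain ⟨m3, m4, m5⟩ := m2 i hi
  have h5 := m5 s hs j
  unfold Bn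
  rw [div_le_iff₀ hbp]
  calc (n : ℝ) ^ (2 * j) * bc (n - s) (w - s + 2 * j)
      ≤ (n : ℝ) ^ (2 * j) * (lp ^ s * (C0 / (n : ℝ) ^ 2) ^ j * bc n w) :=
        mul_le_mul_of_nonneg_left h5 (by positivity)
    _ = _ := by
        rw [div_pow, ← pow_mul]
        have h7 : (n : ℝ) ^ (2 * j) ≠ 0 := by positivity
        field_simp

theorem tsm_M (tk : TsK ω1 ω2 lp C0 δ2 δ0 ρ K n0) (hn : n0 ≤ n) (ha : ω1 * n ≤ w)
    (hb : (w : ℝ) ≤ ω2 * n) (he : e = 1 ∨ e = 2) (hi : (i : ℝ) ≤ δ0 * n) (hbp : 0 < bc n w)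
    (j : ℕ) :
    0 ≤ ((w : ℝ) / n) ^ (2 * j + e) / ((2 * j + e).factorial : ℝ) * Bn n w (i + 2 - e) j ∧
    ((w : ℝ) / n) ^ (2 * j + e) / ((2 * j + e).factorial : ℝ) * Bn n w (i + 2 - e) j ≤
      lp ^ (i + 2 - e) * ((1 / 2) ^ j * TsEj C0 j) := by
  have hn4 : 4 ≤ n := tk.n2.trans hn
  have hn0 : (0 : ℝ) < n := by exact_mod_cast (by omega : 0 < n)
  have hC := tk.C00
  have hlp := tk.lp0
  have h1 := tsm_Bn_nonneg n w (i + 2 - e) j
  have h2 := tsm_Bn_le tk hn ha hb hi hbp (s := i + 2 - e) (by omega) j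
  obtain ⟨m1, m2⟩ := tk.main n w hn ha hb
  have hwn : (w : ℝ) / n ≤ 1 := by
    rw [div_le_one hn0]
    exact_mod_cast m1
  have h3 : ((w : ℝ) / n) ^ (2 * j + e) ≤ 1 := pow_le_one₀ (by positivity) hwn
  have h4 : (0 : ℝ) < (j.factorial : ℝ) := by exact_mod_cast j.factorial_pos
  have h5 : (j.factorial : ℝ) ≤ ((2 * j + e).factorial : ℝ) := by
    exact_mod_cast Nat.factorial_le (by omega)
  have h6 : ((w : ℝ) / n) ^ (2 * j + e) / ((2 * j + e).factorial : ℝ) ≤ 1 / (j.factorial : ℝ) :=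
    div_le_div₀ (by norm_num) h3 h4 h5
  refine ⟨by positivity, ?_⟩
  refine (mul_le_mul h6 h2 h1 (by positivity)).trans ?_
  unfold TsEj
  have h7 : C0 ^ j ≤ (1 / 2) ^ j * (64 * C0) ^ j := by
    rw [← mul_pow]
    exact pow_le_pow_left₀ hC.le (by linarith) j
  calc 1 / (j.factorial : ℝ) * (lp ^ (i + 2 - e) * C0 ^ j)
      ≤ 1 / (j.factorial : ℝ) * (lp ^ (i + 2 - e) * ((1 / 2) ^ j * (64 * C0) ^ j)) := by
        apply mul_le_mul_of_nonneg_left _ (by positivity)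
        exact mul_le_mul_of_nonneg_left h7 (by positivity)
    _ = lp ^ (i + 2 - e) * ((1 / 2) ^ j * ((64 * C0) ^ j / (j.factorial : ℝ))) := by ring
    _ ≤ _ := by
        apply mul_le_mul_of_nonneg_left _ (by positivity)
        apply mul_le_mul_of_nonneg_left _ (by positivity)
        have : 0 ≤ (64 * C0) ^ j / (j.factorial : ℝ) := by positivity
        linarith

/-- the weight of the size `i` -/
noncomputable def TsAi (lp δ2 : ℝ) (e i : ℕ) : ℝ :=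
  (3 * (i : ℝ) + 2) * ((i : ℝ) + 2) ^ 2 * b0 i * lp ^ (i + 2 - e) * qd δ2 ^ i

theorem TsAi_nonneg (tk : TsK ω1 ω2 lp C0 δ2 δ0 ρ K n0) : 0 ≤ TsAi lp δ2 e i := by
  unfold TsAi
  have := b0_pos i
  have := tk.lp0
  have := qd_one tk.d20 tk.d21
  positivity

theorem TsAi_le (tk : TsK ω1 ω2 lp C0 δ2 δ0 ρ K n0) (he : e = 1 ∨ e = 2) :
    TsAi lp δ2 e i ≤ 3 * K * (ρ ^ i * ρ ^ i) := by
  unfold TsAi
  have hb := b0_pos i
  have hl := tk.lp0
  have hq := qd_one tk.d20 tk.d21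
  have h1 : lp ^ (i + 2 - e) ≤ lp ^ i := pow_le_pow_of_le_one hl.le tk.lp1.le (by omega)
  have h2 : (3 * (i : ℝ) + 2) * ((i : ℝ) + 2) ^ 2 ≤ 3 * ((i : ℝ) + 2) ^ 3 := by
    have hi0 : (0 : ℝ) ≤ i := Nat.cast_nonneg i
    have : (3 * (i : ℝ) + 2) ≤ 3 * ((i : ℝ) + 2) := by linarith
    calc _ ≤ 3 * ((i : ℝ) + 2) * ((i : ℝ) + 2) ^ 2 := mul_le_mul_of_nonneg_right this (by positivity)
      _ = _ := by ring
  calc (3 * (i : ℝ) + 2) * ((i : ℝ) + 2) ^ 2 * b0 i * lp ^ (i + 2 - e) * qd δ2 ^ i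
      = (3 * (i : ℝ) + 2) * ((i : ℝ) + 2) ^ 2 * (b0 i * lp ^ (i + 2 - e) * qd δ2 ^ i) := by ring
    _ ≤ 3 * ((i : ℝ) + 2) ^ 3 * (b0 i * lp ^ i * qd δ2 ^ i) := by
        apply mul_le_mul h2 _ (by positivity) (by positivity)
        apply mul_le_mul_of_nonneg_right _ (by positivity)
        exact mul_le_mul_of_nonneg_left h1 hb.le
    _ = 3 * (((i : ℝ) + 2) ^ 3 * (b0 i * lp ^ i * qd δ2 ^ i)) := by ring
    _ ≤ 3 * (K * (ρ ^ i * ρ ^ i)) := mul_le_mul_of_nonneg_left (tk.geo i) (by norm_num)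
    _ = _ := by ring

theorem TsAi_ge (tk : TsK ω1 ω2 lp C0 δ2 δ0 ρ K n0) :
    (3 * (i : ℝ) + 2) * b0 i * (lp ^ (i + 2 - e) * ((i : ℝ) + 2)) ≤ TsAi lp δ2 e i ∧
    (3 * (i : ℝ) + 2) * b0 i * lp ^ (i + 2 - e) ≤ TsAi lp δ2 e i := by
  have hb := b0_pos i
  have hl := tk.lp0
  have hq := qd_one tk.d20 tk.d21
  have hq1 : 1 ≤ qd δ2 ^ i := one_le_pow₀ hq
  have hi0 : (0 : ℝ) ≤ i := Nat.cast_nonneg i
  have h1 : (1 : ℝ) ≤ (i : ℝ) + 2 := by linarith
  have h2 : (i : ℝ) + 2 ≤ ((i : ℝ) + 2) ^ 2 * qd δ2 ^ i := by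
    have : (i : ℝ) + 2 ≤ ((i : ℝ) + 2) ^ 2 := by nlinarith
    calc (i : ℝ) + 2 = ((i : ℝ) + 2) * 1 := by ring
      _ ≤ ((i : ℝ) + 2) ^ 2 * qd δ2 ^ i := mul_le_mul this hq1 (by norm_num) (by positivity)
  have h3 : 0 ≤ (3 * (i : ℝ) + 2) * b0 i * lp ^ (i + 2 - e) := by positivity
  unfold TsAi
  constructor
  · have := mul_le_mul_of_nonneg_left h2 h3
    calc _ = (3 * (i : ℝ) + 2) * b0 i * lp ^ (i + 2 - e) * ((i : ℝ) + 2) := by ring
      _ ≤ _ := this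
      _ = _ := by ring
  · have := mul_le_mul_of_nonneg_left (h1.trans h2) h3
    calc _ = (3 * (i : ℝ) + 2) * b0 i * lp ^ (i + 2 - e) * 1 := by ring
      _ ≤ _ := this
      _ = _ := by ring

/-- the terms of the main sum -/
noncomputable def TsMt (e n w i j : ℕ) : ℝ :=
  (3 * (i : ℝ) + 2) * b0 i * (((w : ℝ) / n) ^ (2 * j + e) / ((2 * j + e).factorial : ℝ)) *
    Bn n w (i + 2 - e) j

theorem TsMt_bd (tk : TsK ω1 ω2 lp C0 δ2 δ0 ρ K n0) (hn : n0 ≤ n) (ha : ω1 * n ≤ w)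
    (hb : (w : ℝ) ≤ ω2 * n) (he : e = 1 ∨ e = 2) (hi : (i : ℝ) ≤ δ0 * n) (hbp : 0 < bc n w)
    (j : ℕ) : 0 ≤ TsMt e n w i j ∧ TsMt e n w i j ≤ TsAi lp δ2 e i * (ρ ^ j * TsEj C0 j) := by
  obtain ⟨h1, h2⟩ := tsm_M tk hn ha hb he hi hbp j
  have hb0 := b0_pos i
  have hl := tk.lp0
  have hE := TsEj_nonneg tk.C00.le j
  have h3 : TsMt e n w i j = (3 * (i : ℝ) + 2) * b0 i * (((w : ℝ) / n) ^ (2 * j + e) /
      ((2 * j + e).factorial : ℝ) * Bn n w (i + 2 - e) j) := by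
    unfold TsMt
    ring
  have h4 : (0 : ℝ) ≤ (3 * (i : ℝ) + 2) * b0 i := by positivity
  rw [h3]
  refine ⟨mul_nonneg h4 h1, ?_⟩
  have hr : ((1 : ℝ) / 2) ^ j ≤ ρ ^ j := pow_le_pow_left₀ (by norm_num) tk.r0 j
  calc _ ≤ (3 * (i : ℝ) + 2) * b0 i * (lp ^ (i + 2 - e) * ((1 / 2) ^ j * TsEj C0 j)) :=
        mul_le_mul_of_nonneg_left h2 h4
    _ = (3 * (i : ℝ) + 2) * b0 i * lp ^ (i + 2 - e) * ((1 / 2) ^ j * TsEj C0 j) := by ring
    _ ≤ TsAi lp δ2 e i * (ρ ^ j * TsEj C0 j) := by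
        apply mul_le_mul (TsAi_ge tk).2 _ (by positivity) (TsAi_nonneg tk)
        exact mul_le_mul_of_nonneg_right hr hE

/-- sum over `j` of the main terms -/
theorem TsMt_sum (tk : TsK ω1 ω2 lp C0 δ2 δ0 ρ K n0) (hn : n0 ≤ n) (ha : ω1 * n ≤ w)
    (hb : (w : ℝ) ≤ ω2 * n) (he : e = 1 ∨ e = 2) (hi : (i : ℝ) ≤ δ0 * n) (hbp : 0 < bc n w)
    {J m : ℕ} (hJ : J ≤ m) :
    0 ≤ ∑ j ∈ Finset.range m, TsMt e n w i j - ∑ j ∈ Finset.range J, TsMt e n w i j ∧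
    ∑ j ∈ Finset.range m, TsMt e n w i j - ∑ j ∈ Finset.range J, TsMt e n w i j ≤
      TsAi lp δ2 e i * (ρ ^ J * (64 * Real.exp (64 * C0))) := by
  have hA := TsAi_nonneg (e := e) (i := i) tk
  have hr0 : 0 ≤ ρ := by linarith [tk.r0]
  rw [← Finset.sum_range_add_sum_Ico _ hJ, add_sub_cancel_left]
  refine ⟨Finset.sum_nonneg fun j _ => (TsMt_bd tk hn ha hb he hi hbp j).1, ?_⟩
  calc ∑ j ∈ Finset.Ico J m, TsMt e n w i j
      ≤ ∑ j ∈ Finset.Ico J m, TsAi lp δ2 e i * (ρ ^ J * TsEj C0 j) := by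
        apply Finset.sum_le_sum
        intro j hj
        rw [Finset.mem_Ico] at hj
        refine (TsMt_bd tk hn ha hb he hi hbp j).2.trans ?_
        apply mul_le_mul_of_nonneg_left _ hA
        apply mul_le_mul_of_nonneg_right _ (TsEj_nonneg tk.C00.le j)
        exact pow_le_pow_of_le_one hr0 tk.r1.le hj.1
    _ = TsAi lp δ2 e i * (ρ ^ J * ∑ j ∈ Finset.Ico J m, TsEj C0 j) := by
        rw [Finset.mul_sum, Finset.mul_sum]
    _ ≤ _ := by
        apply mul_le_mul_of_nonneg_left _ hA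
        apply mul_le_mul_of_nonneg_left _ (by positivity)
        refine le_trans ?_ (TsEj_sum tk.C00.le m)
        apply Finset.sum_le_sum_of_subset_of_nonneg
        · intro j hj
          rw [Finset.mem_Ico] at hj
          exact Finset.mem_range.2 hj.2
        · intro j _ _
          exact TsEj_nonneg tk.C00.le j

/-- one size -/
theorem tsm_one (tk : TsK ω1 ω2 lp C0 δ2 δ0 ρ K n0) (hn : n0 ≤ n) (ha : ω1 * n ≤ w)
    (hb : (w : ℝ) ≤ ω2 * n) (he : e = 1 ∨ e = 2) (hi : (i : ℝ) ≤ δ0 * n) (hbp : 0 < bc n w) :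
    |Ti e n w i / ((n : ℝ) ^ e * bc n w) - ∑ j ∈ Finset.range (n + 3), TsMt e n w i j| ≤
      TsAi lp δ2 e i * ((64 * Real.exp (64 * C0)) * (2 * C0 / δ2 ^ 2 + 1)) / n := by
  have hn4 : 4 ≤ n := tk.n2.trans hn
  have hn0 : (0 : ℝ) < n := by exact_mod_cast (by omega : 0 < n)
  have hn1 : (1 : ℝ) ≤ n := by exact_mod_cast (by omega : 1 ≤ n)
  have hC := tk.C00
  have hlp := tk.lp0
  have hd := tk.d20
  have hb0 := b0_pos i
  have hA := TsAi_nonneg (e := e) (i := i) tk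
  obtain ⟨m1, m2⟩ := tk.main n w hn ha hb
  obtain ⟨m3, m4, m5⟩ := m2 i hi
  set E : ℝ := 64 * Real.exp (64 * C0) with hE
  have hE0 : 0 < E := by positivity
  set X : ℕ → ℕ → ℝ := fun g j => ((w - (i + 2 - e) + 2 * (g + j)).choose (2 * j + e) : ℝ) *
        bc (n - (i + 2 - e)) (w - (i + 2 - e) + 2 * (g + j)) with hX
  have hX0 : ∀ g j, 0 ≤ X g j := fun g j => mul_nonneg (Nat.cast_nonneg _) (bc_nonneg _ _)
  have e1 : Ti e n w i = (3 * (i : ℝ) + 2) * ∑ g ∈ Finset.range (i + 2),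
      (if 2 * g ≤ i + 2 then bc i (i + 2 - 2 * g) * ∑ j ∈ Finset.range (n + 3), X g j else 0) := by
    unfold Ti
    rw [tsm_reindex i w (by omega)]
    congr 1
    apply Finset.sum_congr rfl
    intro g _
    split_ifs with hg
    · congr 1
      apply Finset.sum_congr rfl
      intro j _
      have f1 : w - (i + 2 - 2 * g) + 2 * j + e = w - (i + 2 - e) + 2 * (g + j) := by
        rcases he with rfl | rfl <;> omega
      have f2 : n + e - 2 - i = n - (i + 2 - e) := by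
        rcases he with rfl | rfl <;> omega
      rw [f1, f2]
    · rfl
  set f : ℕ → ℝ := fun g => (if 2 * g ≤ i + 2 then bc i (i + 2 - 2 * g) *
    ∑ j ∈ Finset.range (n + 3), X g j else 0) with hf
  have hf0 : ∀ g, 0 ≤ f g := by
    intro g
    simp only [hf]
    split_ifs
    · exact mul_nonneg (bc_nonneg _ _) (Finset.sum_nonneg fun j _ => hX0 g j)
    · exact le_rfl
  have e2 : ∑ g ∈ Finset.range (i + 2), f g = ∑ g ∈ Finset.range (i + 1), f (g + 1) + f 0 :=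
    Finset.sum_range_succ' f (i + 1)
  have e3 : f 0 = b0 i * ∑ j ∈ Finset.range (n + 3), X 0 j := by
    simp only [hf]
    rw [if_pos (by omega)]
    rfl
  -- the positive genera
  have g1 : ∑ g ∈ Finset.range (i + 1), f (g + 1) ≤
      (n : ℝ) ^ e * bc n w * lp ^ (i + 2 - e) * E *
        (2 * (C0 / (n : ℝ) ^ 2) * (((i : ℝ) + 2) / δ2) ^ 2 * (qd δ2 ^ i * b0 i)) := by
    have g2 : ∑ g ∈ Finset.range (i + 1), f (g + 1) =
        ∑ g ∈ (Finset.range (i + 1)).image (fun g => g + 1), f g := by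
      rw [Finset.sum_image]
      intro a _ b _ hab
      exact Nat.succ_injective hab
    have g3 : ∑ g ∈ (Finset.range (i + 1)).image (fun g => g + 1), f g ≤
        ∑ g ∈ Finset.Icc 1 (i + 2), f g := by
      apply Finset.sum_le_sum_of_subset_of_nonneg
      · intro g hg
        rw [Finset.mem_image] at hg
        obtain ⟨a, ha, rfl⟩ := hg
        rw [Finset.mem_range] at ha
        rw [Finset.mem_Icc]
        omega
      · intro g _ _
        exact hf0 g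
    have g4 : ∑ g ∈ Finset.Icc 1 (i + 2), f g ≤ ∑ g ∈ Finset.Icc 1 (i + 2),
        (n : ℝ) ^ e * bc n w * lp ^ (i + 2 - e) * E *
          (if 2 * g ≤ i + 2 then bc i (i + 2 - 2 * g) * (C0 / (n : ℝ) ^ 2) ^ g else 0) := by
      apply Finset.sum_le_sum
      intro g _
      simp only [hf]
      split_ifs with hg
      · have := mul_le_mul_of_nonneg_left (tsm_Xsum tk hn ha hb he hi g (n + 3))
          (bc_nonneg i (i + 2 - 2 * g))
        refine this.trans (le_of_eq ?_)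
        ring
      · rw [mul_zero]
    rw [← Finset.mul_sum] at g4
    have g5 := (beta_np hd tk.d21 i (x := C0 / (n : ℝ) ^ 2) (by positivity) m4).2
    rw [g2]
    refine g3.trans (g4.trans ?_)
    apply mul_le_mul_of_nonneg_left g5
    positivity
  have g0 : 0 ≤ ∑ g ∈ Finset.range (i + 1), f (g + 1) := Finset.sum_nonneg fun g _ => hf0 _
  -- decomposition
  have e4 : Ti e n w i / ((n : ℝ) ^ e * bc n w) - ∑ j ∈ Finset.range (n + 3), TsMt e n w i j =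
      (3 * (i : ℝ) + 2) * (∑ g ∈ Finset.range (i + 1), f (g + 1)) / ((n : ℝ) ^ e * bc n w) +
        ∑ j ∈ Finset.range (n + 3), (3 * (i : ℝ) + 2) * b0 i * (X 0 j / ((n : ℝ) ^ e * bc n w) -
          ((w : ℝ) / n) ^ (2 * j + e) / ((2 * j + e).factorial : ℝ) * Bn n w (i + 2 - e) j) := by
    rw [← Finset.mul_sum, Finset.sum_sub_distrib, ← Finset.sum_div, e1, e2, e3]
    have e5 : ∑ j ∈ Finset.range (n + 3), TsMt e n w i j = (3 * (i : ℝ) + 2) * b0 i *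
        ∑ j ∈ Finset.range (n + 3), ((w : ℝ) / n) ^ (2 * j + e) / ((2 * j + e).factorial : ℝ) *
          Bn n w (i + 2 - e) j := by
      rw [Finset.mul_sum]
      apply Finset.sum_congr rfl
      intro j _
      unfold TsMt
      ring
    rw [e5]
    ring
  rw [e4]
  refine (abs_add_le _ _).trans ?_
  have k1 : |(3 * (i : ℝ) + 2) * (∑ g ∈ Finset.range (i + 1), f (g + 1)) /
      ((n : ℝ) ^ e * bc n w)| ≤ TsAi lp δ2 e i * (E * (2 * C0 / δ2 ^ 2)) / n := by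
    rw [abs_of_nonneg (by positivity)]
    have k2 : (3 * (i : ℝ) + 2) * (∑ g ∈ Finset.range (i + 1), f (g + 1)) /
      ((n : ℝ) ^ e * bc n w) ≤ (3 * (i : ℝ) + 2) * ((n : ℝ) ^ e * bc n w * lp ^ (i + 2 - e) * E *
        (2 * (C0 / (n : ℝ) ^ 2) * (((i : ℝ) + 2) / δ2) ^ 2 * (qd δ2 ^ i * b0 i))) /
      ((n : ℝ) ^ e * bc n w) := by
      apply div_le_div_of_nonneg_right _ (by positivity)
      exact mul_le_mul_of_nonneg_left g1 (by positivity)
    refine k2.trans ?_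
    have k3 : (3 * (i : ℝ) + 2) * ((n : ℝ) ^ e * bc n w * lp ^ (i + 2 - e) * E *
        (2 * (C0 / (n : ℝ) ^ 2) * (((i : ℝ) + 2) / δ2) ^ 2 * (qd δ2 ^ i * b0 i))) /
      ((n : ℝ) ^ e * bc n w) = TsAi lp δ2 e i * (E * (2 * C0 / δ2 ^ 2)) / (n : ℝ) ^ 2 := by
      unfold TsAi
      have h8 : (n : ℝ) ^ e ≠ 0 := by positivity
      have h9 := hbp.ne'
      have h10 := hd.ne'
      field_simp
    rw [k3]
    apply div_le_div_of_nonneg_left (by positivity) hn0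
    nlinarith
  have k4 : |∑ j ∈ Finset.range (n + 3), (3 * (i : ℝ) + 2) * b0 i *
      (X 0 j / ((n : ℝ) ^ e * bc n w) -
        ((w : ℝ) / n) ^ (2 * j + e) / ((2 * j + e).factorial : ℝ) * Bn n w (i + 2 - e) j)| ≤
      TsAi lp δ2 e i * E / n := by
    refine (Finset.abs_sum_le_sum_abs _ _).trans ?_
    calc _ ≤ ∑ j ∈ Finset.range (n + 3), (3 * (i : ℝ) + 2) * b0 i *
          (lp ^ (i + 2 - e) * ((i : ℝ) + 2) * TsEj C0 j / n) := by
          apply Finset.sum_le_sum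
          intro j _
          rw [abs_mul, abs_of_nonneg (show (0 : ℝ) ≤ (3 * (i : ℝ) + 2) * b0 i by positivity)]
          exact mul_le_mul_of_nonneg_left (tsm_A tk hn ha hb he hi hbp j) (by positivity)
      _ = (3 * (i : ℝ) + 2) * b0 i * (lp ^ (i + 2 - e) * ((i : ℝ) + 2)) *
          (∑ j ∈ Finset.range (n + 3), TsEj C0 j) / n := by
          rw [Finset.mul_sum, Finset.sum_div]
          apply Finset.sum_congr rfl
          intro j _
          ring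
      _ ≤ _ := by
          apply div_le_div_of_nonneg_right _ hn0.le
          apply mul_le_mul (TsAi_ge tk).1 (TsEj_sum hC.le _) _ hA
          exact Finset.sum_nonneg fun j _ => TsEj_nonneg hC.le j
  refine (add_le_add k1 k4).trans (le_of_eq ?_)
  ring

end

open Classical in
theorem tsm {ω1 ω2 : ℝ} (h1 : 0 < ω1) (h2 : ω2 < 1) {e : ℕ} (he : e = 1 ∨ e = 2) :
    ∃ δ0 : ℝ, 0 < δ0 ∧ ∀ δ : ℝ, 0 < δ → δ ≤ δ0 → ∃ C : ℝ, ∃ n0 : ℕ, 0 < C ∧
      ∀ n w : ℕ, n0 ≤ n → ω1 * n ≤ w → (w : ℝ) ≤ ω2 * n →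
        |(∑ i ∈ (Finset.range n).filter (fun i : ℕ => (i : ℝ) ≤ δ * n), Ti e n w i) /
          ((n : ℝ) ^ e * bc n w) - Ms e n w| ≤ C / n := by
  obtain ⟨lp, C0, δ2, δ0, ρ, K, n0, tk⟩ := tsm_const h1 h2
  refine ⟨δ0, tk.d00, fun δ hδ hδδ => ?_⟩
  have hr0 : 0 < ρ := by linarith [tk.r0]
  have hr1 := tk.r1
  have hK := tk.K0
  have hC := tk.C00
  have hd := tk.d20
  obtain ⟨N1, hN1⟩ := tsm_Jc_pow hr0.le hr1
  obtain ⟨N2, hN2⟩ := tsm_Jc_le hδ
  obtain ⟨N3, hN3⟩ := tsm_Jc_le (show (0 : ℝ) < 1 / 2 by norm_num)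
  set E : ℝ := 64 * Real.exp (64 * C0) with hE
  have hE0 : 0 < E := by positivity
  have hρi : 0 < (1 - ρ)⁻¹ := inv_pos.2 (by linarith)
  refine ⟨3 * K * (1 - ρ)⁻¹ * (E * (2 * C0 / δ2 ^ 2 + 1)) + 3 * K * (1 - ρ)⁻¹ * E * 2 +
    3 * K * (1 - ρ)⁻¹ * E * 2, n0 + N1 + N2 + N3, by positivity, ?_⟩
  intro n w hn ha hb
  have hn' : n0 ≤ n := by omega
  have hn4 : 4 ≤ n := tk.n2.trans hn'
  have hn0 : (0 : ℝ) < n := by exact_mod_cast (by omega : 0 < n)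
  obtain ⟨m1, m2⟩ := tk.main n w hn' ha hb
  have hw6 := (m2 0 (by rw [Nat.cast_zero]; exact mul_nonneg tk.d00.le hn0.le)).1
  rcases (bc_nonneg n w).eq_or_lt with hz | hbp
  · have hM : Ms e n w = 0 := by
      unfold Ms Bn
      rw [← hz]
      simp
    rw [← hz, hM]
    simp only [mul_zero, div_zero, sub_zero, abs_zero]
    positivity
  set J : ℕ := Jc n with hJ
  have hJ1 : ρ ^ J ≤ 2 / n := hN1 n (by omega)
  have hJ2 : (J : ℝ) ≤ δ * n := hN2 n (by omega)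
  have hJ3 : J ≤ n := by
    have h3 := hN3 n (by omega)
    have h4 : (J : ℝ) ≤ n := by linarith
    exact_mod_cast h4
  set S : Finset ℕ := (Finset.range n).filter (fun i : ℕ => (i : ℝ) ≤ δ * n) with hS
  have hSi : ∀ i ∈ S, (i : ℝ) ≤ δ0 * n := by
    intro i hi
    have h3 := (Finset.mem_filter.1 hi).2
    exact h3.trans (mul_le_mul_of_nonneg_right hδδ hn0.le)
  have hJS : Finset.range J ⊆ S := by
    intro i hi
    rw [Finset.mem_range] at hi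
    rw [hS, Finset.mem_filter, Finset.mem_range]
    refine ⟨by omega, ?_⟩
    have h3 : (i : ℝ) ≤ J := by exact_mod_cast hi.le
    exact h3.trans hJ2
  have hMs : Ms e n w = ∑ i ∈ Finset.range J, ∑ j ∈ Finset.range J, TsMt e n w i j := rfl
  have hsum : ∀ T : Finset ℕ, ∑ i ∈ T, TsAi lp δ2 e i ≤ 3 * K * (1 - ρ)⁻¹ := by
    intro T
    calc ∑ i ∈ T, TsAi lp δ2 e i ≤ ∑ i ∈ T, 3 * K * ρ ^ i := by
          apply Finset.sum_le_sum
          intro i _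
          refine (TsAi_le tk he).trans ?_
          apply mul_le_mul_of_nonneg_left _ (by positivity)
          have : ρ ^ i ≤ 1 := pow_le_one₀ hr0.le hr1.le
          calc ρ ^ i * ρ ^ i ≤ ρ ^ i * 1 := mul_le_mul_of_nonneg_left this (by positivity)
            _ = ρ ^ i := mul_one _
      _ = 3 * K * ∑ i ∈ T, ρ ^ i := by rw [Finset.mul_sum]
      _ ≤ _ := mul_le_mul_of_nonneg_left (tsm_sum_geo hr0.le hr1 T) (by positivity)
  have hsumJ : ∀ T : Finset ℕ, (∀ i ∈ T, J ≤ i) →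
      ∑ i ∈ T, TsAi lp δ2 e i ≤ 3 * K * (1 - ρ)⁻¹ * ρ ^ J := by
    intro T hT
    calc ∑ i ∈ T, TsAi lp δ2 e i ≤ ∑ i ∈ T, 3 * K * ρ ^ J * ρ ^ i := by
          apply Finset.sum_le_sum
          intro i hi
          refine (TsAi_le tk he).trans ?_
          rw [mul_assoc (3 * K)]
          apply mul_le_mul_of_nonneg_left _ (by positivity)
          apply mul_le_mul_of_nonneg_right _ (by positivity)
          exact pow_le_pow_of_le_one hr0.le hr1.le (hT i hi)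
      _ = 3 * K * ρ ^ J * ∑ i ∈ T, ρ ^ i := by rw [Finset.mul_sum]
      _ ≤ 3 * K * ρ ^ J * (1 - ρ)⁻¹ :=
        mul_le_mul_of_nonneg_left (tsm_sum_geo hr0.le hr1 T) (by positivity)
      _ = _ := by ring
  -- first difference
  have d1 : |(∑ i ∈ S, Ti e n w i) / ((n : ℝ) ^ e * bc n w) -
      ∑ i ∈ S, ∑ j ∈ Finset.range (n + 3), TsMt e n w i j| ≤
      3 * K * (1 - ρ)⁻¹ * (E * (2 * C0 / δ2 ^ 2 + 1)) / n := by
    rw [Finset.sum_div, ← Finset.sum_sub_distrib]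
    refine (Finset.abs_sum_le_sum_abs _ _).trans ?_
    calc _ ≤ ∑ i ∈ S, TsAi lp δ2 e i * (E * (2 * C0 / δ2 ^ 2 + 1)) / n := by
          apply Finset.sum_le_sum
          intro i hi
          exact tsm_one tk hn' ha hb he (hSi i hi) hbp
      _ = (∑ i ∈ S, TsAi lp δ2 e i) * (E * (2 * C0 / δ2 ^ 2 + 1)) / n := by
          rw [Finset.sum_mul, Finset.sum_div]
      _ ≤ _ := by
          apply div_le_div_of_nonneg_right _ hn0.le
          exact mul_le_mul_of_nonneg_right (hsum S) (by positivity)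
  -- second difference
  have d2 : |∑ i ∈ S, ∑ j ∈ Finset.range (n + 3), TsMt e n w i j - Ms e n w| ≤
      3 * K * (1 - ρ)⁻¹ * E * 2 / n + 3 * K * (1 - ρ)⁻¹ * E * 2 / n := by
    rw [hMs, ← Finset.sum_sdiff hJS, add_sub_assoc, ← Finset.sum_sub_distrib]
    refine (abs_add_le _ _).trans (add_le_add ?_ ?_)
    · have hT : ∀ i ∈ S \ Finset.range J, J ≤ i := by
        intro i hi
        rw [Finset.mem_sdiff, Finset.mem_range] at hi
        omega
      rw [abs_of_nonneg (Finset.sum_nonneg fun i hi => Finset.sum_nonneg fun j _ =>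
        (TsMt_bd tk hn' ha hb he (hSi i (Finset.mem_sdiff.1 hi).1) hbp j).1)]
      calc _ ≤ ∑ i ∈ S \ Finset.range J, TsAi lp δ2 e i * E := by
            apply Finset.sum_le_sum
            intro i hi
            have h3 := (TsMt_sum tk hn' ha hb he (hSi i (Finset.mem_sdiff.1 hi).1) hbp
              (J := 0) (m := n + 3) (by omega)).2
            simpa using h3
        _ = (∑ i ∈ S \ Finset.range J, TsAi lp δ2 e i) * E := by rw [Finset.sum_mul]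
        _ ≤ 3 * K * (1 - ρ)⁻¹ * ρ ^ J * E :=
            mul_le_mul_of_nonneg_right (hsumJ _ hT) hE0.le
        _ ≤ 3 * K * (1 - ρ)⁻¹ * (2 / n) * E := by
            apply mul_le_mul_of_nonneg_right _ hE0.le
            exact mul_le_mul_of_nonneg_left hJ1 (by positivity)
        _ = _ := by ring
    · have hi' : ∀ i ∈ Finset.range J, (i : ℝ) ≤ δ0 * n := fun i hi => hSi i (hJS hi)
      have hb2 : ∀ i ∈ Finset.range J,
          0 ≤ ∑ j ∈ Finset.range (n + 3), TsMt e n w i j - ∑ j ∈ Finset.range J, TsMt e n w i j ∧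
          ∑ j ∈ Finset.range (n + 3), TsMt e n w i j - ∑ j ∈ Finset.range J, TsMt e n w i j ≤
            TsAi lp δ2 e i * (ρ ^ J * E) := fun i hi =>
        TsMt_sum tk hn' ha hb he (hi' i hi) hbp (by omega)
      rw [abs_of_nonneg (Finset.sum_nonneg fun i hi => (hb2 i hi).1)]
      calc _ ≤ ∑ i ∈ Finset.range J, TsAi lp δ2 e i * (ρ ^ J * E) :=
            Finset.sum_le_sum fun i hi => (hb2 i hi).2
        _ = (∑ i ∈ Finset.range J, TsAi lp δ2 e i) * (ρ ^ J * E) := by rw [Finset.sum_mul]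
        _ ≤ 3 * K * (1 - ρ)⁻¹ * (2 / n * E) := by
            apply mul_le_mul (hsum _) _ (by positivity) (by positivity)
            exact mul_le_mul_of_nonneg_right hJ1 hE0.le
        _ = _ := by ring
  have d3 : (∑ i ∈ S, Ti e n w i) / ((n : ℝ) ^ e * bc n w) - Ms e n w =
      ((∑ i ∈ S, Ti e n w i) / ((n : ℝ) ^ e * bc n w) -
        ∑ i ∈ S, ∑ j ∈ Finset.range (n + 3), TsMt e n w i j) +
      (∑ i ∈ S, ∑ j ∈ Finset.range (n + 3), TsMt e n w i j - Ms e n w) := by ring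
  rw [d3]
  refine (abs_add_le _ _).trans ((add_le_add d1 d2).trans (le_of_eq ?_))
  ring

end UN39
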