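import Mathlib
import Pool.Agent.H39.UN.Ineq
import Pool.Agent.H39.UP.Rb
import Pool.Agent.H39.UP.Tsm

/-!
[H39 UP FST1]  (MP_bcc40c_pr)  The first sums of the string equation and of the Toda equation.

PROOF.  As in TSM: `C(w+2j, 2j+1) = (1/m!) ∏_{l=0}^{m-1} (w+l)`, `m = 2j+1`; `bc n (w+2j) ≤ (C0/n^2)^j bc n w` (rb with `s = 0`), zero if `w+2j > n+2`;
`|∏_{l<m} (w+l) - w^m| ≤ m^2 (2n)^(m-1)`.  So the error is `≤ ∑_j m^2 2^m C0^j/(m! n)`, and the tail `j ≥ Jc n` is `≤ ∑_{j ≥ Jc n} 2^m C0^j/m! ≤ C/n`.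
fst2: the same with `C(w+1+2j, 2j+2) = (1/m!) ∏_{l=0}^{m-1} (w+l)`, `m = 2j+2`, and `bc (n+1) (w+1+2j) ≤ (C0/n^2)^j bc (n+1) (w+1) ≤ C1 (C0/n^2)^j bc n w`
(rb at `(n+1, w+1)` for the region `ω1/2, (1+ω2)/2`, and rb_up).
-/

set_option autoImplicit false

namespace UN39

/-- the rising product and the power -/
private theorem fst_asc {w n : ℕ} (m : ℕ) (hm : w + m ≤ 2 * n + 1) :
    (w : ℝ) ^ m ≤ (w.ascFactorial m : ℝ) ∧ (w.ascFactorial m : ℝ) ≤ (2 * (n : ℝ)) ^ m ∧
      (w.ascFactorial (m + 1) : ℝ) - (w : ℝ) ^ (m + 1) ≤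
        ((w : ℝ) + m) * (w.ascFactorial m : ℝ) - (w : ℝ) ^ (m + 1) := by
  refine ⟨?_, ?_, ?_⟩
  · induction m with
    | zero => simp
    | succ m ih =>
      have h1 := ih (by omega)
      rw [Nat.ascFactorial_succ, pow_succ]
      push_cast
      have h2 : (0 : ℝ) ≤ (w : ℝ) ^ m := by positivity
      have h3 : (0 : ℝ) ≤ (w.ascFactorial m : ℝ) := by positivity
      have h4 : (0 : ℝ) ≤ (w : ℝ) := by positivity
      have h5 : (0 : ℝ) ≤ (m : ℝ) := by positivity
      nlinarith [mul_nonneg h5 h3, mul_le_mul_of_nonneg_left h1 h4]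
  · induction m with
    | zero => simp
    | succ m ih =>
      have h1 := ih (by omega)
      rw [Nat.ascFactorial_succ, pow_succ]
      push_cast
      have h2 : ((w : ℝ) + m) ≤ 2 * n := by
        have : w + m ≤ 2 * n := by omega
        exact_mod_cast this
      have h3 : (0 : ℝ) ≤ (w.ascFactorial m : ℝ) := by positivity
      have h4 : (0 : ℝ) ≤ (w : ℝ) + m := by positivity
      calc ((w : ℝ) + m) * (w.ascFactorial m : ℝ) ≤ (2 * n) * (2 * (n : ℝ)) ^ m :=
            mul_le_mul h2 h1 h3 (by positivity)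
        _ = _ := by ring
  · rw [Nat.ascFactorial_succ]
    push_cast
    exact le_rfl

private theorem fst_dif {w n : ℕ} (m : ℕ) (hm : w + (m + 1) ≤ 2 * n + 1) (hw : w ≤ 2 * n) :
    (w.ascFactorial (m + 1) : ℝ) - (w : ℝ) ^ (m + 1) ≤ ((m : ℝ) + 1) ^ 2 * (2 * (n : ℝ)) ^ m := by
  induction m with
  | zero =>
    rw [Nat.ascFactorial_succ]
    simp
  | succ m ih =>
    have h1 := ih (by omega)
    have h2 := (fst_asc (w := w) (n := n) (m + 1) (by omega)).2.1
    have h3 := (fst_asc (w := w) (n := n) (m + 1) (by omega)).2.2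
    have h4 : (0 : ℝ) ≤ (w : ℝ) := by positivity
    have h5 : (w : ℝ) ≤ 2 * n := by exact_mod_cast hw
    have h6 := (fst_asc (w := w) (n := n) (m + 1) (by omega)).1
    set A : ℝ := (w.ascFactorial (m + 1) : ℝ) with hA
    set q : ℝ := (2 * (n : ℝ)) ^ m with hq
    have hq0 : 0 ≤ q := by positivity
    have h7 : (2 * (n : ℝ)) ^ (m + 1) = q * (2 * n) := by rw [pow_succ]
    rw [h7] at h2 ⊢
    refine h3.trans ?_
    have h8 : ((w : ℝ) + (m + 1 : ℕ)) * A - (w : ℝ) ^ (m + 1 + 1) =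
        w * (A - (w : ℝ) ^ (m + 1)) + (m + 1) * A := by
      push_cast
      ring
    rw [h8]
    have h9 : (w : ℝ) * (A - (w : ℝ) ^ (m + 1)) ≤ (2 * n) * (((m : ℝ) + 1) ^ 2 * q) :=
      mul_le_mul h5 h1 (by linarith) (by positivity)
    have h10 : ((m : ℝ) + 1) * A ≤ ((m : ℝ) + 1) * (q * (2 * n)) :=
      mul_le_mul_of_nonneg_left h2 (by positivity)
    have h11 : (0 : ℝ) ≤ q * (2 * n) := by positivity
    have h12 : (0 : ℝ) ≤ (m : ℝ) := by positivity
    push_cast
    nlinarith [mul_nonneg h12 h11]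

private theorem fst_log {n : ℕ} : (n : ℝ) ≤ 2 * 2 ^ (Jc n) := by
  have h1 : n < 2 ^ (Nat.log 2 n + 1) := Nat.lt_pow_succ_log_self (by norm_num) n
  have h2 : Nat.log 2 n ≤ Jc n := by
    unfold Jc
    nlinarith [Nat.zero_le (Nat.log 2 n), Nat.mul_self_le_mul_self (Nat.zero_le (Nat.log 2 n)),
      Nat.le_mul_self (Nat.log 2 n)]
  have h3 : n ≤ 2 * 2 ^ (Jc n) := by
    have h4 : 2 ^ (Nat.log 2 n + 1) ≤ 2 ^ (Jc n + 1) := Nat.pow_le_pow_right (by norm_num) (by omega)
    rw [pow_succ] at h4 h1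
    rw [pow_succ] at h4
    omega
  exact_mod_cast h3

private theorem fst_sq (j : ℕ) : (2 * (j : ℝ) + 2) ^ 2 ≤ 4 * 9 ^ j := by
  induction j with
  | zero => norm_num
  | succ j ih =>
    have h3 : (9 : ℝ) ^ (j + 1) = 9 ^ j * 9 := pow_succ _ _
    rw [h3]
    push_cast
    have hj : (0 : ℝ) ≤ j := by positivity
    nlinarith

private theorem fst_num {C0 C1 : ℝ} (h0 : 0 < C0) (h1 : 0 < C1) {e : ℕ} (he : e = 1 ∨ e = 2) (j : ℕ) :
    C1 * (2 * C0) ^ j * ((2 * j + e : ℕ) : ℝ) ^ 2 * 2 ^ (2 * j + e + 1) /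
      ((2 * j + e).factorial : ℝ) ≤ 32 * C1 * ((72 * C0) ^ j / (j.factorial : ℝ)) := by
  have h2 : ((2 * j + e : ℕ) : ℝ) ^ 2 ≤ 4 * 9 ^ j := by
    refine le_trans ?_ (fst_sq j)
    have h3 : ((2 * j + e : ℕ) : ℝ) ≤ 2 * (j : ℝ) + 2 := by
      have : 2 * j + e ≤ 2 * j + 2 := by omega
      exact_mod_cast this
    exact pow_le_pow_left₀ (by positivity) h3 2
  have h4 : (2 : ℝ) ^ (2 * j + e + 1) ≤ 8 * 4 ^ j := by
    have h5 : (2 : ℝ) ^ (2 * j + e + 1) ≤ 2 ^ (2 * j + 3) :=
      pow_le_pow_right₀ (by norm_num) (by omega)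
    refine h5.trans (le_of_eq ?_)
    rw [pow_add, pow_mul]
    norm_num
    ring
  have h6 : (j.factorial : ℝ) ≤ ((2 * j + e).factorial : ℝ) := by
    exact_mod_cast Nat.factorial_le (by omega)
  have h7 : (0 : ℝ) < (j.factorial : ℝ) := by positivity
  have h8 : (0 : ℝ) < ((2 * j + e).factorial : ℝ) := by positivity
  have h9 : C1 * (2 * C0) ^ j * ((2 * j + e : ℕ) : ℝ) ^ 2 * 2 ^ (2 * j + e + 1) ≤
      C1 * (2 * C0) ^ j * (4 * 9 ^ j) * (8 * 4 ^ j) := by
    gcongr
  calc C1 * (2 * C0) ^ j * ((2 * j + e : ℕ) : ℝ) ^ 2 * 2 ^ (2 * j + e + 1) /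
        ((2 * j + e).factorial : ℝ)
      ≤ C1 * (2 * C0) ^ j * (4 * 9 ^ j) * (8 * 4 ^ j) / (j.factorial : ℝ) := by
        gcongr
    _ = 32 * C1 * ((72 * C0) ^ j / (j.factorial : ℝ)) := by
        have h10 : (72 * C0) ^ j = (2 * C0) ^ j * 9 ^ j * 4 ^ j := by
          rw [← mul_pow, ← mul_pow]
          congr 1
          ring
        rw [h10]
        ring

private theorem fst_core {e : ℕ} (he : e = 1 ∨ e = 2) {C0 C1 : ℝ} (h0 : 0 < C0) (h1 : 0 < C1) :
    ∀ n w : ℕ, ∀ R : ℕ → ℝ, 4 ≤ n → w ≤ n → (∀ j, 0 ≤ R j) →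
      (∀ j, R j ≤ C1 * (C0 / (n : ℝ) ^ 2) ^ j) → (∀ j, n + 3 < w + 2 * j + e - 1 → R j = 0) →
      |∑ j ∈ Finset.range (n + 3), ((w + 2 * j + e - 1).choose (2 * j + e) : ℝ) * R j / (n : ℝ) ^ e -
        ∑ j ∈ Finset.range (Jc n), ((w : ℝ) / n) ^ (2 * j + e) / ((2 * j + e).factorial : ℝ) *
          ((n : ℝ) ^ (2 * j) * R j)| ≤ 32 * C1 * Real.exp (72 * C0) / n := by
  intro n w R hn hw hR0 hR1 hR2
  have hn0 : (0 : ℝ) < n := by
    have : 0 < n := by omega
    exact_mod_cast this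
  set N := n + 3 + Jc n with hN
  set a : ℕ → ℝ := fun j => ((w + 2 * j + e - 1).choose (2 * j + e) : ℝ) * R j / (n : ℝ) ^ e with ha
  set c : ℕ → ℝ := fun j => ((w : ℝ) / n) ^ (2 * j + e) / ((2 * j + e).factorial : ℝ) *
          ((n : ℝ) ^ (2 * j) * R j) with hc
  have s1 : ∑ j ∈ Finset.range (n + 3), a j = ∑ j ∈ Finset.range N, a j := by
    refine Finset.sum_subset ?_ ?_
    · intro x hx
      rw [Finset.mem_range] at hx ⊢
      omega
    · intro x _ hx
      rw [Finset.mem_range, not_lt] at hx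
      rw [ha]
      simp only
      rw [hR2 x (by omega)]
      simp
  have s2 : ∑ j ∈ Finset.range (Jc n), c j =
      ∑ j ∈ Finset.range N, (if j < Jc n then c j else 0) := by
    rw [← Finset.sum_filter]
    refine Finset.sum_congr ?_ fun _ _ => rfl
    ext x
    simp only [Finset.mem_range, Finset.mem_filter]
    omega
  rw [s1, s2, ← Finset.sum_sub_distrib]
  have key : ∀ j, |a j - (if j < Jc n then c j else 0)| ≤
      32 * C1 / n * ((72 * C0) ^ j / (j.factorial : ℝ)) := by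
    intro j
    have hfac : (0 : ℝ) < ((2 * j + e).factorial : ℝ) := by positivity
    by_cases hbig : n + 3 < w + 2 * j + e - 1
    · have h2 : a j = 0 := by
        rw [ha]
        simp only
        rw [hR2 j hbig]
        simp
      have h3 : c j = 0 := by
        rw [hc]
        simp only
        rw [hR2 j hbig]
        simp
      rw [h2, h3]
      simp only [ite_self, sub_zero, abs_zero]
      positivity
    · have hm : w + (2 * j + e) ≤ 2 * n + 1 := by omega
      have hasc : ((w + 2 * j + e - 1).choose (2 * j + e) : ℝ) =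
          (w.ascFactorial (2 * j + e) : ℝ) / ((2 * j + e).factorial : ℝ) := by
        rw [eq_div_iff hfac.ne', Nat.ascFactorial_eq_factorial_mul_choose']
        push_cast
        have h4 : w + 2 * j + e - 1 = w + (2 * j + e) - 1 := by omega
        rw [h4]
        ring
      have ha' : a j = (w.ascFactorial (2 * j + e) : ℝ) * (R j / (((2 * j + e).factorial : ℝ) *
          (n : ℝ) ^ e)) := by
        rw [ha]
        simp only
        rw [hasc]
        field_simp
      have hc' : c j = (w : ℝ) ^ (2 * j + e) * (R j / (((2 * j + e).factorial : ℝ) *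
          (n : ℝ) ^ e)) := by
        rw [hc]
        simp only
        rw [div_pow, pow_add (n : ℝ)]
        field_simp
      have hRn : R j / (((2 * j + e).factorial : ℝ) * (n : ℝ) ^ e) ≤
          C1 * (C0 / (n : ℝ) ^ 2) ^ j / (((2 * j + e).factorial : ℝ) * (n : ℝ) ^ e) := by
        have := hR1 j
        gcongr
      have hRn0 : 0 ≤ R j / (((2 * j + e).factorial : ℝ) * (n : ℝ) ^ e) :=
        div_nonneg (hR0 j) (by positivity)
      have hnum := fst_num h0 h1 he j
      have hfin : 1 / (n : ℝ) * (C1 * (2 * C0) ^ j * ((2 * j + e : ℕ) : ℝ) ^ 2 *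
          2 ^ (2 * j + e + 1) / ((2 * j + e).factorial : ℝ)) ≤
          32 * C1 / n * ((72 * C0) ^ j / (j.factorial : ℝ)) := by
        calc _ ≤ 1 / (n : ℝ) * (32 * C1 * ((72 * C0) ^ j / (j.factorial : ℝ))) := by
              exact mul_le_mul_of_nonneg_left hnum (by positivity)
          _ = _ := by ring
      refine le_trans ?_ hfin
      have hpw : (2 * (n : ℝ)) ^ (2 * j + e) = 2 ^ (2 * j + e) * ((n : ℝ) ^ 2) ^ j * (n : ℝ) ^ e := by
        rw [mul_pow, pow_add (n : ℝ), pow_mul]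
        ring
      have hm1 : (1 : ℝ) ≤ ((2 * j + e : ℕ) : ℝ) ^ 2 := by
        have : 1 ≤ 2 * j + e := by omega
        have h5 : (1 : ℝ) ≤ ((2 * j + e : ℕ) : ℝ) := by exact_mod_cast this
        exact one_le_pow₀ h5
      split_ifs with hj
      · rw [ha', hc', ← sub_mul, abs_mul, abs_of_nonneg hRn0]
        have h6 := (fst_asc (w := w) (n := n) (2 * j + e) hm).1
        rw [abs_of_nonneg (by linarith)]
        obtain ⟨m, hme⟩ : ∃ m, 2 * j + e = m + 1 := ⟨2 * j + e - 1, by omega⟩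
        have h7 := fst_dif (w := w) (n := n) m (by omega) (by omega)
        have h8 : ((m : ℝ) + 1) ^ 2 * (2 * (n : ℝ)) ^ m = ((2 * j + e : ℕ) : ℝ) ^ 2 *
            ((2 * (n : ℝ)) ^ (2 * j + e) / (2 * n)) := by
          rw [hme, pow_succ (2 * (n : ℝ))]
          push_cast
          field_simp
        rw [← hme, h8] at h7
        have h2j : (C0 : ℝ) ^ j ≤ (2 * C0) ^ j := pow_le_pow_left₀ h0.le (by linarith) j
        calc ((w.ascFactorial (2 * j + e) : ℝ) - (w : ℝ) ^ (2 * j + e)) *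
              (R j / (((2 * j + e).factorial : ℝ) * (n : ℝ) ^ e))
            ≤ (((2 * j + e : ℕ) : ℝ) ^ 2 * ((2 * (n : ℝ)) ^ (2 * j + e) / (2 * n))) *
              (C1 * (C0 / (n : ℝ) ^ 2) ^ j / (((2 * j + e).factorial : ℝ) * (n : ℝ) ^ e)) :=
              mul_le_mul h7 hRn hRn0 (by positivity)
          _ = 1 / (n : ℝ) * (C1 * C0 ^ j * ((2 * j + e : ℕ) : ℝ) ^ 2 *
              (2 ^ (2 * j + e) / 2) / ((2 * j + e).factorial : ℝ)) := by
              rw [hpw, div_pow]
              field_simp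
          _ ≤ 1 / (n : ℝ) * (C1 * (2 * C0) ^ j * ((2 * j + e : ℕ) : ℝ) ^ 2 *
              2 ^ (2 * j + e + 1) / ((2 * j + e).factorial : ℝ)) := by
              have h9 : (2 : ℝ) ^ (2 * j + e) / 2 ≤ 2 ^ (2 * j + e + 1) := by
                rw [pow_succ]
                have : (0 : ℝ) < 2 ^ (2 * j + e) := by positivity
                linarith
              gcongr
      · rw [sub_zero, ha', abs_of_nonneg (by positivity)]
        have h6 := (fst_asc (w := w) (n := n) (2 * j + e) hm).2.1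
        have h10 := fst_log (n := n)
        have h11 : (2 : ℝ) ^ (Jc n) ≤ 2 ^ j := pow_le_pow_right₀ (by norm_num) (by omega)
        have h12 : (1 : ℝ) ≤ 1 / n * (2 * 2 ^ j) := by
          rw [one_div, ← div_eq_inv_mul, le_div_iff₀ hn0]
          linarith
        calc (w.ascFactorial (2 * j + e) : ℝ) * (R j / (((2 * j + e).factorial : ℝ) * (n : ℝ) ^ e))
            ≤ (2 * (n : ℝ)) ^ (2 * j + e) *
              (C1 * (C0 / (n : ℝ) ^ 2) ^ j / (((2 * j + e).factorial : ℝ) * (n : ℝ) ^ e)) :=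
              mul_le_mul h6 hRn hRn0 (by positivity)
          _ = C1 * C0 ^ j * 2 ^ (2 * j + e) / ((2 * j + e).factorial : ℝ) := by
              rw [hpw, div_pow]
              field_simp
          _ ≤ (1 / n * (2 * 2 ^ j)) * (((2 * j + e : ℕ) : ℝ) ^ 2 *
              (C1 * C0 ^ j * 2 ^ (2 * j + e) / ((2 * j + e).factorial : ℝ))) := by
              have h13 : 0 ≤ C1 * C0 ^ j * 2 ^ (2 * j + e) / ((2 * j + e).factorial : ℝ) := by
                positivity
              have h14 := le_mul_of_one_le_left h13 hm1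
              exact h14.trans (le_mul_of_one_le_left (h13.trans h14) h12)
          _ = 1 / (n : ℝ) * (C1 * (2 * C0) ^ j * ((2 * j + e : ℕ) : ℝ) ^ 2 *
              2 ^ (2 * j + e + 1) / ((2 * j + e).factorial : ℝ)) := by
              rw [mul_pow, pow_succ (2 : ℝ)]
              ring
  calc |∑ j ∈ Finset.range N, (a j - (if j < Jc n then c j else 0))|
      ≤ ∑ j ∈ Finset.range N, |a j - (if j < Jc n then c j else 0)| :=
        Finset.abs_sum_le_sum_abs _ _
    _ ≤ ∑ j ∈ Finset.range N, 32 * C1 / n * ((72 * C0) ^ j / (j.factorial : ℝ)) :=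
        Finset.sum_le_sum fun j _ => key j
    _ = 32 * C1 / n * ∑ j ∈ Finset.range N, (72 * C0) ^ j / (j.factorial : ℝ) := by
        rw [Finset.mul_sum]
    _ ≤ 32 * C1 / n * Real.exp (72 * C0) := by
        have := Real.sum_le_exp_of_nonneg (x := 72 * C0) (by positivity) N
        gcongr
    _ = _ := by ring

theorem fst1 {ω1 ω2 : ℝ} (h1 : 0 < ω1) (h2 : ω2 < 1) :
    ∃ C : ℝ, ∃ n0 : ℕ, 0 < C ∧ ∀ n w : ℕ, n0 ≤ n → ω1 * n ≤ w → (w : ℝ) ≤ ω2 * n →
      |(∑ j ∈ Finset.range (n + 3), ((w + 2 * j).choose (2 * j + 1) : ℝ) * bc n (w + 2 * j)) /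
        ((n : ℝ) * bc n w) - ∑ j ∈ Finset.range (Jc n),
          ((w : ℝ) / n) ^ (2 * j + 1) / ((2 * j + 1).factorial : ℝ) * Bn n w 0 j| ≤ C / n := by
  obtain ⟨lp, C0, δ, N, _, _, hC0, hδ, hN⟩ := rb h1 h2
  refine ⟨32 * 1 * Real.exp (72 * C0), max N 4, by positivity, ?_⟩
  intro n w hn ha hb
  have hn4 : 4 ≤ n := le_trans (le_max_right _ _) hn
  have hnN : N ≤ n := le_trans (le_max_left _ _) hn
  have hn0 : (0 : ℝ) < n := by
    have : 0 < n := by omega
    exact_mod_cast this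
  have hwn : w ≤ n := by
    have h3 : (w : ℝ) ≤ n := by nlinarith
    exact_mod_cast h3
  rcases (bc_nonneg n w).eq_or_lt with hz | hpos
  · unfold Bn
    rw [← hz]
    simp only [mul_zero, div_zero, Finset.sum_const_zero, sub_zero, abs_zero]
    positivity
  · have key := fst_core (e := 1) (Or.inl rfl) hC0 one_pos n w
      (fun j => bc n (w + 2 * j) / bc n w) hn4 hwn
      (fun j => div_nonneg (bc_nonneg _ _) hpos.le)
      (fun j => by
        rw [div_le_iff₀ hpos, one_mul]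
        have h3 := hN n w 0 j hnN ha hb (by simp; positivity)
        simpa using h3)
      (fun j hj => by
        have h3 : bc n (w + 2 * j) = 0 := by
          by_contra hne
          have := (bc_supp hne).2.1
          omega
        simp only [h3, zero_div])
    refine le_trans (le_of_eq ?_) key
    congr 1
    congr 1
    · rw [Finset.sum_div]
      refine Finset.sum_congr rfl fun j _ => ?_
      have h4 : w + 2 * j + 1 - 1 = w + 2 * j := by omega
      rw [h4, pow_one]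
      field_simp
    · refine Finset.sum_congr rfl fun j _ => ?_
      unfold Bn
      rw [Nat.sub_zero, Nat.sub_zero, mul_div_assoc]

/-- normalised ratios upwards -/
noncomputable def Bu (n w j : ℕ) : ℝ := (n : ℝ) ^ (2 * j) * bc (n + 1) (w + 1 + 2 * j) / bc n w

theorem fst2 {ω1 ω2 : ℝ} (h1 : 0 < ω1) (h2 : ω2 < 1) :
    ∃ C : ℝ, ∃ n0 : ℕ, 0 < C ∧ ∀ n w : ℕ, n0 ≤ n → ω1 * n ≤ w → (w : ℝ) ≤ ω2 * n →
      |(∑ j ∈ Finset.range (n + 3), ((w + 1 + 2 * j).choose (2 * j + 2) : ℝ) *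
          bc (n + 1) (w + 1 + 2 * j)) /
        ((n : ℝ) ^ 2 * bc n w) - ∑ j ∈ Finset.range (Jc n),
          ((w : ℝ) / n) ^ (2 * j + 2) / ((2 * j + 2).factorial : ℝ) * Bu n w j| ≤ C / n := by
  obtain ⟨lp, C0, δ, N, _, _, hC0, hδ, hN⟩ := rb (ω1 := ω1 / 2) (ω2 := (1 + ω2) / 2)
    (by linarith) (by linarith)
  obtain ⟨C1, N1, hC1, hN1⟩ := rb_up h1 h2
  refine ⟨32 * C1 * Real.exp (72 * C0), max (max N N1) 4, by positivity, ?_⟩
  intro n w hn ha hb
  have hn4 : 4 ≤ n := le_trans (le_max_right _ _) hn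
  have hnN : N ≤ n := le_trans (le_trans (le_max_left _ _) (le_max_left _ _)) hn
  have hnN1 : N1 ≤ n := le_trans (le_trans (le_max_right _ _) (le_max_left _ _)) hn
  have hn1 : (1 : ℝ) ≤ n := by
    have : 1 ≤ n := by omega
    exact_mod_cast this
  have hn0 : (0 : ℝ) < n := by linarith
  have hwn : w ≤ n := by
    have h3 : (w : ℝ) ≤ n := by nlinarith
    exact_mod_cast h3
  rcases (bc_nonneg n w).eq_or_lt with hz | hpos
  · unfold Bu
    rw [← hz]
    simp only [mul_zero, div_zero, Finset.sum_const_zero, sub_zero, abs_zero]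
    positivity
  · have key := fst_core (e := 2) (Or.inr rfl) hC0 hC1 n w
      (fun j => bc (n + 1) (w + 1 + 2 * j) / bc n w) hn4 hwn
      (fun j => div_nonneg (bc_nonneg _ _) hpos.le)
      (fun j => by
        rw [div_le_iff₀ hpos]
        have h3 := hN (n + 1) (w + 1) 0 j (by omega) (by push_cast; nlinarith)
          (by push_cast; nlinarith) (by simp; positivity)
        have h4 := hN1 n w hnN1 ha hb
        have h5 : (C0 / ((n + 1 : ℕ) : ℝ) ^ 2) ^ j ≤ (C0 / (n : ℝ) ^ 2) ^ j := by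
          push_cast
          gcongr
          linarith
        rw [Nat.sub_zero, Nat.sub_zero, pow_zero, one_mul] at h3
        calc bc (n + 1) (w + 1 + 2 * j) ≤ _ := h3
          _ ≤ (C0 / (n : ℝ) ^ 2) ^ j * (C1 * bc n w) :=
              mul_le_mul h5 h4 (bc_nonneg _ _) (by positivity)
          _ = _ := by ring)
      (fun j hj => by
        have h3 : bc (n + 1) (w + 1 + 2 * j) = 0 := by
          by_contra hne
          have := (bc_supp hne).2.1
          omega
        simp only [h3, zero_div])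
    refine le_trans (le_of_eq ?_) key
    congr 1
    congr 1
    · rw [Finset.sum_div]
      refine Finset.sum_congr rfl fun j _ => ?_
      have h4 : w + 2 * j + 2 - 1 = w + 1 + 2 * j := by omega
      rw [h4]
      field_simp
    · refine Finset.sum_congr rfl fun j _ => ?_
      unfold Bu
      rw [mul_div_assoc]

end UN39
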