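import Mathlib
import Pool.Agent.H39.UN.Ineq
import Pool.Agent.H39.UN.PlA
import Pool.Agent.H39.UP.Bet
import Pool.Agent.H39.UP.Rb
import Pool.Agent.H39.UP.Sec
import Pool.Agent.H39.UP.Tsm

/-!
[H39 UP TBG]  (MP_bcc40c_pr)  The large first factors in the double sum.

PROOF.  Write `i = n-1-i'`, `i' ≤ δ n`.  Constants as in TSM (`lp, C0, δ1` from rb, `θ = qd δ2 lp/lamc < 1`, `δ0`).  In `Ti e n w i` write
`v' = w - u + 2j + e` for the number of vertices of the second factor (size `k' = n+e-2-i`, which is `i'` for `e = 1` and `i'+1` for `e = 2`).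
`v' ≤ k'+2`, `v' = k'+2-2g`; `u = w + 2j + e - v'`, and `u ≤ w` means `2j+e ≤ v'`.
The first factor is `bc (n-1-i') u`: for `e = 1`: `u = (w-1-i') + 2(g+j)`; for `e = 2`: `u = w+2j+2-(i'+1+2-2g) = (w-1-i')+2(g+j)`: the same.  So it is
`≤ lp^(1+i') (C0/n^2)^(g+j) b` (rb), and the binomial coefficient is `C(v', 2j+e) ≤ v'^(2j+e) ≤ (i'+3)^(2j+e)`.
`e = 1`: the terms with `g + j ≥ 1`: `≤ (3n+2) (i'+3) ∑ bc i' (i'+2-2g) lp^(1+i') ((i'+3)^2 C0/n^2)^(g+j) b`; for `(i'+3)^2 C0/(δ2 n)^2 ≤ 1/2` the sum is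
`≤ C n (i'+3)^3/n^2 θ^i' b` (beta_np); divided by `n b`: `≤ C (i'+3)^3 θ^i'/n^2`.  The term `g = j = 0`: `(3(n-1-i')+2) b0 i' (i'+2) bc (n-1-i') (w-1-i')`; replace
`3(n-1-i')+2` by `3n`: error `≤ C (i'+2)^2 θ^i'/n`.  Terms with `i' ≥ Jc n`: negligible as in TSM.
`e = 2`: everything is `≤ (3n+2) (i'+3)^2 C θ^i' b`; divided by `n^2 b` and summed: `≤ C/n`.
-/

set_option autoImplicit false

namespace UN39

theorem tbg_inner (i k m w : ℕ) (hw : k + 2 ≤ w + m) :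
    ∑ u ∈ Finset.range (w + 1), bc i u * (((w - u + m).choose m : ℝ) * bc k (w - u + m)) =
      ∑ g ∈ Finset.range (k + 2), (if 2 * g ≤ k + 2 then bc k (k + 2 - 2 * g) *
        (((k + 2 - 2 * g).choose m : ℝ) * bc i (w + m - (k + 2 - 2 * g))) else 0) := by
  rw [← tsm_reindex k (w + m) hw (fun v => ((v.choose m : ℕ) : ℝ) * bc i (w + m - v))]
  have h1 : w + m + 1 = m + (w + 1) := by omega
  rw [h1, Finset.sum_range_add (fun v => bc k v * (((v.choose m : ℕ) : ℝ) * bc i (w + m - v))) m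
    (w + 1)]
  have h2 : ∑ v ∈ Finset.range m, bc k v * (((v.choose m : ℕ) : ℝ) * bc i (w + m - v)) = 0 := by
    apply Finset.sum_eq_zero
    intro v hv
    rw [Finset.mem_range] at hv
    rw [Nat.choose_eq_zero_of_lt hv]
    simp
  rw [h2, zero_add, ← Finset.sum_range_reflect]
  apply Finset.sum_congr rfl
  intro u hu
  rw [Finset.mem_range] at hu
  have e1 : w + 1 - 1 - u = w - u := by omega
  have e2 : w - (w - u) + m = m + u := by omega
  have e3 : w + m - (m + u) = w - u := by omega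
  rw [e1, e2, e3]
  ring

theorem tbg_form {n w a e : ℕ} (he : e = 1 ∨ e = 2) (ha : a < n) (hw : a + 6 ≤ w) :
    Ti e n w (n - 1 - a) = (3 * ((n - 1 - a : ℕ) : ℝ) + 2) * ∑ j ∈ Finset.range (n + 3),
      ∑ g ∈ Finset.range (a + e - 1 + 2), (if 2 * g ≤ a + e - 1 + 2 then
        bc (a + e - 1) (a + e - 1 + 2 - 2 * g) *
          (((a + e - 1 + 2 - 2 * g).choose (2 * j + e) : ℝ) *
            bc (n - (a + 1)) (w - (a + 1) + 2 * (g + j))) else 0) := by
  unfold Ti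
  congr 1
  simp only [Finset.mul_sum]
  rw [Finset.sum_comm]
  apply Finset.sum_congr rfl
  intro j _
  have e1 : n + e - 2 - (n - 1 - a) = a + e - 1 := by rcases he with rfl | rfl <;> omega
  rw [e1]
  have h1 := tbg_inner (n - 1 - a) (a + e - 1) (2 * j + e) w (by omega)
  simp only [← Nat.add_assoc] at h1
  rw [h1]
  apply Finset.sum_congr rfl
  intro g _
  split_ifs with hg
  · have e2 : w + 2 * j + e - (a + e - 1 + 2 - 2 * g) = w - (a + 1) + 2 * (g + j) := by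
      rcases he with rfl | rfl <;> omega
    have e3 : n - 1 - a = n - (a + 1) := by omega
    rw [e2, e3]
  · rfl

section
variable {ω1 ω2 lp C0 δ2 δ0 ρ K : ℝ} {n0 : ℕ} {n w a e : ℕ}

/-- the geometric sum in `j` -/
theorem tbg_geo {y : ℝ} (h0 : 0 ≤ y) (h1 : y ≤ 1 / 2) (m : ℕ) :
    ∑ j ∈ Finset.range m, y ^ j ≤ 2 ∧ ∑ j ∈ Finset.range m, y ^ (j + 1) ≤ 2 * y := by
  have h2 : ∑ j ∈ Finset.range m, y ^ j ≤ 2 := by
    refine (tsm_sum_geo h0 (by linarith) _).trans ?_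
    rw [inv_le_comm₀ (by linarith) (by norm_num)]
    linarith
  refine ⟨h2, ?_⟩
  simp only [pow_succ]
  rw [← Finset.sum_mul]
  exact mul_le_mul_of_nonneg_right h2 h0

/-- one term -/
theorem tbg_X (tk : TsK ω1 ω2 lp C0 δ2 δ0 ρ K n0) (hn : n0 ≤ n) (ha : ω1 * n ≤ w)
    (hb : (w : ℝ) ≤ ω2 * n) (he : e = 1 ∨ e = 2) (hi : ((a + 1 : ℕ) : ℝ) ≤ δ0 * n) (g j : ℕ) :
    ((a + e - 1 + 2 - 2 * g).choose (2 * j + e) : ℝ) *
        bc (n - (a + 1)) (w - (a + 1) + 2 * (g + j)) ≤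
      ((a : ℝ) + 3) ^ e * lp ^ (a + 1) * bc n w * (C0 / (n : ℝ) ^ 2) ^ g *
        (((a : ℝ) + 3) ^ 2 * (C0 / (n : ℝ) ^ 2)) ^ j := by
  obtain ⟨m1, m2⟩ := tk.main n w hn ha hb
  obtain ⟨m3, m4, m5⟩ := m2 (a + 1) hi
  have hC := tk.C00
  have hlp := tk.lp0
  have hb0 := bc_nonneg n w
  have h5 := m5 (a + 1) (by omega) (g + j)
  have h6 : ((a + e - 1 + 2 - 2 * g).choose (2 * j + e) : ℝ) ≤ ((a : ℝ) + 3) ^ (2 * j + e) := by
    have h7 : ((a + e - 1 + 2 - 2 * g).choose (2 * j + e)) ≤ (a + 3) ^ (2 * j + e) := by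
      refine (Nat.choose_le_pow _ _).trans ?_
      apply Nat.pow_le_pow_left
      omega
    exact_mod_cast h7
  refine (mul_le_mul h6 h5 (bc_nonneg _ _) (by positivity)).trans (le_of_eq ?_)
  rw [pow_add, pow_add, pow_mul, mul_pow]
  ring

/-- sum over `j` and over the positive genera, and over everything -/
theorem tbg_sum (tk : TsK ω1 ω2 lp C0 δ2 δ0 ρ K n0) (hn : n0 ≤ n) (ha : ω1 * n ≤ w)
    (hb : (w : ℝ) ≤ ω2 * n) (he : e = 1 ∨ e = 2) (hi : ((a + 1 : ℕ) : ℝ) ≤ δ0 * n)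
    (f : ℕ → ℕ → ℝ) (hf : ∀ g j, f g j = (if 2 * g ≤ a + e - 1 + 2 then
        bc (a + e - 1) (a + e - 1 + 2 - 2 * g) *
          (((a + e - 1 + 2 - 2 * g).choose (2 * j + e) : ℝ) *
            bc (n - (a + 1)) (w - (a + 1) + 2 * (g + j))) else 0)) :
    (∀ g j, 0 ≤ f g j) ∧
    (∑ j ∈ Finset.range (n + 3), ∑ g ∈ Finset.range (a + e - 1 + 2), f g j ≤
      ((a : ℝ) + 3) ^ e * lp ^ (a + 1) * bc n w * 2 * (2 * qd δ2 ^ (a + e - 1) * b0 (a + e - 1))) ∧
    (∑ j ∈ Finset.range (n + 3), ∑ g ∈ Finset.range (a + e - 1 + 1), f (g + 1) j ≤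
      ((a : ℝ) + 3) ^ e * lp ^ (a + 1) * bc n w * 2 *
        (2 * (C0 / (n : ℝ) ^ 2) * ((((a + e - 1 : ℕ) : ℝ) + 2) / δ2) ^ 2 *
          (qd δ2 ^ (a + e - 1) * b0 (a + e - 1)))) ∧
    (∑ j ∈ Finset.range (n + 2), f 0 (j + 1) ≤
      ((a : ℝ) + 3) ^ e * lp ^ (a + 1) * bc n w * b0 (a + e - 1) *
        (2 * (((a : ℝ) + 3) ^ 2 * (C0 / (n : ℝ) ^ 2)))) := by
  obtain ⟨m1, m2⟩ := tk.main n w hn ha hb
  obtain ⟨m3, m4, m5⟩ := m2 (a + 1) hi
  have hn4 : 4 ≤ n := tk.n2.trans hn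
  have hn0 : (0 : ℝ) < n := by exact_mod_cast (by omega : 0 < n)
  have hC := tk.C00
  have hlp := tk.lp0
  have hd := tk.d20
  have hd1 := tk.d21
  have hb0 := bc_nonneg n w
  have hbk := b0_pos (a + e - 1)
  set x : ℝ := C0 / (n : ℝ) ^ 2 with hx
  have hx0 : 0 < x := by positivity
  have m6 : x * ((((a + e - 1 : ℕ) : ℝ) + 2) / δ2) ^ 2 ≤ 1 / 2 := by
    refine le_trans ?_ m4
    apply mul_le_mul_of_nonneg_left _ hx0.le
    apply pow_le_pow_left₀ (by positivity)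
    apply div_le_div_of_nonneg_right _ hd.le
    have : ((a + e - 1 : ℕ) : ℝ) ≤ ((a + 1 : ℕ) : ℝ) := by
      exact_mod_cast (by omega : a + e - 1 ≤ a + 1)
    linarith
  have hy : ((a : ℝ) + 3) ^ 2 * x ≤ 1 / 2 := by
    refine le_trans ?_ m4
    rw [mul_comm]
    apply mul_le_mul_of_nonneg_left _ hx0.le
    apply pow_le_pow_left₀ (by positivity)
    rw [le_div_iff₀ hd]
    push_cast
    have : (0 : ℝ) ≤ a := Nat.cast_nonneg a
    nlinarith
  have hy0 : 0 ≤ ((a : ℝ) + 3) ^ 2 * x := by positivity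
  obtain ⟨g1, g2⟩ := beta_np hd hd1 (a + e - 1) hx0.le m6
  have hf0 : ∀ g j, 0 ≤ f g j := by
    intro g j
    rw [hf]
    split_ifs
    · exact mul_nonneg (bc_nonneg _ _) (mul_nonneg (Nat.cast_nonneg _) (bc_nonneg _ _))
    · exact le_rfl
  have hfb : ∀ g j, f g j ≤ ((a : ℝ) + 3) ^ e * lp ^ (a + 1) * bc n w *
      (((a : ℝ) + 3) ^ 2 * x) ^ j * (if 2 * g ≤ a + e - 1 + 2 then
        bc (a + e - 1) (a + e - 1 + 2 - 2 * g) * x ^ g else 0) := by
    intro g j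
    rw [hf]
    split_ifs
    · refine (mul_le_mul_of_nonneg_left (tbg_X tk hn ha hb he hi g j) (bc_nonneg _ _)).trans
        (le_of_eq ?_)
      rw [← hx]
      ring
    · rw [mul_zero]
  refine ⟨hf0, ?_, ?_, ?_⟩
  · calc ∑ j ∈ Finset.range (n + 3), ∑ g ∈ Finset.range (a + e - 1 + 2), f g j
        ≤ ∑ j ∈ Finset.range (n + 3), ((a : ℝ) + 3) ^ e * lp ^ (a + 1) * bc n w *
          (((a : ℝ) + 3) ^ 2 * x) ^ j * (2 * qd δ2 ^ (a + e - 1) * b0 (a + e - 1)) := by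
          apply Finset.sum_le_sum
          intro j _
          refine (Finset.sum_le_sum fun g _ => hfb g j).trans ?_
          rw [← Finset.mul_sum]
          exact mul_le_mul_of_nonneg_left g1 (by positivity)
      _ = ((a : ℝ) + 3) ^ e * lp ^ (a + 1) * bc n w *
          (∑ j ∈ Finset.range (n + 3), (((a : ℝ) + 3) ^ 2 * x) ^ j) *
            (2 * qd δ2 ^ (a + e - 1) * b0 (a + e - 1)) := by
          rw [Finset.mul_sum, Finset.sum_mul]
      _ ≤ _ := by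
          have hq := qd_one hd hd1
          apply mul_le_mul_of_nonneg_right _ (by positivity)
          exact mul_le_mul_of_nonneg_left (tbg_geo hy0 hy _).1 (by positivity)
  · calc ∑ j ∈ Finset.range (n + 3), ∑ g ∈ Finset.range (a + e - 1 + 1), f (g + 1) j
        ≤ ∑ j ∈ Finset.range (n + 3), ((a : ℝ) + 3) ^ e * lp ^ (a + 1) * bc n w *
          (((a : ℝ) + 3) ^ 2 * x) ^ j *
            (2 * x * ((((a + e - 1 : ℕ) : ℝ) + 2) / δ2) ^ 2 *
              (qd δ2 ^ (a + e - 1) * b0 (a + e - 1))) := by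
          apply Finset.sum_le_sum
          intro j _
          have q1 : ∑ g ∈ Finset.range (a + e - 1 + 1), f (g + 1) j =
              ∑ g ∈ (Finset.range (a + e - 1 + 1)).image (fun g => g + 1), f g j := by
            rw [Finset.sum_image]
            intro a' _ b' _ hab
            exact Nat.succ_injective hab
          have q2 : ∑ g ∈ (Finset.range (a + e - 1 + 1)).image (fun g => g + 1), f g j ≤
              ∑ g ∈ Finset.Icc 1 (a + e - 1 + 2), f g j := by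
            apply Finset.sum_le_sum_of_subset_of_nonneg
            · intro g hg
              rw [Finset.mem_image] at hg
              obtain ⟨c, hc, rfl⟩ := hg
              rw [Finset.mem_range] at hc
              rw [Finset.mem_Icc]
              omega
            · intro g _ _
              exact hf0 g j
          rw [q1]
          refine q2.trans ((Finset.sum_le_sum fun g _ => hfb g j).trans ?_)
          rw [← Finset.mul_sum]
          exact mul_le_mul_of_nonneg_left g2 (by positivity)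
      _ = ((a : ℝ) + 3) ^ e * lp ^ (a + 1) * bc n w *
          (∑ j ∈ Finset.range (n + 3), (((a : ℝ) + 3) ^ 2 * x) ^ j) *
            (2 * x * ((((a + e - 1 : ℕ) : ℝ) + 2) / δ2) ^ 2 *
              (qd δ2 ^ (a + e - 1) * b0 (a + e - 1))) := by
          rw [Finset.mul_sum, Finset.sum_mul]
      _ ≤ _ := by
          have hq := qd_one hd hd1
          apply mul_le_mul_of_nonneg_right _ (by positivity)
          exact mul_le_mul_of_nonneg_left (tbg_geo hy0 hy _).1 (by positivity)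
  · calc ∑ j ∈ Finset.range (n + 2), f 0 (j + 1)
        ≤ ∑ j ∈ Finset.range (n + 2), ((a : ℝ) + 3) ^ e * lp ^ (a + 1) * bc n w *
          (((a : ℝ) + 3) ^ 2 * x) ^ (j + 1) * b0 (a + e - 1) := by
          apply Finset.sum_le_sum
          intro j _
          refine (hfb 0 (j + 1)).trans (le_of_eq ?_)
          rw [if_pos (by omega), pow_zero, mul_one]
          rfl
      _ = ((a : ℝ) + 3) ^ e * lp ^ (a + 1) * bc n w * b0 (a + e - 1) *
          (∑ j ∈ Finset.range (n + 2), (((a : ℝ) + 3) ^ 2 * x) ^ (j + 1)) := by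
          rw [Finset.mul_sum]
          apply Finset.sum_congr rfl
          intro j _
          ring
      _ ≤ _ := mul_le_mul_of_nonneg_left (tbg_geo hy0 hy _).2 (by positivity)

/-- the error of one size, `e = 1` -/
theorem tbg_one (tk : TsK ω1 ω2 lp C0 δ2 δ0 ρ K n0) (hn : n0 ≤ n) (ha : ω1 * n ≤ w)
    (hb : (w : ℝ) ≤ ω2 * n) (hi : ((a + 1 : ℕ) : ℝ) ≤ δ0 * n) (han : a < n) (hbp : 0 < bc n w) :
    |Ti 1 n w (n - 1 - a) / ((n : ℝ) * bc n w) - 3 * ((a : ℝ) + 2) * b0 a * Bn n w (a + 1) 0| ≤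
      (24 * C0 / δ2 ^ 2 + 48 * C0 + 3) * K * ρ ^ a / n := by
  obtain ⟨m1, m2⟩ := tk.main n w hn ha hb
  obtain ⟨m3, m4, m5⟩ := m2 (a + 1) hi
  have hn4 : 4 ≤ n := tk.n2.trans hn
  have hn0 : (0 : ℝ) < n := by exact_mod_cast (by omega : 0 < n)
  have hn1 : (1 : ℝ) ≤ n := by exact_mod_cast (by omega : 1 ≤ n)
  have hC := tk.C00
  have hlp := tk.lp0
  have hd := tk.d20
  have hd1 := tk.d21
  have hq := qd_one hd hd1
  have hK := tk.K0
  have hr0 : 0 < ρ := by linarith [tk.r0]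
  have hba := b0_pos a
  have ha0 : (0 : ℝ) ≤ a := Nat.cast_nonneg a
  set f : ℕ → ℕ → ℝ := fun g j => (if 2 * g ≤ a + 1 - 1 + 2 then
        bc (a + 1 - 1) (a + 1 - 1 + 2 - 2 * g) *
          (((a + 1 - 1 + 2 - 2 * g).choose (2 * j + 1) : ℝ) *
            bc (n - (a + 1)) (w - (a + 1) + 2 * (g + j))) else 0) with hf
  obtain ⟨f0, f1, f2, f3⟩ := tbg_sum tk hn ha hb (Or.inl rfl) hi f (fun g j => rfl)
  have hform := tbg_form (n := n) (w := w) (a := a) (e := 1) (Or.inl rfl) han (by omega)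
  have hform' : Ti 1 n w (n - 1 - a) = (3 * ((n - 1 - a : ℕ) : ℝ) + 2) *
      ∑ j ∈ Finset.range (n + 3), ∑ g ∈ Finset.range (a + 1 - 1 + 2), f g j := hform
  have hsplit : ∑ j ∈ Finset.range (n + 3), ∑ g ∈ Finset.range (a + 1 - 1 + 2), f g j =
      ∑ j ∈ Finset.range (n + 3), ∑ g ∈ Finset.range (a + 1 - 1 + 1), f (g + 1) j +
        ∑ j ∈ Finset.range (n + 2), f 0 (j + 1) + f 0 0 := by
    have q1 : ∀ j, ∑ g ∈ Finset.range (a + 1 - 1 + 2), f g j =
        ∑ g ∈ Finset.range (a + 1 - 1 + 1), f (g + 1) j + f 0 j := fun j =>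
      Finset.sum_range_succ' (fun g => f g j) (a + 1 - 1 + 1)
    simp only [q1]
    rw [Finset.sum_add_distrib, Finset.sum_range_succ' (fun j => f 0 j) (n + 2), add_assoc]
  have f00 : f 0 0 = b0 a * ((a : ℝ) + 2) * bc (n - (a + 1)) (w - (a + 1)) := by
    simp only [hf]
    rw [if_pos (by omega)]
    have q1 : a + 1 - 1 + 2 - 2 * 0 = a + 2 := by omega
    have q2 : a + 1 - 1 = a := by omega
    rw [q1, q2]
    simp only [mul_zero, zero_add, add_zero, Nat.choose_one_right]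
    unfold b0
    push_cast
    ring
  have hBn : Bn n w (a + 1) 0 = bc (n - (a + 1)) (w - (a + 1)) / bc n w := by
    unfold Bn
    simp
  have hBl : Bn n w (a + 1) 0 ≤ lp ^ (a + 1) := by
    have := tsm_Bn_le tk hn ha hb hi hbp (s := a + 1) (by omega) 0
    simpa using this
  have hB0 := tsm_Bn_nonneg n w (a + 1) 0
  set cN : ℝ := (3 * ((n - 1 - a : ℕ) : ℝ) + 2) with hcN
  have ecN : cN = 3 * n - (3 * a + 1) := by
    rw [hcN, Nat.sub_sub, Nat.cast_sub (by omega)]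
    push_cast
    ring
  have hcN0 : 0 ≤ cN := by rw [hcN]; positivity
  have hcN3 : cN ≤ 3 * n := by rw [ecN]; linarith
  have e2 : a + 1 - 1 = a := by omega
  rw [e2] at f1 f2 f3
  -- the geometric factor
  have hgeo := tk.geo a
  have hgeo' : ((a : ℝ) + 2) ^ 3 * (b0 a * lp ^ (a + 1) * qd δ2 ^ a) ≤ K * ρ ^ a := by
    have h1 : lp ^ (a + 1) ≤ lp ^ a := pow_le_pow_of_le_one hlp.le tk.lp1.le (by omega)
    calc ((a : ℝ) + 2) ^ 3 * (b0 a * lp ^ (a + 1) * qd δ2 ^ a)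
        ≤ ((a : ℝ) + 2) ^ 3 * (b0 a * lp ^ a * qd δ2 ^ a) := by
          apply mul_le_mul_of_nonneg_left _ (by positivity)
          apply mul_le_mul_of_nonneg_right _ (by positivity)
          exact mul_le_mul_of_nonneg_left h1 hba.le
      _ ≤ K * (ρ ^ a * ρ ^ a) := hgeo
      _ ≤ K * ρ ^ a := by
          apply mul_le_mul_of_nonneg_left _ hK.le
          have : ρ ^ a ≤ 1 := pow_le_one₀ hr0.le tk.r1.le
          calc ρ ^ a * ρ ^ a ≤ ρ ^ a * 1 := mul_le_mul_of_nonneg_left this (by positivity)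
            _ = ρ ^ a := mul_one _
  set Z : ℝ := b0 a * lp ^ (a + 1) with hZ
  have hZ0 : 0 < Z := by positivity
  have hq1 : 1 ≤ qd δ2 ^ a := one_le_pow₀ hq
  have h3a : (a : ℝ) + 3 ≤ 2 * ((a : ℝ) + 2) := by linarith
  have main : Ti 1 n w (n - 1 - a) / ((n : ℝ) * bc n w) -
      3 * ((a : ℝ) + 2) * b0 a * Bn n w (a + 1) 0 =
      cN * (∑ j ∈ Finset.range (n + 3), ∑ g ∈ Finset.range (a + 1 - 1 + 1), f (g + 1) j) /
        ((n : ℝ) * bc n w) +
      cN * (∑ j ∈ Finset.range (n + 2), f 0 (j + 1)) / ((n : ℝ) * bc n w) +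
      -((3 * a + 1) / n * (((a : ℝ) + 2) * b0 a * Bn n w (a + 1) 0)) := by
    rw [hform', hsplit, f00, hBn, ecN]
    have h9 := hbp.ne'
    field_simp
    ring
  have t1 : |cN * (∑ j ∈ Finset.range (n + 3), ∑ g ∈ Finset.range (a + 1 - 1 + 1), f (g + 1) j) /
        ((n : ℝ) * bc n w)| ≤ (24 * C0 / δ2 ^ 2) * K * ρ ^ a / n := by
    rw [e2, abs_of_nonneg (div_nonneg (mul_nonneg hcN0 (Finset.sum_nonneg fun j _ =>
      Finset.sum_nonneg fun g _ => f0 _ _)) (by positivity))]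
    calc _ ≤ (3 * n) * (((a : ℝ) + 3) ^ 1 * lp ^ (a + 1) * bc n w * 2 *
          (2 * (C0 / (n : ℝ) ^ 2) * (((a : ℝ) + 2) / δ2) ^ 2 * (qd δ2 ^ a * b0 a))) /
            ((n : ℝ) * bc n w) := by
          apply div_le_div_of_nonneg_right _ (by positivity)
          exact mul_le_mul hcN3 f2 (Finset.sum_nonneg fun j _ =>
            Finset.sum_nonneg fun g _ => f0 _ _) (by positivity)
      _ = (12 * C0 / δ2 ^ 2) * (((a : ℝ) + 3) * ((a : ℝ) + 2) ^ 2 * (Z * qd δ2 ^ a)) /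
            (n : ℝ) ^ 2 := by
          rw [hZ]
          have h9 := hbp.ne'
          have h10 := hd.ne'
          field_simp
          ring
      _ ≤ (12 * C0 / δ2 ^ 2) * (2 * (K * ρ ^ a)) / (n : ℝ) ^ 2 := by
          apply div_le_div_of_nonneg_right _ (by positivity)
          apply mul_le_mul_of_nonneg_left _ (by positivity)
          calc ((a : ℝ) + 3) * ((a : ℝ) + 2) ^ 2 * (Z * qd δ2 ^ a)
              ≤ (2 * ((a : ℝ) + 2)) * ((a : ℝ) + 2) ^ 2 * (Z * qd δ2 ^ a) := by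
                apply mul_le_mul_of_nonneg_right _ (by positivity)
                exact mul_le_mul_of_nonneg_right h3a (by positivity)
            _ = 2 * (((a : ℝ) + 2) ^ 3 * (Z * qd δ2 ^ a)) := by ring
            _ ≤ _ := mul_le_mul_of_nonneg_left hgeo' (by norm_num)
      _ ≤ (12 * C0 / δ2 ^ 2) * (2 * (K * ρ ^ a)) / n := by
          apply div_le_div_of_nonneg_left (by positivity) hn0
          nlinarith
      _ = _ := by ring
  have t2 : |cN * (∑ j ∈ Finset.range (n + 2), f 0 (j + 1)) / ((n : ℝ) * bc n w)| ≤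
      (48 * C0) * K * ρ ^ a / n := by
    rw [abs_of_nonneg (div_nonneg (mul_nonneg hcN0 (Finset.sum_nonneg fun j _ => f0 _ _))
      (by positivity))]
    calc _ ≤ (3 * n) * (((a : ℝ) + 3) ^ 1 * lp ^ (a + 1) * bc n w * b0 a *
          (2 * (((a : ℝ) + 3) ^ 2 * (C0 / (n : ℝ) ^ 2)))) / ((n : ℝ) * bc n w) := by
          apply div_le_div_of_nonneg_right _ (by positivity)
          exact mul_le_mul hcN3 f3 (Finset.sum_nonneg fun j _ => f0 _ _) (by positivity)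
      _ = (6 * C0) * (((a : ℝ) + 3) ^ 3 * Z) / (n : ℝ) ^ 2 := by
          rw [hZ]
          have h9 := hbp.ne'
          field_simp
          ring
      _ ≤ (6 * C0) * (8 * (K * ρ ^ a)) / (n : ℝ) ^ 2 := by
          apply div_le_div_of_nonneg_right _ (by positivity)
          apply mul_le_mul_of_nonneg_left _ (by positivity)
          calc ((a : ℝ) + 3) ^ 3 * Z ≤ (2 * ((a : ℝ) + 2)) ^ 3 * (Z * qd δ2 ^ a) := by
                apply mul_le_mul _ _ hZ0.le (by positivity)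
                · exact pow_le_pow_left₀ (by positivity) h3a 3
                · calc Z = Z * 1 := (mul_one Z).symm
                    _ ≤ Z * qd δ2 ^ a := mul_le_mul_of_nonneg_left hq1 hZ0.le
            _ = 8 * (((a : ℝ) + 2) ^ 3 * (Z * qd δ2 ^ a)) := by ring
            _ ≤ _ := mul_le_mul_of_nonneg_left hgeo' (by norm_num)
      _ ≤ (6 * C0) * (8 * (K * ρ ^ a)) / n := by
          apply div_le_div_of_nonneg_left (by positivity) hn0
          nlinarith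
      _ = _ := by ring
  have t3 : |-((3 * a + 1) / n * (((a : ℝ) + 2) * b0 a * Bn n w (a + 1) 0))| ≤
      3 * K * ρ ^ a / n := by
    rw [abs_neg, abs_of_nonneg (by positivity)]
    calc (3 * a + 1) / n * (((a : ℝ) + 2) * b0 a * Bn n w (a + 1) 0)
        = (3 * a + 1) * ((a : ℝ) + 2) * (b0 a * Bn n w (a + 1) 0) / n := by ring
      _ ≤ 3 * (K * ρ ^ a) / n := by
          apply div_le_div_of_nonneg_right _ hn0.le
          have h1 : (3 * (a : ℝ) + 1) * ((a : ℝ) + 2) ≤ 3 * ((a : ℝ) + 2) ^ 3 := by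
            have h2 : (3 * (a : ℝ) + 1) ≤ 3 * ((a : ℝ) + 2) ^ 2 := by nlinarith
            calc _ ≤ 3 * ((a : ℝ) + 2) ^ 2 * ((a : ℝ) + 2) :=
                  mul_le_mul_of_nonneg_right h2 (by positivity)
              _ = _ := by ring
          have h3 : b0 a * Bn n w (a + 1) 0 ≤ Z * qd δ2 ^ a := by
            calc b0 a * Bn n w (a + 1) 0 ≤ b0 a * lp ^ (a + 1) :=
                  mul_le_mul_of_nonneg_left hBl hba.le
              _ = Z * 1 := by rw [hZ, mul_one]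
              _ ≤ Z * qd δ2 ^ a := mul_le_mul_of_nonneg_left hq1 hZ0.le
          calc (3 * (a : ℝ) + 1) * ((a : ℝ) + 2) * (b0 a * Bn n w (a + 1) 0)
              ≤ 3 * ((a : ℝ) + 2) ^ 3 * (Z * qd δ2 ^ a) :=
                mul_le_mul h1 h3 (by positivity) (by positivity)
            _ = 3 * (((a : ℝ) + 2) ^ 3 * (Z * qd δ2 ^ a)) := by ring
            _ ≤ _ := mul_le_mul_of_nonneg_left hgeo' (by norm_num)
      _ = _ := by ring
  rw [main]
  refine (abs_add_three _ _ _).trans ?_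
  refine (add_le_add (add_le_add t1 t2) t3).trans (le_of_eq ?_)
  ring

/-- the bound of one size, `e = 2` -/
theorem tbg_two (tk : TsK ω1 ω2 lp C0 δ2 δ0 ρ K n0) (hn : n0 ≤ n) (ha : ω1 * n ≤ w)
    (hb : (w : ℝ) ≤ ω2 * n) (hi : ((a + 1 : ℕ) : ℝ) ≤ δ0 * n) (han : a < n) (hbp : 0 < bc n w) :
    0 ≤ Ti 2 n w (n - 1 - a) / ((n : ℝ) ^ 2 * bc n w) ∧
    Ti 2 n w (n - 1 - a) / ((n : ℝ) ^ 2 * bc n w) ≤ 12 * K * ρ ^ a / n := by
  obtain ⟨m1, m2⟩ := tk.main n w hn ha hb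
  obtain ⟨m3, m4, m5⟩ := m2 (a + 1) hi
  have hn4 : 4 ≤ n := tk.n2.trans hn
  have hn0 : (0 : ℝ) < n := by exact_mod_cast (by omega : 0 < n)
  have hC := tk.C00
  have hlp := tk.lp0
  have hd := tk.d20
  have hd1 := tk.d21
  have hq := qd_one hd hd1
  have hK := tk.K0
  have hr0 : 0 < ρ := by linarith [tk.r0]
  have hba := b0_pos (a + 1)
  have ha0 : (0 : ℝ) ≤ a := Nat.cast_nonneg a
  obtain ⟨f0, f1, -, -⟩ := tbg_sum tk hn ha hb (Or.inr rfl) hi
    (fun g j => (if 2 * g ≤ a + 2 - 1 + 2 then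
        bc (a + 2 - 1) (a + 2 - 1 + 2 - 2 * g) *
          (((a + 2 - 1 + 2 - 2 * g).choose (2 * j + 2) : ℝ) *
            bc (n - (a + 1)) (w - (a + 1) + 2 * (g + j))) else 0)) (fun g j => rfl)
  have hform := tbg_form (n := n) (w := w) (a := a) (e := 2) (Or.inr rfl) han (by omega)
  have e2 : a + 2 - 1 = a + 1 := by omega
  rw [e2] at f1 hform
  set cN : ℝ := (3 * ((n - 1 - a : ℕ) : ℝ) + 2) with hcN
  have ecN : cN = 3 * n - (3 * a + 1) := by
    rw [hcN, Nat.sub_sub, Nat.cast_sub (by omega)]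
    push_cast
    ring
  have hcN0 : 0 ≤ cN := by rw [hcN]; positivity
  have hcN3 : cN ≤ 3 * n := by rw [ecN]; linarith
  have hs0 : 0 ≤ ∑ j ∈ Finset.range (n + 3), ∑ g ∈ Finset.range (a + 1 + 2),
      (if 2 * g ≤ a + 1 + 2 then bc (a + 1) (a + 1 + 2 - 2 * g) *
          (((a + 1 + 2 - 2 * g).choose (2 * j + 2) : ℝ) *
            bc (n - (a + 1)) (w - (a + 1) + 2 * (g + j))) else 0) :=
    Finset.sum_nonneg fun j _ => Finset.sum_nonneg fun g _ => f0 g j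
  rw [hform]
  refine ⟨by positivity, ?_⟩
  have hgeo := tk.geo (a + 1)
  have hgeo' : ((a : ℝ) + 3) ^ 2 * (lp ^ (a + 1) * (qd δ2 ^ (a + 1) * b0 (a + 1))) ≤ K * ρ ^ a := by
    have h1 : ((a : ℝ) + 3) ^ 2 ≤ (((a + 1 : ℕ) : ℝ) + 2) ^ 3 := by
      push_cast
      have : (1 : ℝ) ≤ (a : ℝ) + 1 + 2 := by linarith
      calc ((a : ℝ) + 3) ^ 2 = ((a : ℝ) + 1 + 2) ^ 2 := by ring
        _ ≤ ((a : ℝ) + 1 + 2) ^ 3 := pow_le_pow_right₀ this (by norm_num)
    calc ((a : ℝ) + 3) ^ 2 * (lp ^ (a + 1) * (qd δ2 ^ (a + 1) * b0 (a + 1)))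
        ≤ (((a + 1 : ℕ) : ℝ) + 2) ^ 3 * (lp ^ (a + 1) * (qd δ2 ^ (a + 1) * b0 (a + 1))) :=
          mul_le_mul_of_nonneg_right h1 (by positivity)
      _ = (((a + 1 : ℕ) : ℝ) + 2) ^ 3 * (b0 (a + 1) * lp ^ (a + 1) * qd δ2 ^ (a + 1)) := by ring
      _ ≤ K * (ρ ^ (a + 1) * ρ ^ (a + 1)) := hgeo
      _ ≤ K * ρ ^ a := by
          apply mul_le_mul_of_nonneg_left _ hK.le
          have h2 : ρ ^ (a + 1) ≤ 1 := pow_le_one₀ hr0.le tk.r1.le
          have h3 : ρ ^ (a + 1) ≤ ρ ^ a := pow_le_pow_of_le_one hr0.le tk.r1.le (by omega)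
          calc ρ ^ (a + 1) * ρ ^ (a + 1) ≤ ρ ^ a * 1 :=
                mul_le_mul h3 h2 (by positivity) (by positivity)
            _ = ρ ^ a := mul_one _
  calc _ ≤ (3 * n) * (((a : ℝ) + 3) ^ 2 * lp ^ (a + 1) * bc n w * 2 *
        (2 * qd δ2 ^ (a + 1) * b0 (a + 1))) / ((n : ℝ) ^ 2 * bc n w) := by
        apply div_le_div_of_nonneg_right _ (by positivity)
        exact mul_le_mul hcN3 f1 hs0 (by positivity)
    _ = 12 * (((a : ℝ) + 3) ^ 2 * (lp ^ (a + 1) * (qd δ2 ^ (a + 1) * b0 (a + 1)))) / n := by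
        have h9 := hbp.ne'
        field_simp
        ring
    _ ≤ 12 * (K * ρ ^ a) / n := by
        apply div_le_div_of_nonneg_right _ hn0.le
        exact mul_le_mul_of_nonneg_left hgeo' (by norm_num)
    _ = _ := by ring

end

/-- reflection of the index -/
theorem tbg_refl (n : ℕ) (P : ℕ → Prop) [DecidablePred P] (F : ℕ → ℝ) :
    ∑ i ∈ (Finset.range n).filter (fun i => P (n - 1 - i)), F i =
      ∑ a ∈ (Finset.range n).filter P, F (n - 1 - a) := by
  rw [Finset.sum_filter, Finset.sum_filter, ← Finset.sum_range_reflect]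
  apply Finset.sum_congr rfl
  intro a ha
  rw [Finset.mem_range] at ha
  have e1 : n - 1 - (n - 1 - a) = a := by omega
  rw [e1]

open Classical in
theorem tbg1 {ω1 ω2 : ℝ} (h1 : 0 < ω1) (h2 : ω2 < 1) :
    ∃ δ0 : ℝ, 0 < δ0 ∧ ∀ δ : ℝ, 0 < δ → δ ≤ δ0 → ∃ C : ℝ, ∃ n0 : ℕ, 0 < C ∧
      ∀ n w : ℕ, n0 ≤ n → ω1 * n ≤ w → (w : ℝ) ≤ ω2 * n →
        |(∑ i ∈ (Finset.range n).filter (fun i : ℕ => ((n - 1 - i : ℕ) : ℝ) ≤ δ * n), Ti 1 n w i) /
          ((n : ℝ) * bc n w) -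
            ∑ i ∈ Finset.range (Jc n), 3 * ((i : ℝ) + 2) * b0 i * Bn n w (i + 1) 0| ≤ C / n := by
  obtain ⟨lp, C0, δ2, δ0, ρ, K, n0, tk⟩ := tsm_const h1 h2
  have hd00 := tk.d00
  refine ⟨δ0 / 2, by linarith, fun δ hδ hδδ => ?_⟩
  have hr0 : 0 < ρ := by linarith [tk.r0]
  have hr1 := tk.r1
  have hK := tk.K0
  have hC := tk.C00
  have hd := tk.d20
  have hlp := tk.lp0
  obtain ⟨N1, hN1⟩ := tsm_Jc_pow hr0.le hr1
  obtain ⟨N2, hN2⟩ := tsm_Jc_le hδ
  obtain ⟨N3, hN3⟩ := tsm_Jc_le (show (0 : ℝ) < 1 / 2 by norm_num)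
  obtain ⟨N4, hN4⟩ := exists_nat_ge (2 / δ0)
  have hρi : 0 < (1 - ρ)⁻¹ := inv_pos.2 (by linarith)
  refine ⟨(24 * C0 / δ2 ^ 2 + 48 * C0 + 3) * K * (1 - ρ)⁻¹ + 3 * K * (1 - ρ)⁻¹ * 2,
    n0 + N1 + N2 + N3 + N4, by positivity, ?_⟩
  intro n w hn ha hb
  have hn' : n0 ≤ n := by omega
  have hn4 : 4 ≤ n := tk.n2.trans hn'
  have hn0 : (0 : ℝ) < n := by exact_mod_cast (by omega : 0 < n)
  rcases (bc_nonneg n w).eq_or_lt with hz | hbp
  · have hM : ∑ i ∈ Finset.range (Jc n), 3 * ((i : ℝ) + 2) * b0 i * Bn n w (i + 1) 0 = 0 := by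
      unfold Bn
      rw [← hz]
      simp
    rw [← hz, hM]
    simp only [mul_zero, div_zero, sub_zero, abs_zero]
    positivity
  set J : ℕ := Jc n with hJ
  have hJ1 : ρ ^ J ≤ 2 / n := hN1 n (by omega)
  have hJ2 : (J : ℝ) ≤ δ * n := hN2 n (by omega)
  have hJ3 : J ≤ n := by
    have h3 := hN3 n (by omega)
    have h4 : (J : ℝ) ≤ n := by linarith
    exact_mod_cast h4
  have hN5 : 2 ≤ δ0 * n := by
    have h3 : (N4 : ℝ) ≤ n := by exact_mod_cast (by omega : N4 ≤ n)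
    have h4 : 2 / δ0 ≤ n := hN4.trans h3
    rw [div_le_iff₀ hd00] at h4
    linarith
  rw [tbg_refl n (fun a : ℕ => (a : ℝ) ≤ δ * n) (fun i => Ti 1 n w i)]
  set S : Finset ℕ := (Finset.range n).filter (fun i : ℕ => (i : ℝ) ≤ δ * n) with hS
  have hSi : ∀ i ∈ S, ((i + 1 : ℕ) : ℝ) ≤ δ0 * n := by
    intro i hi
    have h3 := (Finset.mem_filter.1 hi).2
    have h4 := mul_le_mul_of_nonneg_right hδδ hn0.le
    push_cast
    linarith
  have hSn : ∀ i ∈ S, i < n := fun i hi => Finset.mem_range.1 (Finset.mem_filter.1 hi).1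
  have hJS : Finset.range J ⊆ S := by
    intro i hi
    rw [Finset.mem_range] at hi
    rw [hS, Finset.mem_filter, Finset.mem_range]
    refine ⟨by omega, ?_⟩
    have h3 : (i : ℝ) ≤ J := by exact_mod_cast hi.le
    exact h3.trans hJ2
  have d1 : |(∑ a ∈ S, Ti 1 n w (n - 1 - a)) / ((n : ℝ) * bc n w) -
      ∑ a ∈ S, 3 * ((a : ℝ) + 2) * b0 a * Bn n w (a + 1) 0| ≤
      (24 * C0 / δ2 ^ 2 + 48 * C0 + 3) * K * (1 - ρ)⁻¹ / n := by
    rw [Finset.sum_div, ← Finset.sum_sub_distrib]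
    refine (Finset.abs_sum_le_sum_abs _ _).trans ?_
    calc _ ≤ ∑ a ∈ S, (24 * C0 / δ2 ^ 2 + 48 * C0 + 3) * K * ρ ^ a / n := by
          apply Finset.sum_le_sum
          intro a haS
          exact tbg_one tk hn' ha hb (hSi a haS) (hSn a haS) hbp
      _ = (24 * C0 / δ2 ^ 2 + 48 * C0 + 3) * K * (∑ a ∈ S, ρ ^ a) / n := by
          rw [Finset.mul_sum, Finset.sum_div]
      _ ≤ _ := by
          apply div_le_div_of_nonneg_right _ hn0.le
          exact mul_le_mul_of_nonneg_left (tsm_sum_geo hr0.le hr1 S) (by positivity)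
  have d2 : |∑ a ∈ S, 3 * ((a : ℝ) + 2) * b0 a * Bn n w (a + 1) 0 -
      ∑ i ∈ Finset.range J, 3 * ((i : ℝ) + 2) * b0 i * Bn n w (i + 1) 0| ≤
      3 * K * (1 - ρ)⁻¹ * 2 / n := by
    rw [← Finset.sum_sdiff hJS, add_sub_cancel_right, abs_of_nonneg (Finset.sum_nonneg fun i _ => by
      have := b0_pos i
      have := tsm_Bn_nonneg n w (i + 1) 0
      positivity)]
    calc _ ≤ ∑ i ∈ S \ Finset.range J, 3 * K * ρ ^ J * ρ ^ i := by
          apply Finset.sum_le_sum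
          intro i hi
          rw [Finset.mem_sdiff, Finset.mem_range] at hi
          have hB := tsm_Bn_le tk hn' ha hb (hSi i hi.1) hbp (s := i + 1) (by omega) 0
          rw [pow_zero, mul_one] at hB
          have hbi := b0_pos i
          have hq := qd_one hd tk.d21
          have hq1 : 1 ≤ qd δ2 ^ i := one_le_pow₀ hq
          have hi0 : (0 : ℝ) ≤ i := Nat.cast_nonneg i
          have h3 : (i : ℝ) + 2 ≤ ((i : ℝ) + 2) ^ 3 := by
            have : (1 : ℝ) ≤ (i : ℝ) + 2 := by linarith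
            calc (i : ℝ) + 2 = ((i : ℝ) + 2) ^ 1 := (pow_one _).symm
              _ ≤ _ := pow_le_pow_right₀ this (by norm_num)
          have h4 : lp ^ (i + 1) ≤ lp ^ i := pow_le_pow_of_le_one hlp.le tk.lp1.le (by omega)
          have h5 : b0 i * Bn n w (i + 1) 0 ≤ b0 i * lp ^ i * qd δ2 ^ i := by
            calc b0 i * Bn n w (i + 1) 0 ≤ b0 i * lp ^ i :=
                  mul_le_mul_of_nonneg_left (hB.trans h4) hbi.le
              _ = b0 i * lp ^ i * 1 := (mul_one _).symm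
              _ ≤ _ := mul_le_mul_of_nonneg_left hq1 (by positivity)
          have h6 : ρ ^ i ≤ ρ ^ J := pow_le_pow_of_le_one hr0.le hr1.le (by omega)
          have hB0 := tsm_Bn_nonneg n w (i + 1) 0
          calc 3 * ((i : ℝ) + 2) * b0 i * Bn n w (i + 1) 0
              = 3 * (((i : ℝ) + 2) * (b0 i * Bn n w (i + 1) 0)) := by ring
            _ ≤ 3 * (((i : ℝ) + 2) ^ 3 * (b0 i * lp ^ i * qd δ2 ^ i)) := by
                apply mul_le_mul_of_nonneg_left _ (by norm_num)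
                exact mul_le_mul h3 h5 (by positivity) (by positivity)
            _ ≤ 3 * (K * (ρ ^ i * ρ ^ i)) := mul_le_mul_of_nonneg_left (tk.geo i) (by norm_num)
            _ ≤ 3 * (K * (ρ ^ J * ρ ^ i)) := by
                apply mul_le_mul_of_nonneg_left _ (by norm_num)
                apply mul_le_mul_of_nonneg_left _ hK.le
                exact mul_le_mul_of_nonneg_right h6 (by positivity)
            _ = _ := by ring
      _ = 3 * K * ρ ^ J * ∑ i ∈ S \ Finset.range J, ρ ^ i := by rw [Finset.mul_sum]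
      _ ≤ 3 * K * (2 / n) * (1 - ρ)⁻¹ := by
          apply mul_le_mul _ (tsm_sum_geo hr0.le hr1 _) (Finset.sum_nonneg fun i _ => by positivity)
            (by positivity)
          exact mul_le_mul_of_nonneg_left hJ1 (by positivity)
      _ = _ := by ring
  have d3 : (∑ a ∈ S, Ti 1 n w (n - 1 - a)) / ((n : ℝ) * bc n w) -
      ∑ i ∈ Finset.range J, 3 * ((i : ℝ) + 2) * b0 i * Bn n w (i + 1) 0 =
      ((∑ a ∈ S, Ti 1 n w (n - 1 - a)) / ((n : ℝ) * bc n w) -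
        ∑ a ∈ S, 3 * ((a : ℝ) + 2) * b0 a * Bn n w (a + 1) 0) +
      (∑ a ∈ S, 3 * ((a : ℝ) + 2) * b0 a * Bn n w (a + 1) 0 -
        ∑ i ∈ Finset.range J, 3 * ((i : ℝ) + 2) * b0 i * Bn n w (i + 1) 0) := by ring
  rw [d3]
  refine (abs_add_le _ _).trans ((add_le_add d1 d2).trans (le_of_eq ?_))
  ring

open Classical in
theorem tbg2 {ω1 ω2 : ℝ} (h1 : 0 < ω1) (h2 : ω2 < 1) :
    ∃ δ0 : ℝ, 0 < δ0 ∧ ∀ δ : ℝ, 0 < δ → δ ≤ δ0 → ∃ C : ℝ, ∃ n0 : ℕ, 0 < C ∧
      ∀ n w : ℕ, n0 ≤ n → ω1 * n ≤ w → (w : ℝ) ≤ ω2 * n →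
        |(∑ i ∈ (Finset.range n).filter (fun i : ℕ => ((n - 1 - i : ℕ) : ℝ) ≤ δ * n), Ti 2 n w i) /
          ((n : ℝ) ^ 2 * bc n w)| ≤ C / n := by
  obtain ⟨lp, C0, δ2, δ0, ρ, K, n0, tk⟩ := tsm_const h1 h2
  have hd00 := tk.d00
  refine ⟨δ0 / 2, by linarith, fun δ hδ hδδ => ?_⟩
  have hr0 : 0 < ρ := by linarith [tk.r0]
  have hr1 := tk.r1
  have hK := tk.K0
  obtain ⟨N4, hN4⟩ := exists_nat_ge (2 / δ0)
  have hρi : 0 < (1 - ρ)⁻¹ := inv_pos.2 (by linarith)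
  refine ⟨12 * K * (1 - ρ)⁻¹, n0 + N4, by positivity, ?_⟩
  intro n w hn ha hb
  have hn' : n0 ≤ n := by omega
  have hn4 : 4 ≤ n := tk.n2.trans hn'
  have hn0 : (0 : ℝ) < n := by exact_mod_cast (by omega : 0 < n)
  rcases (bc_nonneg n w).eq_or_lt with hz | hbp
  · rw [← hz]
    simp only [mul_zero, div_zero, abs_zero]
    positivity
  have hN5 : 2 ≤ δ0 * n := by
    have h3 : (N4 : ℝ) ≤ n := by exact_mod_cast (by omega : N4 ≤ n)
    have h4 : 2 / δ0 ≤ n := hN4.trans h3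
    rw [div_le_iff₀ hd00] at h4
    linarith
  rw [tbg_refl n (fun a : ℕ => (a : ℝ) ≤ δ * n) (fun i => Ti 2 n w i), Finset.sum_div]
  refine (Finset.abs_sum_le_sum_abs _ _).trans ?_
  calc _ ≤ ∑ a ∈ (Finset.range n).filter (fun i : ℕ => (i : ℝ) ≤ δ * n), 12 * K * ρ ^ a / n := by
        apply Finset.sum_le_sum
        intro a haS
        have h3 := (Finset.mem_filter.1 haS).2
        have h4 := mul_le_mul_of_nonneg_right hδδ hn0.le
        have h5 := tbg_two tk hn' ha hb (a := a) (by push_cast; linarith)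
          (Finset.mem_range.1 (Finset.mem_filter.1 haS).1) hbp
        rw [abs_of_nonneg h5.1]
        exact h5.2
    _ = 12 * K * (∑ a ∈ (Finset.range n).filter (fun i : ℕ => (i : ℝ) ≤ δ * n), ρ ^ a) / n := by
        rw [Finset.mul_sum, Finset.sum_div]
    _ ≤ _ := by
        apply div_le_div_of_nonneg_right _ hn0.le
        exact mul_le_mul_of_nonneg_left (tsm_sum_geo hr0.le hr1 _) (by positivity)

end UN39
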