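import Mathlib
import Pool.Agent.H39.UN.Ineq
import Pool.Agent.H39.UP.Mack
import Pool.Agent.H39.UP.Sec

/-!
[H39 UP TMD]  (MP_bcc40c_pr)  The middle part of the double sum is negligible.

PROOF.  `i > δ n`, `n-1-i > δ n`.  The second factor has size `i' = n+e-2-i ≥ n-1-i > δ n` and `v' = w-u+2j+e` vertices; it vanishes unless `v' ≤ n+2`, so the
binomial is `C(v', 2j+e) ≤ (n+2)^(2j+e)/(2j+e)!`.  mack (with the offset `2-e` in the place of `e` and `l = j`: `i + i' + (2-e) = n`,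
`u + v' + (2-e) = w + 2 + 2j`): the product is `≤ exp(-cn) (C/n^2)^j bc n w`.  So `Ti e n w i ≤ (3n+2)(n+1) exp(-cn) n^e (∑_j (2^(2j+e) C^j/(2j+e)!)) bc n w`, and
the sum over `i` of this, divided by `n^e bc n w`, is `≤ C n^3 exp(-cn) ≤ C/n`.
-/

set_option autoImplicit false

namespace UN39

open Classical in
theorem tmd {ω1 ω2 δ : ℝ} (h1 : 0 < ω1) (h2 : ω2 < 1) (hδ : 0 < δ) {e : ℕ} (he : e = 1 ∨ e = 2) :
    ∃ C : ℝ, ∃ n0 : ℕ, 0 < C ∧ ∀ n w : ℕ, n0 ≤ n → ω1 * n ≤ w → (w : ℝ) ≤ ω2 * n →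
      |(∑ i ∈ (Finset.range n).filter (fun i : ℕ => δ * n < (i : ℝ) ∧ δ * n < ((n - 1 - i : ℕ) : ℝ)),
        Ti e n w i) / ((n : ℝ) ^ e * bc n w)| ≤ C / n := by
  obtain ⟨c, C, n0, hc, hC, hm⟩ := mack h1 h2 hδ
  refine ⟨90 * Real.exp (9 * C) * (24 / c ^ 4), n0 + 1, by positivity, ?_⟩
  intro n w hn hw1 hw2
  have hn0 : (0 : ℝ) < n := by exact_mod_cast (by omega : 0 < n)
  have hn1 : (1 : ℝ) ≤ n := by exact_mod_cast (by omega : 1 ≤ n)
  have he1 : 1 ≤ e := by omega
  have he2 : e ≤ 2 := by omega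
  rcases (bc_nonneg n w).eq_or_lt with hb | hb
  · rw [← hb, mul_zero, div_zero, abs_zero]
    positivity
  have hwn : w ≤ n := by
    have h3 : (w : ℝ) ≤ n := by
      refine hw2.trans ?_
      nlinarith
    exact_mod_cast h3
  obtain ⟨E, hE⟩ : ∃ E, E = Real.exp (-c * n) * bc n w := ⟨_, rfl⟩
  have hE0 : 0 < E := by rw [hE]; positivity
  -- one term
  have hterm : ∀ i ∈ (Finset.range n).filter
      (fun i : ℕ => δ * n < (i : ℝ) ∧ δ * n < ((n - 1 - i : ℕ) : ℝ)), ∀ u ∈ Finset.range (w + 1),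
      ∀ j : ℕ, bc i u * (((w - u + 2 * j + e).choose (2 * j + e) : ℝ) *
        bc (n + e - 2 - i) (w - u + 2 * j + e)) ≤
          (n : ℝ) ^ e * E * 9 * ((9 * C) ^ j / (j.factorial : ℝ)) := by
    intro i hi u hu j
    rw [Finset.mem_filter, Finset.mem_range] at hi
    rw [Finset.mem_range] at hu
    have hRHS : 0 ≤ (n : ℝ) ^ e * E * 9 * ((9 * C) ^ j / (j.factorial : ℝ)) := by positivity
    by_cases hz : bc (n + e - 2 - i) (w - u + 2 * j + e) = 0
    · rw [hz, mul_zero, mul_zero]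
      exact hRHS
    · have hs := (bc_supp hz).2.1
      have hv : w - u + 2 * j + e ≤ 3 * n := by omega
      have h3 : bc i u * bc (n + e - 2 - i) (w - u + 2 * j + e) ≤
          Real.exp (-c * n) * (C / (n : ℝ) ^ 2) ^ j * bc n w := by
        refine hm n w i u (n + e - 2 - i) (w - u + 2 * j + e) (2 - e) j (by omega) hw1 hw2
          (by omega) (by omega) (by omega) hi.2.1.le ?_
        have h4 : ((n - 1 - i : ℕ) : ℝ) ≤ ((n + e - 2 - i : ℕ) : ℝ) := by
          exact_mod_cast (by omega : n - 1 - i ≤ n + e - 2 - i)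
        linarith [hi.2.2]
      have h4 : ((w - u + 2 * j + e).choose (2 * j + e) : ℝ) ≤
          (3 * (n : ℝ)) ^ (2 * j + e) / ((2 * j + e).factorial : ℝ) := by
        refine (Nat.choose_le_pow_div (2 * j + e) (w - u + 2 * j + e)).trans ?_
        refine div_le_div_of_nonneg_right ?_ (Nat.cast_nonneg _)
        refine pow_le_pow_left₀ (Nat.cast_nonneg _) ?_ _
        exact_mod_cast hv
      have h5 : (3 * (n : ℝ)) ^ (2 * j + e) / ((2 * j + e).factorial : ℝ) ≤
          (3 * (n : ℝ)) ^ (2 * j + e) / (j.factorial : ℝ) := by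
        refine div_le_div_of_nonneg_left (by positivity) (by positivity) ?_
        exact_mod_cast Nat.factorial_le (by omega : j ≤ 2 * j + e)
      have h6 : (3 : ℝ) ^ e ≤ 9 := by
        rcases he with rfl | rfl <;> norm_num
      calc bc i u * (((w - u + 2 * j + e).choose (2 * j + e) : ℝ) *
            bc (n + e - 2 - i) (w - u + 2 * j + e))
          = ((w - u + 2 * j + e).choose (2 * j + e) : ℝ) *
            (bc i u * bc (n + e - 2 - i) (w - u + 2 * j + e)) := by ring
        _ ≤ ((3 * (n : ℝ)) ^ (2 * j + e) / (j.factorial : ℝ)) *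
            (Real.exp (-c * n) * (C / (n : ℝ) ^ 2) ^ j * bc n w) :=
            mul_le_mul (h4.trans h5) h3 (mul_nonneg (bc_nonneg _ _) (bc_nonneg _ _))
              (by positivity)
        _ = (n : ℝ) ^ e * E * 3 ^ e * ((9 * C) ^ j / (j.factorial : ℝ)) := by
            rw [hE, div_pow, mul_pow 9 C, ← pow_mul, mul_pow, pow_add, pow_add]
            have e1 : (9 : ℝ) ^ j = 3 ^ (2 * j) := by rw [pow_mul]; norm_num
            rw [e1]
            field_simp
        _ ≤ (n : ℝ) ^ e * E * 9 * ((9 * C) ^ j / (j.factorial : ℝ)) := by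
            gcongr
  have hTi : ∀ i ∈ (Finset.range n).filter
      (fun i : ℕ => δ * n < (i : ℝ) ∧ δ * n < ((n - 1 - i : ℕ) : ℝ)),
      0 ≤ Ti e n w i ∧ Ti e n w i ≤ 90 * (n : ℝ) ^ 2 * ((n : ℝ) ^ e * E) * Real.exp (9 * C) := by
    intro i hi
    have hin : i < n := Finset.mem_range.1 (Finset.mem_filter.1 hi).1
    constructor
    · unfold Ti
      refine mul_nonneg (by positivity) (Finset.sum_nonneg fun u _ =>
        mul_nonneg (bc_nonneg _ _) (Finset.sum_nonneg fun j _ =>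
          mul_nonneg (Nat.cast_nonneg _) (bc_nonneg _ _)))
    · unfold Ti
      have h3 : ∀ u ∈ Finset.range (w + 1), bc i u * ∑ j ∈ Finset.range (n + 3),
          ((w - u + 2 * j + e).choose (2 * j + e) : ℝ) *
            bc (n + e - 2 - i) (w - u + 2 * j + e) ≤
              (n : ℝ) ^ e * E * 9 * Real.exp (9 * C) := by
        intro u hu
        rw [Finset.mul_sum]
        calc _ ≤ ∑ j ∈ Finset.range (n + 3),
              (n : ℝ) ^ e * E * 9 * ((9 * C) ^ j / (j.factorial : ℝ)) :=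
              Finset.sum_le_sum fun j _ => hterm i hi u hu j
          _ = (n : ℝ) ^ e * E * 9 *
              ∑ j ∈ Finset.range (n + 3), (9 * C) ^ j / (j.factorial : ℝ) := by
              rw [Finset.mul_sum]
          _ ≤ (n : ℝ) ^ e * E * 9 * Real.exp (9 * C) :=
              mul_le_mul_of_nonneg_left (Real.sum_le_exp_of_nonneg (by positivity) _)
                (by positivity)
      have h4 := Finset.sum_le_sum h3
      rw [Finset.sum_const, Finset.card_range, nsmul_eq_mul] at h4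
      have h5 : (3 * (i : ℝ) + 2) ≤ 5 * n := by
        have : (i : ℝ) ≤ n := by exact_mod_cast hin.le
        linarith
      have h6 : ((w + 1 : ℕ) : ℝ) ≤ 2 * n := by
        have : (w : ℝ) ≤ n := by exact_mod_cast hwn
        push_cast
        linarith
      calc _ ≤ (5 * (n : ℝ)) * (((w + 1 : ℕ) : ℝ) * ((n : ℝ) ^ e * E * 9 * Real.exp (9 * C))) :=
            mul_le_mul h5 h4 (Finset.sum_nonneg fun u _ =>
              mul_nonneg (bc_nonneg _ _) (Finset.sum_nonneg fun j _ =>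
                mul_nonneg (Nat.cast_nonneg _) (bc_nonneg _ _))) (by positivity)
        _ ≤ (5 * (n : ℝ)) * ((2 * n) * ((n : ℝ) ^ e * E * 9 * Real.exp (9 * C))) := by
            gcongr
        _ = _ := by ring
  have hsum0 : 0 ≤ ∑ i ∈ (Finset.range n).filter
      (fun i : ℕ => δ * n < (i : ℝ) ∧ δ * n < ((n - 1 - i : ℕ) : ℝ)), Ti e n w i :=
    Finset.sum_nonneg fun i hi => (hTi i hi).1
  have hsum1 : ∑ i ∈ (Finset.range n).filter
      (fun i : ℕ => δ * n < (i : ℝ) ∧ δ * n < ((n - 1 - i : ℕ) : ℝ)), Ti e n w i ≤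
        n * (90 * (n : ℝ) ^ 2 * ((n : ℝ) ^ e * E) * Real.exp (9 * C)) := by
    have h3 := Finset.sum_le_sum fun i hi => (hTi i hi).2
    rw [Finset.sum_const, nsmul_eq_mul] at h3
    refine h3.trans (mul_le_mul_of_nonneg_right ?_ (by positivity))
    have h4 := Finset.card_filter_le (Finset.range n)
      (fun i : ℕ => δ * n < (i : ℝ) ∧ δ * n < ((n - 1 - i : ℕ) : ℝ))
    rw [Finset.card_range] at h4
    exact_mod_cast h4
  have hD : 0 < (n : ℝ) ^ e * bc n w := by positivity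
  rw [abs_of_nonneg (div_nonneg hsum0 hD.le), div_le_div_iff₀ hD hn0]
  have hexp : Real.exp (-c * n) * (n : ℝ) ^ 4 ≤ 24 / c ^ 4 := by
    have h3 := Real.pow_div_factorial_le_exp (c * n) (by positivity) 4
    have h4 : Real.exp (-c * n) * Real.exp (c * n) = 1 := by
      rw [← Real.exp_add]
      simp
    have h5 : ((4 : ℕ).factorial : ℝ) = 24 := by norm_num [Nat.factorial]
    rw [h5, mul_pow] at h3
    have h6 := mul_le_mul_of_nonneg_left h3 (Real.exp_pos (-c * n)).le
    rw [h4] at h6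
    rw [le_div_iff₀ (by positivity)]
    have h7 : Real.exp (-c * n) * (c ^ 4 * (n : ℝ) ^ 4 / 24) =
        Real.exp (-c * n) * (n : ℝ) ^ 4 * c ^ 4 / 24 := by ring
    rw [h7, div_le_one (by norm_num)] at h6
    exact h6
  calc _ ≤ (n * (90 * (n : ℝ) ^ 2 * ((n : ℝ) ^ e * E) * Real.exp (9 * C))) * n :=
        mul_le_mul_of_nonneg_right hsum1 hn0.le
    _ = 90 * Real.exp (9 * C) * (Real.exp (-c * n) * (n : ℝ) ^ 4) *
        ((n : ℝ) ^ e * bc n w) := by
        rw [hE]
        ring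
    _ ≤ _ := by
        gcongr

end UN39
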