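import Mathlib
import Pool.Agent.H39.UP.Rb
import Pool.Agent.H39.UP.Sec
import Pool.Agent.H39.UP.Tsm
import Pool.Agent.H39.UP.Tbg
import Pool.Agent.H39.UP.Tmd
import Pool.Agent.H39.UP.Fst1

/-!
[H39 UP SEF]  (MP_bcc40c_pr)  The string equation and the Toda equation with error `O(1/n)`.

PROOF.  `w`, `n` of the same parity, `bc n w > 0` (bc_pos).  Divide SEc by `n bc n w` and GJc by `n^2 bc n w`; split the sum over `i < n` into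
`i ≤ δ n`, `n-1-i ≤ δ n` and the rest, with `δ` smaller than the `δ0` of tsm, tbg1, tbg2 and `δ < 1/2` (then the first two sets are disjoint for
`n` large).  fst1, tsm, tbg1, tmd resp. fst2, tsm, tbg2, tmd.  `(3n+2)/n = 3 + O(1/n)`, `12(n+1)(3n+2)/n^2 = 36 + O(1/n)`.
-/

set_option autoImplicit false

namespace UN39

open Classical in
private theorem sef_split {δ : ℝ} (hδ : δ ≤ 1 / 4) {n : ℕ} (hn : 3 ≤ n) (f : ℕ → ℝ) :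
    ∑ i ∈ Finset.range n, f i =
      ∑ i ∈ (Finset.range n).filter (fun i : ℕ => (i : ℝ) ≤ δ * n), f i +
      ∑ i ∈ (Finset.range n).filter (fun i : ℕ => ((n - 1 - i : ℕ) : ℝ) ≤ δ * n), f i +
      ∑ i ∈ (Finset.range n).filter
        (fun i : ℕ => δ * n < (i : ℝ) ∧ δ * n < ((n - 1 - i : ℕ) : ℝ)), f i := by
  rw [Finset.sum_filter, Finset.sum_filter, Finset.sum_filter, ← Finset.sum_add_distrib,
    ← Finset.sum_add_distrib]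
  refine Finset.sum_congr rfl fun i hi => ?_
  rw [Finset.mem_range] at hi
  have h3 : (3 : ℝ) ≤ n := by exact_mod_cast hn
  by_cases ha : (i : ℝ) ≤ δ * n
  · have hb : ¬ ((n - 1 - i : ℕ) : ℝ) ≤ δ * n := by
      intro hb
      have h4 : ((n - 1 - i : ℕ) : ℝ) + i + 1 = n := by
        exact_mod_cast (by omega : (n - 1 - i) + i + 1 = n)
      nlinarith
    rw [if_pos ha, if_neg hb, if_neg (fun h => (not_lt.2 ha) h.1)]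
    ring
  · by_cases hb : ((n - 1 - i : ℕ) : ℝ) ≤ δ * n
    · rw [if_neg ha, if_pos hb, if_neg (fun h => (not_lt.2 hb) h.2)]
      ring
    · rw [if_neg ha, if_neg hb, if_pos ⟨not_le.1 ha, not_le.1 hb⟩]
      ring

private theorem sef_pos {ω1 ω2 : ℝ} (h1 : 0 < ω1) (h2 : ω2 < 1) {n w : ℕ} (hn : 3 ≤ n)
    (hw1 : ω1 * n ≤ w) (hw2 : (w : ℝ) ≤ ω2 * n) (hp : w % 2 = n % 2) : 1 ≤ w ∧ 0 < bc n w := by
  have h3 : (3 : ℝ) ≤ n := by exact_mod_cast hn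
  have h4 : (0 : ℝ) < w := lt_of_lt_of_le (by positivity) hw1
  have h5 : 1 ≤ w := by exact_mod_cast h4
  have h6 : (w : ℝ) ≤ n := by nlinarith
  have h7 : w ≤ n := by exact_mod_cast h6
  exact ⟨h5, bc_pos (by omega) h5 (by omega) hp⟩

theorem SEF {ω1 ω2 : ℝ} (h1 : 0 < ω1) (h2 : ω2 < 1) : ∃ C : ℝ, ∃ n0 : ℕ, 0 < C ∧
    ∀ n w : ℕ, n0 ≤ n → ω1 * n ≤ w → (w : ℝ) ≤ ω2 * n → w % 2 = n % 2 →
      |3 - (∑ j ∈ Finset.range (Jc n),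
          ((w : ℝ) / n) ^ (2 * j + 1) / ((2 * j + 1).factorial : ℝ) * Bn n w 0 j + 2 * Ms 1 n w +
        ∑ i ∈ Finset.range (Jc n), 6 * ((i : ℝ) + 2) * b0 i * Bn n w (i + 1) 0)| ≤ C / n := by
  classical
  obtain ⟨d1, hd1, t1⟩ := tsm h1 h2 (Or.inl (rfl : (1 : ℕ) = 1))
  obtain ⟨d2, hd2, t2⟩ := tbg1 h1 h2
  obtain ⟨δ, hδ⟩ : ∃ δ, δ = min (min d1 d2) (1 / 4) := ⟨_, rfl⟩
  have hδ0 : 0 < δ := by rw [hδ]; exact lt_min (lt_min hd1 hd2) (by norm_num)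
  have hδ1 : δ ≤ d1 := by rw [hδ]; exact (min_le_left _ _).trans (min_le_left _ _)
  have hδ2 : δ ≤ d2 := by rw [hδ]; exact (min_le_left _ _).trans (min_le_right _ _)
  have hδ3 : δ ≤ 1 / 4 := by rw [hδ]; exact min_le_right _ _
  obtain ⟨C1, n1, hC1, H1⟩ := t1 δ hδ0 hδ1
  obtain ⟨C2, n2, hC2, H2⟩ := t2 δ hδ0 hδ2
  obtain ⟨C3, n3, hC3, H3⟩ := tmd h1 h2 hδ0 (Or.inl (rfl : (1 : ℕ) = 1))
  obtain ⟨C4, n4, hC4, H4⟩ := fst1 h1 h2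
  refine ⟨2 + C4 + 2 * C1 + 2 * C2 + 2 * C3, n1 + n2 + n3 + n4 + 3, by positivity, ?_⟩
  intro n w hn hw1 hw2 hp
  have hn0 : (0 : ℝ) < n := by exact_mod_cast (by omega : 0 < n)
  obtain ⟨hw, hb⟩ := sef_pos h1 h2 (by omega) hw1 hw2 hp
  have e1 := H1 n w (by omega) hw1 hw2
  have e2 := H2 n w (by omega) hw1 hw2
  have e3 := H3 n w (by omega) hw1 hw2
  have e4 := H4 n w (by omega) hw1 hw2
  have hs := sef_split (n := n) hδ3 (by omega) (fun i => Ti 1 n w i)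
  have hE := SEc n w (by omega) hw
  rw [hs] at hE
  rw [pow_one] at e1 e3
  obtain ⟨A, hA⟩ : ∃ A, A = ∑ i ∈ (Finset.range n).filter (fun i : ℕ => (i : ℝ) ≤ δ * n),
    Ti 1 n w i := ⟨_, rfl⟩
  obtain ⟨B, hB⟩ : ∃ B, B = ∑ i ∈ (Finset.range n).filter
    (fun i : ℕ => ((n - 1 - i : ℕ) : ℝ) ≤ δ * n), Ti 1 n w i := ⟨_, rfl⟩
  obtain ⟨M, hM⟩ : ∃ M, M = ∑ i ∈ (Finset.range n).filter
    (fun i : ℕ => δ * n < (i : ℝ) ∧ δ * n < ((n - 1 - i : ℕ) : ℝ)), Ti 1 n w i := ⟨_, rfl⟩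
  obtain ⟨F, hF⟩ : ∃ F, F = ∑ j ∈ Finset.range (n + 3),
    ((w + 2 * j).choose (2 * j + 1) : ℝ) * bc n (w + 2 * j) := ⟨_, rfl⟩
  obtain ⟨X1, hX1⟩ : ∃ X, X = ∑ j ∈ Finset.range (Jc n),
    ((w : ℝ) / n) ^ (2 * j + 1) / ((2 * j + 1).factorial : ℝ) * Bn n w 0 j := ⟨_, rfl⟩
  obtain ⟨X3, hX3⟩ : ∃ X, X = ∑ i ∈ Finset.range (Jc n),
    3 * ((i : ℝ) + 2) * b0 i * Bn n w (i + 1) 0 := ⟨_, rfl⟩
  have hX3' : ∑ i ∈ Finset.range (Jc n), 6 * ((i : ℝ) + 2) * b0 i * Bn n w (i + 1) 0 =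
      2 * X3 := by
    rw [hX3, Finset.mul_sum]
    exact Finset.sum_congr rfl fun i _ => by ring
  rw [hX3', ← hX1]
  rw [← hA, ← hB, ← hM, ← hF] at hE
  rw [← hA] at e1
  rw [← hB, ← hX3] at e2
  rw [← hM] at e3
  rw [← hF, ← hX1] at e4
  have hkey : 3 + 2 / (n : ℝ) = F / ((n : ℝ) * bc n w) + 2 * (A / ((n : ℝ) * bc n w) +
      B / ((n : ℝ) * bc n w) + M / ((n : ℝ) * bc n w)) := by
    field_simp
    linarith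
  have hdiv : (2 + C4 + 2 * C1 + 2 * C2 + 2 * C3) / (n : ℝ) =
      2 / n + C4 / n + 2 * (C1 / n) + 2 * (C2 / n) + 2 * (C3 / n) := by ring
  rw [hdiv, abs_le]
  rw [abs_le] at e1 e2 e3 e4
  have h2n : 0 ≤ 2 / (n : ℝ) := by positivity
  constructor <;> linarith [e1.1, e1.2, e2.1, e2.2, e3.1, e3.2, e4.1, e4.2]

theorem GJF {ω1 ω2 : ℝ} (h1 : 0 < ω1) (h2 : ω2 < 1) : ∃ C : ℝ, ∃ n0 : ℕ, 0 < C ∧
    ∀ n w : ℕ, n0 ≤ n → ω1 * n ≤ w → (w : ℝ) ≤ ω2 * n → w % 2 = n % 2 →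
      |36 - (2 * ∑ j ∈ Finset.range (Jc n),
          ((w : ℝ) / n) ^ (2 * j + 2) / ((2 * j + 2).factorial : ℝ) * Bu n w j +
        4 * Ms 2 n w)| ≤ C / n := by
  classical
  obtain ⟨d1, hd1, t1⟩ := tsm h1 h2 (Or.inr (rfl : (2 : ℕ) = 2))
  obtain ⟨d2, hd2, t2⟩ := tbg2 h1 h2
  obtain ⟨δ, hδ⟩ : ∃ δ, δ = min (min d1 d2) (1 / 4) := ⟨_, rfl⟩
  have hδ0 : 0 < δ := by rw [hδ]; exact lt_min (lt_min hd1 hd2) (by norm_num)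
  have hδ1 : δ ≤ d1 := by rw [hδ]; exact (min_le_left _ _).trans (min_le_left _ _)
  have hδ2 : δ ≤ d2 := by rw [hδ]; exact (min_le_left _ _).trans (min_le_right _ _)
  have hδ3 : δ ≤ 1 / 4 := by rw [hδ]; exact min_le_right _ _
  obtain ⟨C1, n1, hC1, H1⟩ := t1 δ hδ0 hδ1
  obtain ⟨C2, n2, hC2, H2⟩ := t2 δ hδ0 hδ2
  obtain ⟨C3, n3, hC3, H3⟩ := tmd h1 h2 hδ0 (Or.inr (rfl : (2 : ℕ) = 2))
  obtain ⟨C4, n4, hC4, H4⟩ := fst2 h1 h2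
  refine ⟨84 + 2 * C4 + 4 * C1 + 4 * C2 + 4 * C3, n1 + n2 + n3 + n4 + 3, by positivity, ?_⟩
  intro n w hn hw1 hw2 hp
  have hn0 : (0 : ℝ) < n := by exact_mod_cast (by omega : 0 < n)
  have hn1 : (1 : ℝ) ≤ n := by exact_mod_cast (by omega : 1 ≤ n)
  obtain ⟨hw, hb⟩ := sef_pos h1 h2 (by omega) hw1 hw2 hp
  have e1 := H1 n w (by omega) hw1 hw2
  have e2 := H2 n w (by omega) hw1 hw2
  have e3 := H3 n w (by omega) hw1 hw2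
  have e4 := H4 n w (by omega) hw1 hw2
  have hs := sef_split (n := n) hδ3 (by omega) (fun i => Ti 2 n w i)
  have hE := GJc n w (by omega) hw
  rw [hs] at hE
  obtain ⟨A, hA⟩ : ∃ A, A = ∑ i ∈ (Finset.range n).filter (fun i : ℕ => (i : ℝ) ≤ δ * n),
    Ti 2 n w i := ⟨_, rfl⟩
  obtain ⟨B, hB⟩ : ∃ B, B = ∑ i ∈ (Finset.range n).filter
    (fun i : ℕ => ((n - 1 - i : ℕ) : ℝ) ≤ δ * n), Ti 2 n w i := ⟨_, rfl⟩
  obtain ⟨M, hM⟩ : ∃ M, M = ∑ i ∈ (Finset.range n).filter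
    (fun i : ℕ => δ * n < (i : ℝ) ∧ δ * n < ((n - 1 - i : ℕ) : ℝ)), Ti 2 n w i := ⟨_, rfl⟩
  obtain ⟨F, hF⟩ : ∃ F, F = ∑ j ∈ Finset.range (n + 3),
    ((w + 1 + 2 * j).choose (2 * j + 2) : ℝ) * bc (n + 1) (w + 1 + 2 * j) := ⟨_, rfl⟩
  obtain ⟨X1, hX1⟩ : ∃ X, X = ∑ j ∈ Finset.range (Jc n),
    ((w : ℝ) / n) ^ (2 * j + 2) / ((2 * j + 2).factorial : ℝ) * Bu n w j := ⟨_, rfl⟩
  rw [← hX1]
  rw [← hA, ← hB, ← hM, ← hF] at hE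
  rw [← hA] at e1
  rw [← hB] at e2
  rw [← hM] at e3
  rw [← hF, ← hX1] at e4
  have hkey : 36 + 60 / (n : ℝ) + 24 / (n : ℝ) ^ 2 = 2 * (F / ((n : ℝ) ^ 2 * bc n w)) +
      4 * (A / ((n : ℝ) ^ 2 * bc n w) + B / ((n : ℝ) ^ 2 * bc n w) +
        M / ((n : ℝ) ^ 2 * bc n w)) := by
    field_simp
    linarith
  have hdiv : (84 + 2 * C4 + 4 * C1 + 4 * C2 + 4 * C3) / (n : ℝ) =
      60 / n + 24 / n + 2 * (C4 / n) + 4 * (C1 / n) + 4 * (C2 / n) + 4 * (C3 / n) := by ring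
  have h24 : 24 / (n : ℝ) ^ 2 ≤ 24 / n := by
    refine div_le_div_of_nonneg_left (by norm_num) hn0 ?_
    nlinarith
  have h24' : 0 ≤ 24 / (n : ℝ) ^ 2 := by positivity
  have h60 : 0 ≤ 60 / (n : ℝ) := by positivity
  rw [hdiv, abs_le]
  rw [abs_le] at e1 e2 e3 e4
  constructor <;> linarith [e1.1, e1.2, e2.1, e2.2, e3.1, e3.2, e4.1, e4.2]

end UN39
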