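import Mathlib
import Pool.Agent.H39.UN.Ult
import Pool.Agent.H39.UN.Rat
import Pool.Agent.H39.UN.PlA
import Pool.Agent.H39.UN.PlC
import Pool.Agent.H39.UN.PlG
import Pool.Agent.H39.UN.RhoA
import Pool.Agent.H39.UP.Rb
import Pool.Agent.H39.UP.Tsm
import Pool.Agent.H39.UP.Sef

/-!
[H39 UP SEL]  (MP_bcc40c_pr)  The limit of the string equation.

PROOF.  `λ = lamw ω`, `A = Aof λ`, `0 < λ < lamc` (lamw_lt).  For every `j` the numbers `Bn n v 0 j = n^(2j) bc n (v+2j)/bc n v` are in `[0, C0^j]` (rb with `s = 0`;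
eventually `(v : ℝ) ∈ [ω/2 * n, (1+ω)/2 * n]`), so they converge along `U` to some `g j ∈ [0, C0^j]` (ulim_tendsto); `g 0 = 1`.
`Bn n v s j → λ^s g j`: `Bn n v s j = (bc (n-s) (v+2j-s)/bc n (v+2j)) * Bn n v 0 j` (eventually `s ≤ v`, `bc n (v+2j) > 0`), the sizes `(n, v+2j)` satisfy `Sq`
again, rlim.
Now take the limit of SEF (ulim_tannery; the sums over `i, j < Jc n` are sums over all `i`, `j` of terms multiplied by an indicator which is eventually 1;
domination: `Bn n v s j ≤ lp^s C0^j`, `(v/n)^m ≤ 1`, `b0_le`: `(3i+2) b0 i lp^(i+1) ≤ C (i+1) (lp/lamc)^i`): with `S = ∑_j ω^(2j+1)/(2j+1)! g j`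
  `3 = S + 2 S ∑_i (3i+2) b0 i λ^(i+1) + 6 ∑_i (i+2) b0 i λ^(i+1) = S A + (3 - 3/A)`:
`Aof λ = 1 + 2 λ ∑ (3i+2) b0 i λ^i` by definition, and with f_val, `f = ∑ b0 i λ^i = A^2 (3-A)/(A+1)`, `∑ i b0 i λ^i = ((A-1)/(2λ) - 2f)/3`,
`8 λ A^3 = A^2 - 1` (psi_A): `6 λ ∑ (i+2) b0 i λ^i = 3 (A-1)/A`.  So `S = 3/A^2`.
-/

set_option autoImplicit false

namespace UN39

open Filter Topology

theorem sel_logTop : Tendsto (fun n : ℕ => Nat.log 2 n) atTop atTop := by
  refine tendsto_atTop.2 fun b => ?_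
  filter_upwards [eventually_ge_atTop (2 ^ b)] with n hn
  exact Nat.le_log_of_pow_le (by norm_num) hn

theorem sel_JcTop : Tendsto Jc atTop atTop := by
  unfold Jc
  exact tendsto_atTop_mono (fun n => Nat.le_self_pow (by norm_num) _) sel_logTop

theorem sel_JcSmall {δ : ℝ} (hδ : 0 < δ) : ∀ᶠ n : ℕ in atTop, (Jc n : ℝ) ≤ δ * n := by
  have h1 : Tendsto (fun L : ℕ => (L : ℝ) ^ 2 / (2 : ℝ) ^ L) atTop (𝓝 0) :=
    tendsto_pow_const_div_const_pow_of_one_lt 2 (by norm_num)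
  have h2 : ∀ᶠ L : ℕ in atTop, (L : ℝ) ^ 2 / (2 : ℝ) ^ L < δ := h1.eventually_lt_const hδ
  filter_upwards [sel_logTop.eventually h2, eventually_ge_atTop 1] with n hn hn1
  rw [div_lt_iff₀ (by positivity)] at hn
  have h3 : ((2 ^ Nat.log 2 n : ℕ) : ℝ) ≤ n := by
    exact_mod_cast Nat.pow_log_le_self 2 (by omega)
  push_cast at h3
  unfold Jc
  push_cast
  calc ((Nat.log 2 n : ℕ) : ℝ) ^ 2 ≤ δ * 2 ^ Nat.log 2 n := hn.le
    _ ≤ δ * n := mul_le_mul_of_nonneg_left h3 hδ.le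

theorem sel_up {ι : Type} {U : Ultrafilter ι} {n v : ι → ℕ} {ω : ℝ} (h : Sq U n v ω) (j : ℕ) :
    Sq U n (fun i => v i + 2 * j) ω := by
  have hnr : Tendsto (fun i => (n i : ℝ)) U atTop := tendsto_natCast_atTop_atTop.comp h.ntop
  refine ⟨h.ntop, ?_, ?_, h.ω0, h.ω1⟩
  · have h2 : Tendsto (fun i => (n i : ℝ)⁻¹) U (𝓝 0) := tendsto_inv_atTop_zero.comp hnr
    have h3 : Tendsto (fun i => (v i : ℝ) / n i + (2 * (j : ℝ)) * (n i : ℝ)⁻¹) U
        (𝓝 (ω + 2 * (j : ℝ) * 0)) := h.lim.add (h2.const_mul _)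
    rw [mul_zero, add_zero] at h3
    refine h3.congr fun i => ?_
    push_cast
    rw [add_div, div_eq_mul_inv (2 * (j : ℝ))]
  · filter_upwards [h.par] with i hi
    omega

/-- the value used above -/
theorem sum_G {x : ℝ} (h0 : 0 ≤ x) (h1 : x ≤ lamc) :
    HasSum (fun i : ℕ => 6 * ((i : ℝ) + 2) * b0 i * x ^ (i + 1)) (3 - 3 / Aof x) := by
  obtain ⟨hA1, hA3, hpsi⟩ := psi_A h0 h1
  have hf := f_val h0 h1
  have hP := (sum_P h0 h1).hasSum
  obtain ⟨P, hPd⟩ : ∃ P, P = ∑' i : ℕ, (3 * (i : ℝ) + 2) * b0 i * x ^ i := ⟨_, rfl⟩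
  rw [← hPd] at hP
  have hAd : Aof x = 1 + 2 * x * P := by rw [hPd]; rfl
  obtain ⟨A, hA⟩ : ∃ A, A = Aof x := ⟨_, rfl⟩
  rw [← hA] at hA1 hA3 hpsi hf hAd ⊢
  have hA0 : 0 < A := by linarith
  -- 6 (i + 2) = 2 (3 i + 2) + 8
  have h2 := ((hP.mul_left 2).add (hf.mul_left 8)).mul_left x
  have e1 : x * (2 * P + 8 * (A ^ 2 * (3 - A) / (A + 1))) = 3 - 3 / A := by
    have hx : x * (8 * A ^ 3) = A ^ 2 - 1 := by
      rw [← hpsi]
      unfold psi
      field_simp
    have hx2 : 2 * x * P = A - 1 := by linarith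
    have h3 : x * (2 * P + 8 * (A ^ 2 * (3 - A) / (A + 1))) =
        2 * x * P + (x * (8 * A ^ 3)) * (3 - A) / (A * (A + 1)) := by
      field_simp
    rw [h3, hx2, hx]
    field_simp
    ring
  rw [e1] at h2
  refine h2.congr_fun fun i => ?_
  rw [pow_succ]
  ring

theorem sel {ι : Type} {U : Ultrafilter ι} {n v : ι → ℕ} {ω : ℝ} (h : Sq U n v ω) :
    ∃ g : ℕ → ℝ, g 0 = 1 ∧ (∀ j, 0 ≤ g j) ∧ (∃ C : ℝ, ∀ j, g j ≤ C ^ j) ∧
      (∀ j, Tendsto (fun i => Bn (n i) (v i) 0 j) U (𝓝 (g j))) ∧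
      HasSum (fun j : ℕ => ω ^ (2 * j + 1) / ((2 * j + 1).factorial : ℝ) * g j)
        (3 / Aof (lamw ω) ^ 2) := by
  have hω0 := h.ω0
  have hω1 := h.ω1
  obtain ⟨hl0, hl1⟩ := lamw_lt hω0 hω1
  obtain ⟨lam0, hlam0⟩ : ∃ l, l = lamw ω := ⟨_, rfl⟩
  rw [← hlam0] at hl0 hl1 ⊢
  obtain ⟨lp, C, δ, n0, hlp0, hlp1, hC0, hδ0, hrb⟩ :=
    rb (ω1 := ω / 2) (ω2 := (1 + ω) / 2) (by linarith) (by linarith)
  -- the eventual region
  have hnr : Tendsto (fun i => (n i : ℝ)) U atTop := tendsto_natCast_atTop_atTop.comp h.ntop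
  have hreg : ∀ᶠ i in (U : Filter ι), n0 ≤ n i ∧ ω / 2 * n i ≤ v i ∧
      (v i : ℝ) ≤ (1 + ω) / 2 * n i ∧ v i % 2 = n i % 2 ∧ (Jc (n i) : ℝ) ≤ δ * n i ∧
      0 < bc (n i) (v i) ∧ (1 : ℝ) ≤ n i ∧ v i ≤ n i := by
    have h2 : ∀ᶠ i in (U : Filter ι), (v i : ℝ) / n i < (1 + ω) / 2 :=
      h.lim.eventually_lt_const (by linarith)
    filter_upwards [h.ntop.eventually_ge_atTop n0, sq_pos h 0, h2, h.par,
      h.ntop.eventually (sel_JcSmall hδ0)] with i a1 a2 a3 a4 a5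
    obtain ⟨b1, b2, b3, b4, b5, -⟩ := a2
    have hn1 : (1 : ℝ) ≤ n i := by exact_mod_cast b3
    rw [div_lt_iff₀ (by linarith)] at a3
    exact ⟨a1, b4, a3.le, a4, a5, b5, hn1, b2⟩
  have hBbd : ∀ᶠ i in (U : Filter ι), ∀ s j : ℕ, s ≤ Jc (n i) →
      0 ≤ Bn (n i) (v i) s j ∧ Bn (n i) (v i) s j ≤ lp ^ s * C ^ j := by
    filter_upwards [hreg] with i hi s j hs
    obtain ⟨a1, a2, a3, a4, a5, a6, a7, a8⟩ := hi
    have hbn := bc_nonneg (n i - s) (v i - s + 2 * j)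
    have hs1 : (s : ℝ) ≤ δ * n i := le_trans (by exact_mod_cast hs) a5
    have h3 := hrb (n i) (v i) s j a1 a2 a3 hs1
    unfold Bn
    refine ⟨by positivity, ?_⟩
    rw [div_le_iff₀ a6]
    have h4 : (n i : ℝ) ^ (2 * j) * (lp ^ s * (C / (n i : ℝ) ^ 2) ^ j * bc (n i) (v i)) =
        lp ^ s * C ^ j * bc (n i) (v i) := by
      have hn : (n i : ℝ) ≠ 0 := by
        have : (0 : ℝ) < n i := by linarith
        exact this.ne'
      rw [div_pow, ← pow_mul]
      field_simp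
    rw [← h4]
    exact mul_le_mul_of_nonneg_left h3 (by positivity)
  -- the limits
  have hg : ∀ j : ℕ, Tendsto (fun i => Bn (n i) (v i) 0 j) U
      (𝓝 (ulim U fun i => Bn (n i) (v i) 0 j)) := by
    intro j
    refine ulim_tendsto (B := C ^ j) ?_
    filter_upwards [hBbd] with i hi
    have h2 := hi 0 j (Nat.zero_le _)
    rw [pow_zero, one_mul] at h2
    rw [abs_of_nonneg h2.1]
    exact h2.2
  obtain ⟨g, hgd⟩ : ∃ g : ℕ → ℝ, g = fun j => ulim U fun i => Bn (n i) (v i) 0 j := ⟨_, rfl⟩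
  have hglim : ∀ j : ℕ, Tendsto (fun i => Bn (n i) (v i) 0 j) U (𝓝 (g j)) := by
    intro j
    rw [hgd]
    exact hg j
  have hg0 : ∀ j, 0 ≤ g j := by
    intro j
    refine ge_of_tendsto (hglim j) ?_
    filter_upwards [hBbd] with i hi
    exact (hi 0 j (Nat.zero_le _)).1
  have hgC : ∀ j, g j ≤ C ^ j := by
    intro j
    refine le_of_tendsto (hglim j) ?_
    filter_upwards [hBbd] with i hi
    have h2 := hi 0 j (Nat.zero_le _)
    rw [pow_zero, one_mul] at h2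
    exact h2.2
  have hg1 : g 0 = 1 := by
    refine tendsto_nhds_unique (hglim 0) (tendsto_const_nhds.congr' ?_)
    filter_upwards [hreg] with i hi
    have h2 := hi.2.2.2.2.2.1.ne'
    unfold Bn
    simp [h2]
  have hBlim : ∀ s j : ℕ, Tendsto (fun i => Bn (n i) (v i) s j) U (𝓝 (lam0 ^ s * g j)) := by
    intro s j
    have h2 := rlim (sel_up h j) s
    rw [← hlam0] at h2
    refine (h2.mul (hglim j)).congr' ?_
    filter_upwards [sq_pos h s, sq_pos (sel_up h j) 0, hreg] with i hi hj hr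
    have h3 := hj.2.2.2.2.1.ne'
    have h4 := hi.1
    have h5 := hr.2.2.2.2.2.1.ne'
    unfold Bn
    have e1 : v i + 2 * j - s = v i - s + 2 * j := by omega
    rw [e1, Nat.sub_zero, Nat.sub_zero]
    field_simp
  -- the three sums
  have hJ : ∀ m : ℕ, ∀ᶠ i in (U : Filter ι), m < Jc (n i) := by
    intro m
    exact (sel_JcTop.comp h.ntop).eventually_gt_atTop m
  have hvn : ∀ᶠ i in (U : Filter ι), 0 ≤ (v i : ℝ) / n i ∧ (v i : ℝ) / n i ≤ 1 := by
    filter_upwards [hreg] with i hi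
    refine ⟨by positivity, ?_⟩
    have h2 : (v i : ℝ) ≤ n i := by exact_mod_cast hi.2.2.2.2.2.2.2
    exact div_le_one_of_le₀ h2 (by positivity)
  obtain ⟨w, hw⟩ : ∃ w : ℕ → ℝ, w = fun j : ℕ => ω ^ (2 * j + 1) / ((2 * j + 1).factorial : ℝ) :=
    ⟨_, rfl⟩
  obtain ⟨bd, hbd⟩ : ∃ bd : ℕ → ℝ, bd = fun j : ℕ => C ^ j / ((2 * j + 1).factorial : ℝ) :=
    ⟨_, rfl⟩
  have hbd0 : ∀ j, 0 ≤ bd j := fun j => by rw [hbd]; positivity
  have hbds : Summable bd := by
    refine Summable.of_nonneg_of_le hbd0 (fun j => ?_) (Real.summable_pow_div_factorial C)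
    rw [hbd]
    refine div_le_div_of_nonneg_left (by positivity) (by positivity) ?_
    exact_mod_cast Nat.factorial_le (by omega)
  obtain ⟨P, hP⟩ : ∃ P : ℕ → ℝ → ℝ, P = fun (i : ℕ) (x : ℝ) => (3 * (i : ℝ) + 2) * b0 i * x ^ (i + 1) :=
    ⟨_, rfl⟩
  have hPs : ∀ x, 0 ≤ x → x ≤ lamc → Summable fun i => P i x := by
    intro x hx0 hx1
    refine ((sum_P hx0 hx1).mul_right x).congr fun i => ?_
    rw [hP]
    beta_reduce
    ring
  have hPn : ∀ i x, 0 ≤ x → 0 ≤ P i x := by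
    intro i x hx
    rw [hP]
    have := (b0_pos i).le
    positivity
  -- pointwise limits of the weights
  have hwl : ∀ j : ℕ, Tendsto (fun i => ((v i : ℝ) / n i) ^ (2 * j + 1) /
      ((2 * j + 1).factorial : ℝ)) U (𝓝 (w j)) := by
    intro j
    rw [hw]
    exact (h.lim.pow _).div_const _
  -- first sum
  have L1 : Tendsto (fun i => ∑ j ∈ Finset.range (Jc (n i)),
      ((v i : ℝ) / n i) ^ (2 * j + 1) / ((2 * j + 1).factorial : ℝ) * Bn (n i) (v i) 0 j) U
      (𝓝 (∑' j, w j * g j)) := by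
    have h2 := tendsto_tsum_of_dominated_convergence (𝓕 := (U : Filter ι))
      (f := fun i j => if j < Jc (n i) then ((v i : ℝ) / n i) ^ (2 * j + 1) /
        ((2 * j + 1).factorial : ℝ) * Bn (n i) (v i) 0 j else 0) (g := fun j => w j * g j)
      hbds ?_ ?_
    · refine h2.congr fun i => ?_
      rw [tsum_eq_sum (s := Finset.range (Jc (n i)))]
      · refine Finset.sum_congr rfl fun j hj => ?_
        rw [if_pos (Finset.mem_range.1 hj)]
      · intro j hj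
        rw [if_neg (fun h => hj (Finset.mem_range.2 h))]
    · intro j
      refine ((hwl j).mul (hglim j)).congr' ?_
      filter_upwards [hJ j] with i hi
      rw [if_pos hi]
    · filter_upwards [hBbd, hvn] with i hi hv j
      split_ifs with hj
      · have h3 := hi 0 j (Nat.zero_le _)
        rw [pow_zero, one_mul] at h3
        have h4 : ((v i : ℝ) / n i) ^ (2 * j + 1) ≤ 1 := pow_le_one₀ hv.1 hv.2
        have h5 := pow_nonneg hv.1 (2 * j + 1)
        rw [Real.norm_of_nonneg (mul_nonneg (div_nonneg h5 (by positivity)) h3.1), hbd]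
        rw [div_mul_eq_mul_div]
        refine div_le_div_of_nonneg_right ?_ (by positivity)
        calc ((v i : ℝ) / n i) ^ (2 * j + 1) * Bn (n i) (v i) 0 j ≤ 1 * C ^ j :=
              mul_le_mul h4 h3.2 h3.1 zero_le_one
          _ = C ^ j := one_mul _
      · rw [norm_zero]
        exact hbd0 j
  -- second sum
  have L2 : Tendsto (fun i => Ms 1 (n i) (v i)) U
      (𝓝 (∑' q : ℕ × ℕ, P q.1 lam0 * (w q.2 * g q.2))) := by
    have h2 := tendsto_tsum_of_dominated_convergence (𝓕 := (U : Filter ι))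
      (f := fun i (q : ℕ × ℕ) => if q.1 < Jc (n i) ∧ q.2 < Jc (n i) then
        (3 * (q.1 : ℝ) + 2) * b0 q.1 * (((v i : ℝ) / n i) ^ (2 * q.2 + 1) /
        ((2 * q.2 + 1).factorial : ℝ)) * Bn (n i) (v i) (q.1 + 1) q.2 else 0)
      (g := fun q : ℕ × ℕ => P q.1 lam0 * (w q.2 * g q.2))
      (bound := fun q : ℕ × ℕ => P q.1 lp * bd q.2)
      ((hPs lp hlp0.le hlp1.le).mul_of_nonneg hbds (fun i => hPn i lp hlp0.le) hbd0) ?_ ?_
    · refine h2.congr fun i => ?_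
      rw [tsum_eq_sum (s := Finset.range (Jc (n i)) ×ˢ Finset.range (Jc (n i)))]
      · unfold Ms
        rw [Finset.sum_product]
        refine Finset.sum_congr rfl fun a ha => Finset.sum_congr rfl fun j hj => ?_
        rw [if_pos ⟨Finset.mem_range.1 ha, Finset.mem_range.1 hj⟩]
        rfl
      · intro q hq
        rw [if_neg]
        intro h3
        exact hq (Finset.mem_product.2 ⟨Finset.mem_range.2 h3.1, Finset.mem_range.2 h3.2⟩)
    · intro q
      have h3 := (((hwl q.2).mul (hBlim (q.1 + 1) q.2)).const_mul ((3 * (q.1 : ℝ) + 2) * b0 q.1))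
      have e1 : (3 * (q.1 : ℝ) + 2) * b0 q.1 * (w q.2 * (lam0 ^ (q.1 + 1) * g q.2)) =
          P q.1 lam0 * (w q.2 * g q.2) := by
        rw [hP]
        ring
      rw [e1] at h3
      refine h3.congr' ?_
      filter_upwards [hJ q.1, hJ q.2] with i hi hi2
      rw [if_pos ⟨hi, hi2⟩]
      ring
    · filter_upwards [hBbd, hvn] with i hi hv q
      have hb := (b0_pos q.1).le
      split_ifs with hj
      · have h3 := hi (q.1 + 1) q.2 hj.1
        have h4 : ((v i : ℝ) / n i) ^ (2 * q.2 + 1) ≤ 1 := pow_le_one₀ hv.1 hv.2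
        have h5 := pow_nonneg hv.1 (2 * q.2 + 1)
        have h6 : 0 ≤ ((v i : ℝ) / n i) ^ (2 * q.2 + 1) / ((2 * q.2 + 1).factorial : ℝ) :=
          div_nonneg h5 (by positivity)
        rw [Real.norm_of_nonneg (mul_nonneg (mul_nonneg (by positivity) h6) h3.1), hP, hbd]
        have h7 : ((v i : ℝ) / n i) ^ (2 * q.2 + 1) / ((2 * q.2 + 1).factorial : ℝ) ≤
            1 / ((2 * q.2 + 1).factorial : ℝ) := div_le_div_of_nonneg_right h4 (by positivity)
        calc (3 * (q.1 : ℝ) + 2) * b0 q.1 * (((v i : ℝ) / n i) ^ (2 * q.2 + 1) /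
              ((2 * q.2 + 1).factorial : ℝ)) * Bn (n i) (v i) (q.1 + 1) q.2
            ≤ (3 * (q.1 : ℝ) + 2) * b0 q.1 * (1 / ((2 * q.2 + 1).factorial : ℝ)) *
              (lp ^ (q.1 + 1) * C ^ q.2) :=
              mul_le_mul (mul_le_mul_of_nonneg_left h7 (by positivity)) h3.2 h3.1 (by positivity)
          _ = _ := by ring
      · rw [norm_zero]
        exact mul_nonneg (hPn q.1 lp hlp0.le) (hbd0 q.2)
  -- third sum
  have L3 : Tendsto (fun i => ∑ a ∈ Finset.range (Jc (n i)),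
      6 * ((a : ℝ) + 2) * b0 a * Bn (n i) (v i) (a + 1) 0) U (𝓝 (3 - 3 / Aof lam0)) := by
    have h2 := tendsto_tsum_of_dominated_convergence (𝓕 := (U : Filter ι))
      (f := fun i (a : ℕ) => if a < Jc (n i) then
        6 * ((a : ℝ) + 2) * b0 a * Bn (n i) (v i) (a + 1) 0 else 0)
      (g := fun a : ℕ => 6 * ((a : ℝ) + 2) * b0 a * lam0 ^ (a + 1))
      (bound := fun a : ℕ => 6 * P a lp) ((hPs lp hlp0.le hlp1.le).mul_left 6) ?_ ?_
    · rw [(sum_G hl0.le hl1.le).tsum_eq] at h2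
      refine h2.congr fun i => ?_
      rw [tsum_eq_sum (s := Finset.range (Jc (n i)))]
      · refine Finset.sum_congr rfl fun j hj => ?_
        rw [if_pos (Finset.mem_range.1 hj)]
      · intro j hj
        rw [if_neg (fun h => hj (Finset.mem_range.2 h))]
    · intro a
      have h3 := (hBlim (a + 1) 0).const_mul (6 * ((a : ℝ) + 2) * b0 a)
      rw [hg1, mul_one] at h3
      refine h3.congr' ?_
      filter_upwards [hJ a] with i hi
      rw [if_pos hi]
    · filter_upwards [hBbd] with i hi a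
      have hb := (b0_pos a).le
      split_ifs with hj
      · have h3 := hi (a + 1) 0 hj
        rw [pow_zero, mul_one] at h3
        rw [Real.norm_of_nonneg (mul_nonneg (by positivity) h3.1), hP]
        calc 6 * ((a : ℝ) + 2) * b0 a * Bn (n i) (v i) (a + 1) 0
            ≤ 6 * ((a : ℝ) + 2) * b0 a * lp ^ (a + 1) :=
              mul_le_mul_of_nonneg_left h3.2 (by positivity)
          _ ≤ 6 * (3 * (a : ℝ) + 2) * b0 a * lp ^ (a + 1) := by
              have h8 : (0 : ℝ) ≤ a := Nat.cast_nonneg a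
              have h9 : 0 ≤ b0 a * lp ^ (a + 1) := by positivity
              nlinarith [mul_nonneg h8 h9]
          _ = _ := by ring
      · rw [norm_zero]
        exact mul_nonneg (by norm_num) (hPn a lp hlp0.le)
  -- the equation
  have hgs : Summable fun j => w j * g j := by
    refine Summable.of_nonneg_of_le (fun j => ?_) (fun j => ?_) hbds
    · rw [hw]
      have := hg0 j
      positivity
    · rw [hw, hbd]
      have h2 : ω ^ (2 * j + 1) ≤ 1 := pow_le_one₀ hω0.le hω1.le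
      calc ω ^ (2 * j + 1) / ((2 * j + 1).factorial : ℝ) * g j
          ≤ 1 / ((2 * j + 1).factorial : ℝ) * C ^ j :=
            mul_le_mul (div_le_div_of_nonneg_right h2 (by positivity)) (hgC j) (hg0 j)
              (by positivity)
        _ = _ := by ring
  have hwn : ∀ j, 0 ≤ w j * g j := by
    intro j
    rw [hw]
    have := hg0 j
    positivity
  have hPl := hPs lam0 hl0.le hl1.le
  have hprod : ∑' q : ℕ × ℕ, P q.1 lam0 * (w q.2 * g q.2) =
      (∑' i, P i lam0) * ∑' j, w j * g j := by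
    refine (hPl.tsum_mul_tsum hgs ?_).symm
    exact hPl.mul_of_nonneg hgs (fun i => hPn i lam0 hl0.le) hwn
  obtain ⟨S, hS⟩ : ∃ S, S = ∑' j, w j * g j := ⟨_, rfl⟩
  obtain ⟨Q, hQ⟩ : ∃ Q, Q = ∑' i, P i lam0 := ⟨_, rfl⟩
  rw [hprod, ← hS, ← hQ] at L2
  rw [← hS] at L1
  have hAQ : Aof lam0 = 1 + 2 * Q := by
    unfold Aof
    rw [hQ, hP, ← tsum_mul_left, ← tsum_mul_left]
    congr 1
    refine tsum_congr fun i => ?_
    beta_reduce
    ring
  obtain ⟨C1, n1, hC1, hSEF⟩ := SEF (ω1 := ω / 2) (ω2 := (1 + ω) / 2) (by linarith) (by linarith)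
  have L4 := (((L1.add (L2.const_mul 2)).add L3).const_sub 3).abs
  have L5 : Tendsto (fun i => C1 * (n i : ℝ)⁻¹) U (𝓝 (C1 * 0)) :=
    (tendsto_inv_atTop_zero.comp hnr).const_mul _
  rw [mul_zero] at L5
  have h7 : |3 - (S + 2 * (Q * S) + (3 - 3 / Aof lam0))| ≤ 0 := by
    refine le_of_tendsto_of_tendsto L4 L5 ?_
    filter_upwards [hreg, h.ntop.eventually_ge_atTop n1] with i hi hi1
    have h8 := hSEF (n i) (v i) hi1 hi.2.1 hi.2.2.1 hi.2.2.2.1
    rw [div_eq_mul_inv] at h8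
    exact h8
  have h8 : 3 - (S + 2 * (Q * S) + (3 - 3 / Aof lam0)) = 0 :=
    abs_eq_zero.1 (le_antisymm h7 (abs_nonneg _))
  have hA1 := Aof_ge hl0.le
  have hSv : S = 3 / Aof lam0 ^ 2 := by
    have hA0 : (0 : ℝ) < Aof lam0 := by linarith
    have h9 : S * Aof lam0 = 3 / Aof lam0 := by
      rw [hAQ] at h8 ⊢
      linarith
    rw [eq_div_iff (by positivity)]
    rw [eq_div_iff (by positivity)] at h9
    rw [← h9]
    ring
  refine ⟨g, hg1, hg0, ⟨C, hgC⟩, hglim, ?_⟩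
  rw [← hSv, hS]
  have h10 := hgs.hasSum
  rw [hw] at h10 ⊢
  exact h10

end UN39
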