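import Mathlib
import Pool.Agent.H39.UN.Ult
import Pool.Agent.H39.UN.Rat
import Pool.Agent.H39.UN.PlG
import Pool.Agent.H39.UN.RhoA
import Pool.Agent.H39.UN.Rho
import Pool.Agent.H39.UP.Rb
import Pool.Agent.H39.UP.Tsm
import Pool.Agent.H39.UP.Sel

/-!
[H39 UP PHI]  (MP_bcc40c_pr)  The ratio limit `n^2 bc n (v+2)/bc n v → phw (v/n)`.

With `h = thw ω`, `u = √(1-4h)`, `A = √(1+8h) = Aof (lamw ω)` (lam_facts): `phw ω = (u (1+8h)/(6h))^2`.

PROOFS.  phw_sum: `s = √(phw ω) = u A^2/(6h)`, `ω = 6 dl h`, so `ω s = log((1+u)/(1-u)) =: y` and `∑_j ω^(2j+1) s^(2j)/(2j+1)! = sinh y/s`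
(`Real.hasSum_sinh` or the exponential series), `sinh y = 2u/(1-u^2) = u/(2h)`, so the value is `3/A^2`.
phw_uniq: the sum is strictly increasing in `t ≥ 0` (all coefficients positive); convergence for all `t`.
phw_cont: `thw` is continuous (thw_cont).
phi_seq.  Put `R(n,v) = Bn n v 0 1 = n^2 bc n (v+2)/bc n v`, bounded on the region.  Let `F` be the filter on `ℕ × ℕ` of the sets which contain, for
some `δ > 0`, `N`, all `(n,v)` with `n ≥ N`, `|v/n - ω| ≤ δ`, `v ≡ n (mod 2)`.  (`Sq U fst snd ω ↔ U ≤ F`, for `0 < ω < 1`; sizes on another index set: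
push forward the ultrafilter under `(n, v)`.)
Let `t* = limsup R` along `F`; there is an ultrafilter `U ≤ F` with `R → t*` along `U` (for every `ε` the set `{R > t* - ε}` meets all sets of `F`, so
these sets together with `F` generate a proper filter, `Ultrafilter.of`; and `limsup` bounds from above).  Let `g` be as in sel for `U`, so
`g 1 = t*`.  For every `j`: `g (j+1) = g j * t_j`, `t_j = lim_U R(n, v+2j)`: `Bn n v 0 (j+1) = Bn n v 0 j * R(n, v+2j)`.  `t_j ≤ t*` because `(n, v+2j)`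
pushes `U` to an ultrafilter `≤ F`.  Apply sel to `(n, v+2)` along `U` (it is `Sq` with the same `ω`): its limits are `g' j` with `g' j * g 1 = g (j+1)`
(`Bn n (v+2) 0 j * Bn n v 0 1 = Bn n v 0 (j+1)`).  So `∑ w_j g (j+1) = g 1 * 3/A^2 = t* ∑ w_j g j`, `w_j = ω^(2j+1)/(2j+1)! > 0`, i.e.
`∑ w_j g j (t* - t_j) = 0` with nonnegative terms, so `g j (t* - t_j) = 0` for all `j`.  Positivity: `g 1 > 0`, because otherwise `g j = 0` for all `j ≥ 1`
(rat_two at `(n, v+2)`: `g (j+1) ≤ C g j`) and `ω = 3/A^2`, but `3/A^2 = sinh y/s > y/s = ω`.  The same argument gives a lower bound: every limit `g 1` along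
every `U ≤ F` is positive; so all `t_j > 0` (apply it to `(n, v+2j)`), all `g j > 0`, `t_j = t*`, `g j = t*^j`, and phw_uniq: `t* = phw ω`.
The same with `liminf`: `t_* = phw ω` (there `t_j ≥ t_*` and `∑ w_j g j (t_j - t_*) = 0`).  Hence `R → phw ω` along `F`.
phi: by contradiction and compactness as in the proof of rho, with phw_cont.
-/

set_option autoImplicit false

namespace UN39

open Filter Topology

noncomputable def phw (ω : ℝ) : ℝ :=
  (Real.sqrt (1 - 4 * thw ω) * (1 + 8 * thw ω) / (6 * thw ω)) ^ 2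

theorem phw_pos {ω : ℝ} (h0 : 0 < ω) (h1 : ω < 1) : 0 < phw ω := by
  obtain ⟨a0, a1, -, -⟩ := thw_spec h0 h1
  have hu : 0 < Real.sqrt (1 - 4 * thw ω) := Real.sqrt_pos.mpr (by linarith)
  unfold phw
  have h2 : 0 < 1 + 8 * thw ω := by linarith
  positivity

theorem phw_sum {ω : ℝ} (h0 : 0 < ω) (h1 : ω < 1) :
    HasSum (fun j : ℕ => ω ^ (2 * j + 1) / ((2 * j + 1).factorial : ℝ) * phw ω ^ j)
      (3 / Aof (lamw ω) ^ 2) := by
  obtain ⟨a0, a1, a2, -⟩ := thw_spec h0 h1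
  have hA := (lam_facts a0 a1).2.2.1
  have hlw : lamw ω = lam (thw ω) := rfl
  rw [hlw, hA, Real.sq_sqrt (by linarith)]
  obtain ⟨h, hh⟩ : ∃ h, h = thw ω := ⟨_, rfl⟩
  obtain ⟨u, hu⟩ : ∃ u, u = Real.sqrt (1 - 4 * h) := ⟨_, rfl⟩
  rw [← hh] at a0 a1 a2 ⊢
  have hu0 : 0 < u := by rw [hu]; exact Real.sqrt_pos.mpr (by linarith)
  have husq : u ^ 2 = 1 - 4 * h := by rw [hu]; exact Real.sq_sqrt (by linarith)
  have hu1 : u < 1 := by nlinarith
  obtain ⟨s, hs⟩ : ∃ s, s = u * (1 + 8 * h) / (6 * h) := ⟨_, rfl⟩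
  have h8 : 0 < 1 + 8 * h := by linarith
  have hs0 : 0 < s := by rw [hs]; positivity
  have hph : phw ω = s ^ 2 := by
    unfold phw
    rw [← hh, ← hu, hs]
  obtain ⟨L, hL⟩ : ∃ L, L = Real.log ((1 + u) / (1 - u)) := ⟨_, rfl⟩
  have hω : ω * s = L := by
    rw [← a2, hs]
    unfold dl
    rw [← hu, ← hL]
    field_simp
  have hu1' : 0 < 1 - u := by linarith
  have hsinh : Real.sinh L = u / (2 * h) := by
    rw [Real.sinh_eq, Real.exp_neg, hL, Real.exp_log (by positivity)]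
    have h4 : (1 - u) * (1 + u) = 4 * h := by nlinarith
    have e1 : (1 + u) / (1 - u) - ((1 + u) / (1 - u))⁻¹ = 4 * u / ((1 - u) * (1 + u)) := by
      field_simp
      ring
    rw [e1, h4]
    field_simp
  have key := (Real.hasSum_sinh (ω * s)).mul_right s⁻¹
  rw [hω, hsinh] at key
  have e2 : u / (2 * h) * s⁻¹ = 3 / (1 + 8 * h) := by
    rw [hs]
    field_simp
    norm_num
  rw [e2] at key
  refine key.congr_fun fun j => ?_
  rw [hph, ← hω]
  field_simp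
  ring

theorem phw_uniq {ω t : ℝ} (h0 : 0 < ω) (h1 : ω < 1) (ht : 0 ≤ t)
    (h : HasSum (fun j : ℕ => ω ^ (2 * j + 1) / ((2 * j + 1).factorial : ℝ) * t ^ j)
      (3 / Aof (lamw ω) ^ 2)) : t = phw ω := by
  have key : ∀ a b : ℝ, 0 ≤ a → a < b →
      HasSum (fun j : ℕ => ω ^ (2 * j + 1) / ((2 * j + 1).factorial : ℝ) * a ^ j)
        (3 / Aof (lamw ω) ^ 2) →
      HasSum (fun j : ℕ => ω ^ (2 * j + 1) / ((2 * j + 1).factorial : ℝ) * b ^ j)
        (3 / Aof (lamw ω) ^ 2) → False := by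
    intro a b ha hab h2 h3
    have h4 : (3 / Aof (lamw ω) ^ 2) < (3 / Aof (lamw ω) ^ 2) := by
      refine hasSum_lt (i := 1) (fun j => ?_) ?_ h2 h3
      · exact mul_le_mul_of_nonneg_left (pow_le_pow_left₀ ha hab.le j) (by positivity)
      · rw [pow_one, pow_one]
        exact mul_lt_mul_of_pos_left hab (by positivity)
    exact lt_irrefl _ h4
  rcases lt_trichotomy t (phw ω) with h2 | h2 | h2
  · exact (key _ _ ht h2 h (phw_sum h0 h1)).elim
  · exact h2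
  · exact (key _ _ (phw_pos h0 h1).le h2 (phw_sum h0 h1) h).elim

theorem phw_cont : ContinuousOn phw (Set.Ioo 0 1) := by
  unfold phw
  have h1 := thw_cont
  refine ContinuousOn.pow ?_ 2
  refine ContinuousOn.div ?_ ?_ ?_
  · exact ((continuousOn_const.sub (continuousOn_const.mul h1)).sqrt).mul
      (continuousOn_const.add (continuousOn_const.mul h1))
  · exact continuousOn_const.mul h1
  · intro ω hω
    have h2 := (thw_spec hω.1 hω.2).1
    positivity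

theorem phi_up {ι : Type} {U : Ultrafilter ι} {n v : ι → ℕ} {ω : ℝ} (h : Sq U n v ω) (j : ℕ) :
    Sq U n (fun i => v i + 2 * j) ω := by
  have hnr : Tendsto (fun i => (n i : ℝ)) U atTop := tendsto_natCast_atTop_atTop.comp h.ntop
  refine ⟨h.ntop, ?_, ?_, h.ω0, h.ω1⟩
  · have h2 : Tendsto (fun i => (n i : ℝ)⁻¹) U (𝓝 0) := tendsto_inv_atTop_zero.comp hnr
    have h3 : Tendsto (fun i => (v i : ℝ) / n i + (2 * (j : ℝ)) * (n i : ℝ)⁻¹) U
        (𝓝 (ω + 2 * (j : ℝ) * 0)) := h.lim.add (h2.const_mul _)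
    rw [mul_zero, add_zero] at h3
    refine h3.congr fun i => ?_
    push_cast
    rw [add_div, div_eq_mul_inv (2 * (j : ℝ))]
  · filter_upwards [h.par] with i hi
    omega

theorem phi_bd {ι : Type} {U : Ultrafilter ι} {n v : ι → ℕ} {ω : ℝ} (h : Sq U n v ω) :
    ∀ᶠ i in (U : Filter ι), 0 ≤ Bn (n i) (v i) 0 1 ∧ Bn (n i) (v i) 0 1 ≤ 192 / ω ^ 3 := by
  have hω := h.ω0
  filter_upwards [sq_pos h 1] with i hi
  obtain ⟨h2, h3, h4, h5, h6, -⟩ := hi
  have e1 : Bn (n i) (v i) 0 1 = (n i : ℝ) ^ 2 * bc (n i) (v i + 2) / bc (n i) (v i) := by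
    unfold Bn
    norm_num
  rw [e1]
  have h7 := bc_nonneg (n i) (v i + 2)
  refine ⟨by positivity, ?_⟩
  rw [div_le_div_iff₀ h6 (by positivity)]
  have h8 := rat_two (n i) (v i) (by omega)
  have hn0 : (2 : ℝ) ≤ n i := by exact_mod_cast h4
  have h9 : (ω / 2 * n i) ^ 3 ≤ (v i : ℝ) ^ 3 := pow_le_pow_left₀ (by positivity) h5 3
  have h10 : (ω / 2 * n i) ^ 3 * bc (n i) (v i + 2) ≤ 24 * n i * bc (n i) (v i) := by
    calc (ω / 2 * n i) ^ 3 * bc (n i) (v i + 2) ≤ (v i : ℝ) ^ 3 * bc (n i) (v i + 2) :=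
          mul_le_mul_of_nonneg_right h9 h7
      _ ≤ 6 * (3 * n i + 2) * bc (n i) (v i) := h8
      _ ≤ 24 * n i * bc (n i) (v i) := mul_le_mul_of_nonneg_right (by linarith) h6.le
  have h11 : (n i : ℝ) * ((n i : ℝ) ^ 2 * bc (n i) (v i + 2) * ω ^ 3) ≤
      (n i : ℝ) * (192 * bc (n i) (v i)) := by
    have e2 : (n i : ℝ) * ((n i : ℝ) ^ 2 * bc (n i) (v i + 2) * ω ^ 3) =
        8 * ((ω / 2 * n i) ^ 3 * bc (n i) (v i + 2)) := by ring
    rw [e2]
    linarith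
  exact le_of_mul_le_mul_left h11 (by linarith)

theorem phi_mul {ι : Type} {U : Ultrafilter ι} {n v : ι → ℕ} {ω : ℝ} (h : Sq U n v ω) (j k : ℕ) :
    ∀ᶠ i in (U : Filter ι), Bn (n i) (v i) 0 j * Bn (n i) (v i + 2 * j) 0 k =
      Bn (n i) (v i) 0 (j + k) := by
  filter_upwards [sq_pos h 0, sq_pos (phi_up h j) 0] with i hi hj
  have h1 := hi.2.2.2.2.1.ne'
  have h2 := hj.2.2.2.2.1.ne'
  unfold Bn
  simp only [Nat.sub_zero] at h1 h2 ⊢
  have e1 : v i + 2 * j + 2 * k = v i + 2 * (j + k) := by ring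
  rw [e1]
  field_simp
  ring

theorem phi_core {V : Ultrafilter (ℕ × ℕ)} {ω t : ℝ} (h : Sq V Prod.fst Prod.snd ω)
    (ht : Tendsto (fun q : ℕ × ℕ => Bn q.1 q.2 0 1) V (𝓝 t)) (s : ℝ) (hs : s ≠ 0)
    (hext : ∀ (W : Ultrafilter (ℕ × ℕ)) (t' : ℝ), Sq W Prod.fst Prod.snd ω →
      Tendsto (fun q : ℕ × ℕ => Bn q.1 q.2 0 1) W (𝓝 t') → 0 ≤ s * (t - t')) : t = phw ω := by
  obtain ⟨g, g0, gnn, -, glim, gsum⟩ := sel h
  obtain ⟨g', -, -, -, g'lim, g'sum⟩ := sel (phi_up h 1)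
  have hω := h.ω0
  have ht0 : t = g 1 := tendsto_nhds_unique ht (glim 1)
  have tj : ∀ j : ℕ, ∃ τ : ℝ, Tendsto (fun q : ℕ × ℕ => Bn q.1 (q.2 + 2 * j) 0 1) V (𝓝 τ) ∧
      0 ≤ s * (t - τ) := by
    intro j
    have h1 := phi_up h j
    have hb : ∀ᶠ q in (V : Filter (ℕ × ℕ)), |Bn q.1 (q.2 + 2 * j) 0 1| ≤ 192 / ω ^ 3 := by
      filter_upwards [phi_bd h1] with q hq
      rw [abs_of_nonneg hq.1]
      exact hq.2
    have h2 := ulim_tendsto hb
    refine ⟨_, h2, hext (V.map fun q => (q.1, q.2 + 2 * j)) _ ?_ ?_⟩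
    · refine ⟨?_, ?_, ?_, h.ω0, h.ω1⟩
      · exact tendsto_map'_iff.2 h1.ntop
      · exact tendsto_map'_iff.2 h1.lim
      · exact h1.par
    · exact tendsto_map'_iff.2 h2
  choose τ hτ1 hτ2 using tj
  have rec1 : ∀ j, g (j + 1) = g j * τ j := by
    intro j
    refine tendsto_nhds_unique (glim (j + 1)) (((glim j).mul (hτ1 j)).congr' ?_)
    exact phi_mul h j 1
  have rec2 : ∀ j, g (j + 1) = g' j * t := by
    intro j
    refine tendsto_nhds_unique (glim (j + 1)) (((g'lim j).mul ht).congr' ?_)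
    filter_upwards [phi_mul h 1 j] with q hq
    rw [mul_comm, add_comm j 1]
    exact hq
  have S1 := g'sum.mul_right t
  have S2 := gsum.mul_right t
  have S3 := (S2.sub S1).mul_left s
  rw [sub_self, mul_zero] at S3
  have hw : ∀ j : ℕ, 0 < ω ^ (2 * j + 1) / ((2 * j + 1).factorial : ℝ) := fun j => by positivity
  have hnn : ∀ j : ℕ, 0 ≤ s * (ω ^ (2 * j + 1) / ((2 * j + 1).factorial : ℝ) * g j * t -
      ω ^ (2 * j + 1) / ((2 * j + 1).factorial : ℝ) * g' j * t) := by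
    intro j
    have e1 : s * (ω ^ (2 * j + 1) / ((2 * j + 1).factorial : ℝ) * g j * t -
      ω ^ (2 * j + 1) / ((2 * j + 1).factorial : ℝ) * g' j * t) =
      ω ^ (2 * j + 1) / ((2 * j + 1).factorial : ℝ) * g j * (s * (t - τ j)) := by
      have h3 := rec1 j
      rw [rec2 j] at h3
      linear_combination (-(s * (ω ^ (2 * j + 1) / ((2 * j + 1).factorial : ℝ)))) * h3
    rw [e1]
    exact mul_nonneg (mul_nonneg (hw j).le (gnn j)) (hτ2 j)
  have S4 := (hasSum_zero_iff_of_nonneg hnn).1 S3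
  have rec3 : ∀ j, g (j + 1) = g j * t := by
    intro j
    have h3 := congrFun S4 j
    simp only [Pi.zero_apply] at h3
    rcases mul_eq_zero.1 h3 with h4 | h4
    · exact absurd h4 hs
    · have h5 : ω ^ (2 * j + 1) / ((2 * j + 1).factorial : ℝ) * (g j * t - g' j * t) = 0 := by
        linear_combination h4
      rcases mul_eq_zero.1 h5 with h6 | h6
      · exact absurd h6 (hw j).ne'
      · rw [rec2 j]
        linarith
  have hg : ∀ j, g j = t ^ j := by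
    intro j
    induction j with
    | zero => rw [g0, pow_zero]
    | succ j ih => rw [rec3 j, ih, pow_succ]
  refine phw_uniq h.ω0 h.ω1 (by rw [ht0]; exact gnn 1) ?_
  have e2 : (fun j : ℕ => ω ^ (2 * j + 1) / ((2 * j + 1).factorial : ℝ) * g j) =
      fun j : ℕ => ω ^ (2 * j + 1) / ((2 * j + 1).factorial : ℝ) * t ^ j := by
    funext j
    rw [hg j]
  rw [← e2]
  exact gsum

theorem phi_seq {ι : Type} {U : Ultrafilter ι} {n v : ι → ℕ} {ω : ℝ} (h : Sq U n v ω) :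
    Tendsto (fun i => Bn (n i) (v i) 0 1) U (𝓝 (phw ω)) := by
  set F : Filter (ℕ × ℕ) := comap Prod.fst atTop ⊓
    comap (fun q : ℕ × ℕ => (q.2 : ℝ) / q.1) (𝓝 ω) ⊓ 𝓟 {q | q.2 % 2 = q.1 % 2} with hF
  have hSF : ∀ V : Ultrafilter (ℕ × ℕ), (V : Filter (ℕ × ℕ)) ≤ F ↔ Sq V Prod.fst Prod.snd ω := by
    intro V
    constructor
    · intro hV
      rw [hF, le_inf_iff, le_inf_iff] at hV
      exact ⟨tendsto_iff_comap.2 hV.1.1, tendsto_iff_comap.2 hV.1.2, le_principal_iff.1 hV.2,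
        h.ω0, h.ω1⟩
    · intro hV
      rw [hF, le_inf_iff, le_inf_iff]
      exact ⟨⟨tendsto_iff_comap.1 hV.ntop, tendsto_iff_comap.1 hV.lim⟩, le_principal_iff.2 hV.par⟩
  set R : ℕ × ℕ → ℝ := fun q => Bn q.1 q.2 0 1 with hR
  have hbd : ∀ V : Ultrafilter (ℕ × ℕ), (V : Filter (ℕ × ℕ)) ≤ F → ∀ t, Tendsto R V (𝓝 t) →
      t ∈ Set.Icc 0 (192 / ω ^ 3) := by
    intro V hV t ht
    have h1 := phi_bd ((hSF V).1 hV)
    exact isClosed_Icc.mem_of_tendsto ht h1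
  have hlim : ∀ V : Ultrafilter (ℕ × ℕ), (V : Filter (ℕ × ℕ)) ≤ F → ∃ t, Tendsto R V (𝓝 t) := by
    intro V hV
    have h1 := phi_bd ((hSF V).1 hV)
    exact ⟨_, ulim_tendsto (B := 192 / ω ^ 3) (h1.mono fun q hq => by
      rw [abs_of_nonneg hq.1]; exact hq.2)⟩
  set T : Set ℝ := {t | MapClusterPt t F R} with hT
  have hTm : ∀ t, t ∈ T ↔ ∃ V : Ultrafilter (ℕ × ℕ), (V : Filter (ℕ × ℕ)) ≤ F ∧
      Tendsto R V (𝓝 t) := fun t => mapClusterPt_iff_ultrafilter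
  have hTc : IsCompact T := by
    refine (isCompact_Icc (a := (0 : ℝ)) (b := 192 / ω ^ 3)).of_isClosed_subset ?_ ?_
    · exact isClosed_setOfPred_clusterPt
    · intro t ht
      obtain ⟨V, hV, hVt⟩ := (hTm t).1 ht
      exact hbd V hV t hVt
  have hUF : ((U.map fun i => (n i, v i) : Ultrafilter (ℕ × ℕ)) : Filter (ℕ × ℕ)) ≤ F := by
    rw [hSF]
    exact ⟨tendsto_map'_iff.2 h.ntop, tendsto_map'_iff.2 h.lim, h.par, h.ω0, h.ω1⟩
  have hTn : T.Nonempty := by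
    obtain ⟨t, ht⟩ := hlim _ hUF
    exact ⟨t, (hTm t).2 ⟨_, hUF, ht⟩⟩
  obtain ⟨t1, ht1, ht1'⟩ := hTc.exists_isGreatest hTn
  obtain ⟨t2, ht2, ht2'⟩ := hTc.exists_isLeast hTn
  have e1 : t1 = phw ω := by
    obtain ⟨V, hV, hVt⟩ := (hTm t1).1 ht1
    refine phi_core ((hSF V).1 hV) hVt 1 one_ne_zero fun W t' hW ht' => ?_
    have h2 : t' ≤ t1 := ht1' ((hTm t').2 ⟨W, (hSF W).2 hW, ht'⟩)
    linarith
  have e2 : t2 = phw ω := by
    obtain ⟨V, hV, hVt⟩ := (hTm t2).1 ht2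
    refine phi_core ((hSF V).1 hV) hVt (-1) (by norm_num) fun W t' hW ht' => ?_
    have h2 : t2 ≤ t' := ht2' ((hTm t').2 ⟨W, (hSF W).2 hW, ht'⟩)
    linarith
  obtain ⟨t, ht⟩ := hlim _ hUF
  have htT : t ∈ T := (hTm t).2 ⟨_, hUF, ht⟩
  have h3 : t ≤ t1 := ht1' htT
  have h4 : t2 ≤ t := ht2' htT
  have h5 : t = phw ω := le_antisymm (by rw [← e1]; exact h3) (by rw [← e2]; exact h4)
  rw [h5] at ht
  exact tendsto_map'_iff.1 ht

theorem phi {ω1 ω2 : ℝ} (h1 : 0 < ω1) (h2 : ω2 < 1) {ε : ℝ} (hε : 0 < ε) :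
    ∃ n0 : ℕ, ∀ n v : ℕ, n0 ≤ n → ω1 * n ≤ v → (v : ℝ) ≤ ω2 * n → v % 2 = n % 2 →
      |(n : ℝ) ^ 2 * bc n (v + 2) / bc n v - phw ((v : ℝ) / n)| ≤ ε := by
  by_contra hcon
  push Not at hcon
  choose nn vv a1 a2 a3 a4 a5 using hcon
  obtain ⟨U, ω, hS⟩ := rho_ult h1 h2 a1 a2 a3 a4
  have t1 := phi_seq hS
  have hc : ContinuousAt phw ω := phw_cont.continuousAt (Ioo_mem_nhds hS.ω0 hS.ω1)
  have t2 : Tendsto (fun k => phw ((vv k : ℝ) / nn k)) U (𝓝 (phw ω)) := hc.tendsto.comp hS.lim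
  have t3 := (t1.sub t2).abs
  rw [sub_self, abs_zero] at t3
  have t4 : ε ≤ 0 := ge_of_tendsto t3 (Eventually.of_forall fun k => by
    have e1 : Bn (nn k) (vv k) 0 1 =
        (nn k : ℝ) ^ 2 * bc (nn k) (vv k + 2) / bc (nn k) (vv k) := by
      unfold Bn
      norm_num
    rw [e1]
    exact (a5 k).le)
  linarith

end UN39
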