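import Mathlib

/-!
[H39 UP LIO]  (MP_bcc40c_pr)  Liouville theorem for functions with bounded increments.  MATHLIB ONLY.

PROOF.  lio0 (bounded case): let `|W| ≤ B`, `∑' P p (W (x+p) - W x) = 0` for all `x`, `P ≥ 0` summable, `P e > 0`; claim `W (x+e) = W x` for all `x`.  Put
`g x = W (x+e) - W x`; `|g| ≤ 2B`; `g` satisfies the same equation (difference of two equations; all sums converge absolutely).  Let `S = sup g`
(`S ≥ 0` is not needed).  Suppose `S > 0`.  Choose `M : ℕ` with `M S/2 > 2B`.  Claim: for every `ε > 0` there is `x` with `g (x + m e) ≥ S - ε` for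
all `m ≤ M`.  By induction on `m`: if `g x ≥ S - η` then `P e (S - g (x+e)) ≤ ∑' P p (S - g (x+p)) = Z (S - g x) ≤ Z η`, `Z = ∑' P`, so
`g (x+e) ≥ S - Z η/P e`.  Choose `η` with `η (Z/P e)^m ≤ S/2` for all `m ≤ M` (`Z/P e ≥ 1`).  Then `W (x + M e) - W x = ∑_{m<M} g (x+me) ≥ M S/2 > 2B`, a
contradiction.  So `g ≤ 0`; the same for `-W`: `g ≥ 0`.
lio: for `e ∈ {(1,0), (0,1)}` the function `W x = V (x+e) - V x` is bounded and harmonic (difference of two equations; summability of
`P p (V (x+p) - V x)`: `|V (x+p) - V x| ≤ B (|p.1| + |p.2|)`), so it is constant by lio0 with the two directions.  So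
`V (x + (1,0)) - V x = a`, `V (x + (0,1)) - V x = b` for all `x`; induction over `ℤ`.
-/

set_option autoImplicit false

namespace UN39

private theorem lioA {P : ℤ × ℤ → ℝ} (h0 : ∀ p, 0 ≤ P p) (hs : Summable P) {e : ℤ × ℤ}
    (he : 0 < P e) {W : ℤ × ℤ → ℝ} {B : ℝ} (hW : ∀ p, |W p| ≤ B)
    (hh : ∀ x, ∑' p, P p * (W (x + p) - W x) = 0) (x : ℤ × ℤ) : W (x + e) - W x ≤ 0 := by
  have hB : 0 ≤ B := (abs_nonneg _).trans (hW 0)
  obtain ⟨g, hg⟩ : ∃ g : ℤ × ℤ → ℝ, ∀ x, g x = W (x + e) - W x := ⟨_, fun x => rfl⟩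
  have hgb : ∀ x, |g x| ≤ 2 * B := fun x => by
    rw [hg]
    refine (abs_sub _ _).trans ?_
    have h1 := hW (x + e)
    have h2 := hW x
    linarith
  have hsumW : ∀ x, Summable fun p => P p * (W (x + p) - W x) := by
    intro x
    refine Summable.of_norm_bounded (hs.mul_right (2 * B)) fun p => ?_
    rw [Real.norm_eq_abs, abs_mul, abs_of_nonneg (h0 p)]
    refine mul_le_mul_of_nonneg_left ((abs_sub _ _).trans ?_) (h0 p)
    have h1 := hW (x + p)
    have h2 := hW x
    linarith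
  have hgg : ∀ x, ∑' p, P p * (g (x + p) - g x) = 0 := by
    intro x
    have h1 : ∀ p, P p * (g (x + p) - g x) =
        P p * (W ((x + e) + p) - W (x + e)) - P p * (W (x + p) - W x) := by
      intro p
      rw [hg, hg, add_right_comm x p e]
      ring
    rw [tsum_congr h1, (hsumW (x + e)).tsum_sub (hsumW x), hh, hh, sub_zero]
  have hbdd : BddAbove (Set.range g) := ⟨2 * B, by
    rintro _ ⟨y, rfl⟩
    exact (le_abs_self _).trans (hgb y)⟩
  obtain ⟨S, hS⟩ : ∃ S, S = sSup (Set.range g) := ⟨_, rfl⟩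
  have hle : ∀ y, g y ≤ S := fun y => by
    rw [hS]
    exact le_csSup hbdd ⟨y, rfl⟩
  by_contra hcon
  push Not at hcon
  have hSpos : 0 < S := by
    have h1 := hle x
    rw [hg] at h1
    linarith
  obtain ⟨Z, hZ⟩ : ∃ Z, Z = ∑' p, P p := ⟨_, rfl⟩
  have hZe : P e ≤ Z := by
    rw [hZ]
    exact hs.le_tsum e fun p _ => h0 p
  obtain ⟨r, hr⟩ : ∃ r, r = Z / P e := ⟨_, rfl⟩
  have hr1 : 1 ≤ r := by
    rw [hr, le_div_iff₀ he, one_mul]
    exact hZe
  have hstep : ∀ y, S - g (y + e) ≤ r * (S - g y) := by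
    intro y
    have h1 : Summable fun p => P p * (S - g (y + p)) := by
      refine Summable.of_norm_bounded (hs.mul_right (S + 2 * B)) fun p => ?_
      rw [Real.norm_eq_abs, abs_mul, abs_of_nonneg (h0 p)]
      refine mul_le_mul_of_nonneg_left ((abs_sub _ _).trans ?_) (h0 p)
      rw [abs_of_pos hSpos]
      linarith [hgb (y + p)]
    have h2 : P e * (S - g (y + e)) ≤ ∑' p, P p * (S - g (y + p)) :=
      h1.le_tsum e fun p _ => mul_nonneg (h0 p) (by linarith [hle (y + p)])
    have h3 : Summable fun p => P p * (g (y + p) - g y) := by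
      refine Summable.of_norm_bounded (hs.mul_right (4 * B)) fun p => ?_
      rw [Real.norm_eq_abs, abs_mul, abs_of_nonneg (h0 p)]
      refine mul_le_mul_of_nonneg_left ((abs_sub _ _).trans ?_) (h0 p)
      linarith [hgb (y + p), hgb y]
    have h4 : ∑' p, P p * (S - g (y + p)) = Z * (S - g y) := by
      have h5 : ∀ p, P p * (S - g (y + p)) = P p * (S - g y) - P p * (g (y + p) - g y) := by
        intro p
        ring
      rw [tsum_congr h5, (hs.mul_right (S - g y)).tsum_sub h3, hgg, sub_zero, tsum_mul_right, hZ]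
    rw [h4] at h2
    have h5 : r * (S - g y) = Z * (S - g y) / P e := by
      rw [hr]
      ring
    rw [h5, le_div_iff₀ he, mul_comm]
    exact h2
  obtain ⟨M, hM⟩ := exists_nat_gt (2 * B / (S / 2))
  have hM' : 2 * B < M * (S / 2) := by
    rwa [div_lt_iff₀ (by positivity)] at hM
  have hrM : 0 < r ^ M := by positivity
  obtain ⟨_, ⟨x0, rfl⟩, hx0⟩ : ∃ y ∈ Set.range g, S - S / (2 * r ^ M) < y := by
    refine exists_lt_of_lt_csSup ⟨g 0, 0, rfl⟩ ?_
    rw [← hS]
    have : 0 < S / (2 * r ^ M) := by positivity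
    linarith
  have hind : ∀ m : ℕ, S - g (x0 + m • e) ≤ S / (2 * r ^ M) * r ^ m := by
    intro m
    induction m with
    | zero =>
      rw [zero_smul, add_zero, pow_zero, mul_one]
      linarith
    | succ m ih =>
      have h1 : x0 + (m + 1) • e = (x0 + m • e) + e := by
        rw [succ_nsmul, add_assoc]
      rw [h1]
      refine (hstep _).trans ?_
      have h2 := mul_le_mul_of_nonneg_left ih (zero_le_one.trans hr1)
      calc _ ≤ _ := h2
        _ = _ := by ring
  have hlow : ∀ m ∈ Finset.range M, S / 2 ≤ g (x0 + m • e) := by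
    intro m hm
    have h1 := hind m
    have h2 : r ^ m ≤ r ^ M := pow_le_pow_right₀ hr1 (Finset.mem_range.1 hm).le
    have h3 : S / (2 * r ^ M) * r ^ m ≤ S / 2 := by
      calc S / (2 * r ^ M) * r ^ m ≤ S / (2 * r ^ M) * r ^ M :=
            mul_le_mul_of_nonneg_left h2 (by positivity)
        _ = S / 2 := by field_simp
    linarith
  have hsum := Finset.sum_le_sum hlow
  rw [Finset.sum_const, Finset.card_range, nsmul_eq_mul] at hsum
  have htel : ∑ m ∈ Finset.range M, g (x0 + m • e) = W (x0 + M • e) - W x0 := by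
    have h1 := Finset.sum_range_sub (fun m : ℕ => W (x0 + m • e)) M
    rw [zero_smul, add_zero] at h1
    rw [← h1]
    refine Finset.sum_congr rfl fun m _ => ?_
    rw [hg, succ_nsmul, add_assoc]
  rw [htel] at hsum
  have h1 := hW (x0 + M • e)
  have h2 := hW x0
  rw [abs_le] at h1 h2
  linarith

theorem lio0 {P : ℤ × ℤ → ℝ} (h0 : ∀ p, 0 ≤ P p) (hs : Summable P) {e : ℤ × ℤ} (he : 0 < P e)
    {W : ℤ × ℤ → ℝ} {B : ℝ} (hW : ∀ p, |W p| ≤ B)
    (hh : ∀ x, ∑' p, P p * (W (x + p) - W x) = 0) (x : ℤ × ℤ) : W (x + e) = W x := by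
  have h1 := lioA h0 hs he hW hh x
  have h2 := lioA (W := fun p => - W p) h0 hs he (fun p => by rw [abs_neg]; exact hW p)
    (fun y => by
      have h3 : ∀ p, P p * (- W (y + p) - - W y) = -(P p * (W (y + p) - W y)) := fun p => by ring
      rw [tsum_congr h3, tsum_neg, hh, neg_zero]) x
  linarith

private theorem const_of {f : ℤ × ℤ → ℝ} (h1 : ∀ x, f (x + (1, 0)) = f x)
    (h2 : ∀ x, f (x + (0, 1)) = f x) (x : ℤ × ℤ) : f x = f 0 := by
  have e1 : ∀ (n : ℤ) (x : ℤ × ℤ), f (x + (n, 0)) = f x := by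
    intro n
    induction n using Int.induction_on with
    | zero =>
      intro x
      rw [show ((0 : ℤ), (0 : ℤ)) = 0 from rfl, add_zero]
    | succ n ih =>
      intro x
      have h3 : x + ((n : ℤ) + 1, (0 : ℤ)) = (x + ((n : ℤ), (0 : ℤ))) + (1, 0) := by
        refine Prod.ext ?_ ?_ <;> simp <;> ring
      rw [h3, h1, ih]
    | pred n ih =>
      intro x
      have h3 : x + (-(n : ℤ), (0 : ℤ)) = (x + (-(n : ℤ) - 1, (0 : ℤ))) + (1, 0) := by
        refine Prod.ext ?_ ?_ <;> simp <;> ring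
      have h4 := ih x
      rw [h3, h1] at h4
      exact h4
  have e2 : ∀ (n : ℤ) (x : ℤ × ℤ), f (x + (0, n)) = f x := by
    intro n
    induction n using Int.induction_on with
    | zero =>
      intro x
      rw [show ((0 : ℤ), (0 : ℤ)) = 0 from rfl, add_zero]
    | succ n ih =>
      intro x
      have h3 : x + ((0 : ℤ), (n : ℤ) + 1) = (x + ((0 : ℤ), (n : ℤ))) + (0, 1) := by
        refine Prod.ext ?_ ?_ <;> simp <;> ring
      rw [h3, h2, ih]
    | pred n ih =>
      intro x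
      have h3 : x + ((0 : ℤ), -(n : ℤ)) = (x + ((0 : ℤ), -(n : ℤ) - 1)) + (0, 1) := by
        refine Prod.ext ?_ ?_ <;> simp <;> ring
      have h4 := ih x
      rw [h3, h2] at h4
      exact h4
  have h3 : x = (0 + (x.1, (0 : ℤ))) + ((0 : ℤ), x.2) := by
    rw [zero_add, Prod.mk_add_mk, add_zero, zero_add]
  rw [h3, e2, e1]

private theorem incr {V : ℤ × ℤ → ℝ} {B : ℝ} {e : ℤ × ℤ}
    (hV : ∀ p, |V (p + e) - V p| ≤ B) (n : ℤ) (x : ℤ × ℤ) :
    |V (x + n • e) - V x| ≤ B * |(n : ℝ)| := by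
  have key : ∀ (n : ℕ) (x : ℤ × ℤ), |V (x + n • e) - V x| ≤ B * n := by
    intro n
    induction n with
    | zero =>
      intro x
      simp
    | succ n ih =>
      intro x
      have h1 : x + (n + 1) • e = (x + n • e) + e := by rw [succ_nsmul, add_assoc]
      have h2 : V (x + (n + 1) • e) - V x =
          (V ((x + n • e) + e) - V (x + n • e)) + (V (x + n • e) - V x) := by
        rw [h1]
        ring
      rw [h2]
      refine (abs_add_le _ _).trans ?_
      have h3 := hV (x + n • e)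
      have h4 := ih x
      push_cast
      linarith
  obtain ⟨m, rfl | rfl⟩ := n.eq_nat_or_neg
  · have h1 := key m x
    rw [natCast_zsmul]
    refine h1.trans (le_of_eq ?_)
    simp
  · have h1 := key m (x + (-(m : ℤ)) • e)
    have h2 : (x + (-(m : ℤ)) • e) + m • e = x := by
      rw [neg_smul, natCast_zsmul, neg_add_cancel_right]
    rw [h2, abs_sub_comm] at h1
    refine h1.trans (le_of_eq ?_)
    simp

theorem lio {P : ℤ × ℤ → ℝ} (h0 : ∀ p, 0 ≤ P p)
    (hs : Summable fun p : ℤ × ℤ => P p * (1 + |(p.1 : ℝ)| + |(p.2 : ℝ)|))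
    (h1 : 0 < P (1, 0)) (h2 : 0 < P (0, 1)) {V : ℤ × ℤ → ℝ} {B : ℝ}
    (hV : ∀ p, |V (p + (1, 0)) - V p| ≤ B ∧ |V (p + (0, 1)) - V p| ≤ B)
    (hh : ∀ x, ∑' p, P p * (V (x + p) - V x) = 0) :
    ∃ a b : ℝ, ∀ p : ℤ × ℤ, V p = V 0 + a * p.1 + b * p.2 := by
  have hB : 0 ≤ B := (abs_nonneg _).trans (hV 0).1
  have hsP : Summable P := by
    refine Summable.of_norm_bounded hs fun p => ?_
    rw [Real.norm_eq_abs, abs_of_nonneg (h0 p)]
    have h3 := abs_nonneg (p.1 : ℝ)
    have h4 := abs_nonneg (p.2 : ℝ)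
    nlinarith [h0 p]
  have hb : ∀ x p : ℤ × ℤ, |V (x + p) - V x| ≤ B * (|(p.1 : ℝ)| + |(p.2 : ℝ)|) := by
    intro x p
    have e1 := incr (e := (1, 0)) (fun q => (hV q).1) p.1 x
    have e2 := incr (e := (0, 1)) (fun q => (hV q).2) p.2 (x + p.1 • (1, 0))
    have h3 : x + p = (x + p.1 • ((1 : ℤ), (0 : ℤ))) + p.2 • ((0 : ℤ), (1 : ℤ)) := by
      rw [add_assoc]
      congr 1
      ext <;> simp
    have h4 : V (x + p) - V x = (V ((x + p.1 • ((1 : ℤ), (0 : ℤ))) + p.2 • ((0 : ℤ), (1 : ℤ))) -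
        V (x + p.1 • ((1 : ℤ), (0 : ℤ)))) + (V (x + p.1 • ((1 : ℤ), (0 : ℤ))) - V x) := by
      rw [← h3]
      ring
    rw [h4]
    refine (abs_add_le _ _).trans ?_
    rw [mul_add]
    linarith
  have hsV : ∀ x, Summable fun p => P p * (V (x + p) - V x) := by
    intro x
    refine Summable.of_norm_bounded (hs.mul_left B) fun p => ?_
    rw [Real.norm_eq_abs, abs_mul, abs_of_nonneg (h0 p)]
    have h3 := mul_le_mul_of_nonneg_left (hb x p) (h0 p)
    have h4 : 0 ≤ B * P p := mul_nonneg hB (h0 p)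
    calc _ ≤ _ := h3
      _ ≤ B * P p + P p * (B * (|(p.1 : ℝ)| + |(p.2 : ℝ)|)) := by linarith
      _ = _ := by ring
  have hW : ∀ e : ℤ × ℤ, (∀ p, |V (p + e) - V p| ≤ B) →
      ∀ x, V (x + e) - V x = V (0 + e) - V 0 := by
    intro e he x
    have hhW : ∀ x, ∑' p, P p * ((V (x + p + e) - V (x + p)) - (V (x + e) - V x)) = 0 := by
      intro x
      have h3 : ∀ p, P p * ((V (x + p + e) - V (x + p)) - (V (x + e) - V x)) =
          P p * (V ((x + e) + p) - V (x + e)) - P p * (V (x + p) - V x) := by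
        intro p
        rw [add_right_comm x p e]
        ring
      rw [tsum_congr h3, (hsV (x + e)).tsum_sub (hsV x), hh, hh, sub_zero]
    exact const_of (f := fun x => V (x + e) - V x)
      (fun x => lio0 (W := fun x => V (x + e) - V x) h0 hsP h1 he hhW x)
      (fun x => lio0 (W := fun x => V (x + e) - V x) h0 hsP h2 he hhW x) x
  have w1 := hW (1, 0) fun p => (hV p).1
  have w2 := hW (0, 1) fun p => (hV p).2
  refine ⟨V (0 + (1, 0)) - V 0, V (0 + (0, 1)) - V 0, fun p => ?_⟩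
  have h3 := const_of (f := fun p : ℤ × ℤ => V p - (V (0 + (1, 0)) - V 0) * p.1 -
    (V (0 + (0, 1)) - V 0) * p.2) (fun x => by
      have h4 := w1 x
      simp only [Prod.fst_add, Prod.snd_add, add_zero]
      push_cast
      linarith) (fun x => by
      have h4 := w2 x
      simp only [Prod.fst_add, Prod.snd_add, add_zero]
      push_cast
      linarith) p
  simp only [Prod.fst_zero, Prod.snd_zero, Int.cast_zero, mul_zero, sub_zero] at h3
  linarith

end UN39
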