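import Mathlib
import Pool.Agent.H39.UN.Ult
import Pool.Agent.H39.UP.Lio

/-!
[H39 UP ABSC]  (MP_bcc40c_pr)  Abstract form of the contraction argument.  MATHLIB ONLY (and ULT, LIO).

Write `|p| = p.1.natAbs + p.2.natAbs`.  PROOF.  Put `V k p = X k p / D k` (eventually in `k`).  By hX, along paths, `|V k p| ≤ |p| (1/η + C |p|/k)` as soon as
`|p| ≤ R k` (`X k 0 = 0`), so the limits `V p = ulim U (fun k => V k p)` exist and `|V (p+e) - V p| ≤ 1/η` for `e = (1,0), (0,1)` (`R k → ∞`, `1/k → 0` along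
`U`).  Also `|X k (x+p) - X k x| ≤ |p| min(ε, D k (1/η + C (|x|+|p|)/k))` for `|x| + |p| ≤ R k`.
Harmonicity: fix `x`.  `(exp (X k (x+p) - X k x) - 1)/D k → V (x+p) - V x` along `U` for every `p` (`X k (x+p) - X k x → 0`, `(exp y - 1)/y → 1`;
use `|exp y - 1 - y| ≤ y^2 exp |y|`), and it is dominated by `|p| (1/η + C (|x|+|p|)) exp(ε |p|)` on `box k` (`|exp y - 1| ≤ |y| exp |y|`); choose `ε` with
`θ exp ε < 1`: then `P k p * (...)/D k` is dominated by the summable function `C' θ^|p| exp(ε|p|) (1+|p|)^2` (`p ∈ ℤ × ℤ`).  ulim_tannery needs an index in `ℕ`;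
`ℤ × ℤ` is denumerable, transport the statement (or prove it directly: `tendsto_tsum_of_dominated_convergence` works for any filter and any
index type).  So `∑' p, P0 p (V (x+p) - V x) = 0`, and the same for `G0`.
lio (for `P0`; `P0 p ≤ C θ^|p|`): `V p = a p.1 + b p.2` (`V 0 = 0`).  Then `∑' P0 p (a p.1 + b p.2) = 0 = ∑' G0 p (a p.1 + b p.2)` (`x = 0`), so
`a = b = 0` by htr; but `max |V (1,0)| |V (0,1)| = 1` by hc (limit of a maximum).  Contradiction.
-/

set_option autoImplicit false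

namespace UN39

open Filter Topology

/-- length of a vector -/
def len (p : ℤ × ℤ) : ℕ := p.1.natAbs + p.2.natAbs

private theorem len_add_le (p q : ℤ × ℤ) : len (p + q) ≤ len p + len q := by
  unfold len
  have h1 := Int.natAbs_add_le p.1 q.1
  have h2 := Int.natAbs_add_le p.2 q.2
  simp only [Prod.fst_add, Prod.snd_add]
  omega

private theorem len_smul (n : ℤ) {e : ℤ × ℤ} (he : len e = 1) : len (n • e) = n.natAbs := by
  unfold len at *
  simp only [Prod.smul_fst, Prod.smul_snd, smul_eq_mul, Int.natAbs_mul]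
  rw [← mul_add, he, mul_one]

private theorem inc_dir {F : ℤ × ℤ → ℝ} {R : ℕ} {δ : ℝ} {e : ℤ × ℤ} (he : len e = 1)
    (hF : ∀ q, len q ≤ R → |F (q + e) - F q| ≤ δ) (n : ℤ) (x : ℤ × ℤ)
    (h : len x + n.natAbs ≤ R) : |F (x + n • e) - F x| ≤ δ * n.natAbs := by
  have key : ∀ (n : ℕ) (x : ℤ × ℤ), len x + n ≤ R →
      |F (x + (n : ℤ) • e) - F x| ≤ δ * n ∧ |F (x + (-(n : ℤ)) • e) - F x| ≤ δ * n := by
    intro n
    induction n with
    | zero =>
      intro x _
      simp
    | succ n ih =>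
      intro x hx
      obtain ⟨i1, i2⟩ := ih x (by omega)
      have hl : ∀ m : ℤ, m.natAbs ≤ n + 1 → len (x + m • e) ≤ R := by
        intro m hm
        have h1 := len_add_le x (m • e)
        rw [len_smul m he] at h1
        omega
      constructor
      · have h1 : x + ((n + 1 : ℕ) : ℤ) • e = (x + (n : ℤ) • e) + e := by
          push_cast
          rw [add_smul, one_smul, add_assoc]
        have h2 := hF (x + (n : ℤ) • e) (hl _ (by simp))
        have h3 : F (x + ((n + 1 : ℕ) : ℤ) • e) - F x =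
            (F ((x + (n : ℤ) • e) + e) - F (x + (n : ℤ) • e)) + (F (x + (n : ℤ) • e) - F x) := by
          rw [h1]
          ring
        rw [h3]
        refine (abs_add_le _ _).trans ?_
        push_cast
        linarith
      · have h1 : x + (-(n : ℤ)) • e = (x + (-((n + 1 : ℕ) : ℤ)) • e) + e := by
          push_cast
          rw [neg_add, add_smul, neg_smul 1 e, one_smul, add_assoc, add_assoc, neg_add_cancel,
            add_zero]
        have h2 := hF (x + (-((n + 1 : ℕ) : ℤ)) • e) (hl _ (by simp; omega))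
        rw [← h1, abs_sub_comm] at h2
        have h3 : F (x + (-((n + 1 : ℕ) : ℤ)) • e) - F x =
            (F (x + (-((n + 1 : ℕ) : ℤ)) • e) - F (x + (-(n : ℤ)) • e)) +
              (F (x + (-(n : ℤ)) • e) - F x) := by ring
        rw [h3]
        refine (abs_add_le _ _).trans ?_
        push_cast at h2 i2 ⊢
        linarith
  obtain ⟨m, rfl | rfl⟩ := n.eq_nat_or_neg
  · have h1 := (key m x (by simpa using h)).1
    simpa using h1
  · have h1 := (key m x (by simpa using h)).2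
    simpa using h1

private theorem inc {F : ℤ × ℤ → ℝ} {R : ℕ} {δ : ℝ}
    (hF : ∀ q, len q ≤ R → |F (q + (1, 0)) - F q| ≤ δ ∧ |F (q + (0, 1)) - F q| ≤ δ)
    (x p : ℤ × ℤ) (h : len x + len p ≤ R) : |F (x + p) - F x| ≤ δ * len p := by
  have l1 : len ((1 : ℤ), (0 : ℤ)) = 1 := rfl
  have l2 : len ((0 : ℤ), (1 : ℤ)) = 1 := rfl
  have hp : len p = p.1.natAbs + p.2.natAbs := rfl
  have h1 := inc_dir l1 (fun q hq => (hF q hq).1) p.1 x (by omega)
  have h3 := len_add_le x (p.1 • ((1 : ℤ), (0 : ℤ)))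
  rw [len_smul p.1 l1] at h3
  have h2 := inc_dir l2 (fun q hq => (hF q hq).2) p.2 (x + p.1 • ((1 : ℤ), (0 : ℤ))) (by omega)
  have h4 : x + p = (x + p.1 • ((1 : ℤ), (0 : ℤ))) + p.2 • ((0 : ℤ), (1 : ℤ)) := by
    refine Prod.ext ?_ ?_ <;> simp
  have h5 : F (x + p) - F x =
      (F ((x + p.1 • ((1 : ℤ), (0 : ℤ))) + p.2 • ((0 : ℤ), (1 : ℤ))) -
        F (x + p.1 • ((1 : ℤ), (0 : ℤ)))) + (F (x + p.1 • ((1 : ℤ), (0 : ℤ))) - F x) := by
    rw [← h4]
    ring
  rw [h5, hp]
  refine (abs_add_le _ _).trans ?_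
  push_cast
  linarith

private theorem summable_len {ρ : ℝ} (h0 : 0 < ρ) (h1 : ρ < 1) :
    Summable fun p : ℤ × ℤ => ρ ^ len p := by
  have h2 : Summable fun n : ℤ => ρ ^ n.natAbs := by
    rw [summable_int_iff_summable_nat_and_neg]
    have h3 : Summable fun n : ℕ => ρ ^ n := summable_geometric_of_lt_one h0.le h1
    constructor
    · simpa using h3
    · simpa using h3
  have h3 := h2.mul_of_nonneg h2 (fun n => by positivity) (fun n => by positivity)
  refine h3.congr fun p => ?_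
  unfold len
  rw [pow_add]

private theorem summable_poly {ρ a b : ℝ} (h0 : 0 < ρ) (h1 : ρ < 1) (ha : 0 ≤ a) (hb : 0 ≤ b) :
    Summable fun p : ℤ × ℤ => ρ ^ len p * ((1 + len p) * (a + b * len p)) := by
  obtain ⟨ρ', hρ1, hρ2⟩ := exists_between h1
  have hρ0 : 0 < ρ' := h0.trans hρ1
  have hr : |ρ / ρ'| < 1 := by
    rw [abs_of_pos (by positivity), div_lt_one hρ0]
    exact hρ1
  have hlim : Tendsto (fun n : ℕ => ((1 : ℝ) + n) * (a + b * n) * (ρ / ρ') ^ n) atTop (𝓝 0) := by
    have t0 := tendsto_pow_atTop_nhds_zero_of_abs_lt_one hr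
    have t1 := tendsto_pow_const_mul_const_pow_of_abs_lt_one 1 hr
    have t2 := tendsto_pow_const_mul_const_pow_of_abs_lt_one 2 hr
    have t3 := ((t0.const_mul a).add (t1.const_mul (a + b))).add (t2.const_mul b)
    simp only [mul_zero, add_zero] at t3
    refine t3.congr fun n => ?_
    ring
  obtain ⟨K, hK⟩ := hlim.bddAbove_range
  refine Summable.of_norm_bounded ((summable_len hρ0 hρ2).mul_left K) fun p => ?_
  have h2 := hK ⟨len p, rfl⟩
  simp only at h2
  rw [Real.norm_eq_abs, abs_of_nonneg (by positivity)]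
  have h3 : ρ ^ len p * ((1 + len p) * (a + b * len p)) =
      ((1 : ℝ) + len p) * (a + b * len p) * (ρ / ρ') ^ len p * ρ' ^ len p := by
    rw [div_pow]
    field_simp
  rw [h3]
  exact mul_le_mul_of_nonneg_right h2 (by positivity)

private theorem exp_bd (y : ℝ) : |Real.exp y - 1| ≤ |y| * Real.exp |y| := by
  rcases le_total 0 y with h | h
  · have h1 := Real.add_one_le_exp (-y)
    have h2 : Real.exp y * Real.exp (-y) = 1 := by rw [← Real.exp_add, add_neg_cancel, Real.exp_zero]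
    have h3 := Real.add_one_le_exp y
    rw [abs_of_nonneg h, abs_of_nonneg (by linarith)]
    have h4 := mul_le_mul_of_nonneg_left h1 (Real.exp_pos y).le
    rw [h2] at h4
    linarith
  · have h1 := Real.add_one_le_exp y
    have h2 : Real.exp y ≤ 1 := Real.exp_le_one_iff.2 h
    rw [abs_of_nonpos h, abs_of_nonpos (by linarith)]
    have h3 : 1 ≤ Real.exp (-y) := Real.one_le_exp (by linarith)
    nlinarith

private theorem harm {U : Ultrafilter ℕ} (hU : (U : Filter ℕ) ≤ atTop) {P X : ℕ → ℤ × ℤ → ℝ}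
    {P0 V : ℤ × ℤ → ℝ} {D : ℕ → ℝ} {R : ℕ → ℕ} {box : ℕ → Finset (ℤ × ℤ)} {C θ η : ℝ}
    (hC : 0 < C) (hη : 0 < η) (hθ0 : 0 < θ) (hθ : θ < 1)
    (hD : ∀ᶠ k in (U : Filter ℕ), 0 < D k) (hD0 : Tendsto D U (𝓝 0)) (hR : Tendsto R U atTop)
    (hP : ∀ᶠ k in (U : Filter ℕ), ∀ p, 0 ≤ P k p ∧ P k p ≤ C * θ ^ len p)
    (hPl : ∀ p, Tendsto (fun k => P k p) U (𝓝 (P0 p)))
    (hX : ∀ᶠ k in (U : Filter ℕ), ∀ p, len p ≤ R k →
      |X k (p + (1, 0)) - X k p| ≤ D k * (1 / η + C * len p / k) ∧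
      |X k (p + (0, 1)) - X k p| ≤ D k * (1 / η + C * len p / k))
    (hXs : ∀ ε : ℝ, 0 < ε → ∀ᶠ k in (U : Filter ℕ), ∀ p, len p ≤ R k →
      |X k (p + (1, 0)) - X k p| ≤ ε ∧ |X k (p + (0, 1)) - X k p| ≤ ε)
    (hb : ∀ᶠ k in (U : Filter ℕ), ∀ p ∈ box k, 2 * len p ≤ R k)
    (hb' : ∀ p, ∀ᶠ k in (U : Filter ℕ), p ∈ box k)
    (hE : ∀ x, Tendsto (fun k => (∑ p ∈ box k, P k p * (Real.exp (X k (x + p) - X k x) - 1)) / D k)
      U (𝓝 0))
    (hV : ∀ p, Tendsto (fun k => X k p / D k) U (𝓝 (V p))) (x : ℤ × ℤ) :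
    ∑' p, P0 p * (V (x + p) - V x) = 0 := by
  classical
  -- choice of ε
  obtain ⟨ρ, hρ1, hρ2⟩ := exists_between hθ
  have hρ0 : 0 < ρ := hθ0.trans hρ1
  obtain ⟨ε, hεd⟩ : ∃ ε, ε = Real.log (ρ / θ) := ⟨_, rfl⟩
  have hε : 0 < ε := by
    rw [hεd]
    exact Real.log_pos (by rw [one_lt_div hθ0]; exact hρ1)
  have hexp : ∀ m : ℕ, θ ^ m * Real.exp (ε * m) = ρ ^ m := by
    intro m
    have h1 : Real.exp (ε * m) = (ρ / θ) ^ m := by
      rw [mul_comm, Real.exp_nat_mul, hεd, Real.exp_log (by positivity)]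
    rw [h1, div_pow]
    field_simp
  obtain ⟨f, hf⟩ : ∃ f : ℕ → ℤ × ℤ → ℝ, ∀ k p, f k p =
      if p ∈ box k then P k p * (Real.exp (X k (x + p) - X k x) - 1) / D k else 0 :=
    ⟨_, fun k p => rfl⟩
  have hsum : ∀ k, ∑' p, f k p =
      (∑ p ∈ box k, P k p * (Real.exp (X k (x + p) - X k x) - 1)) / D k := by
    intro k
    rw [tsum_eq_sum (s := box k) (fun p hp => by rw [hf, if_neg hp]), Finset.sum_div]
    exact Finset.sum_congr rfl fun p hp => by rw [hf, if_pos hp]
  have hk1 : ∀ᶠ k in (U : Filter ℕ), 1 ≤ k := hU (eventually_ge_atTop 1)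
  have hlimp : ∀ p, Tendsto (fun k => f k p) U (𝓝 (P0 p * (V (x + p) - V x))) := by
    intro p
    have h1 : Tendsto (fun k => (X k (x + p) - X k x) / D k) U (𝓝 (V (x + p) - V x)) := by
      refine ((hV (x + p)).sub (hV x)).congr fun k => ?_
      rw [sub_div]
    have h2 : Tendsto (fun k => X k (x + p) - X k x) U (𝓝 0) := by
      have h3 := hD0.mul h1
      rw [zero_mul] at h3
      refine h3.congr' ?_
      filter_upwards [hD] with k hk
      field_simp
    have h3 : Tendsto (fun k => (Real.exp (X k (x + p) - X k x) - 1 - (X k (x + p) - X k x)) / D k)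
        U (𝓝 0) := by
      have h4 : Tendsto (fun k => |X k (x + p) - X k x| * |(X k (x + p) - X k x) / D k|) U
          (𝓝 0) := by
        have h5 := h2.abs.mul h1.abs
        rwa [abs_zero, zero_mul] at h5
      refine squeeze_zero_norm' ?_ h4
      have h5 : ∀ᶠ k in (U : Filter ℕ), |X k (x + p) - X k x| ≤ 1 := by
        have h6 := h2.abs
        rw [abs_zero] at h6
        exact (h6.eventually_lt_const one_pos).mono fun k hk => hk.le
      filter_upwards [hD, h5] with k hk h6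
      rw [Real.norm_eq_abs, abs_div, abs_div, abs_of_pos hk, ← mul_div_assoc]
      refine div_le_div_of_nonneg_right ?_ hk.le
      refine (Real.abs_exp_sub_one_sub_id_le h6).trans (le_of_eq ?_)
      rw [← sq, sq_abs]
    have h4 := (hPl p).mul (h1.add h3)
    rw [add_zero] at h4
    refine h4.congr' ?_
    filter_upwards [hb' p] with k hk
    rw [hf, if_pos hk]
    ring
  have hdom : ∀ᶠ k in (U : Filter ℕ), ∀ p, ‖f k p‖ ≤
      C * (ρ ^ len p * ((1 + len p) * ((1 / η + C * len x) + C * len p))) := by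
    have hRx : ∀ᶠ k in (U : Filter ℕ), 2 * len x ≤ R k := hR.eventually_ge_atTop _
    filter_upwards [hD, hP, hX, hXs ε hε, hb, hk1, hRx] with k kD kP kX kXs kb kk kR p
    rw [hf]
    have hnn : 0 ≤ C * (ρ ^ len p * ((1 + len p) * ((1 / η + C * len x) + C * len p))) := by
      positivity
    split_ifs with hp
    · have hlen : len x + len p ≤ R k := by
        have h1 := kb p hp
        omega
      obtain ⟨y, hy⟩ : ∃ y, y = X k (x + p) - X k x := ⟨_, rfl⟩
      rw [← hy]
      have y1 : |y| ≤ ε * len p := by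
        rw [hy]
        exact inc kXs x p hlen
      have y2 : |y| ≤ D k * (1 / η + C * (len x + len p : ℕ) / k) * len p := by
        rw [hy]
        refine inc (R := len x + len p) (fun q hq => ?_) x p le_rfl
        have h1 := kX q (hq.trans hlen)
        have h2 : D k * (1 / η + C * len q / k) ≤ D k * (1 / η + C * (len x + len p : ℕ) / k) := by
          gcongr
        exact ⟨h1.1.trans h2, h1.2.trans h2⟩
      have y3 : D k * (1 / η + C * (len x + len p : ℕ) / k) * len p ≤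
          D k * ((1 + len p) * ((1 / η + C * len x) + C * len p)) := by
        have h1 : C * (len x + len p : ℕ) / k ≤ C * (len x + len p : ℕ) := by
          refine div_le_self (by positivity) ?_
          exact_mod_cast kk
        push_cast at h1 ⊢
        have h2 : (1 / η + C * (len x + len p) / k) * len p ≤
            (1 + len p) * ((1 / η + C * len x) + C * len p) := by
          have h3 : 1 / η + C * (len x + len p) / k ≤ (1 / η + C * len x) + C * len p := by
            linarith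
          have h4 : (0 : ℝ) ≤ (1 / η + C * len x) + C * len p := by positivity
          calc _ ≤ ((1 / η + C * len x) + C * len p) * len p :=
                mul_le_mul_of_nonneg_right h3 (by positivity)
            _ ≤ ((1 / η + C * len x) + C * len p) * (1 + len p) :=
                mul_le_mul_of_nonneg_left (by linarith) h4
            _ = _ := by ring
        rw [mul_assoc]
        exact mul_le_mul_of_nonneg_left h2 kD.le
      have y4 : |Real.exp y - 1| ≤
          D k * ((1 + len p) * ((1 / η + C * len x) + C * len p)) * Real.exp (ε * len p) := by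
        refine (exp_bd y).trans ?_
        exact mul_le_mul (y2.trans y3) (Real.exp_le_exp.2 y1) (Real.exp_pos _).le (by positivity)
      rw [Real.norm_eq_abs, abs_div, abs_mul, abs_of_pos kD, abs_of_nonneg (kP p).1,
        div_le_iff₀ kD]
      calc P k p * |Real.exp y - 1| ≤ (C * θ ^ len p) *
            (D k * ((1 + len p) * ((1 / η + C * len x) + C * len p)) * Real.exp (ε * len p)) :=
            mul_le_mul (kP p).2 y4 (abs_nonneg _) (by positivity)
        _ = C * ((θ ^ len p * Real.exp (ε * len p)) *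
            ((1 + len p) * ((1 / η + C * len x) + C * len p))) * D k := by ring
        _ = _ := by rw [hexp]
    · rw [norm_zero]
      exact hnn
  have hlim := tendsto_tsum_of_dominated_convergence
    (((summable_poly hρ0 hρ2 (a := 1 / η + C * len x) (b := C) (by positivity) hC.le)).mul_left C)
    hlimp hdom
  have h1 : Tendsto (fun k => ∑' p, f k p) U (𝓝 0) := (hE x).congr fun k => (hsum k).symm
  exact tendsto_nhds_unique hlim h1

theorem absc {U : Ultrafilter ℕ} (hU : (U : Filter ℕ) ≤ atTop) {P G X : ℕ → ℤ × ℤ → ℝ}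
    {P0 G0 : ℤ × ℤ → ℝ} {D : ℕ → ℝ} {R : ℕ → ℕ} {box : ℕ → Finset (ℤ × ℤ)} {C θ η : ℝ}
    (hC : 0 < C) (hη : 0 < η) (hθ0 : 0 < θ) (hθ : θ < 1)
    (hD : ∀ᶠ k in (U : Filter ℕ), 0 < D k) (hD0 : Tendsto D U (𝓝 0)) (hR : Tendsto R U atTop)
    (hP : ∀ᶠ k in (U : Filter ℕ), ∀ p, 0 ≤ P k p ∧ P k p ≤ C * θ ^ len p)
    (hG : ∀ᶠ k in (U : Filter ℕ), ∀ p, 0 ≤ G k p ∧ G k p ≤ C * θ ^ len p)
    (hPl : ∀ p, Tendsto (fun k => P k p) U (𝓝 (P0 p)))
    (hGl : ∀ p, Tendsto (fun k => G k p) U (𝓝 (G0 p)))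
    (hX0 : ∀ k, X k 0 = 0)
    (hX : ∀ᶠ k in (U : Filter ℕ), ∀ p, len p ≤ R k →
      |X k (p + (1, 0)) - X k p| ≤ D k * (1 / η + C * len p / k) ∧
      |X k (p + (0, 1)) - X k p| ≤ D k * (1 / η + C * len p / k))
    (hXs : ∀ ε : ℝ, 0 < ε → ∀ᶠ k in (U : Filter ℕ), ∀ p, len p ≤ R k →
      |X k (p + (1, 0)) - X k p| ≤ ε ∧ |X k (p + (0, 1)) - X k p| ≤ ε)
    (hc : ∀ᶠ k in (U : Filter ℕ), max |X k (1, 0)| |X k (0, 1)| = D k)
    (hb : ∀ᶠ k in (U : Filter ℕ), ∀ p ∈ box k, 2 * len p ≤ R k)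
    (hb' : ∀ p, ∀ᶠ k in (U : Filter ℕ), p ∈ box k)
    (hE : ∀ x, Tendsto (fun k => (∑ p ∈ box k, P k p * (Real.exp (X k (x + p) - X k x) - 1)) / D k)
      U (𝓝 0))
    (hE' : ∀ x, Tendsto (fun k => (∑ p ∈ box k, G k p * (Real.exp (X k (x + p) - X k x) - 1)) / D k)
      U (𝓝 0))
    (h10 : 0 < P0 (1, 0)) (h01 : 0 < P0 (0, 1))
    (htr : ∀ a b : ℝ, ∑' p : ℤ × ℤ, P0 p * (a * p.1 + b * p.2) = 0 →
      ∑' p : ℤ × ℤ, G0 p * (a * p.1 + b * p.2) = 0 → a = 0 ∧ b = 0) : False := by
  have hk1 : ∀ᶠ k in (U : Filter ℕ), 1 ≤ k := hU (eventually_ge_atTop 1)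
  obtain ⟨V, hVd⟩ : ∃ V : ℤ × ℤ → ℝ, ∀ p, V p = ulim U (fun k => X k p / D k) := ⟨_, fun p => rfl⟩
  have hV : ∀ p, Tendsto (fun k => X k p / D k) U (𝓝 (V p)) := by
    intro p
    rw [hVd]
    refine ulim_tendsto (B := (1 / η + C * len p) * len p) ?_
    filter_upwards [hD, hX, hk1, hR.eventually_ge_atTop (len p)] with k kD kX kk kR
    rw [abs_div, abs_of_pos kD, div_le_iff₀ kD]
    have h1 := inc (F := X k) (R := len p) (δ := D k * (1 / η + C * len p / k)) (fun q hq => by
      have h1 := kX q (hq.trans kR)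
      have h2 : D k * (1 / η + C * len q / k) ≤ D k * (1 / η + C * len p / k) := by
        gcongr
      exact ⟨h1.1.trans h2, h1.2.trans h2⟩) 0 p (by simp [len])
    rw [zero_add, hX0, sub_zero] at h1
    refine h1.trans ?_
    have h2 : C * len p / k ≤ C * len p := by
      refine div_le_self (by positivity) ?_
      exact_mod_cast kk
    have h3 : (1 / η + C * len p / k) * len p ≤ (1 / η + C * len p) * len p :=
      mul_le_mul_of_nonneg_right (by linarith) (by positivity)
    calc D k * (1 / η + C * len p / k) * len p = D k * ((1 / η + C * len p / k) * len p) := by ring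
      _ ≤ D k * ((1 / η + C * len p) * len p) := mul_le_mul_of_nonneg_left h3 kD.le
      _ = _ := by ring
  have hV0 : V 0 = 0 := by
    refine tendsto_nhds_unique (hV 0) ?_
    simp only [hX0, zero_div]
    exact tendsto_const_nhds
  have hinv : Tendsto (fun k : ℕ => (1 : ℝ) / k) U (𝓝 0) :=
    tendsto_one_div_atTop_nhds_zero_nat.mono_left hU
  have hVb : ∀ p, |V (p + (1, 0)) - V p| ≤ 1 / η ∧ |V (p + (0, 1)) - V p| ≤ 1 / η := by
    intro p
    have hr : Tendsto (fun k : ℕ => 1 / η + C * len p * (1 / k)) U (𝓝 (1 / η)) := by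
      have h1 := (hinv.const_mul (C * len p)).const_add (1 / η)
      rwa [mul_zero, add_zero] at h1
    have hb1 : ∀ e : ℤ × ℤ, (∀ᶠ k in (U : Filter ℕ),
        |X k (p + e) - X k p| ≤ D k * (1 / η + C * len p / k)) → |V (p + e) - V p| ≤ 1 / η := by
      intro e he
      refine le_of_tendsto_of_tendsto ((hV (p + e)).sub (hV p)).abs hr ?_
      filter_upwards [hD, he] with k kD ke
      rw [← sub_div, abs_div, abs_of_pos kD, div_le_iff₀ kD]
      refine ke.trans (le_of_eq ?_)
      ring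
    have hRp := hR.eventually_ge_atTop (len p)
    exact ⟨hb1 _ (by filter_upwards [hX, hRp] with k kX kR using (kX p kR).1),
      hb1 _ (by filter_upwards [hX, hRp] with k kX kR using (kX p kR).2)⟩
  have hP0 : ∀ p, 0 ≤ P0 p ∧ P0 p ≤ C * θ ^ len p := fun p =>
    ⟨ge_of_tendsto (hPl p) (hP.mono fun k hk => (hk p).1),
      le_of_tendsto (hPl p) (hP.mono fun k hk => (hk p).2)⟩
  have hH := harm hU hC hη hθ0 hθ hD hD0 hR hP hPl hX hXs hb hb' hE hV
  have hH' := harm hU hC hη hθ0 hθ hD hD0 hR hG hGl hX hXs hb hb' hE' hV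
  have hsP : Summable fun p : ℤ × ℤ => P0 p * (1 + |(p.1 : ℝ)| + |(p.2 : ℝ)|) := by
    refine Summable.of_norm_bounded
      ((summable_poly hθ0 hθ (a := 1) (b := 0) zero_le_one le_rfl).mul_left C) fun p => ?_
    have h1 : (1 : ℝ) + |(p.1 : ℝ)| + |(p.2 : ℝ)| = 1 + len p := by
      unfold len
      push_cast
      rw [Nat.cast_natAbs, Nat.cast_natAbs]
      push_cast
      ring
    rw [h1, Real.norm_eq_abs, abs_of_nonneg (mul_nonneg (hP0 p).1 (by positivity))]
    calc P0 p * (1 + len p) ≤ (C * θ ^ len p) * (1 + len p) :=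
          mul_le_mul_of_nonneg_right (hP0 p).2 (by positivity)
      _ = _ := by ring
  obtain ⟨a, b, hab⟩ := lio (fun p => (hP0 p).1) hsP h10 h01 hVb hH
  have e1 := hH 0
  have e2 := hH' 0
  have hVa : ∀ p, V (0 + p) - V 0 = a * p.1 + b * p.2 := by
    intro p
    rw [zero_add, hab p]
    ring
  simp only [hVa] at e1 e2
  obtain ⟨ha, hb0⟩ := htr a b e1 e2
  have hz : ∀ p, V p = 0 := by
    intro p
    rw [hab p, hV0, ha, hb0]
    ring
  have h1 : Tendsto (fun k => max |X k (1, 0) / D k| |X k (0, 1) / D k|) U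
      (𝓝 (max |V (1, 0)| |V (0, 1)|)) := (hV (1, 0)).abs.max (hV (0, 1)).abs
  have h2 : Tendsto (fun k => max |X k (1, 0) / D k| |X k (0, 1) / D k|) U (𝓝 1) := by
    refine tendsto_const_nhds.congr' ?_
    filter_upwards [hD, hc] with k kD kc
    rw [abs_div, abs_div, abs_of_pos kD, max_div_div_right kD.le, kc, div_self kD.ne']
  have h3 := tendsto_nhds_unique h1 h2
  rw [hz, hz] at h3
  simp at h3

end UN39
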