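import Mathlib
import Pool.Agent.H39.UN.PlGa
import Pool.Agent.H39.UN.PlGb
import Pool.Agent.H39.UN.PlG
import Pool.Agent.H39.UN.RhoA
import Pool.Agent.H39.UP.Rb
import Pool.Agent.H39.UP.Phi

/-!
[H39 UP LIP]  (MP_bcc40c_pr)  `log lamw` and `log phw` are Lipschitz on compact intervals.

PROOF.  `thw` is the inverse of `6 dl : (0,1/4) → (0,1)` (thw_spec, thw_dl).  `dl θ = h58F (√(1-4θ))` (h58_dl_eq) and by h58_F_deriv the derivative of `h58F`
at `u ∈ (0,1)` is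
`[(-2u)(12u - 8u^3) - (1-u^2)(12-24u^2)]/(12u-8u^3)^2 log((1+u)/(1-u)) + 2/(12u-8u^3)`; it is negative: multiply by `(12u-8u^3)^2`: the bracket is
`-24u^2+16u^4-12+36u^2-24u^4 = -12+12u^2-8u^4 < 0` and with `log > 2u + 2u^3/3` (h58_log_ge) the sum is
`< (-12+12u^2-8u^4)(2u+2u^3/3) + 24u - 16u^3 = -8u^5 - 16 u^7/3 < 0`.  So on a compact subinterval of `(0,1/4)` the derivative of `dl` is
bounded below by a positive constant (it is continuous and positive), so `thw` is Lipschitz on `[ω1, ω2]` (mean value theorem for the inverse).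
`lamw ω = lam (thw ω)`, `lam h = h/(1+8h)^(3/2)`, and `phw` are compositions of `thw` with functions which are continuously differentiable and
positive on `(0,1/4)`; `thw` maps `[ω1, ω2]` into a compact subinterval.  lamw_bd, phw_bd: continuity and positivity on the compact interval.
-/

set_option autoImplicit false

namespace UN39

private theorem lp_F {u : ℝ} (h0 : 0 < u) (h1 : u < 1) :
    ∃ D, HasDerivAt h58F D u ∧ D ≤ -(u ^ 3 / 18) := by
  refine ⟨_, h58_F_deriv h0 h1, ?_⟩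
  have hu2 : 0 < 1 - u ^ 2 := by nlinarith
  have hD : 0 < 12 * u - 8 * u ^ 3 := by
    have : 12 * u - 8 * u ^ 3 = u * (4 + 8 * (1 - u ^ 2)) := by ring
    rw [this]
    positivity
  have hL := h58_log_ge h0 h1
  obtain ⟨L, hLdef⟩ : ∃ L, L = Real.log ((1 + u) / (1 - u)) := ⟨_, rfl⟩
  rw [← hLdef] at hL ⊢
  have e1 : ((-2 * u) * (12 * u - 8 * u ^ 3) - (1 - u ^ 2) * (12 - 24 * u ^ 2)) /
    (12 * u - 8 * u ^ 3) ^ 2 * L + (1 - u ^ 2) / (12 * u - 8 * u ^ 3) * (2 / (1 - u ^ 2)) =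
    (2 * (12 * u - 8 * u ^ 3) - (12 - 12 * u ^ 2 + 8 * u ^ 4) * L) /
      (12 * u - 8 * u ^ 3) ^ 2 := by
    have hu' := hu2.ne'
    have hD' := hD.ne'
    generalize hDD : 12 * u - 8 * u ^ 3 = D at *
    rw [eq_div_iff (by positivity)]
    have : (1 - u ^ 2) / D * (2 / (1 - u ^ 2)) = 2 / D := by field_simp
    rw [this]
    have e2 : (-2 * u * D - (1 - u ^ 2) * (12 - 24 * u ^ 2)) = -(12 - 12 * u ^ 2 + 8 * u ^ 4) := by
      rw [← hDD]
      ring
    rw [e2]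
    field_simp
    ring
  rw [e1]
  have hq : 0 < 12 - 12 * u ^ 2 + 8 * u ^ 4 := by nlinarith [pow_pos h0 4]
  have h3 := mul_lt_mul_of_pos_left hL hq
  have h4 : (12 - 12 * u ^ 2 + 8 * u ^ 4) * (2 * u + 2 * u ^ 3 / 3) =
    2 * (12 * u - 8 * u ^ 3) + (8 * u ^ 5 + 16 / 3 * u ^ 7) := by ring
  have h5 : 0 < u ^ 7 := by positivity
  have h6 : 2 * (12 * u - 8 * u ^ 3) - (12 - 12 * u ^ 2 + 8 * u ^ 4) * L ≤ -(8 * u ^ 5) := by linarith
  have h7 : (12 * u - 8 * u ^ 3) ^ 2 ≤ 144 * u ^ 2 := by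
    have : 12 * u - 8 * u ^ 3 ≤ 12 * u := by
      have : 0 < u ^ 3 := by positivity
      linarith
    calc (12 * u - 8 * u ^ 3) ^ 2 ≤ (12 * u) ^ 2 := by
          exact pow_le_pow_left₀ hD.le this 2
      _ = 144 * u ^ 2 := by ring
  rw [div_le_iff₀ (by positivity)]
  refine h6.trans ?_
  have h8 : 0 < u ^ 3 / 18 := by positivity
  have h9 : u ^ 3 / 18 * (12 * u - 8 * u ^ 3) ^ 2 ≤ u ^ 3 / 18 * (144 * u ^ 2) := mul_le_mul_of_nonneg_left h7 h8.le
  have h10 : u ^ 3 / 18 * (144 * u ^ 2) = 8 * u ^ 5 := by ring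
  linarith

private theorem lp_Fdiff {u0 a b : ℝ} (h0 : 0 < u0) (ha : u0 ≤ a) (hab : a ≤ b) (hb : b < 1) :
    h58F b - h58F a ≤ -(u0 ^ 3 / 18) * (b - a) := by
  have hpos : 0 < a := h0.trans_le ha
  refine Convex.image_sub_le_mul_sub_of_deriv_le (convex_Icc a b) (f := h58F) ?_ ?_ ?_ a
    (Set.left_mem_Icc.2 hab) b (Set.right_mem_Icc.2 hab) hab
  · intro x hx
    exact (h58_F_deriv (hpos.trans_le hx.1) (hx.2.trans_lt hb)).continuousAt.continuousWithinAt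
  · intro x hx
    rw [interior_Icc] at hx
    exact (h58_F_deriv (hpos.trans hx.1) (hx.2.trans hb)).differentiableAt.differentiableWithinAt
  · intro x hx
    rw [interior_Icc] at hx
    obtain ⟨D, hD, hD2⟩ := lp_F (hpos.trans hx.1) (hx.2.trans hb)
    rw [hD.deriv]
    refine hD2.trans ?_
    have : u0 ^ 3 ≤ x ^ 3 := pow_le_pow_left₀ h0.le (ha.trans hx.1.le) 3
    linarith

private theorem lp_dl {b : ℝ} (hb : b < 1 / 4) {s t : ℝ} (hs : 0 < s) (hst : s ≤ t) (htb : t ≤ b) :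
    Real.sqrt (1 - 4 * b) ^ 3 / 9 * (t - s) ≤ dl t - dl s := by
  have hu0 : 0 < Real.sqrt (1 - 4 * b) := Real.sqrt_pos.2 (by linarith)
  have ms : s ∈ Set.Ioo (0 : ℝ) (1 / 4) := ⟨hs, by linarith⟩
  have mt : t ∈ Set.Ioo (0 : ℝ) (1 / 4) := ⟨by linarith, by linarith⟩
  have us := h58_u_mem ms
  have ut := h58_u_mem mt
  have ss := h58_sq (h := s) (by linarith)
  have st := h58_sq (h := t) (by linarith)
  have h1 : Real.sqrt (1 - 4 * b) ≤ Real.sqrt (1 - 4 * t) := Real.sqrt_le_sqrt (by linarith)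
  have h2 : Real.sqrt (1 - 4 * t) ≤ Real.sqrt (1 - 4 * s) := Real.sqrt_le_sqrt (by linarith)
  have h3 := lp_Fdiff hu0 h1 h2 us.2
  rw [← h58_dl_eq ms, ← h58_dl_eq mt] at h3
  obtain ⟨p, hp⟩ : ∃ p, p = Real.sqrt (1 - 4 * s) := ⟨_, rfl⟩
  obtain ⟨q, hq⟩ : ∃ q, q = Real.sqrt (1 - 4 * t) := ⟨_, rfl⟩
  obtain ⟨r, hr⟩ : ∃ r, r = Real.sqrt (1 - 4 * b) := ⟨_, rfl⟩
  rw [← hp] at us ss h2 h3
  rw [← hq] at ut st h1 h2 h3
  rw [← hr] at hu0 h1 h3 ⊢
  have h4 : 2 * (t - s) ≤ p - q := by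
    have h5 : (p - q) * (p + q) = 4 * (t - s) := by
      have : (p - q) * (p + q) = p ^ 2 - q ^ 2 := by ring
      rw [this, ss, st]
      ring
    have h6 : p + q ≤ 2 := by linarith [us.2, ut.2]
    have h7 : 0 ≤ p - q := by linarith
    nlinarith
  have h8 : 0 ≤ r ^ 3 / 18 := by positivity
  have h9 := mul_le_mul_of_nonneg_left h4 h8
  have h10 : r ^ 3 / 18 * (2 * (t - s)) = r ^ 3 / 9 * (t - s) := by ring
  linarith

private theorem lp_thw {ω1 ω2 : ℝ} (h1 : 0 < ω1) (h2 : ω2 < 1) (h12 : ω1 ≤ ω2) : ∃ K : ℝ, 0 < K ∧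
    ∀ x ∈ Set.Icc ω1 ω2, ∀ y ∈ Set.Icc ω1 ω2, |thw x - thw y| ≤ K * |x - y| := by
  have hω2 : 0 < ω2 := by linarith
  obtain ⟨s1, s2, s3, -⟩ := thw_spec hω2 h2
  have hu0 : 0 < Real.sqrt (1 - 4 * thw ω2) := Real.sqrt_pos.2 (by linarith)
  obtain ⟨r, hr⟩ : ∃ r, r = Real.sqrt (1 - 4 * thw ω2) := ⟨_, rfl⟩
  have key : ∀ x ∈ Set.Icc ω1 ω2, ∀ y ∈ Set.Icc ω1 ω2, x ≤ y → |thw x - thw y| ≤ 9 / (6 * r ^ 3) * |x - y| := by
    intro x hx y hy hxy
    have mx : x ∈ Set.Ioo (0 : ℝ) 1 := ⟨h1.trans_le hx.1, hx.2.trans_lt h2⟩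
    have my : y ∈ Set.Ioo (0 : ℝ) 1 := ⟨h1.trans_le hy.1, hy.2.trans_lt h2⟩
    obtain ⟨a1, a2, a3, -⟩ := thw_spec mx.1 mx.2
    obtain ⟨b1, b2, b3, -⟩ := thw_spec my.1 my.2
    have m1 : thw x ≤ thw y := thw_mono.monotoneOn mx my hxy
    have m2 : thw y ≤ thw ω2 := thw_mono.monotoneOn my ⟨hω2, h2⟩ hy.2
    have h3 := lp_dl s2 a1 m1 m2
    rw [← hr] at h3 hu0
    rw [abs_of_nonpos (by linarith), abs_of_nonpos (by linarith), div_mul_eq_mul_div, le_div_iff₀ (by positivity)]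
    nlinarith
  rw [← hr] at hu0
  refine ⟨9 / (6 * r ^ 3), by positivity, fun x hx y hy => ?_⟩
  rcases le_total x y with h | h
  · exact key x hx y hy h
  · have := key y hy x hx h
    rwa [abs_sub_comm, abs_sub_comm y x] at this

private theorem lp_log {m p q : ℝ} (hm : 0 < m) (hp : m ≤ p) (hq : m ≤ q) :
    |Real.log p - Real.log q| ≤ 1 / m * |p - q| := by
  have key : ∀ p q : ℝ, m ≤ p → m ≤ q → p ≤ q → |Real.log p - Real.log q| ≤ 1 / m * |p - q| := by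
    intro p q hp hq hpq
    have p0 : 0 < p := hm.trans_le hp
    have q0 : 0 < q := hm.trans_le hq
    have h1 : Real.log p ≤ Real.log q := Real.log_le_log p0 hpq
    rw [abs_of_nonpos (by linarith), abs_of_nonpos (by linarith)]
    have h2 : Real.log (q / p) ≤ q / p - 1 := Real.log_le_sub_one_of_pos (div_pos q0 p0)
    rw [Real.log_div q0.ne' p0.ne'] at h2
    have h3 : q / p - 1 = (q - p) / p := by field_simp
    have h4 : (q - p) / p ≤ (q - p) / m := div_le_div_of_nonneg_left (by linarith) hm hp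
    have h5 : 1 / m * -(p - q) = (q - p) / m := by ring
    rw [h5]
    linarith
  rcases le_total p q with h | h
  · exact key p q hp hq h
  · have := key q p hq hp h
    rwa [abs_sub_comm, abs_sub_comm q p] at this

private theorem lp_loglam {h : ℝ} (h0 : 0 < h) : Real.log (lam h) = Real.log h - 3 / 2 * Real.log (1 + 8 * h) := by
  have h1 : 0 < 1 + 8 * h := by linarith
  unfold lam
  rw [Real.log_div h0.ne' (Real.rpow_pos_of_pos h1 _).ne', Real.log_rpow h1]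

private theorem lp_logphw {ω : ℝ} (h0 : 0 < thw ω) (h1 : thw ω < 1 / 4) : Real.log (phw ω) =
    Real.log (1 - 4 * thw ω) + 2 * Real.log (1 + 8 * thw ω) - 2 * Real.log 6 - 2 * Real.log (thw ω) := by
  have h2 : 0 < 1 + 8 * thw ω := by linarith
  have h3 : 0 < 1 - 4 * thw ω := by linarith
  have h4 : 0 < Real.sqrt (1 - 4 * thw ω) := Real.sqrt_pos.2 h3
  unfold phw
  rw [Real.log_pow, Real.log_div (by positivity) (by positivity), Real.log_mul h4.ne' h2.ne',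
    Real.log_mul (by norm_num) h0.ne', Real.log_sqrt h3.le]
  push_cast
  ring

private theorem lp_phw_pos {ω : ℝ} (h0 : 0 < thw ω) (h1 : thw ω < 1 / 4) : 0 < phw ω := by
  have h2 : 0 < 1 + 8 * thw ω := by linarith
  have h3 : 0 < 1 - 4 * thw ω := by linarith
  have h4 : 0 < Real.sqrt (1 - 4 * thw ω) := Real.sqrt_pos.2 h3
  unfold phw
  positivity

private theorem lp_exp {a b M : ℝ} (ha : 0 < a) (hb : 0 < b) (haM : a ≤ M) (hbM : b ≤ M) :
    |a - b| ≤ M * |Real.log a - Real.log b| := by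
  have key : ∀ a b : ℝ, 0 < a → 0 < b → b ≤ M → a ≤ b → |a - b| ≤ M * |Real.log a - Real.log b| := by
    intro a b ha hb hbM hab
    have h1 : Real.log a ≤ Real.log b := Real.log_le_log ha hab
    rw [abs_of_nonpos (by linarith), abs_of_nonpos (by linarith)]
    have h2 : Real.log (a / b) ≤ a / b - 1 := Real.log_le_sub_one_of_pos (div_pos ha hb)
    rw [Real.log_div ha.ne' hb.ne'] at h2
    have h3 : b * (Real.log a - Real.log b) ≤ b * (a / b - 1) := mul_le_mul_of_nonneg_left h2 hb.le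
    have h4 : b * (a / b - 1) = a - b := by field_simp
    have h5 : b * -(Real.log a - Real.log b) ≤ M * -(Real.log a - Real.log b) :=
      mul_le_mul_of_nonneg_right hbM (by linarith)
    -- a - b ≥ b log(a/b) gives b - a ≤ b (log b - log a)
    have h6 : Real.log (b / a) ≤ b / a - 1 := Real.log_le_sub_one_of_pos (div_pos hb ha)
    have h7 : 1 - a / b ≤ Real.log b - Real.log a := by
      have := Real.one_sub_inv_le_log_of_pos (div_pos hb ha)
      rw [inv_div, Real.log_div hb.ne' ha.ne'] at this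
      exact this
    have h8 : b * (1 - a / b) ≤ b * (Real.log b - Real.log a) := mul_le_mul_of_nonneg_left h7 hb.le
    have h9 : b * (1 - a / b) = b - a := by field_simp
    linarith
  rcases le_total a b with h | h
  · exact key a b ha hb hbM h
  · have := key b a hb ha haM h
    rwa [abs_sub_comm, abs_sub_comm (Real.log b)] at this

theorem lip {ω1 ω2 : ℝ} (h1 : 0 < ω1) (h2 : ω2 < 1) : ∃ C : ℝ, 0 < C ∧
    ∀ x ∈ Set.Icc ω1 ω2, ∀ y ∈ Set.Icc ω1 ω2,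
      |Real.log (lamw x) - Real.log (lamw y)| ≤ C * |x - y| ∧
      |Real.log (phw x) - Real.log (phw y)| ≤ C * |x - y| ∧
      |lamw x - lamw y| ≤ C * |x - y| := by
  rcases lt_or_ge ω2 ω1 with hlt | h12
  · refine ⟨1, one_pos, fun x hx => ?_⟩
    exact absurd (hx.1.trans hx.2) (not_le.2 hlt)
  have hω2 : 0 < ω2 := by linarith
  have hω1 : ω1 < 1 := by linarith
  obtain ⟨K, hK, HK⟩ := lp_thw h1 h2 h12
  obtain ⟨a1, a2, -, -⟩ := thw_spec h1 hω1
  obtain ⟨b1, b2, -, -⟩ := thw_spec hω2 h2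
  obtain ⟨a, ha⟩ : ∃ a, a = thw ω1 := ⟨_, rfl⟩
  obtain ⟨b, hb⟩ : ∃ b, b = 1 - 4 * thw ω2 := ⟨_, rfl⟩
  rw [← ha] at a1
  have hb0 : 0 < b := by rw [hb]; linarith
  obtain ⟨c1, c2⟩ := lamc_pos
  obtain ⟨C1, hC1⟩ : ∃ C1, C1 = 2 / a * K + 16 * K + 4 / b * K := ⟨_, rfl⟩
  have hC1pos : 0 < C1 := by rw [hC1]; positivity
  have hdiff : ∀ x ∈ Set.Icc ω1 ω2, ∀ y ∈ Set.Icc ω1 ω2,
      |Real.log (lamw x) - Real.log (lamw y)| ≤ C1 * |x - y| ∧
      |Real.log (phw x) - Real.log (phw y)| ≤ C1 * |x - y| := by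
    intro x hx y hy
    have mx : x ∈ Set.Ioo (0 : ℝ) 1 := ⟨h1.trans_le hx.1, hx.2.trans_lt h2⟩
    have my : y ∈ Set.Ioo (0 : ℝ) 1 := ⟨h1.trans_le hy.1, hy.2.trans_lt h2⟩
    obtain ⟨p1, p2, -, -⟩ := thw_spec mx.1 mx.2
    obtain ⟨q1, q2, -, -⟩ := thw_spec my.1 my.2
    have px : a ≤ thw x := by rw [ha]; exact thw_mono.monotoneOn ⟨h1, hω1⟩ mx hx.1
    have py : a ≤ thw y := by rw [ha]; exact thw_mono.monotoneOn ⟨h1, hω1⟩ my hy.1
    have qx : b ≤ 1 - 4 * thw x := by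
      rw [hb]
      have := thw_mono.monotoneOn mx ⟨hω2, h2⟩ hx.2
      linarith
    have qy : b ≤ 1 - 4 * thw y := by
      rw [hb]
      have := thw_mono.monotoneOn my ⟨hω2, h2⟩ hy.2
      linarith
    have hk := HK x hx y hy
    obtain ⟨d, hd⟩ : ∃ d, d = |thw x - thw y| := ⟨_, rfl⟩
    obtain ⟨e, he⟩ : ∃ e, e = |x - y| := ⟨_, rfl⟩
    have l1 := lp_log a1 px py
    have l2 := lp_log (m := 1) one_pos (by linarith : (1 : ℝ) ≤ 1 + 8 * thw x) (by linarith : (1 : ℝ) ≤ 1 + 8 * thw y)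
    have l3 := lp_log hb0 qx qy
    have e2 : |1 + 8 * thw x - (1 + 8 * thw y)| = 8 * |thw x - thw y| := by
      rw [show 1 + 8 * thw x - (1 + 8 * thw y) = 8 * (thw x - thw y) by ring, abs_mul]
      norm_num
    have e3 : |1 - 4 * thw x - (1 - 4 * thw y)| = 4 * |thw x - thw y| := by
      rw [show 1 - 4 * thw x - (1 - 4 * thw y) = (-4) * (thw x - thw y) by ring, abs_mul]
      norm_num
    rw [e2] at l2
    rw [e3] at l3
    rw [← hd] at l1 l2 l3 hk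
    rw [← he] at hk ⊢
    have hd0 : 0 ≤ d := by rw [hd]; exact abs_nonneg _
    have he0 : 0 ≤ e := by rw [he]; exact abs_nonneg _
    have k1 : 1 / a * d ≤ 1 / a * (K * e) := mul_le_mul_of_nonneg_left hk (by positivity)
    have k3 : 1 / b * (4 * d) ≤ 1 / b * (4 * (K * e)) := by
      apply mul_le_mul_of_nonneg_left _ (by positivity)
      linarith
    have k0 : 0 ≤ 1 / a * (K * e) := by positivity
    have k4 : 0 ≤ 1 / b * (4 * (K * e)) := by positivity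
    have k5 : 0 ≤ K * e := by positivity
    have hC : C1 * e = 2 * (1 / a * (K * e)) + 16 * (K * e) + 1 / b * (4 * (K * e)) := by rw [hC1]; ring
    rw [hC]
    have x1 := abs_le.1 l1
    have x2 := abs_le.1 l2
    have x3 := abs_le.1 l3
    constructor
    · unfold lamw
      rw [lp_loglam p1, lp_loglam q1, abs_le]
      constructor <;> linarith [x1.1, x1.2, x2.1, x2.2]
    · rw [lp_logphw p1 p2, lp_logphw q1 q2, abs_le]
      constructor <;> linarith [x1.1, x1.2, x2.1, x2.2, x3.1, x3.2]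
  refine ⟨C1 + lamc * C1, by positivity, fun x hx y hy => ?_⟩
  have mx : x ∈ Set.Ioo (0 : ℝ) 1 := ⟨h1.trans_le hx.1, hx.2.trans_lt h2⟩
  have my : y ∈ Set.Ioo (0 : ℝ) 1 := ⟨h1.trans_le hy.1, hy.2.trans_lt h2⟩
  obtain ⟨g1, g2⟩ := lamw_lt mx.1 mx.2
  obtain ⟨g3, g4⟩ := lamw_lt my.1 my.2
  obtain ⟨i1, i2⟩ := hdiff x hx y hy
  have he0 : 0 ≤ |x - y| := abs_nonneg _
  have j1 : 0 ≤ lamc * C1 * |x - y| := by positivity
  have j2 : 0 ≤ C1 * |x - y| := by positivity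
  have j3 : (C1 + lamc * C1) * |x - y| = C1 * |x - y| + lamc * C1 * |x - y| := by ring
  rw [j3]
  refine ⟨by linarith, by linarith, ?_⟩
  have j4 := lp_exp g1 g3 g2.le g4.le
  have j5 : lamc * |Real.log (lamw x) - Real.log (lamw y)| ≤ lamc * (C1 * |x - y|) := mul_le_mul_of_nonneg_left i1 c1.le
  have j6 : lamc * (C1 * |x - y|) = lamc * C1 * |x - y| := by ring
  linarith

theorem lam_bd {ω1 ω2 : ℝ} (h1 : 0 < ω1) (h2 : ω2 < 1) : ∃ c C l' : ℝ, 0 < c ∧ 0 < C ∧ l' < lamc ∧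
    ∀ x ∈ Set.Icc ω1 ω2, c ≤ lamw x ∧ lamw x ≤ l' ∧ c ≤ phw x ∧ phw x ≤ C := by
  obtain ⟨c1, c2⟩ := lamc_pos
  rcases lt_or_ge ω2 ω1 with hlt | h12
  · refine ⟨1, 1, lamc / 2, one_pos, one_pos, by linarith, fun x hx => ?_⟩
    exact absurd (hx.1.trans hx.2) (not_le.2 hlt)
  have hω2 : 0 < ω2 := by linarith
  have hω1 : ω1 < 1 := by linarith
  obtain ⟨g1, g2⟩ := lamw_lt h1 hω1
  obtain ⟨g3, g4⟩ := lamw_lt hω2 h2
  obtain ⟨C, hC, HC⟩ := lip h1 h2
  obtain ⟨a1, a2, -, -⟩ := thw_spec h1 hω1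
  have p0 := lp_phw_pos a1 a2
  obtain ⟨E, hE⟩ : ∃ E, E = Real.exp (C * (ω2 - ω1)) := ⟨_, rfl⟩
  have hE0 : 0 < E := by rw [hE]; exact Real.exp_pos _
  refine ⟨min (lamw ω1) (phw ω1 / E), phw ω1 * E, lamw ω2, lt_min g1 (by positivity), by positivity, g4, fun x hx => ?_⟩
  have mx : x ∈ Set.Ioo (0 : ℝ) 1 := ⟨h1.trans_le hx.1, hx.2.trans_lt h2⟩
  obtain ⟨q1, q2, -, -⟩ := thw_spec mx.1 mx.2
  have px := lp_phw_pos q1 q2
  obtain ⟨-, i2, -⟩ := HC x hx ω1 ⟨le_rfl, h12⟩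
  rw [abs_of_nonneg (by linarith [hx.1] : 0 ≤ x - ω1)] at i2
  have i3 : C * (x - ω1) ≤ C * (ω2 - ω1) := mul_le_mul_of_nonneg_left (by linarith [hx.2]) hC.le
  have i4 := abs_le.1 (i2.trans i3)
  have hlogE : Real.log E = C * (ω2 - ω1) := by rw [hE, Real.log_exp]
  refine ⟨(min_le_left _ _).trans ?_, ?_, (min_le_right _ _).trans ?_, ?_⟩
  · exact lamw_cont.2.monotoneOn ⟨h1, hω1⟩ mx hx.1
  · exact lamw_cont.2.monotoneOn mx ⟨hω2, h2⟩ hx.2
  · rw [← Real.log_le_log_iff (by positivity) px, Real.log_div p0.ne' hE0.ne', hlogE]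
    linarith [i4.1]
  · rw [← Real.log_le_log_iff px (by positivity), Real.log_mul p0.ne' hE0.ne', hlogE]
    linarith [i4.2]

end UN39
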