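import Mathlib
import Pool.Agent.H39.UN.PlA
import Pool.Agent.H39.UN.PlC
import Pool.Agent.H39.UN.PlG
import Pool.Agent.H39.UN.RhoA
import Pool.Agent.H39.UP.Bet
import Pool.Agent.H39.UP.Rb
import Pool.Agent.H39.UP.Sel
import Pool.Agent.H39.UP.Phi

/-!
[H39 UP TRS]  (MP_bcc40c_pr)  The weights of the two walks.

`PS`, `PG` are the weights in the string equation and in the Toda equation; `p = (s, j)`: `s` units removed, `2j` vertices added.

PROOFS.  PS_sum: `∑_{j} ω^(2j+1)/(2j+1)! φ^j = 3/A^2` (phw_sum), times `1 + 2 ∑_i (3i+2) b0 i λ^(i+1) = A` (definition of Aof), plus `3 - 3/A` (sum_G).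
PG_sum: `∑_j 2 ω^(2j+2)/(2j+2)! φ^j = 2 (cosh y - 1)/φ`, `y = ω √φ = log((1+u)/(1-u))`, `cosh y - 1 = 2u^2/(1-u^2)`, `φ = 4 u^2 A^4/(9 (1-u^2)^2)`, `1 - u^2 = 4h`,
`λ = h/A^3`: `(cosh y - 1)/φ = 18 λ/A`; times `1/λ + 2 ∑ (3i+2) b0 i λ^i = A/λ`.
dominations: `b0 i λ^i ≤ 2 (λ/lamc)^i`, `λ ≤ lamw ω2 < lamc`, `φ` bounded on the compact interval (phw_cont), `c^j/(2j+1)! ≤ C θ^j`.
continuity: lamw_cont, phw_cont.  derA: `L = x A'(x)/A` where `A' = 4A^2/(1-12xA)`: the formal identity PA (`Afs^2 = 1 + 8 X Afs^3`) gives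
`2 Afs Afs' = 8 Afs^3 + 24 X Afs^2 Afs'`; evaluate at `x < lamc` (SumAt; `∑ (i+1) (3i+2) b0 i x^i` converges by b0_le) and use `8xA^3 = A^2 - 1`.
derG: formal identity `G * Afs = 3 (Afs - 1)` for `G = ∑ 6(i+2) b0 i X^(i+1)`: with `P = ∑(3i+2) b0 i X^i`, `R = ∑ (i+2) b0 i X^i`, `F = ∑ b0 i X^i`, b0_rec says
`X F' = X P R`, and `P - R = 2 X F'`, so `R (1 + 2 X P) = P`.  Derivative: `G' Afs + G Afs' = 3 Afs'`, `G = 3 - 3/A`: `x G' = 3 x A'/A^2`.
-/

set_option autoImplicit false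

namespace UN39

open Filter Topology

noncomputable def PS (ω x t : ℝ) (p : ℤ × ℤ) : ℝ :=
  if 0 ≤ p.1 ∧ 0 ≤ p.2 then
    (if p.1 = 0 then ω ^ (2 * p.2.toNat + 1) / ((2 * p.2.toNat + 1).factorial : ℝ) * t ^ p.2.toNat
     else 2 * (3 * ((p.1.toNat - 1 : ℕ) : ℝ) + 2) * b0 (p.1.toNat - 1) * x ^ p.1.toNat *
        (ω ^ (2 * p.2.toNat + 1) / ((2 * p.2.toNat + 1).factorial : ℝ)) * t ^ p.2.toNat +
       (if p.2 = 0 then 6 * (((p.1.toNat - 1 : ℕ) : ℝ) + 2) * b0 (p.1.toNat - 1) * x ^ p.1.toNat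
        else 0))
  else 0

noncomputable def PG (ω x t : ℝ) (p : ℤ × ℤ) : ℝ :=
  if 0 ≤ p.2 then
    (if p.1 = -1 then 2 * (ω ^ (2 * p.2.toNat + 2) / ((2 * p.2.toNat + 2).factorial : ℝ)) *
        t ^ p.2.toNat / x
     else if 0 ≤ p.1 then 4 * (3 * (p.1.toNat : ℝ) + 2) * b0 p.1.toNat * x ^ p.1.toNat *
        (ω ^ (2 * p.2.toNat + 2) / ((2 * p.2.toNat + 2).factorial : ℝ)) * t ^ p.2.toNat
     else 0)
  else 0

/-- weights in the first coordinate -/
private noncomputable def trsU (x : ℝ) (s : ℕ) : ℝ :=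
  if s = 0 then 1 else 2 * (3 * ((s - 1 : ℕ) : ℝ) + 2) * b0 (s - 1) * x ^ s

private noncomputable def trsV (x : ℝ) (s : ℕ) : ℝ :=
  if s = 0 then 0 else 6 * (((s - 1 : ℕ) : ℝ) + 2) * b0 (s - 1) * x ^ s

private theorem trs_succ {f : ℕ → ℝ} {a : ℝ} (h : HasSum (fun n => f (n + 1)) a) :
    HasSum f (a + f 0) := by
  have h1 := (hasSum_nat_add_iff (f := f) 1).1 h
  rwa [Finset.sum_range_one] at h1

private theorem trsU_sum {x : ℝ} (h0 : 0 ≤ x) (h1 : x ≤ lamc) : HasSum (trsU x) (Aof x) := by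
  have hP := ((sum_P h0 h1).hasSum).mul_left (2 * x)
  have h2 : HasSum (fun n => trsU x (n + 1))
      (2 * x * ∑' i : ℕ, (3 * (i : ℝ) + 2) * b0 i * x ^ i) := by
    refine hP.congr_fun fun i => ?_
    unfold trsU
    rw [if_neg (Nat.succ_ne_zero i), Nat.add_sub_cancel, pow_succ]
    ring
  have h3 := trs_succ h2
  have h4 : 2 * x * ∑' i : ℕ, (3 * (i : ℝ) + 2) * b0 i * x ^ i + trsU x 0 = Aof x := by
    unfold trsU Aof
    rw [if_pos rfl]
    ring
  rwa [h4] at h3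

private theorem trsV_sum {x : ℝ} (h0 : 0 ≤ x) (h1 : x ≤ lamc) :
    HasSum (trsV x) (3 - 3 / Aof x) := by
  have h2 : HasSum (fun n => trsV x (n + 1)) (3 - 3 / Aof x) := by
    refine (sum_G h0 h1).congr_fun fun i => ?_
    unfold trsV
    rw [if_neg (Nat.succ_ne_zero i), Nat.add_sub_cancel]
  have h3 := trs_succ h2
  have h4 : 3 - 3 / Aof x + trsV x 0 = 3 - 3 / Aof x := by
    unfold trsV
    rw [if_pos rfl, add_zero]
  rwa [h4] at h3

private theorem trsU_nonneg {x : ℝ} (h0 : 0 ≤ x) (s : ℕ) : 0 ≤ trsU x s := by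
  unfold trsU
  split_ifs
  · exact zero_le_one
  · have := (b0_pos (s - 1)).le
    positivity

private theorem trsV_nonneg {x : ℝ} (h0 : 0 ≤ x) (s : ℕ) : 0 ≤ trsV x s := by
  unfold trsV
  split_ifs
  · exact le_rfl
  · have := (b0_pos (s - 1)).le
    positivity

private theorem trs_mul {f g : ℕ → ℝ} {a b : ℝ} (hf : HasSum f a) (hg : HasSum g b)
    (hf0 : ∀ i, 0 ≤ f i) (hg0 : ∀ i, 0 ≤ g i) :
    HasSum (fun q : ℕ × ℕ => f q.1 * g q.2) (a * b) :=
  hf.mul hg (Summable.mul_of_nonneg hf.summable hg.summable hf0 hg0)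

private theorem trs_cosh {ω : ℝ} (h0 : 0 < ω) (h1 : ω < 1) :
    HasSum (fun j : ℕ => ω ^ (2 * j + 2) / ((2 * j + 2).factorial : ℝ) * phw ω ^ j)
      (18 * lamw ω / Aof (lamw ω)) := by
  obtain ⟨a0, a1, a2, -⟩ := thw_spec h0 h1
  have hA := (lam_facts a0 a1).2.2.1
  have hlw : lamw ω = lam (thw ω) := rfl
  have hlp := (lam_psi a0.le a1.le).1
  rw [hlw, hA, hlp]
  obtain ⟨h, hh⟩ : ∃ h, h = thw ω := ⟨_, rfl⟩
  obtain ⟨u, hu⟩ : ∃ u, u = Real.sqrt (1 - 4 * h) := ⟨_, rfl⟩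
  rw [← hh] at a0 a1 a2 ⊢
  have hu0 : 0 < u := by rw [hu]; exact Real.sqrt_pos.mpr (by linarith)
  have husq : u ^ 2 = 1 - 4 * h := by rw [hu]; exact Real.sq_sqrt (by linarith)
  have hu1 : u < 1 := by nlinarith
  obtain ⟨s, hs⟩ : ∃ s, s = u * (1 + 8 * h) / (6 * h) := ⟨_, rfl⟩
  have h8 : 0 < 1 + 8 * h := by linarith
  have hs0 : 0 < s := by rw [hs]; positivity
  have hph : phw ω = s ^ 2 := by
    unfold phw
    rw [← hh, ← hu, hs]
  obtain ⟨L, hL⟩ : ∃ L, L = Real.log ((1 + u) / (1 - u)) := ⟨_, rfl⟩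
  have hω : ω * s = L := by
    rw [← a2, hs]
    unfold dl
    rw [← hu, ← hL]
    field_simp
  have hu1' : 0 < 1 - u := by linarith
  have hcosh : Real.cosh L = 1 + u ^ 2 / (2 * h) := by
    rw [Real.cosh_eq, Real.exp_neg, hL, Real.exp_log (by positivity)]
    have h4 : (1 - u) * (1 + u) = 4 * h := by nlinarith
    have e1 : (1 + u) / (1 - u) + ((1 + u) / (1 - u))⁻¹ =
        (2 * ((1 - u) * (1 + u)) + 4 * u ^ 2) / ((1 - u) * (1 + u)) := by
      field_simp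
      ring
    rw [e1, h4]
    field_simp
  obtain ⟨A, hAd⟩ : ∃ A, A = Real.sqrt (1 + 8 * h) := ⟨_, rfl⟩
  have hA0 : 0 < A := by rw [hAd]; exact Real.sqrt_pos.mpr h8
  have hA2 : A ^ 2 = 1 + 8 * h := by rw [hAd]; exact Real.sq_sqrt h8.le
  have key0 := Real.hasSum_cosh (ω * s)
  have key1 : HasSum (fun n : ℕ => (ω * s) ^ (2 * (n + 1)) / ((2 * (n + 1)).factorial : ℝ))
      (u ^ 2 / (2 * h)) := by
    rw [hω, hcosh] at key0
    have h5 := (hasSum_nat_add_iff' (f := fun n : ℕ => L ^ (2 * n) / ((2 * n).factorial : ℝ)) 1).2 key0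
    rw [Finset.sum_range_one] at h5
    have h6 : 1 + u ^ 2 / (2 * h) - L ^ (2 * 0) / ((2 * 0).factorial : ℝ) = u ^ 2 / (2 * h) := by
      rw [mul_zero, pow_zero, Nat.factorial_zero, Nat.cast_one]
      ring
    rw [h6] at h5
    rw [hω]
    exact h5
  have key := key1.mul_right (s ^ 2)⁻¹
  have e2 : u ^ 2 / (2 * h) * (s ^ 2)⁻¹ = 18 * psi (Real.sqrt (1 + 8 * h)) / Real.sqrt (1 + 8 * h) := by
    rw [← hAd, hs]
    unfold psi
    have e3 : 18 * ((A ^ 2 - 1) / (8 * A ^ 3)) / A = 18 * (A ^ 2 - 1) / (8 * (A ^ 2) ^ 2) := by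
      field_simp
    rw [e3, hA2]
    field_simp
    ring
  rw [e2] at key
  refine key.congr_fun fun j => ?_
  rw [hph]
  have e5 : 2 * (j + 1) = 2 * j + 2 := by ring
  rw [e5, mul_pow]
  have e6 : s ^ (2 * j + 2) = (s ^ 2) ^ j * s ^ 2 := by
    rw [pow_add, pow_mul]
  rw [e6]
  field_simp

/-- `(3 i + 2) r^i` is bounded -/
private theorem trs_bd {r : ℝ} (h0 : 0 < r) (h1 : r < 1) (i : ℕ) :
    (3 * (i : ℝ) + 2) * r ^ i ≤ 3 * (r / (1 - r)) + 2 := by
  have h2 : 0 < 1 - r := by linarith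
  have hb := one_add_mul_le_pow (a := 1 / r - 1) (by
    have : 0 < 1 / r := by positivity
    linarith) i
  have h3 : (1 + (1 / r - 1)) ^ i = (r ^ i)⁻¹ := by
    rw [add_sub_cancel, one_div, inv_pow]
  rw [h3] at hb
  have hr : 0 < r ^ i := by positivity
  have h4 : (1 + (i : ℝ) * (1 / r - 1)) * r ^ i ≤ 1 := by
    have := mul_le_mul_of_nonneg_right hb hr.le
    rwa [inv_mul_cancel₀ hr.ne'] at this
  have h5 : (i : ℝ) * r ^ i ≤ r / (1 - r) := by
    rw [le_div_iff₀ h2]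
    have h6 : (i : ℝ) * r ^ i * (1 - r) = r * ((i : ℝ) * (1 / r - 1) * r ^ i) := by
      field_simp
    rw [h6]
    have h7 : (i : ℝ) * (1 / r - 1) * r ^ i ≤ 1 := by nlinarith
    nlinarith
  have h8 : r ^ i ≤ 1 := pow_le_one₀ h0.le h1.le
  nlinarith

/-- `c T^j / (j + k)! ≤ exp (T / θ) θ^j` -/
private theorem trs_fac {T θ ω t : ℝ} (hθ : 0 < θ) (h0 : 0 < ω) (h1 : ω < 1) (ht0 : 0 ≤ t)
    (ht : t ≤ T) (j k l : ℕ) (hk : j ≤ k) :
    ω ^ l / (k.factorial : ℝ) * t ^ j ≤ Real.exp (T / θ) * θ ^ j := by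
  have hT : 0 ≤ T := ht0.trans ht
  have h2 := Real.pow_div_factorial_le_exp (T / θ) (by positivity) j
  have h3 : (0 : ℝ) < (j.factorial : ℝ) := by exact_mod_cast Nat.factorial_pos j
  have h4 : (j.factorial : ℝ) ≤ (k.factorial : ℝ) := by exact_mod_cast Nat.factorial_le hk
  have h5 : ω ^ l ≤ 1 := pow_le_one₀ h0.le h1.le
  have h6 : ω ^ l / (k.factorial : ℝ) ≤ 1 / (j.factorial : ℝ) :=
    div_le_div₀ zero_le_one h5 h3 h4
  have h7 : t ^ j ≤ T ^ j := pow_le_pow_left₀ ht0 ht j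
  calc ω ^ l / (k.factorial : ℝ) * t ^ j ≤ 1 / (j.factorial : ℝ) * T ^ j :=
        mul_le_mul h6 h7 (pow_nonneg ht0 j) (by positivity)
    _ = (T / θ) ^ j / (j.factorial : ℝ) * θ ^ j := by
        rw [div_pow]
        field_simp
    _ ≤ Real.exp (T / θ) * θ ^ j := mul_le_mul_of_nonneg_right h2 (pow_nonneg hθ.le j)

private theorem trs_b0 {x xm θ : ℝ} (h0 : 0 < x) (h1 : x ≤ xm) (h3 : xm / lamc < θ)
    (i : ℕ) : (3 * (i : ℝ) + 2) * b0 i * x ^ i ≤
      2 * (3 * (xm / lamc / θ / (1 - xm / lamc / θ)) + 2) * θ ^ i := by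
  have hl := lamc_pos.1
  have hxm : 0 < xm := h0.trans_le h1
  have hθ : 0 < θ := (div_pos hxm hl).trans h3
  have hr0 : 0 < xm / lamc / θ := by positivity
  have hr1 : xm / lamc / θ < 1 := by
    rw [div_lt_one hθ]
    exact h3
  have h4 := trs_bd hr0 hr1 i
  have h5 := b0_le i
  have h6 : x ^ i ≤ xm ^ i := pow_le_pow_left₀ h0.le h1 i
  have h7 : b0 i * x ^ i ≤ 2 * (1 / lamc) ^ i * xm ^ i :=
    mul_le_mul h5 h6 (pow_nonneg h0.le i) (by positivity)
  have h8 : 2 * (1 / lamc) ^ i * xm ^ i = 2 * ((xm / lamc / θ) ^ i * θ ^ i) := by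
    rw [← mul_pow, mul_assoc, ← mul_pow]
    congr 2
    field_simp
  rw [h8] at h7
  calc (3 * (i : ℝ) + 2) * b0 i * x ^ i = (3 * (i : ℝ) + 2) * (b0 i * x ^ i) := by ring
    _ ≤ (3 * (i : ℝ) + 2) * (2 * ((xm / lamc / θ) ^ i * θ ^ i)) :=
        mul_le_mul_of_nonneg_left h7 (by positivity)
    _ = 2 * ((3 * (i : ℝ) + 2) * (xm / lamc / θ) ^ i) * θ ^ i := by ring
    _ ≤ 2 * (3 * (xm / lamc / θ / (1 - xm / lamc / θ)) + 2) * θ ^ i := by
        apply mul_le_mul_of_nonneg_right _ (pow_nonneg hθ.le i)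
        linarith

theorem PS_sum {ω : ℝ} (h0 : 0 < ω) (h1 : ω < 1) : HasSum (PS ω (lamw ω) (phw ω)) 3 := by
  obtain ⟨hl0, hl1⟩ := lamw_lt h0 h1
  have hph := phw_pos h0 h1
  obtain ⟨x, hx⟩ : ∃ x, x = lamw ω := ⟨_, rfl⟩
  obtain ⟨t, ht⟩ : ∃ t, t = phw ω := ⟨_, rfl⟩
  have hd := phw_sum h0 h1
  rw [← hx] at hl0 hl1 hd ⊢
  rw [← ht] at hph hd ⊢
  have hA1 := (psi_A hl0.le hl1.le).1
  have hA : 0 < Aof x := by linarith
  have hinj : Function.Injective (fun q : ℕ × ℕ => (((q.1 : ℤ), (q.2 : ℤ)) : ℤ × ℤ)) := by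
    intro q q' h
    have h2 := (Prod.ext_iff.1 h).1
    have h3 := (Prod.ext_iff.1 h).2
    simp only at h2 h3
    apply Prod.ext
    · exact_mod_cast h2
    · exact_mod_cast h3
  rw [← hinj.hasSum_iff]
  · have h2 := trs_mul (trsU_sum hl0.le hl1.le) hd (trsU_nonneg hl0.le) (fun j => by positivity)
    have h3 : HasSum (fun j : ℕ => if j = 0 then (1 : ℝ) else 0) 1 := hasSum_ite_eq 0 1
    have h4 := trs_mul (trsV_sum hl0.le hl1.le) h3 (trsV_nonneg hl0.le) (fun j => by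
      split_ifs
      · exact zero_le_one
      · exact le_rfl)
    have h5 := h2.add h4
    have e1 : Aof x * (3 / Aof x ^ 2) + (3 - 3 / Aof x) * 1 = 3 := by
      field_simp
      ring
    rw [e1] at h5
    refine h5.congr_fun fun q => ?_
    obtain ⟨s, j⟩ := q
    simp only [Function.comp_apply]
    unfold PS trsU trsV
    simp only [Nat.cast_nonneg, and_self, if_true, Int.toNat_natCast, Nat.cast_eq_zero]
    by_cases hs : s = 0
    · simp only [hs, if_true]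
      ring
    · simp only [hs, if_false]
      by_cases hj : j = 0
      · simp only [hj, if_true]
        ring
      · simp only [hj, if_false]
        ring
  · intro p hp
    unfold PS
    rw [if_neg]
    rintro ⟨h2, h3⟩
    apply hp
    refine ⟨(p.1.toNat, p.2.toNat), ?_⟩
    simp only
    rw [Int.toNat_of_nonneg h2, Int.toNat_of_nonneg h3]

theorem PG_sum {ω : ℝ} (h0 : 0 < ω) (h1 : ω < 1) : HasSum (PG ω (lamw ω) (phw ω)) 36 := by
  obtain ⟨hl0, hl1⟩ := lamw_lt h0 h1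
  have hph := phw_pos h0 h1
  have hd := trs_cosh h0 h1
  obtain ⟨x, hx⟩ : ∃ x, x = lamw ω := ⟨_, rfl⟩
  obtain ⟨t, ht⟩ : ∃ t, t = phw ω := ⟨_, rfl⟩
  rw [← hx] at hl0 hl1 hd ⊢
  rw [← ht] at hph hd ⊢
  have hA1 := (psi_A hl0.le hl1.le).1
  have hA : 0 < Aof x := by linarith
  have hinj : Function.Injective (fun q : ℕ × ℕ => (((q.1 : ℤ) - 1, (q.2 : ℤ)) : ℤ × ℤ)) := by
    intro q q' h
    have h2 := (Prod.ext_iff.1 h).1
    have h3 := (Prod.ext_iff.1 h).2
    simp only at h2 h3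
    apply Prod.ext
    · omega
    · exact_mod_cast h3
  rw [← hinj.hasSum_iff]
  · have h2 := (trs_mul (trsU_sum hl0.le hl1.le) hd (trsU_nonneg hl0.le)
      (fun j => by positivity)).mul_left (2 / x)
    have e1 : 2 / x * (Aof x * (18 * x / Aof x)) = 36 := by
      field_simp
      ring
    rw [e1] at h2
    refine h2.congr_fun fun q => ?_
    obtain ⟨s, j⟩ := q
    simp only [Function.comp_apply]
    unfold PG trsU
    rw [if_pos (Nat.cast_nonneg j)]
    by_cases hs : s = 0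
    · subst hs
      rw [if_pos (by norm_num), if_pos rfl]
      simp only [Int.toNat_natCast]
      ring
    · rw [if_neg (by omega), if_pos (by omega), if_neg hs]
      have e2 : ((s : ℤ) - 1).toNat = s - 1 := by omega
      simp only [e2, Int.toNat_natCast]
      have e3 : x ^ s = x ^ (s - 1) * x := by
        rw [← pow_succ]
        congr 1
        omega
      rw [e3]
      field_simp
      ring
  · intro p hp
    unfold PG
    by_cases h2 : 0 ≤ p.2
    · rw [if_pos h2]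
      have h3 : ¬ (-1 ≤ p.1) := by
        intro h3
        apply hp
        refine ⟨((p.1 + 1).toNat, p.2.toNat), ?_⟩
        simp only
        rw [Int.toNat_of_nonneg (by omega), Int.toNat_of_nonneg h2]
        apply Prod.ext
        · simp
        · rfl
      rw [if_neg (by omega), if_neg (by omega)]
    · rw [if_neg h2]

theorem PSG_dom {ω1 ω2 : ℝ} (h1 : 0 < ω1) (h2 : ω2 < 1) : ∃ C θ : ℝ, 0 < C ∧ 0 < θ ∧ θ < 1 ∧
    ∀ ω ∈ Set.Icc ω1 ω2, ∀ p : ℤ × ℤ,
      (0 ≤ PS ω (lamw ω) (phw ω) p ∧ PS ω (lamw ω) (phw ω) p ≤ C * θ ^ (p.1.natAbs + p.2.natAbs)) ∧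
      (0 ≤ PG ω (lamw ω) (phw ω) p ∧ PG ω (lamw ω) (phw ω) p ≤ C * θ ^ (p.1.natAbs + p.2.natAbs)) := by
  rcases lt_or_ge ω2 ω1 with hlt | hle
  · refine ⟨1, 1 / 2, one_pos, by norm_num, by norm_num, ?_⟩
    intro ω hω
    exact absurd (hω.1.trans hω.2) (not_le.2 hlt)
  have h20 : 0 < ω2 := h1.trans_le hle
  have h11 : ω1 < 1 := hle.trans_lt h2
  have hl := lamc_pos.1
  obtain ⟨x1, hx1⟩ : ∃ x1, x1 = lamw ω1 := ⟨_, rfl⟩
  obtain ⟨xm, hxm⟩ : ∃ xm, xm = lamw ω2 := ⟨_, rfl⟩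
  have hx10 : 0 < x1 := by rw [hx1]; exact (lamw_lt h1 h11).1
  have hxm1 : xm < lamc := by rw [hxm]; exact (lamw_lt h20 h2).2
  have hxm0 : 0 < xm := by rw [hxm]; exact (lamw_lt h20 h2).1
  have hmono := lamw_cont.2.monotoneOn
  obtain ⟨T, hT⟩ : ∃ T : ℝ, ∀ ω ∈ Set.Icc ω1 ω2, ‖phw ω‖ ≤ T :=
    isCompact_Icc.exists_bound_of_continuousOn
      (phw_cont.mono fun ω hω => ⟨h1.trans_le hω.1, hω.2.trans_lt h2⟩)
  have hρ1 : xm / lamc < 1 := by
    rw [div_lt_one hl]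
    exact hxm1
  obtain ⟨θ, hθ1, hθ2⟩ := exists_between hρ1
  have hθ : 0 < θ := (div_pos hxm0 hl).trans hθ1
  obtain ⟨M, hM⟩ : ∃ M, M = 2 * (3 * (xm / lamc / θ / (1 - xm / lamc / θ)) + 2) := ⟨_, rfl⟩
  have hM0 : 0 ≤ M := by
    rw [hM]
    have h3 : xm / lamc / θ < 1 := by
      rw [div_lt_one hθ]
      exact hθ1
    have h4 : 0 < 1 - xm / lamc / θ := by linarith
    positivity
  obtain ⟨E, hE⟩ : ∃ E, E = Real.exp (T / θ) := ⟨_, rfl⟩
  have hE0 : 0 < E := by rw [hE]; exact Real.exp_pos _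
  refine ⟨E + (2 * M * E + 6 * M) / θ + 2 * E / (x1 * θ) + 4 * M * E, θ, by positivity, hθ, hθ2, ?_⟩
  intro ω hω p
  have hω0 : 0 < ω := h1.trans_le hω.1
  have hω1 : ω < 1 := hω.2.trans_lt h2
  obtain ⟨hl0, hl1⟩ := lamw_lt hω0 hω1
  have hph := phw_pos hω0 hω1
  have hxle : lamw ω ≤ xm := by
    rw [hxm]
    exact hmono ⟨hω0, hω1⟩ ⟨h20, h2⟩ hω.2
  have hxge : x1 ≤ lamw ω := by
    rw [hx1]
    exact hmono ⟨h1, h11⟩ ⟨hω0, hω1⟩ hω.1
  have htT : phw ω ≤ T := (le_abs_self _).trans (hT ω hω)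
  obtain ⟨x, hx⟩ : ∃ x, x = lamw ω := ⟨_, rfl⟩
  obtain ⟨t, ht⟩ : ∃ t, t = phw ω := ⟨_, rfl⟩
  rw [← hx] at hl0 hl1 hxle hxge ⊢
  rw [← ht] at hph htT ⊢
  have hx1' : x ≤ 1 := by
    have := lamc_pos.2
    linarith
  have hB : ∀ i : ℕ, (3 * (i : ℝ) + 2) * b0 i * x ^ i ≤ M * θ ^ i := fun i => by
    rw [hM]
    exact trs_b0 hl0 hxle hθ1 i
  have hB' : ∀ i : ℕ, (3 * (i : ℝ) + 2) * b0 i * x ^ (i + 1) ≤ M * θ ^ i := fun i => by
    have h3 := hB i
    have h4 := (b0_pos i).le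
    have h5 : 0 ≤ (3 * (i : ℝ) + 2) * b0 i * x ^ i := by positivity
    calc (3 * (i : ℝ) + 2) * b0 i * x ^ (i + 1) = (3 * (i : ℝ) + 2) * b0 i * x ^ i * x := by
          rw [pow_succ]; ring
      _ ≤ (3 * (i : ℝ) + 2) * b0 i * x ^ i * 1 := mul_le_mul_of_nonneg_left hx1' h5
      _ ≤ M * θ ^ i := by rw [mul_one]; exact h3
  have hD1 : ∀ j : ℕ, ω ^ (2 * j + 1) / ((2 * j + 1).factorial : ℝ) * t ^ j ≤ E * θ ^ j := fun j => by
    rw [hE]
    exact trs_fac hθ hω0 hω1 hph.le htT j _ _ (by omega)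
  have hD2 : ∀ j : ℕ, ω ^ (2 * j + 2) / ((2 * j + 2).factorial : ℝ) * t ^ j ≤ E * θ ^ j := fun j => by
    rw [hE]
    exact trs_fac hθ hω0 hω1 hph.le htT j _ _ (by omega)
  have hC : ∀ c : ℝ, ∀ k : ℕ, c ≤ E + (2 * M * E + 6 * M) / θ + 2 * E / (x1 * θ) + 4 * M * E →
      c * θ ^ k ≤ (E + (2 * M * E + 6 * M) / θ + 2 * E / (x1 * θ) + 4 * M * E) * θ ^ k :=
    fun c k h => mul_le_mul_of_nonneg_right h (pow_nonneg hθ.le k)
  have n1 : 0 ≤ (2 * M * E + 6 * M) / θ := by positivity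
  have n2 : 0 ≤ 2 * E / (x1 * θ) := by positivity
  have n3 : 0 ≤ 4 * M * E := by positivity
  have hC0 : 0 ≤ (E + (2 * M * E + 6 * M) / θ + 2 * E / (x1 * θ) + 4 * M * E) *
      θ ^ (p.1.natAbs + p.2.natAbs) := by positivity
  refine ⟨?_, ?_⟩
  · unfold PS
    by_cases hp : 0 ≤ p.1 ∧ 0 ≤ p.2
    · rw [if_pos hp]
      obtain ⟨s, hs⟩ := Int.eq_ofNat_of_zero_le hp.1
      obtain ⟨j, hj⟩ := Int.eq_ofNat_of_zero_le hp.2
      have e1 : p.1.toNat = s := by omega
      have e2 : p.2.toNat = j := by omega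
      have e3 : p.1.natAbs = s := by omega
      have e4 : p.2.natAbs = j := by omega
      rw [e1, e2, e3, e4]
      by_cases hs0 : p.1 = 0
      · rw [if_pos hs0]
        have hs1 : s = 0 := by omega
        refine ⟨by positivity, ?_⟩
        rw [hs1, zero_add]
        exact (hD1 j).trans (hC E j (by linarith))
      · rw [if_neg hs0]
        obtain ⟨i, rfl⟩ : ∃ i, s = i + 1 := ⟨s - 1, by omega⟩
        rw [Nat.add_sub_cancel]
        have hb := (b0_pos i).le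
        have h3 := hB' i
        have h4 := hD1 j
        have h5 : 0 ≤ (3 * (i : ℝ) + 2) * b0 i * x ^ (i + 1) := by positivity
        have h6 : 0 ≤ ω ^ (2 * j + 1) / ((2 * j + 1).factorial : ℝ) * t ^ j := by positivity
        have h7 := mul_le_mul h3 h4 h6 (by positivity)
        have h8 : (if p.2 = 0 then 6 * ((i : ℝ) + 2) * b0 i * x ^ (i + 1) else 0) ≤
            6 * M * (θ ^ i * θ ^ j) := by
          by_cases hj0 : p.2 = 0
          · rw [if_pos hj0]
            have hj1 : j = 0 := by omega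
            rw [hj1, pow_zero, mul_one]
            have h9 : 0 ≤ b0 i * x ^ (i + 1) := by positivity
            have h10 : (0 : ℝ) ≤ i := Nat.cast_nonneg i
            nlinarith
          · rw [if_neg hj0]
            positivity
        have h8' : 0 ≤ (if p.2 = 0 then 6 * ((i : ℝ) + 2) * b0 i * x ^ (i + 1) else 0) := by
          split_ifs
          · positivity
          · exact le_rfl
        have h12 : 2 * (3 * (i : ℝ) + 2) * b0 i * x ^ (i + 1) *
            (ω ^ (2 * j + 1) / ((2 * j + 1).factorial : ℝ)) * t ^ j =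
            2 * ((3 * (i : ℝ) + 2) * b0 i * x ^ (i + 1) *
              (ω ^ (2 * j + 1) / ((2 * j + 1).factorial : ℝ) * t ^ j)) := by ring
        rw [h12]
        refine ⟨by positivity, ?_⟩
        have h11 : (2 * M * E + 6 * M) / θ * θ ^ (i + 1 + j) =
            2 * (M * θ ^ i * (E * θ ^ j)) + 6 * M * (θ ^ i * θ ^ j) := by
          have : θ ^ (i + 1 + j) = θ ^ i * θ ^ j * θ := by ring
          rw [this]
          field_simp
        refine le_trans ?_ (hC ((2 * M * E + 6 * M) / θ) (i + 1 + j) (by linarith))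
        rw [h11]
        linarith
    · rw [if_neg hp]
      exact ⟨le_rfl, hC0⟩
  · unfold PG
    by_cases hp : 0 ≤ p.2
    · rw [if_pos hp]
      obtain ⟨j, hj⟩ := Int.eq_ofNat_of_zero_le hp
      have e2 : p.2.toNat = j := by omega
      have e4 : p.2.natAbs = j := by omega
      rw [e2, e4]
      by_cases hs0 : p.1 = -1
      · rw [if_pos hs0]
        have e3 : p.1.natAbs = 1 := by omega
        rw [e3]
        refine ⟨by positivity, ?_⟩
        refine le_trans ?_ (hC (2 * E / (x1 * θ)) (1 + j) (by linarith))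
        have h3 : 2 * E / (x1 * θ) * θ ^ (1 + j) = 2 * (E * θ ^ j) / x1 := by
          have : θ ^ (1 + j) = θ * θ ^ j := by ring
          rw [this]
          field_simp
        rw [h3]
        have h4 := hD2 j
        have h5 : 0 ≤ ω ^ (2 * j + 2) / ((2 * j + 2).factorial : ℝ) * t ^ j := by positivity
        apply div_le_div₀ (by positivity) _ hx10 hxge
        linarith
      · rw [if_neg hs0]
        by_cases hs1 : 0 ≤ p.1
        · rw [if_pos hs1]
          obtain ⟨i, hi⟩ := Int.eq_ofNat_of_zero_le hs1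
          have e1 : p.1.toNat = i := by omega
          have e3 : p.1.natAbs = i := by omega
          rw [e1, e3]
          have hb := (b0_pos i).le
          have h3 := hB i
          have h4 := hD2 j
          have h5 : 0 ≤ (3 * (i : ℝ) + 2) * b0 i * x ^ i := by positivity
          have h6 : 0 ≤ ω ^ (2 * j + 2) / ((2 * j + 2).factorial : ℝ) * t ^ j := by positivity
          have h7 := mul_le_mul h3 h4 h6 (by positivity)
          have h12 : 4 * (3 * (i : ℝ) + 2) * b0 i * x ^ i *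
              (ω ^ (2 * j + 2) / ((2 * j + 2).factorial : ℝ)) * t ^ j =
              4 * ((3 * (i : ℝ) + 2) * b0 i * x ^ i *
                (ω ^ (2 * j + 2) / ((2 * j + 2).factorial : ℝ) * t ^ j)) := by ring
          rw [h12]
          refine ⟨by positivity, ?_⟩
          refine le_trans ?_ (hC (4 * M * E) (i + j) (by linarith))
          have : 4 * M * E * θ ^ (i + j) = 4 * (M * θ ^ i * (E * θ ^ j)) := by
            rw [pow_add]; ring
          rw [this]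
          linarith
        · rw [if_neg hs1]
          rw [e4] at hC0
          exact ⟨le_rfl, hC0⟩
    · rw [if_neg hp]
      exact ⟨le_rfl, hC0⟩

theorem PSG_cont (p : ℤ × ℤ) : ContinuousOn (fun ω => PS ω (lamw ω) (phw ω) p) (Set.Ioo 0 1) ∧
    ContinuousOn (fun ω => PG ω (lamw ω) (phw ω) p) (Set.Ioo 0 1) := by
  have hlc := lamw_cont.1
  have hpc := phw_cont
  have hid : ContinuousOn (fun ω : ℝ => ω) (Set.Ioo 0 1) := continuousOn_id
  refine ⟨?_, ?_⟩
  · unfold PS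
    split_ifs
    · exact ((hid.pow _).div_const _).mul (hpc.pow _)
    · exact ((((continuousOn_const.mul (hlc.pow _)).mul ((hid.pow _).div_const _)).mul
        (hpc.pow _)).add (continuousOn_const.mul (hlc.pow _)))
    · exact ((((continuousOn_const.mul (hlc.pow _)).mul ((hid.pow _).div_const _)).mul
        (hpc.pow _)).add continuousOn_const)
    · exact continuousOn_const
  · unfold PG
    split_ifs
    · refine ((continuousOn_const.mul ((hid.pow _).div_const _)).mul (hpc.pow _)).div hlc ?_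
      intro ω hω
      exact (lamw_lt hω.1 hω.2).1.ne'
    · exact ((continuousOn_const.mul (hlc.pow _)).mul ((hid.pow _).div_const _)).mul (hpc.pow _)
    · exact continuousOn_const
    · exact continuousOn_const

theorem derA {x : ℝ} (h0 : 0 < x) (h1 : x < lamc) :
    HasSum (fun i : ℕ => 2 * (3 * (i : ℝ) + 2) * ((i : ℝ) + 1) * b0 i * x ^ (i + 1))
      (Aof x * (Aof x ^ 2 - 1) / (3 - Aof x ^ 2)) := by
  have hl := lamc_pos.1
  have hAs := A_sumAt h0.le (sum_P h0.le h1.le)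
  obtain ⟨hA1, -, hpsi⟩ := psi_A h0.le h1.le
  have hh := (plg_h h0 h1).2
  obtain ⟨A, hA⟩ : ∃ A, A = Aof x := ⟨_, rfl⟩
  rw [← hA] at hAs hA1 hpsi hh ⊢
  have hA0 : 0 < A := by linarith
  have hA3 : 0 < 3 - A ^ 2 := by linarith
  -- summability
  have hsum : Summable (fun i : ℕ => 2 * (3 * (i : ℝ) + 2) * ((i : ℝ) + 1) * b0 i * x ^ (i + 1)) := by
    obtain ⟨r, hr⟩ : ∃ r, r = x / lamc := ⟨_, rfl⟩
    have hr0 : 0 < r := by rw [hr]; positivity
    have hr1 : r < 1 := by rw [hr, div_lt_one hl]; exact h1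
    have hrn : ‖r‖ < 1 := by rw [Real.norm_of_nonneg hr0.le]; exact hr1
    have s0 := summable_pow_mul_geometric_of_norm_lt_one 0 hrn
    have s1 := summable_pow_mul_geometric_of_norm_lt_one 1 hrn
    have s2 := summable_pow_mul_geometric_of_norm_lt_one 2 hrn
    have s3 := (((s2.mul_left 3).add (s1.mul_left 5)).add (s0.mul_left 2)).mul_left 4
    refine Summable.of_nonneg_of_le (fun i => ?_) (fun i => ?_) s3
    · have := (b0_pos i).le
      positivity
    · have hb := (b0_pos i).le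
      have h2 := b0_le i
      have h3 : b0 i * x ^ i ≤ 2 * r ^ i := by
        have h4 : 2 * r ^ i = 2 * (1 / lamc) ^ i * x ^ i := by
          rw [hr, mul_assoc, ← mul_pow]
          congr 2
          ring
        rw [h4]
        exact mul_le_mul_of_nonneg_right h2 (pow_nonneg h0.le i)
      have hx1 : x ≤ 1 := by
        have := lamc_pos.2
        linarith
      have h5 : b0 i * x ^ (i + 1) ≤ 2 * r ^ i := by
        calc b0 i * x ^ (i + 1) = b0 i * x ^ i * x := by rw [pow_succ]; ring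
          _ ≤ b0 i * x ^ i * 1 := mul_le_mul_of_nonneg_left hx1 (by positivity)
          _ ≤ 2 * r ^ i := by rw [mul_one]; exact h3
      calc 2 * (3 * (i : ℝ) + 2) * ((i : ℝ) + 1) * b0 i * x ^ (i + 1)
          = 2 * (3 * (i : ℝ) + 2) * ((i : ℝ) + 1) * (b0 i * x ^ (i + 1)) := by ring
        _ ≤ 2 * (3 * (i : ℝ) + 2) * ((i : ℝ) + 1) * (2 * r ^ i) :=
            mul_le_mul_of_nonneg_left h5 (by positivity)
        _ = 4 * (3 * ((i : ℝ) ^ 2 * r ^ i) + 5 * ((i : ℝ) ^ 1 * r ^ i) +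
              2 * ((i : ℝ) ^ 0 * r ^ i)) := by ring
  obtain ⟨L, hL⟩ : ∃ L, L = ∑' i : ℕ,
    2 * (3 * (i : ℝ) + 2) * ((i : ℝ) + 1) * b0 i * x ^ (i + 1) := ⟨_, rfl⟩
  have hLs := hsum.hasSum
  rw [← hL] at hLs
  -- the formal derivative
  obtain ⟨D, hD⟩ : ∃ D : PowerSeries ℝ, D = PowerSeries.X * PowerSeries.derivative ℝ Afs := ⟨_, rfl⟩
  have hcA : ∀ i : ℕ, PowerSeries.coeff (i + 1) Afs = 2 * ((3 * (i : ℝ) + 2) * b0 i) := by
    intro i
    unfold Afs
    rw [map_add, PowerSeries.coeff_one, if_neg (Nat.succ_ne_zero i), zero_add]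
    have e1 : (2 : PowerSeries ℝ) * PowerSeries.X *
        (PowerSeries.mk fun i => (3 * (i : ℝ) + 2) * b0 i) =
        PowerSeries.C (2 : ℝ) * ((PowerSeries.mk fun i => (3 * (i : ℝ) + 2) * b0 i) *
          PowerSeries.X) := by
      have : (PowerSeries.C (2 : ℝ) : PowerSeries ℝ) = 2 := map_ofNat _ 2
      rw [this]
      ring
    rw [e1, PowerSeries.coeff_C_mul, PowerSeries.coeff_succ_mul_X, PowerSeries.coeff_mk]
  have hcD0 : PowerSeries.coeff 0 D = 0 := by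
    rw [hD, PowerSeries.coeff_zero_X_mul]
  have hcD : ∀ i : ℕ, PowerSeries.coeff (i + 1) D =
      2 * (3 * (i : ℝ) + 2) * ((i : ℝ) + 1) * b0 i := by
    intro i
    rw [hD, PowerSeries.coeff_succ_X_mul, PowerSeries.coeff_derivative, hcA]
    ring
  have hDs : SumAt D x L := by
    refine ⟨fun n => ?_, ?_⟩
    · rcases n with _ | i
      · rw [hcD0]
      · rw [hcD]
        have := (b0_pos i).le
        positivity
    · have h2 : HasSum (fun n => PowerSeries.coeff (n + 1) D * x ^ (n + 1)) L := by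
        refine hLs.congr_fun fun i => ?_
        rw [hcD]
      have h3 := trs_succ (f := fun n => PowerSeries.coeff n D * x ^ n) h2
      rwa [hcD0, zero_mul, add_zero] at h3
  have hform : 2 * Afs * D = 8 * (PowerSeries.X * (Afs * Afs * Afs)) +
      24 * (PowerSeries.X * (Afs * Afs * D)) := by
    have h2 : PowerSeries.X * PowerSeries.derivative ℝ (Afs ^ 2) =
        PowerSeries.X * PowerSeries.derivative ℝ (1 + 8 * PowerSeries.X * Afs ^ 3) := by
      rw [PA]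
    have e8 : (8 : PowerSeries ℝ) = PowerSeries.C (8 : ℝ) := (map_ofNat _ 8).symm
    rw [e8] at h2
    simp only [map_add, Derivation.leibniz, Derivation.leibniz_pow, PowerSeries.derivative_X,
      PowerSeries.derivative_C, smul_eq_mul, nsmul_eq_mul, Derivation.map_one_eq_zero] at h2
    rw [← e8] at h2
    rw [hD]
    push_cast at h2
    linear_combination h2
  have s2 : SumAt (2 : PowerSeries ℝ) x 2 := by
    have := SumAt.nat 2 x
    simpa using this
  have s8 : SumAt (8 : PowerSeries ℝ) x 8 := by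
    have := SumAt.nat 8 x
    simpa using this
  have s24 : SumAt (24 : PowerSeries ℝ) x 24 := by
    have := SumAt.nat 24 x
    simpa using this
  have hlhs := (s2.mul h0.le hAs).mul h0.le hDs
  have hrhs := (s8.mul h0.le (SumAt.X.mul h0.le ((hAs.mul h0.le hAs).mul h0.le hAs))).add
    (s24.mul h0.le (SumAt.X.mul h0.le ((hAs.mul h0.le hAs).mul h0.le hDs)))
  rw [← hform] at hrhs
  have heq := SumAt.unique hlhs hrhs
  have hx : x * (8 * A ^ 3) = A ^ 2 - 1 := by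
    rw [← hpsi]
    unfold psi
    field_simp
  have hLval : L = A * (A ^ 2 - 1) / (3 - A ^ 2) := by
    rw [eq_div_iff hA3.ne']
    have h3 : A * (2 * A * L) = A * (8 * (x * (A * A * A)) + 24 * (x * (A * A * L))) := by
      rw [heq]
    have h4 : A * (8 * (x * (A * A * A)) + 24 * (x * (A * A * L))) =
        A * (x * (8 * A ^ 3)) + 3 * (x * (8 * A ^ 3)) * L := by ring
    rw [h4, hx] at h3
    linarith
  rw [← hLval]
  exact hLs

theorem derG {x : ℝ} (h0 : 0 < x) (h1 : x < lamc) :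
    HasSum (fun i : ℕ => 6 * ((i : ℝ) + 2) * ((i : ℝ) + 1) * b0 i * x ^ (i + 1))
      (3 * (Aof x ^ 2 - 1) / (Aof x * (3 - Aof x ^ 2))) := by
  have hA := derA h0 h1
  have hf := f_val h0.le h1.le
  have hP := (sum_P h0.le h1.le).hasSum
  obtain ⟨hA1, -, hpsi⟩ := psi_A h0.le h1.le
  have hh := (plg_h h0 h1).2
  obtain ⟨P, hPd⟩ : ∃ P, P = ∑' i : ℕ, (3 * (i : ℝ) + 2) * b0 i * x ^ i := ⟨_, rfl⟩
  rw [← hPd] at hP
  have hAd : Aof x = 1 + 2 * x * P := by rw [hPd]; rfl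
  obtain ⟨A, hAe⟩ : ∃ A, A = Aof x := ⟨_, rfl⟩
  rw [← hAe] at hA hf hA1 hpsi hh hAd ⊢
  have hA0 : 0 < A := by linarith
  have hA3 : 0 < 3 - A ^ 2 := by linarith
  have h2 := hA.add (((hP.mul_left (8 / 3)).add (hf.mul_left (8 / 3))).mul_left x)
  have hx : x * (8 * A ^ 3) = A ^ 2 - 1 := by
    rw [← hpsi]
    unfold psi
    field_simp
  have e1 : A * (A ^ 2 - 1) / (3 - A ^ 2) +
      x * (8 / 3 * P + 8 / 3 * (A ^ 2 * (3 - A) / (A + 1))) =
      3 * (A ^ 2 - 1) / (A * (3 - A ^ 2)) := by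
    have hx2 : 2 * x * P = A - 1 := by linarith
    have h3 : x * (8 / 3 * P + 8 / 3 * (A ^ 2 * (3 - A) / (A + 1))) =
        4 / 3 * (2 * x * P) + 1 / 3 * (x * (8 * A ^ 3)) * (3 - A) / (A * (A + 1)) := by
      field_simp
      ring
    rw [h3, hx2, hx]
    have hA1' : A + 1 ≠ 0 := by linarith
    field_simp
    ring
  rw [e1] at h2
  refine h2.congr_fun fun i => ?_
  rw [pow_succ]
  ring

end UN39
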