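import Mathlib
import Pool.Agent.H39.UN.Ult
import Pool.Agent.H39.UN.Rat
import Pool.Agent.H39.UN.RhoA
import Pool.Agent.H39.UN.Rho
import Pool.Agent.H39.UP.Bet
import Pool.Agent.H39.UP.Rb
import Pool.Agent.H39.UP.Tsm
import Pool.Agent.H39.UP.Fst1
import Pool.Agent.H39.UP.Sef
import Pool.Agent.H39.UP.Phi
import Pool.Agent.H39.UP.Trs
import Pool.Agent.H39.UP.Lip
import Pool.Agent.H39.UP.Absc

/-!
[H39 UP CTA]  (MP_bcc40c_pr)  The equations at a shifted point, in terms of the deviation from an exponential profile.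

`gpt n w p` is the point `(n,w) - s (1,1) + j (0,2)` for `p = (s,j)`; `Xd n w p = log bc (that point) - log bc n w - s log λ - j (log φ - 2 log n)` with
`λ = lamw (w/n)`, `φ = phw (w/n)`.  All estimates are for the region `ω1 n ≤ w ≤ ω2 n`, `w ≡ n (mod 2)`, `n ≥ n0`, and vectors `p` with
`len p ≤ (Nat.log 2 n)^3` (denote this bound by `Rc n`), so all points stay in the region `ω1/2, (1+ω2)/2` and all numbers are positive.
PROOFS.
xd_inc: `Xd (p+(1,0)) - Xd p = log (bc (n'-1) (w'-1)/bc n' w') - log λ`, `(n',w') = gpt n w p`; its absolute value is at most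
  `Dv n' w' + |log lamw (w'/n') - log lamw (w/n)| ≤ Dv n' w' + C len p/n` (lip; `|w'/n' - w/n| ≤ 4 len p/n`).  `Xd (p+(0,1)) - Xd p =
  log (n'^2 bc n' (w'+2)/bc n' w') - log φ + 2 log (n/n')`: the same.
xd_zero: equality for `p = 0`, and `Dv n w = max |Xd (1,0)| |Xd (0,1)|`.
xd_eq1: SEF at the point `(n',w') = gpt n w x` (it is in the larger region): there `Bn n' w' s j = exp (Xd (x+(s,j)) - Xd x) λ^s φ^j (n'/n)^(2j)` and
  `(w'/n')^(2j+1)` differs from `(w/n)^(2j+1)` by the factor `1 + O((2j+1) len x/n)`; so the sum in SEF is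
  `∑_{p ∈ bx} PS (w/n) λ φ p exp(Xd (x+p) - Xd x) (1 + O((1+len x)(1+j)/n))`, `bx = {(s,j) : 0 ≤ s ≤ Jc n', 0 ≤ j < Jc n'}` (note `s = i+1`, and `s = 0`); replace `Jc n'` by
  `Jc n`: the terms `≥ min(Jc n, Jc n') - 1` are negligible: every term is `≤ C (lp/lamc)^s C^j/(2j+1)!` by rb, so their sum is `≤ C/n`.  Since
  `∑' PS = 3` (PS_sum) and the tail outside `bx` is `≤ C θ^(Jc n) ≤ C/n` (PSG_dom), we get `|∑_{p ∈ bx} PS p (exp(Xd (x+p) - Xd x) - 1)| ≤ Cx/n`.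
  (For the error factor `1 + O(...)` use that the terms `PS p exp(...)` are bounded by a summable sequence, rb.)
xd_eq2: the same with GJF and PG; the term `p.1 = -1`: `Bu n' w' j = exp(Xd (x+(-1,j)) - Xd x) λ^(-1) φ^j (n'/n)^(2j)`.
-/

set_option autoImplicit false

namespace UN39

open Filter Topology

/-- deviation of the two local ratios -/
noncomputable def Dv (n w : ℕ) : ℝ :=
  max |Real.log (bc (n - 1) (w - 1) / bc n w) - Real.log (lamw ((w : ℝ) / n))|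
    |Real.log ((n : ℝ) ^ 2 * bc n (w + 2) / bc n w) - Real.log (phw ((w : ℝ) / n))|

def Rc (n : ℕ) : ℕ := (Nat.log 2 n) ^ 3

/-- the shifted point -/
noncomputable def gpt (n w : ℕ) (p : ℤ × ℤ) : ℕ × ℕ :=
  (((n : ℤ) - p.1).toNat, ((w : ℤ) - p.1 + 2 * p.2).toNat)

noncomputable def Xd (n w : ℕ) (p : ℤ × ℤ) : ℝ :=
  Real.log (bc (gpt n w p).1 (gpt n w p).2) - Real.log (bc n w) -
    p.1 * Real.log (lamw ((w : ℝ) / n)) - p.2 * (Real.log (phw ((w : ℝ) / n)) - 2 * Real.log n)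

/-- the box of the vectors in the equations -/
noncomputable def bx (n : ℕ) : Finset (ℤ × ℤ) := (Finset.Icc (-1) (Jc n : ℤ)) ×ˢ (Finset.Ico 0 (Jc n : ℤ))

private theorem ct_abs (z : ℤ) : |(z : ℝ)| = ((z.natAbs : ℕ) : ℝ) := by
  rw [Nat.cast_natAbs, Int.cast_abs]

private theorem ct_log (k : ℕ) {ε : ℝ} (hε : 0 < ε) : ∃ n0 : ℕ, ∀ n : ℕ, n0 ≤ n →
    ((Nat.log 2 n : ℕ) : ℝ) ^ k ≤ ε * n := by
  have h1 := tendsto_pow_const_div_const_pow_of_one_lt k (r := (2 : ℝ)) (by norm_num)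
  have h2 : ∀ᶠ L : ℕ in atTop, (L : ℝ) ^ k / 2 ^ L < ε := h1.eventually_lt_const hε
  obtain ⟨L0, hL0⟩ := eventually_atTop.1 h2
  refine ⟨2 ^ L0, fun n hn => ?_⟩
  have hn0 : n ≠ 0 := by
    have : 0 < 2 ^ L0 := by positivity
    omega
  have h3 : L0 ≤ Nat.log 2 n := Nat.le_log_of_pow_le (by norm_num) hn
  have h4 := hL0 _ h3
  rw [div_lt_iff₀ (by positivity)] at h4
  have h5 : ((2 : ℝ)) ^ (Nat.log 2 n) ≤ n := by
    exact_mod_cast Nat.pow_log_le_self 2 hn0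
  exact h4.le.trans (mul_le_mul_of_nonneg_left h5 hε.le)

private theorem ct_tail {q : ℝ} (h0 : 0 < q) (h1 : q < 1) : ∃ n0 : ℕ, ∀ n : ℕ, n0 ≤ n →
    q ^ (Jc n) ≤ 2 / n := by
  have h2 : ∀ᶠ L : ℕ in atTop, q ^ L < 1 / 2 :=
    (tendsto_pow_atTop_nhds_zero_of_lt_one h0.le h1).eventually_lt_const (by norm_num)
  obtain ⟨L0, hL0⟩ := eventually_atTop.1 h2
  refine ⟨2 ^ L0, fun n hn => ?_⟩
  have hn0 : n ≠ 0 := by
    have : 0 < 2 ^ L0 := by positivity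
    omega
  have h3 : L0 ≤ Nat.log 2 n := Nat.le_log_of_pow_le (by norm_num) hn
  have h4 := hL0 _ h3
  have h5 : n < 2 ^ (Nat.log 2 n + 1) := Nat.lt_pow_succ_log_self (by norm_num) n
  have h6 : (n : ℝ) ≤ 2 ^ (Nat.log 2 n) * 2 := by
    rw [← pow_succ]
    exact_mod_cast h5.le
  have hnp : (0 : ℝ) < n := by exact_mod_cast Nat.pos_of_ne_zero hn0
  have e1 : q ^ (Jc n) = (q ^ (Nat.log 2 n)) ^ (Nat.log 2 n) := by
    unfold Jc
    rw [← pow_mul, sq]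
  rw [e1]
  calc (q ^ (Nat.log 2 n)) ^ (Nat.log 2 n) ≤ (1 / 2) ^ (Nat.log 2 n) :=
        pow_le_pow_left₀ (by positivity) h4.le _
    _ = 1 / 2 ^ (Nat.log 2 n) := by rw [one_div, inv_pow, one_div]
    _ ≤ 2 / n := by
        rw [div_le_div_iff₀ (by positivity) hnp]
        linarith

private theorem ct_sum {q : ℝ} (h0 : 0 < q) (h1 : q < 1) : ∃ Z : ℝ, 0 < Z ∧
    ∀ F : Finset (ℤ × ℤ), ∑ p ∈ F, q ^ len p ≤ Z := by
  have hs : Summable (fun s : ℤ => q ^ s.natAbs) := by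
    apply Summable.of_nat_of_neg
    · simpa using summable_geometric_of_lt_one h0.le h1
    · simpa using summable_geometric_of_lt_one h0.le h1
  have h2 : Summable (fun p : ℤ × ℤ => q ^ p.1.natAbs * q ^ p.2.natAbs) :=
    Summable.mul_of_nonneg hs hs (fun _ => by positivity) (fun _ => by positivity)
  have h3 : (fun p : ℤ × ℤ => q ^ p.1.natAbs * q ^ p.2.natAbs) = fun p => q ^ len p := by
    funext p
    rw [← pow_add]
    rfl
  rw [h3] at h2
  refine ⟨∑' p, q ^ len p + 1, ?_, fun F => ?_⟩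
  · have : 0 ≤ ∑' p : ℤ × ℤ, q ^ len p := tsum_nonneg fun _ => by positivity
    linarith
  · have := h2.sum_le_tsum F (fun _ _ => by positivity)
    linarith

/-- geometry of the shifted points -/
private theorem ct_geo {ω1 ω2 : ℝ} (h1 : 0 < ω1) (h2 : ω2 < 1) : ∃ κ : ℝ, ∃ n0 : ℕ, 0 < κ ∧ κ ≤ 1 / 16 ∧
    1 ≤ n0 ∧ ∀ n w : ℕ, n0 ≤ n → ω1 * n ≤ w → (w : ℝ) ≤ ω2 * n → w % 2 = n % 2 →
      ∀ p : ℤ × ℤ, (len p : ℝ) ≤ κ * n →
        (((gpt n w p).1 : ℤ) = n - p.1 ∧ ((gpt n w p).2 : ℤ) = w - p.1 + 2 * p.2) ∧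
        (n : ℝ) / 2 ≤ (gpt n w p).1 ∧ ((gpt n w p).1 : ℝ) ≤ 2 * n ∧ 2 ≤ (gpt n w p).1 ∧ 2 ≤ (gpt n w p).2 ∧
        ω1 / 2 * (gpt n w p).1 ≤ (gpt n w p).2 ∧ ((gpt n w p).2 : ℝ) ≤ (1 + ω2) / 2 * (gpt n w p).1 ∧
        (gpt n w p).2 ≤ (gpt n w p).1 ∧ (gpt n w p).2 % 2 = (gpt n w p).1 % 2 ∧
        |((gpt n w p).2 : ℝ) / (gpt n w p).1 - (w : ℝ) / n| ≤ 4 * len p / n ∧
        |((gpt n w p).1 : ℝ) - n| ≤ len p ∧ 0 < bc (gpt n w p).1 (gpt n w p).2 := by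
  set κ : ℝ := min (min (ω1 / 16) ((1 - ω2) / 16)) (1 / 16) with hκ
  have k1 : κ ≤ ω1 / 16 := (min_le_left _ _).trans (min_le_left _ _)
  have k2 : κ ≤ (1 - ω2) / 16 := (min_le_left _ _).trans (min_le_right _ _)
  have k3 : κ ≤ 1 / 16 := min_le_right _ _
  have k0 : 0 < κ := lt_min (lt_min (by linarith) (by linarith)) (by norm_num)
  obtain ⟨n1, hn1⟩ := exists_nat_ge (8 / ω1)
  refine ⟨κ, max n1 8, k0, k3, by omega, ?_⟩
  intro n w hn ha hb hp p hlen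
  have hn8 : 8 ≤ n := le_trans (le_max_right _ _) hn
  have hnn1 : n1 ≤ n := le_trans (le_max_left _ _) hn
  have hnR : (8 : ℝ) ≤ n := by exact_mod_cast hn8
  have hn1R : (n1 : ℝ) ≤ n := by exact_mod_cast hnn1
  have hω1n : 8 ≤ ω1 * n := by
    have h3 : 8 / ω1 ≤ n := hn1.trans hn1R
    rw [div_le_iff₀ h1] at h3
    linarith
  have hl1 : ((p.1.natAbs : ℕ) : ℝ) + (p.2.natAbs : ℕ) = len p := by
    unfold len
    push_cast
    rfl
  have hs := abs_le.1 (le_of_eq (ct_abs p.1))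
  have hj := abs_le.1 (le_of_eq (ct_abs p.2))
  set a : ℝ := ((p.1.natAbs : ℕ) : ℝ) with ha'
  set b : ℝ := ((p.2.natAbs : ℕ) : ℝ) with hb'
  have ha0 : 0 ≤ a := Nat.cast_nonneg _
  have hb0 : 0 ≤ b := Nat.cast_nonneg _
  have hκn : κ * n ≤ ω1 / 16 * n := mul_le_mul_of_nonneg_right k1 (by linarith)
  have hκn2 : κ * n ≤ (1 - ω2) / 16 * n := mul_le_mul_of_nonneg_right k2 (by linarith)
  have hκn3 : κ * n ≤ 1 / 16 * n := mul_le_mul_of_nonneg_right k3 (by linarith)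
  have hN : (0 : ℤ) ≤ (n : ℤ) - p.1 := by
    have : (0 : ℝ) ≤ ((n : ℤ) - p.1 : ℤ) := by
      push_cast
      linarith [hs.2]
    exact_mod_cast this
  have hW : (0 : ℤ) ≤ (w : ℤ) - p.1 + 2 * p.2 := by
    have : (0 : ℝ) ≤ ((w : ℤ) - p.1 + 2 * p.2 : ℤ) := by
      push_cast
      linarith [hs.2, hj.1]
    exact_mod_cast this
  have e1 : ((gpt n w p).1 : ℤ) = n - p.1 := Int.toNat_of_nonneg hN
  have e2 : ((gpt n w p).2 : ℤ) = w - p.1 + 2 * p.2 := Int.toNat_of_nonneg hW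
  have r1 : ((gpt n w p).1 : ℝ) = n - p.1 := by exact_mod_cast congrArg (fun z : ℤ => (z : ℝ)) e1
  have r2 : ((gpt n w p).2 : ℝ) = w - p.1 + 2 * p.2 := by
    have := congrArg (fun z : ℤ => (z : ℝ)) e2
    push_cast at this
    exact this
  generalize gpt n w p = g at e1 e2 r1 r2 ⊢
  have hω2 : ω1 ≤ ω2 := by
    have h3 : ω1 * n ≤ ω2 * n := ha.trans hb
    exact le_of_mul_le_mul_right h3 (by linarith)
  have q1 : (n : ℝ) / 2 ≤ g.1 := by rw [r1]; linarith [hs.2]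
  have q2 : (g.1 : ℝ) ≤ 2 * n := by rw [r1]; linarith [hs.1]
  have q3 : 2 ≤ g.1 := by
    have : (2 : ℝ) ≤ g.1 := by linarith
    exact_mod_cast this
  have q4 : 2 ≤ g.2 := by
    have : (2 : ℝ) ≤ g.2 := by
      rw [r2]
      linarith [hs.2, hj.1]
    exact_mod_cast this
  have q5 : ω1 / 2 * g.1 ≤ g.2 := by
    have h3 : ω1 / 2 * g.1 ≤ ω1 / 2 * (17 / 16 * n) :=
      mul_le_mul_of_nonneg_left (by rw [r1]; linarith [hs.1]) (by linarith)
    rw [r2]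
    nlinarith [hs.2, hj.1]
  have q6 : (g.2 : ℝ) ≤ (1 + ω2) / 2 * g.1 := by
    have h3 : (1 + ω2) / 2 * ((1 - κ) * n) ≤ (1 + ω2) / 2 * g.1 :=
      mul_le_mul_of_nonneg_left (by rw [r1]; linarith [hs.2]) (by linarith)
    have h4 : (g.2 : ℝ) ≤ ω2 * n + 2 * (κ * n) := by
      rw [r2]
      linarith [hs.1, hj.2]
    have h5 : (1 + ω2) / 2 * (κ * n) ≤ κ * n := by
      have : (1 + ω2) / 2 ≤ 1 := by linarith
      have h6 : 0 ≤ κ * n := by positivity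
      nlinarith
    nlinarith
  have q7 : g.2 ≤ g.1 := by
    have h3 : (1 + ω2) / 2 * g.1 ≤ g.1 := by
      have : (1 + ω2) / 2 ≤ 1 := by linarith
      have h6 : (0 : ℝ) ≤ g.1 := Nat.cast_nonneg _
      nlinarith
    exact_mod_cast q6.trans h3
  have q8 : g.2 % 2 = g.1 % 2 := by omega
  have q9 : |(g.2 : ℝ) / g.1 - (w : ℝ) / n| ≤ 4 * len p / n := by
    have hg : (0 : ℝ) < g.1 := by linarith
    have hn' : (0 : ℝ) < n := by linarith
    have e3 : (g.2 : ℝ) / g.1 - (w : ℝ) / n = (2 * n * p.2 - p.1 * (n - w)) / (g.1 * n) := by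
      rw [div_sub_div _ _ hg.ne' hn'.ne', r1, r2]
      congr 1
      ring
    have hwn : (0 : ℝ) ≤ (n : ℝ) - w := by nlinarith
    have hw0 : (0 : ℝ) ≤ w := Nat.cast_nonneg _
    have e4 : |2 * (n : ℝ) * p.2 - p.1 * (n - w)| ≤ 2 * n * len p := by
      rw [← hl1]
      refine (abs_sub _ _).trans ?_
      rw [abs_mul (2 * (n : ℝ)), abs_mul (p.1 : ℝ), abs_of_nonneg hwn,
        abs_of_nonneg (by positivity : (0 : ℝ) ≤ 2 * n),
        ct_abs, ct_abs, ← ha', ← hb']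
      have h3 : a * ((n : ℝ) - w) ≤ a * n := mul_le_mul_of_nonneg_left (by linarith) ha0
      nlinarith
    rw [e3, abs_div, abs_of_pos (mul_pos hg hn'), div_le_div_iff₀ (mul_pos hg hn') hn']
    have hl0 : (0 : ℝ) ≤ len p := Nat.cast_nonneg _
    calc |2 * (n : ℝ) * p.2 - p.1 * (n - w)| * n ≤ 2 * n * len p * n :=
          mul_le_mul_of_nonneg_right e4 hn'.le
      _ = 4 * len p * (n / 2 * n) := by ring
      _ ≤ 4 * len p * (g.1 * n) := by
          apply mul_le_mul_of_nonneg_left _ (by positivity)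
          exact mul_le_mul_of_nonneg_right q1 hn'.le
  have q10 : |(g.1 : ℝ) - n| ≤ len p := by
    rw [r1, ← hl1, abs_le]
    constructor <;> linarith [hs.1, hs.2]
  exact ⟨⟨e1, e2⟩, q1, q2, q3, q4, q5, q6, q7, q8, q9, q10, bc_pos (by omega) (by omega) (by omega) q8⟩

private theorem ct_logdiff {a b c d : ℝ} (hc : 0 < c) (ha : c ≤ a) (hb : c ≤ b) (h : |a - b| ≤ d) :
    |Real.log a - Real.log b| ≤ d / c := by
  have ha0 : 0 < a := hc.trans_le ha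
  have hb0 : 0 < b := hc.trans_le hb
  have h1 := abs_le.1 h
  have hd : 0 ≤ d := (abs_nonneg _).trans h
  have key : ∀ x y : ℝ, 0 < x → 0 < y → c ≤ y → x - y ≤ d → Real.log x - Real.log y ≤ d / c := by
    intro x y hx hy hcy hxy
    rw [← Real.log_div hx.ne' hy.ne']
    refine (Real.log_le_sub_one_of_pos (div_pos hx hy)).trans ?_
    have e1 : x / y - 1 = (x - y) / y := by
      rw [sub_div, div_self hy.ne']
    rw [e1]
    calc (x - y) / y ≤ d / y := div_le_div_of_nonneg_right hxy hy.le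
      _ ≤ d / c := div_le_div_of_nonneg_left hd hc hcy
  rw [abs_le]
  constructor
  · have := key b a hb0 ha0 ha (by linarith [h1.1])
    linarith
  · exact key a b ha0 hb0 hb (by linarith [h1.2])

private theorem ct_add (n w : ℕ) (x p : ℤ × ℤ)
    (h : ((gpt n w x).1 : ℤ) = n - x.1 ∧ ((gpt n w x).2 : ℤ) = w - x.1 + 2 * x.2) :
    gpt n w (x + p) = gpt (gpt n w x).1 (gpt n w x).2 p := by
  unfold gpt at h ⊢
  simp only [Prod.fst_add, Prod.snd_add] at h ⊢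
  apply Prod.ext
  · simp only
    rw [h.1]
    congr 1
    ring
  · simp only
    rw [h.2]
    congr 1
    ring

private theorem ct_reg {ω1 ω2 : ℝ} (h1 : 0 < ω1) (h2 : ω2 < 1) {n w : ℕ} (hn : 1 ≤ n)
    (ha : ω1 * n ≤ w) (hb : (w : ℝ) ≤ ω2 * n) :
    (w : ℝ) / n ∈ Set.Icc (ω1 / 2) ((1 + ω2) / 2) ∧ (w : ℝ) / n ∈ Set.Icc ω1 ω2 := by
  have hn0 : (0 : ℝ) < n := by exact_mod_cast hn
  have h3 : ω1 ≤ (w : ℝ) / n := by
    rw [le_div_iff₀ hn0]
    exact ha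
  have h4 : (w : ℝ) / n ≤ ω2 := by
    rw [div_le_iff₀ hn0]
    exact hb
  exact ⟨⟨by linarith, by linarith⟩, h3, h4⟩

private theorem ct_reg' {ω1 ω2 : ℝ} {n w : ℕ} (hn : 1 ≤ n)
    (ha : ω1 * n ≤ w) (hb : (w : ℝ) ≤ ω2 * n) : (w : ℝ) / n ∈ Set.Icc ω1 ω2 := by
  have hn0 : (0 : ℝ) < n := by exact_mod_cast hn
  constructor
  · rw [le_div_iff₀ hn0]
    exact ha
  · rw [div_le_iff₀ hn0]
    exact hb

private theorem ct_len10 (p : ℤ × ℤ) : len (p + (1, 0)) ≤ len p + 1 := by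
  unfold len
  simp only [Prod.fst_add, Prod.snd_add]
  omega

private theorem ct_len01 (p : ℤ × ℤ) : len (p + (0, 1)) ≤ len p + 1 := by
  unfold len
  simp only [Prod.fst_add, Prod.snd_add]
  omega

private theorem ct_g10 (n w : ℕ) : gpt n w (1, 0) = (n - 1, w - 1) := by
  unfold gpt
  apply Prod.ext
  · simp only
    omega
  · simp only
    omega

private theorem ct_g01 (n w : ℕ) : gpt n w (0, 1) = (n, w + 2) := by
  unfold gpt
  apply Prod.ext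
  · simp only
    omega
  · simp only
    omega

theorem xd_inc {ω1 ω2 : ℝ} (h1 : 0 < ω1) (h2 : ω2 < 1) : ∃ C : ℝ, ∃ n0 : ℕ, 0 < C ∧
    ∀ n w : ℕ, n0 ≤ n → ω1 * n ≤ w → (w : ℝ) ≤ ω2 * n → w % 2 = n % 2 →
      ∀ p : ℤ × ℤ, len p ≤ Rc n →
        |Xd n w (p + (1, 0)) - Xd n w p| ≤ Dv (gpt n w p).1 (gpt n w p).2 + C * len p / n ∧
        |Xd n w (p + (0, 1)) - Xd n w p| ≤ Dv (gpt n w p).1 (gpt n w p).2 + C * len p / n := by
  obtain ⟨κ, nG, k0, k3, hnG, geo⟩ := ct_geo h1 h2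
  obtain ⟨CL, hCL, lipc⟩ := lip (ω1 := ω1 / 2) (ω2 := (1 + ω2) / 2) (by linarith) (by linarith)
  obtain ⟨nL, hnL⟩ := ct_log 3 (ε := κ / 2) (by linarith)
  obtain ⟨n1, hn1⟩ := exists_nat_ge (2 / κ)
  refine ⟨4 * CL + 4, max nG (max nL n1), by linarith, ?_⟩
  intro n w hn ha hb hp p hlen
  have hnn1 : nG ≤ n := le_trans (le_max_left _ _) hn
  have hnn2 : nL ≤ n := le_trans ((le_max_left _ _).trans (le_max_right _ _)) hn
  have hnn3 : n1 ≤ n := le_trans ((le_max_right _ _).trans (le_max_right _ _)) hn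
  have hn0 : (0 : ℝ) < n := by exact_mod_cast (show 0 < n by omega)
  have hk1 : 1 ≤ κ / 2 * n := by
    have h3 : 2 / κ ≤ n := hn1.trans (by exact_mod_cast hnn3)
    rw [div_le_iff₀ k0] at h3
    linarith
  have hR : (Rc n : ℝ) ≤ κ / 2 * n := by
    unfold Rc
    push_cast
    exact hnL n hnn2
  have hlR : (len p : ℝ) ≤ κ / 2 * n := le_trans (by exact_mod_cast hlen) hR
  have hl10 : (len (p + (1, 0)) : ℝ) ≤ κ * n := by
    have : (len (p + (1, 0)) : ℝ) ≤ len p + 1 := by exact_mod_cast ct_len10 p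
    linarith
  have hl01 : (len (p + (0, 1)) : ℝ) ≤ κ * n := by
    have : (len (p + (0, 1)) : ℝ) ≤ len p + 1 := by exact_mod_cast ct_len01 p
    linarith
  obtain ⟨g1, g2, g3, g4, g5, g6, g7, g8, g9, g10, g11, g12⟩ := geo n w hnn1 ha hb hp p (by linarith)
  obtain ⟨-, -, -, -, -, -, -, -, -, -, -, a12⟩ := geo n w hnn1 ha hb hp _ hl10
  obtain ⟨-, -, -, -, -, -, -, -, -, -, -, b12⟩ := geo n w hnn1 ha hb hp _ hl01
  have e10 : gpt n w (p + (1, 0)) = ((gpt n w p).1 - 1, (gpt n w p).2 - 1) := by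
    rw [ct_add n w p (1, 0) g1, ct_g10]
  have e01 : gpt n w (p + (0, 1)) = ((gpt n w p).1, (gpt n w p).2 + 2) := by
    rw [ct_add n w p (0, 1) g1, ct_g01]
  rw [e10] at a12
  rw [e01] at b12
  unfold Xd
  rw [e10, e01]
  generalize gpt n w p = g at *
  have hω := ct_reg h1 h2 (n := n) (w := w) (by omega) ha hb
  have hω' := ct_reg' (n := g.1) (w := g.2) (by omega) g6 g7
  obtain ⟨l1, l2, -⟩ := lipc _ hω' _ hω.1
  have hl0 : (0 : ℝ) ≤ len p := Nat.cast_nonneg _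
  have l1' : |Real.log (lamw ((g.2 : ℝ) / g.1)) - Real.log (lamw ((w : ℝ) / n))| ≤
      4 * CL * len p / n := by
    refine l1.trans ?_
    calc CL * |(g.2 : ℝ) / g.1 - (w : ℝ) / n| ≤ CL * (4 * len p / n) :=
          mul_le_mul_of_nonneg_left g10 hCL.le
      _ = _ := by ring
  have l2' : |Real.log (phw ((g.2 : ℝ) / g.1)) - Real.log (phw ((w : ℝ) / n))| ≤
      4 * CL * len p / n := by
    refine l2.trans ?_
    calc CL * |(g.2 : ℝ) / g.1 - (w : ℝ) / n| ≤ CL * (4 * len p / n) :=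
          mul_le_mul_of_nonneg_left g10 hCL.le
      _ = _ := by ring
  have l3 : |Real.log (g.1 : ℝ) - Real.log n| ≤ 2 * len p / n := by
    refine (ct_logdiff (c := (n : ℝ) / 2) (by linarith) g2 (by linarith) g11).trans (le_of_eq ?_)
    field_simp
  have hg1 : (0 : ℝ) < g.1 := by linarith
  have D1 : |Real.log (bc (g.1 - 1) (g.2 - 1) / bc g.1 g.2) - Real.log (lamw ((g.2 : ℝ) / g.1))| ≤
      Dv g.1 g.2 := le_max_left _ _
  have D2 : |Real.log ((g.1 : ℝ) ^ 2 * bc g.1 (g.2 + 2) / bc g.1 g.2) -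
      Real.log (phw ((g.2 : ℝ) / g.1))| ≤ Dv g.1 g.2 := le_max_right _ _
  rw [Real.log_div a12.ne' g12.ne'] at D1
  rw [Real.log_div (mul_pos (by positivity) b12).ne' g12.ne',
    Real.log_mul (by positivity) b12.ne', Real.log_pow] at D2
  push_cast at D2
  have c0 : 0 ≤ 4 * (len p : ℝ) / n := by positivity
  have eC : (4 * CL + 4) * (len p : ℝ) / n = 4 * CL * len p / n + 2 * (2 * len p / n) := by
    ring
  rw [eC]
  simp only [Prod.fst_add, Prod.snd_add, Int.cast_add, Int.cast_one, Int.cast_zero, add_zero]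
  have hd0 : 0 ≤ 2 * (len p : ℝ) / n := by positivity
  constructor
  · have e1 : (Real.log (bc (g.1 - 1) (g.2 - 1)) - Real.log (bc n w) -
        ((p.1 : ℝ) + 1) * Real.log (lamw ((w : ℝ) / n)) -
        (p.2 : ℝ) * (Real.log (phw ((w : ℝ) / n)) - 2 * Real.log n)) -
        (Real.log (bc g.1 g.2) - Real.log (bc n w) - (p.1 : ℝ) * Real.log (lamw ((w : ℝ) / n)) -
        (p.2 : ℝ) * (Real.log (phw ((w : ℝ) / n)) - 2 * Real.log n)) =
        (Real.log (bc (g.1 - 1) (g.2 - 1)) - Real.log (bc g.1 g.2) -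
          Real.log (lamw ((g.2 : ℝ) / g.1))) +
        (Real.log (lamw ((g.2 : ℝ) / g.1)) - Real.log (lamw ((w : ℝ) / n))) := by ring
    rw [e1]
    refine (abs_add_le _ _).trans ?_
    linarith
  · have e1 : (Real.log (bc g.1 (g.2 + 2)) - Real.log (bc n w) -
        (p.1 : ℝ) * Real.log (lamw ((w : ℝ) / n)) -
        ((p.2 : ℝ) + 1) * (Real.log (phw ((w : ℝ) / n)) - 2 * Real.log n)) -
        (Real.log (bc g.1 g.2) - Real.log (bc n w) - (p.1 : ℝ) * Real.log (lamw ((w : ℝ) / n)) -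
        (p.2 : ℝ) * (Real.log (phw ((w : ℝ) / n)) - 2 * Real.log n)) =
        (2 * Real.log g.1 + Real.log (bc g.1 (g.2 + 2)) - Real.log (bc g.1 g.2) -
          Real.log (phw ((g.2 : ℝ) / g.1))) +
        (Real.log (phw ((g.2 : ℝ) / g.1)) - Real.log (phw ((w : ℝ) / n))) -
        2 * (Real.log g.1 - Real.log n) := by ring
    rw [e1]
    have t1 := abs_sub ((2 * Real.log g.1 + Real.log (bc g.1 (g.2 + 2)) - Real.log (bc g.1 g.2) -
          Real.log (phw ((g.2 : ℝ) / g.1))) +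
        (Real.log (phw ((g.2 : ℝ) / g.1)) - Real.log (phw ((w : ℝ) / n))))
        (2 * (Real.log g.1 - Real.log n))
    have t2 := abs_add_le (2 * Real.log g.1 + Real.log (bc g.1 (g.2 + 2)) - Real.log (bc g.1 g.2) -
          Real.log (phw ((g.2 : ℝ) / g.1)))
        (Real.log (phw ((g.2 : ℝ) / g.1)) - Real.log (phw ((w : ℝ) / n)))
    have t3 : |2 * (Real.log (g.1 : ℝ) - Real.log n)| = 2 * |Real.log (g.1 : ℝ) - Real.log n| := by
      rw [abs_mul, abs_two]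
    rw [t3] at t1
    linarith

theorem xd_zero {ω1 ω2 : ℝ} (h1 : 0 < ω1) (h2 : ω2 < 1) : ∃ n0 : ℕ,
    ∀ n w : ℕ, n0 ≤ n → ω1 * n ≤ w → (w : ℝ) ≤ ω2 * n → w % 2 = n % 2 →
      Xd n w 0 = 0 ∧ max |Xd n w (1, 0)| |Xd n w (0, 1)| = Dv n w := by
  obtain ⟨κ, nG, k0, k3, hnG, geo⟩ := ct_geo h1 h2
  obtain ⟨n1, hn1⟩ := exists_nat_ge (1 / κ)
  refine ⟨max nG n1, ?_⟩
  intro n w hn ha hb hp
  have hnn1 : nG ≤ n := le_trans (le_max_left _ _) hn
  have hnn3 : n1 ≤ n := le_trans (le_max_right _ _) hn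
  have hn0 : (0 : ℝ) < n := by exact_mod_cast (show 0 < n by omega)
  have hk1 : 1 ≤ κ * n := by
    have h3 : 1 / κ ≤ n := hn1.trans (by exact_mod_cast hnn3)
    rw [div_le_iff₀ k0] at h3
    linarith
  have g0 : gpt n w 0 = (n, w) := by
    unfold gpt
    apply Prod.ext
    · simp
    · simp
  obtain ⟨-, -, -, -, -, -, -, -, -, -, -, z12⟩ := geo n w hnn1 ha hb hp 0 (by
    have : len (0 : ℤ × ℤ) = 0 := rfl
    rw [this]
    push_cast
    linarith)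
  obtain ⟨-, -, -, -, -, -, -, -, -, -, -, a12⟩ := geo n w hnn1 ha hb hp (1, 0) (by
    have : len ((1, 0) : ℤ × ℤ) = 1 := rfl
    rw [this]
    push_cast
    exact hk1)
  obtain ⟨-, -, -, -, -, -, -, -, -, -, -, b12⟩ := geo n w hnn1 ha hb hp (0, 1) (by
    have : len ((0, 1) : ℤ × ℤ) = 1 := rfl
    rw [this]
    push_cast
    exact hk1)
  rw [g0] at z12
  rw [ct_g10] at a12
  rw [ct_g01] at b12
  simp only at z12 a12 b12
  unfold Xd Dv
  rw [g0, ct_g10, ct_g01]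
  simp only
  constructor
  · simp
  · rw [Real.log_div a12.ne' z12.ne', Real.log_div (mul_pos (by positivity) b12).ne' z12.ne',
      Real.log_mul (by positivity) b12.ne', Real.log_pow]
    push_cast
    congr 2
    · ring
    · ring

/-! ### the weights -/

private structure Wt (W : ℝ → ℤ × ℤ → ℝ) (lp Cb K θ : ℝ) : Prop where
  nn : ∀ ω p, 0 ≤ ω → 0 ≤ W ω p
  supp : ∀ ω p, ¬ (-1 ≤ p.1 ∧ 0 ≤ p.2) → W ω p = 0
  rat : ∀ ω ω' η p, 0 ≤ ω → 0 ≤ η → η ≤ 1 → |ω' - ω| ≤ η * ω →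
    |W ω' p - W ω p| ≤ ((1 + η) ^ (2 * p.2.toNat + 2) - 1) * W ω p
  dom : ∀ ω p, 0 ≤ ω → ω ≤ 1 → W ω p * (lp ^ p.1.toNat * Cb ^ p.2.toNat) ≤ K * θ ^ len p

private theorem ct_pw {ω ω' η : ℝ} {e m : ℕ} (h0 : 0 ≤ ω) (hη : 0 ≤ η) (hη1 : η ≤ 1)
    (h : |ω' - ω| ≤ η * ω) (hem : e ≤ m) : |ω' ^ e - ω ^ e| ≤ ((1 + η) ^ m - 1) * ω ^ e := by
  have h1 := abs_le.1 h
  have hmono : (1 + η) ^ e ≤ (1 + η) ^ m := pow_le_pow_right₀ (by linarith) hem
  have hw0 : 0 ≤ ω ^ e := pow_nonneg h0 e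
  have h2 : ω' ^ e ≤ (1 + η) ^ e * ω ^ e := by
    rw [← mul_pow]
    exact pow_le_pow_left₀ (by nlinarith) (by linarith) e
  have h3 : (1 - e * η) * ω ^ e ≤ ω' ^ e := by
    have h4 : (1 - η) ^ e * ω ^ e ≤ ω' ^ e := by
      rw [← mul_pow]
      exact pow_le_pow_left₀ (mul_nonneg (by linarith) h0) (by linarith) e
    have h5 := one_add_mul_le_pow (a := -η) (by linarith) e
    have h6 : (1 - e * η) * ω ^ e ≤ (1 - η) ^ e * ω ^ e := by
      apply mul_le_mul_of_nonneg_right _ hw0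
      have e1 : 1 - (e : ℝ) * η = 1 + e * -η := by ring
      have e2 : (1 : ℝ) - η = 1 + -η := by ring
      rw [e1, e2]
      exact h5
    linarith
  have h7 := one_add_mul_le_pow (a := η) (by linarith) e
  rw [abs_le]
  constructor
  · have : e * η * ω ^ e ≤ ((1 + η) ^ m - 1) * ω ^ e :=
      mul_le_mul_of_nonneg_right (by linarith) hw0
    nlinarith
  · have : ((1 + η) ^ e - 1) * ω ^ e ≤ ((1 + η) ^ m - 1) * ω ^ e :=
      mul_le_mul_of_nonneg_right (by linarith) hw0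
    nlinarith

private theorem ct_lin {q : ℝ} (h0 : 0 ≤ q) (h1 : q < 1) : ∃ K : ℝ, 0 < K ∧ ∀ i : ℕ,
    (3 * (i : ℝ) + 2) * q ^ i ≤ K := by
  have h2 := tendsto_self_mul_const_pow_of_lt_one h0 h1
  have h3 := tendsto_pow_atTop_nhds_zero_of_lt_one h0 h1
  have h4 : Tendsto (fun i : ℕ => 3 * ((i : ℝ) * q ^ i) + 2 * q ^ i) atTop (𝓝 (3 * 0 + 2 * 0)) :=
    (h2.const_mul 3).add (h3.const_mul 2)
  obtain ⟨B, hB⟩ := h4.bddAbove_range
  refine ⟨max B 1, lt_max_of_lt_right one_pos, fun i => le_trans (le_of_eq (by ring))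
    ((hB ⟨i, rfl⟩).trans (le_max_left _ _))⟩

private theorem ct_fac {θ c : ℝ} (h0 : 0 < θ) (hc : 0 ≤ c) (j m : ℕ) (hm : j ≤ m) :
    c ^ j / (m.factorial : ℝ) ≤ Real.exp (c / θ) * θ ^ j := by
  have h1 := Real.pow_div_factorial_le_exp (c / θ) (by positivity) j
  have h2 : c ^ j / (m.factorial : ℝ) ≤ c ^ j / (j.factorial : ℝ) := by
    apply div_le_div_of_nonneg_left (by positivity) (by positivity)
    exact_mod_cast Nat.factorial_le hm
  refine h2.trans ?_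
  have e1 : c ^ j / (j.factorial : ℝ) = (c / θ) ^ j / (j.factorial : ℝ) * θ ^ j := by
    rw [div_pow]
    field_simp
  rw [e1]
  exact mul_le_mul_of_nonneg_right h1 (by positivity)

/-- `b0 i lp^i (3i+2) ≤ K θ^i` -/
private theorem ct_b0 {lp : ℝ} (h0 : 0 < lp) (h1 : lp < lamc) : ∃ K θ : ℝ, 0 < K ∧ 0 < θ ∧ θ < 1 ∧
    ∀ i : ℕ, (3 * (i : ℝ) + 2) * b0 i * lp ^ i ≤ K * θ ^ i := by
  have hl := lamc_pos.1
  set r := lp / lamc with hr
  have hr0 : 0 < r := div_pos h0 hl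
  have hr1 : r < 1 := (div_lt_one hl).2 h1
  set θ := (1 + r) / 2 with hθ
  have hθ0 : 0 < θ := by rw [hθ]; linarith
  have hθ1 : θ < 1 := by rw [hθ]; linarith
  have hrθ : r < θ := by rw [hθ]; linarith
  obtain ⟨K, hK0, hK⟩ := ct_lin (q := r / θ) (by positivity) ((div_lt_one hθ0).2 hrθ)
  refine ⟨2 * K, θ, by linarith, hθ0, hθ1, fun i => ?_⟩
  have h2 := b0_le i
  have h3 : (3 * (i : ℝ) + 2) * b0 i * lp ^ i ≤ 2 * ((3 * (i : ℝ) + 2) * r ^ i) := by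
    have h4 : b0 i * lp ^ i ≤ 2 * r ^ i := by
      calc b0 i * lp ^ i ≤ 2 * (1 / lamc) ^ i * lp ^ i :=
            mul_le_mul_of_nonneg_right h2 (by positivity)
        _ = 2 * r ^ i := by
            rw [hr, mul_assoc, ← mul_pow]
            congr 2
            ring
    calc (3 * (i : ℝ) + 2) * b0 i * lp ^ i = (3 * (i : ℝ) + 2) * (b0 i * lp ^ i) := by ring
      _ ≤ (3 * (i : ℝ) + 2) * (2 * r ^ i) := mul_le_mul_of_nonneg_left h4 (by positivity)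
      _ = _ := by ring
  refine h3.trans ?_
  have h5 : (3 * (i : ℝ) + 2) * r ^ i = (3 * (i : ℝ) + 2) * (r / θ) ^ i * θ ^ i := by
    rw [mul_assoc, ← mul_pow, div_mul_cancel₀ _ hθ0.ne']
  rw [h5]
  have h6 := mul_le_mul_of_nonneg_right (hK i) (by positivity : 0 ≤ θ ^ i)
  linarith

private theorem ct_PS (ω x t : ℝ) (p : ℤ × ℤ) :
    PS ω x t p = PS ω 1 1 p * (x ^ p.1 * t ^ p.2.toNat) := by
  unfold PS
  by_cases h : 0 ≤ p.1 ∧ 0 ≤ p.2
  · rw [if_pos h, if_pos h]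
    have e1 : x ^ p.1 = x ^ p.1.toNat := by
      conv_lhs => rw [← Int.toNat_of_nonneg h.1]
      rw [zpow_natCast]
    rw [e1]
    by_cases h2 : p.1 = 0
    · rw [if_pos h2, if_pos h2, h2]
      simp
    · rw [if_neg h2, if_neg h2]
      by_cases h3 : p.2 = 0
      · rw [if_pos h3, if_pos h3, h3]
        simp
        ring
      · rw [if_neg h3, if_neg h3]
        simp
        ring
  · rw [if_neg h, if_neg h, zero_mul]

private theorem ct_PG (ω x t : ℝ) (p : ℤ × ℤ) :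
    PG ω x t p = PG ω 1 1 p * (x ^ p.1 * t ^ p.2.toNat) := by
  unfold PG
  by_cases h : 0 ≤ p.2
  · rw [if_pos h, if_pos h]
    by_cases h2 : p.1 = -1
    · rw [if_pos h2, if_pos h2, h2]
      simp
      ring
    · rw [if_neg h2, if_neg h2]
      by_cases h3 : 0 ≤ p.1
      · rw [if_pos h3, if_pos h3]
        have e1 : x ^ p.1 = x ^ p.1.toNat := by
          conv_lhs => rw [← Int.toNat_of_nonneg h3]
          rw [zpow_natCast]
        rw [e1]
        simp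
        ring
      · rw [if_neg h3, if_neg h3, zero_mul]
  · rw [if_neg h, if_neg h, zero_mul]

private theorem ct_th {θ : ℝ} (h0 : 0 < θ) (h1 : θ < 1) (a b : ℕ) (h : a ≤ b + 1) :
    θ ^ b ≤ 1 / θ * θ ^ a := by
  rw [one_div, inv_mul_eq_div, le_div_iff₀ h0, ← pow_succ]
  exact pow_le_pow_of_le_one h0.le h1.le h

private theorem ct_WS {lp Cb : ℝ} (h0 : 0 < lp) (h1 : lp < lamc) (hC : 0 < Cb) :
    ∃ K θ : ℝ, 0 < K ∧ 0 < θ ∧ θ < 1 ∧ Wt (fun ω p => PS ω 1 1 p) lp Cb K θ := by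
  obtain ⟨K1, θ, hK1, hθ0, hθ1, hb⟩ := ct_b0 h0 h1
  have hlp1 : lp ≤ 1 := by
    have := lamc_pos.2
    linarith
  set E := Real.exp (Cb / θ) with hE
  have hE0 : 0 < E := Real.exp_pos _
  have hE1 : 1 ≤ E := Real.one_le_exp (by positivity)
  refine ⟨E + (2 * K1 * E + 6 * K1) / θ, θ, by positivity, hθ0, hθ1, ?_, ?_, ?_, ?_⟩
  · intro ω p hω
    simp only [PS]
    have := (b0_pos (p.1.toNat - 1)).le
    split_ifs <;> positivity
  · intro ω p hp
    simp only [PS]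
    rw [if_neg]
    rintro ⟨h2, h3⟩
    exact hp ⟨by omega, h3⟩
  · intro ω ω' η p hω hη hη1 hr
    simp only [PS]
    have hb0 := (b0_pos (p.1.toNat - 1)).le
    have hp1 : 0 ≤ (1 + η) ^ (2 * p.2.toNat + 2) - 1 := by
      have := one_le_pow₀ (show (1 : ℝ) ≤ 1 + η by linarith) (n := 2 * p.2.toNat + 2)
      linarith
    have hpw := ct_pw (e := 2 * p.2.toNat + 1) (m := 2 * p.2.toNat + 2) hω hη hη1 hr (by omega)
    by_cases h : 0 ≤ p.1 ∧ 0 ≤ p.2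
    · rw [if_pos h, if_pos h]
      by_cases h2 : p.1 = 0
      · rw [if_pos h2, if_pos h2]
        have e1 : ω' ^ (2 * p.2.toNat + 1) / ((2 * p.2.toNat + 1).factorial : ℝ) * 1 ^ p.2.toNat -
            ω ^ (2 * p.2.toNat + 1) / ((2 * p.2.toNat + 1).factorial : ℝ) * 1 ^ p.2.toNat =
            (ω' ^ (2 * p.2.toNat + 1) - ω ^ (2 * p.2.toNat + 1)) *
              (1 / ((2 * p.2.toNat + 1).factorial : ℝ)) := by
          rw [one_pow]
          ring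
        rw [e1, abs_mul, abs_of_nonneg (by positivity : (0 : ℝ) ≤ 1 / ((2 * p.2.toNat + 1).factorial : ℝ))]
        refine (mul_le_mul_of_nonneg_right hpw (by positivity)).trans (le_of_eq ?_)
        rw [one_pow]
        ring
      · rw [if_neg h2, if_neg h2]
        set G : ℝ := (if p.2 = 0 then 6 * (((p.1.toNat - 1 : ℕ) : ℝ) + 2) * b0 (p.1.toNat - 1) *
          1 ^ p.1.toNat else 0) with hG
        have hG0 : 0 ≤ G := by
          rw [hG]
          split_ifs <;> positivity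
        set c : ℝ := 2 * (3 * ((p.1.toNat - 1 : ℕ) : ℝ) + 2) * b0 (p.1.toNat - 1) *
          (1 / ((2 * p.2.toNat + 1).factorial : ℝ)) with hc
        have hc0 : 0 ≤ c := by positivity
        have e2 : ∀ y : ℝ, 2 * (3 * ((p.1.toNat - 1 : ℕ) : ℝ) + 2) * b0 (p.1.toNat - 1) *
            1 ^ p.1.toNat * (y ^ (2 * p.2.toNat + 1) / ((2 * p.2.toNat + 1).factorial : ℝ)) *
            1 ^ p.2.toNat + G = c * y ^ (2 * p.2.toNat + 1) + G := by
          intro y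
          rw [hc, one_pow, one_pow]
          ring
        rw [e2, e2]
        have e1 : c * ω' ^ (2 * p.2.toNat + 1) + G - (c * ω ^ (2 * p.2.toNat + 1) + G) =
            c * (ω' ^ (2 * p.2.toNat + 1) - ω ^ (2 * p.2.toNat + 1)) := by ring
        rw [e1, abs_mul, abs_of_nonneg hc0]
        have h3 := mul_le_mul_of_nonneg_left hpw hc0
        have h4 := mul_nonneg hp1 hG0
        nlinarith
    · rw [if_neg h, if_neg h]
      simp
  · intro ω p hω hω1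
    simp only [PS]
    by_cases h : 0 ≤ p.1 ∧ 0 ≤ p.2
    · rw [if_pos h]
      obtain ⟨s, hs⟩ := Int.eq_ofNat_of_zero_le h.1
      obtain ⟨j, hj⟩ := Int.eq_ofNat_of_zero_le h.2
      have hlen : len p = s + j := by
        unfold len
        omega
      have hst : p.1.toNat = s := by omega
      have hjt : p.2.toNat = j := by omega
      rw [hlen, hst, hjt]
      have hfac : Cb ^ j / ((2 * j + 1).factorial : ℝ) ≤ E * θ ^ j :=
        ct_fac hθ0 hC.le j _ (by omega)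
      have hωe : ω ^ (2 * j + 1) ≤ 1 := pow_le_one₀ hω hω1
      by_cases h2 : p.1 = 0
      · rw [if_pos h2]
        have hs0 : s = 0 := by omega
        subst hs0
        have h5 : ω ^ (2 * j + 1) * (Cb ^ j / ((2 * j + 1).factorial : ℝ)) ≤ 1 * (E * θ ^ j) :=
          mul_le_mul hωe hfac (by positivity) zero_le_one
        have h6 : E * θ ^ j ≤ (E + (2 * K1 * E + 6 * K1) / θ) * θ ^ (0 + j) := by
          rw [zero_add]
          apply mul_le_mul_of_nonneg_right _ (by positivity)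
          have : 0 ≤ (2 * K1 * E + 6 * K1) / θ := by positivity
          linarith
        calc ω ^ (2 * j + 1) / ((2 * j + 1).factorial : ℝ) * 1 ^ j * (lp ^ 0 * Cb ^ j)
            = ω ^ (2 * j + 1) * (Cb ^ j / ((2 * j + 1).factorial : ℝ)) := by
              rw [one_pow, pow_zero]
              ring
          _ ≤ _ := by linarith
      · rw [if_neg h2]
        obtain ⟨i, rfl⟩ : ∃ i, s = i + 1 := ⟨s - 1, by omega⟩
        have hi1 : i + 1 - 1 = i := rfl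
        rw [hi1]
        have hbi := hb i
        have hb0 := (b0_pos i).le
        -- first part
        have p1 : 2 * (3 * (i : ℝ) + 2) * b0 i * 1 ^ (i + 1) *
            (ω ^ (2 * j + 1) / ((2 * j + 1).factorial : ℝ)) * 1 ^ j * (lp ^ (i + 1) * Cb ^ j) ≤
            2 * K1 * E * (θ ^ i * θ ^ j) := by
          have h5 : ω ^ (2 * j + 1) * (Cb ^ j / ((2 * j + 1).factorial : ℝ)) ≤ E * θ ^ j := by
            have := mul_le_mul hωe hfac (by positivity) zero_le_one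
            linarith
          have h6 : (3 * (i : ℝ) + 2) * b0 i * lp ^ (i + 1) ≤ K1 * θ ^ i := by
            rw [pow_succ, ← mul_assoc]
            have : 0 ≤ (3 * (i : ℝ) + 2) * b0 i * lp ^ i := by positivity
            nlinarith
          calc _ = 2 * (((3 * (i : ℝ) + 2) * b0 i * lp ^ (i + 1)) *
                (ω ^ (2 * j + 1) * (Cb ^ j / ((2 * j + 1).factorial : ℝ)))) := by
                rw [one_pow, one_pow]
                ring
            _ ≤ 2 * ((K1 * θ ^ i) * (E * θ ^ j)) := by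
                apply mul_le_mul_of_nonneg_left _ (by norm_num)
                exact mul_le_mul h6 h5 (by positivity) (by positivity)
            _ = _ := by ring
        have p2 : (if p.2 = 0 then 6 * ((i : ℝ) + 2) * b0 i * 1 ^ (i + 1) else 0) *
            (lp ^ (i + 1) * Cb ^ j) ≤ 6 * K1 * (θ ^ i * θ ^ j) := by
          split_ifs with h7
          · have hj0 : j = 0 := by omega
            subst hj0
            have h6 : ((i : ℝ) + 2) * b0 i * lp ^ (i + 1) ≤ K1 * θ ^ i := by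
              have h8 : ((i : ℝ) + 2) * (b0 i * lp ^ i) ≤ (3 * (i : ℝ) + 2) * (b0 i * lp ^ i) := by
                apply mul_le_mul_of_nonneg_right _ (by positivity)
                have : (0 : ℝ) ≤ i := Nat.cast_nonneg i
                linarith
              have h9 : ((i : ℝ) + 2) * b0 i * lp ^ (i + 1) = ((i : ℝ) + 2) * (b0 i * lp ^ i) * lp := by
                ring
              rw [h9]
              have : 0 ≤ ((i : ℝ) + 2) * (b0 i * lp ^ i) := by positivity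
              nlinarith
            rw [one_pow, pow_zero, pow_zero]
            linarith
          · rw [zero_mul]
            positivity
        have p3 : θ ^ i * θ ^ j ≤ 1 / θ * θ ^ (i + 1 + j) := by
          rw [← pow_add]
          exact ct_th hθ0 hθ1 _ _ (by omega)
        rw [add_mul]
        refine (add_le_add p1 p2).trans ?_
        have h10 : 0 ≤ 2 * K1 * E + 6 * K1 := by positivity
        have h11 := mul_le_mul_of_nonneg_left p3 h10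
        have h12 : 0 ≤ E * θ ^ (i + 1 + j) := by positivity
        calc 2 * K1 * E * (θ ^ i * θ ^ j) + 6 * K1 * (θ ^ i * θ ^ j)
            = (2 * K1 * E + 6 * K1) * (θ ^ i * θ ^ j) := by ring
          _ ≤ (2 * K1 * E + 6 * K1) * (1 / θ * θ ^ (i + 1 + j)) := h11
          _ ≤ (2 * K1 * E + 6 * K1) * (1 / θ * θ ^ (i + 1 + j)) + E * θ ^ (i + 1 + j) := by linarith
          _ = _ := by ring
    · rw [if_neg h, zero_mul]
      positivity

private theorem ct_WG {lp Cb : ℝ} (h0 : 0 < lp) (h1 : lp < lamc) (hC : 0 < Cb) :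
    ∃ K θ : ℝ, 0 < K ∧ 0 < θ ∧ θ < 1 ∧ Wt (fun ω p => PG ω 1 1 p) lp Cb K θ := by
  obtain ⟨K1, θ, hK1, hθ0, hθ1, hb⟩ := ct_b0 h0 h1
  set E := Real.exp (Cb / θ) with hE
  have hE0 : 0 < E := Real.exp_pos _
  refine ⟨2 * E / θ + 4 * K1 * E, θ, by positivity, hθ0, hθ1, ?_, ?_, ?_, ?_⟩
  · intro ω p hω
    simp only [PG]
    have := (b0_pos p.1.toNat).le
    split_ifs <;> positivity
  · intro ω p hp
    simp only [PG]
    by_cases h : 0 ≤ p.2
    · rw [if_pos h, if_neg (by rintro h2; exact hp ⟨by omega, h⟩), if_neg (by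
        intro h2
        exact hp ⟨by omega, h⟩)]
    · rw [if_neg h]
  · intro ω ω' η p hω hη hη1 hr
    simp only [PG]
    have hb0 := (b0_pos p.1.toNat).le
    have hpw := ct_pw (e := 2 * p.2.toNat + 2) (m := 2 * p.2.toNat + 2) hω hη hη1 hr le_rfl
    by_cases h : 0 ≤ p.2
    · rw [if_pos h, if_pos h]
      by_cases h2 : p.1 = -1
      · rw [if_pos h2, if_pos h2]
        have e2 : ∀ y : ℝ, 2 * (y ^ (2 * p.2.toNat + 2) / ((2 * p.2.toNat + 2).factorial : ℝ)) *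
            1 ^ p.2.toNat / 1 = 2 / ((2 * p.2.toNat + 2).factorial : ℝ) * y ^ (2 * p.2.toNat + 2) := by
          intro y
          rw [one_pow]
          ring
        rw [e2, e2, ← mul_sub, abs_mul,
          abs_of_nonneg (by positivity : (0 : ℝ) ≤ 2 / ((2 * p.2.toNat + 2).factorial : ℝ))]
        refine (mul_le_mul_of_nonneg_left hpw (by positivity)).trans (le_of_eq ?_)
        ring
      · rw [if_neg h2, if_neg h2]
        by_cases h3 : 0 ≤ p.1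
        · rw [if_pos h3, if_pos h3]
          set c : ℝ := 4 * (3 * (p.1.toNat : ℝ) + 2) * b0 p.1.toNat *
            (1 / ((2 * p.2.toNat + 2).factorial : ℝ)) with hc
          have hc0 : 0 ≤ c := by positivity
          have e2 : ∀ y : ℝ, 4 * (3 * (p.1.toNat : ℝ) + 2) * b0 p.1.toNat * 1 ^ p.1.toNat *
              (y ^ (2 * p.2.toNat + 2) / ((2 * p.2.toNat + 2).factorial : ℝ)) * 1 ^ p.2.toNat =
              c * y ^ (2 * p.2.toNat + 2) := by
            intro y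
            rw [hc, one_pow, one_pow]
            ring
          rw [e2, e2, ← mul_sub, abs_mul, abs_of_nonneg hc0]
          refine (mul_le_mul_of_nonneg_left hpw hc0).trans (le_of_eq ?_)
          ring
        · rw [if_neg h3, if_neg h3]
          simp
    · rw [if_neg h, if_neg h]
      simp
  · intro ω p hω hω1
    simp only [PG]
    by_cases h : 0 ≤ p.2
    · rw [if_pos h]
      obtain ⟨j, hj⟩ := Int.eq_ofNat_of_zero_le h
      have hjt : p.2.toNat = j := by omega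
      rw [hjt]
      have hfac : Cb ^ j / ((2 * j + 2).factorial : ℝ) ≤ E * θ ^ j :=
        ct_fac hθ0 hC.le j _ (by omega)
      have hωe : ω ^ (2 * j + 2) ≤ 1 := pow_le_one₀ hω hω1
      have h5 : ω ^ (2 * j + 2) * (Cb ^ j / ((2 * j + 2).factorial : ℝ)) ≤ E * θ ^ j := by
        have := mul_le_mul hωe hfac (by positivity) zero_le_one
        linarith
      by_cases h2 : p.1 = -1
      · rw [if_pos h2]
        have hlen : len p = 1 + j := by
          unfold len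
          omega
        have hst : p.1.toNat = 0 := by omega
        rw [hlen, hst]
        have p3 : θ ^ j ≤ 1 / θ * θ ^ (1 + j) := ct_th hθ0 hθ1 _ _ (by omega)
        have h12 : 0 ≤ 4 * K1 * E * θ ^ (1 + j) := by positivity
        calc 2 * (ω ^ (2 * j + 2) / ((2 * j + 2).factorial : ℝ)) * 1 ^ j / 1 * (lp ^ 0 * Cb ^ j)
            = 2 * (ω ^ (2 * j + 2) * (Cb ^ j / ((2 * j + 2).factorial : ℝ))) := by
              rw [one_pow, pow_zero]
              ring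
          _ ≤ 2 * (E * θ ^ j) := by linarith
          _ ≤ 2 * (E * (1 / θ * θ ^ (1 + j))) := by
              apply mul_le_mul_of_nonneg_left _ (by norm_num)
              exact mul_le_mul_of_nonneg_left p3 hE0.le
          _ ≤ 2 * (E * (1 / θ * θ ^ (1 + j))) + 4 * K1 * E * θ ^ (1 + j) := by linarith
          _ = _ := by ring
      · rw [if_neg h2]
        by_cases h3 : 0 ≤ p.1
        · rw [if_pos h3]
          obtain ⟨s, hs⟩ := Int.eq_ofNat_of_zero_le h3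
          have hst : p.1.toNat = s := by omega
          have hlen : len p = s + j := by
            unfold len
            omega
          rw [hst, hlen]
          have hbi := hb s
          have hb0 := (b0_pos s).le
          have h12 : 0 ≤ 2 * E / θ * θ ^ (s + j) := by positivity
          calc 4 * (3 * (s : ℝ) + 2) * b0 s * 1 ^ s *
              (ω ^ (2 * j + 2) / ((2 * j + 2).factorial : ℝ)) * 1 ^ j * (lp ^ s * Cb ^ j)
              = 4 * (((3 * (s : ℝ) + 2) * b0 s * lp ^ s) *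
                (ω ^ (2 * j + 2) * (Cb ^ j / ((2 * j + 2).factorial : ℝ)))) := by
                rw [one_pow, one_pow]
                ring
            _ ≤ 4 * ((K1 * θ ^ s) * (E * θ ^ j)) := by
                apply mul_le_mul_of_nonneg_left _ (by norm_num)
                exact mul_le_mul hbi h5 (by positivity) (by positivity)
            _ ≤ 4 * ((K1 * θ ^ s) * (E * θ ^ j)) + 2 * E / θ * θ ^ (s + j) := by linarith
            _ = _ := by
                rw [pow_add]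
                ring
        · rw [if_neg h3, zero_mul]
          positivity
    · rw [if_neg h, zero_mul]
      positivity

/-! ### the main comparison -/

private noncomputable def Bz (n w : ℕ) (p : ℤ × ℤ) : ℝ :=
  (n : ℝ) ^ (2 * p.2.toNat) * bc (gpt n w p).1 (gpt n w p).2 / bc n w

private theorem ct_exp {n : ℕ} {bg b2 bn l f : ℝ} (hn : 0 < (n : ℝ)) (h1 : 0 < bg) (h2 : 0 < b2)
    (hl : 0 < l) (hf : 0 < f) (a : ℤ) (s : ℤ) (s' : ℤ) (j j' : ℤ) (hj : 0 ≤ j) (e1 : s' = a + s)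
    (jj : ℤ) (e2 : j' = jj + j) :
    (l ^ s * f ^ j.toNat) * Real.exp ((Real.log b2 - Real.log bn - s' * Real.log l -
      j' * (Real.log f - 2 * Real.log n)) - (Real.log bg - Real.log bn - a * Real.log l -
      jj * (Real.log f - 2 * Real.log n))) = (n : ℝ) ^ (2 * j.toNat) * b2 / bg := by
  have c1 : l ^ s = Real.exp (s * Real.log l) := by
    rw [mul_comm, Real.exp_mul, Real.exp_log hl, Real.rpow_intCast]
  have c2 : f ^ j.toNat = Real.exp (j * Real.log f) := by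
    have hj' : (j : ℝ) = (j.toNat : ℝ) := by
      have := Int.toNat_of_nonneg hj
      exact_mod_cast this.symm
    rw [hj', Real.exp_nat_mul, Real.exp_log hf]
  have c3 : (n : ℝ) ^ (2 * j.toNat) = Real.exp (2 * j * Real.log n) := by
    have hj' : 2 * (j : ℝ) = ((2 * j.toNat : ℕ) : ℝ) := by
      have := Int.toNat_of_nonneg hj
      push_cast
      have h3 : (j : ℝ) = (j.toNat : ℝ) := by exact_mod_cast this.symm
      rw [h3]
    rw [hj', Real.exp_nat_mul, Real.exp_log hn]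
  have c4 : b2 = Real.exp (Real.log b2) := (Real.exp_log h2).symm
  have c5 : bg = Real.exp (Real.log bg) := (Real.exp_log h1).symm
  have c6 : (n : ℝ) ^ (2 * j.toNat) * b2 / bg =
      Real.exp (2 * j * Real.log n + Real.log b2 - Real.log bg) := by
    rw [Real.exp_sub, Real.exp_add, Real.exp_log h2, Real.exp_log h1, c3]
  rw [c6, c1, c2, ← Real.exp_add, ← Real.exp_add]
  congr 1
  subst e1 e2
  push_cast
  ring

private theorem ct_jlin {ϑ : ℝ} (h0 : 0 < ϑ) (h1 : ϑ < 1) : ∃ K : ℝ, 0 < K ∧ ∀ p : ℤ × ℤ,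
    ((p.2.toNat : ℝ) + 1) * (ϑ * ϑ) ^ len p ≤ K * ϑ ^ len p := by
  obtain ⟨K, hK0, hK⟩ := ct_lin h0.le h1
  refine ⟨K, hK0, fun p => ?_⟩
  have h2 : p.2.toNat ≤ len p := by
    unfold len
    omega
  have h3 : ϑ ^ len p ≤ ϑ ^ p.2.toNat := pow_le_pow_of_le_one h0.le h1.le h2
  rw [mul_pow, ← mul_assoc]
  apply mul_le_mul_of_nonneg_right _ (by positivity)
  have h4 := hK p.2.toNat
  have h5 : (0 : ℝ) ≤ p.2.toNat := Nat.cast_nonneg _
  have h6 : 0 ≤ ϑ ^ p.2.toNat := by positivity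
  calc ((p.2.toNat : ℝ) + 1) * ϑ ^ len p ≤ ((p.2.toNat : ℝ) + 1) * ϑ ^ p.2.toNat :=
        mul_le_mul_of_nonneg_left h3 (by positivity)
    _ ≤ (3 * (p.2.toNat : ℝ) + 2) * ϑ ^ p.2.toNat := mul_le_mul_of_nonneg_right (by linarith) h6
    _ ≤ K := h4

private theorem ct_small {η : ℝ} (h0 : 0 ≤ η) (m : ℕ) (h : m * η ≤ 1) :
    (1 + η) ^ m - 1 ≤ 2 * (m * η) := by
  have h1 : (1 + η) ^ m ≤ Real.exp (m * η) := by
    rw [Real.exp_nat_mul]
    apply pow_le_pow_left₀ (by linarith)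
    linarith [Real.add_one_le_exp η]
  have h2 : 0 ≤ (m : ℝ) * η := by positivity
  have h3 := Real.abs_exp_sub_one_le (x := m * η) (by rw [abs_of_nonneg h2]; exact h)
  rw [abs_of_nonneg h2] at h3
  have h4 := (abs_le.1 h3).2
  linarith

private theorem ct_Jc (n : ℕ) {n' : ℕ} (h : n' ≤ 2 * n) (hn : 1 ≤ n) : Jc n' ≤ 4 * Jc n + 4 := by
  unfold Jc
  have h1 : Nat.log 2 n' ≤ Nat.log 2 n + 1 := by
    calc Nat.log 2 n' ≤ Nat.log 2 (2 * n) := Nat.log_mono_right h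
      _ = Nat.log 2 n + 1 := by
          rw [mul_comm]
          exact Nat.log_mul_base (by norm_num) (by omega)
  have h2 : (Nat.log 2 n') ^ 2 ≤ (Nat.log 2 n + 1) ^ 2 := Nat.pow_le_pow_left h1 2
  nlinarith [sq_nonneg ((Nat.log 2 n : ℤ) - 1)]

private theorem ct_pt_both {W : ℝ → ℤ × ℤ → ℝ} {lp Cr K θ ϑ K2 : ℝ} (wt : Wt W lp Cr K θ)
    (hK : 0 < K) (hj : ∀ p : ℤ × ℤ, ((p.2.toNat : ℝ) + 1) * θ ^ len p ≤ K2 * ϑ ^ len p)
    {n c β η ω ω' ρ bz : ℝ} (hn0 : 0 < n) (hc0 : 1 ≤ c) (hβ : 1 ≤ β) (hω0 : 0 ≤ ω) (hωl : ω ≤ 1)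
    (hη0 : 0 ≤ η) (hη1 : η ≤ 1) (hωη : |ω' - ω| ≤ η * ω) (hρη : |ρ - 1| ≤ η * 1) (p : ℤ × ℤ)
    (b1 : 0 ≤ bz) (b2 : bz ≤ β * (lp ^ p.1.toNat * Cr ^ p.2.toNat))
    (b4 : ((2 * p.2.toNat + 2 : ℕ) : ℝ) * η ≤ 1)
    (b5 : ((2 * p.2.toNat + 2 : ℕ) : ℝ) * η = 2 * (((p.2.toNat : ℝ) + 1) * c / n)) :
    |W ω p * (bz * ρ ^ (2 * p.2.toNat)) - W ω' p * bz| ≤ 8 * c * β * K * K2 / n * ϑ ^ len p := by
  have hsm := ct_small hη0 _ b4
  have hWd := wt.dom ω p hω0 hωl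
  have hWn := wt.nn ω p hω0
  have hWB : W ω p * bz ≤ β * K * θ ^ len p := by
    calc W ω p * bz ≤ W ω p * (β * (lp ^ p.1.toNat * Cr ^ p.2.toNat)) :=
          mul_le_mul_of_nonneg_left b2 hWn
      _ = β * (W ω p * (lp ^ p.1.toNat * Cr ^ p.2.toNat)) := by ring
      _ ≤ β * (K * θ ^ len p) := mul_le_mul_of_nonneg_left hWd (by linarith)
      _ = _ := by ring
  have hρp : |ρ ^ (2 * p.2.toNat) - 1| ≤ (1 + η) ^ (2 * p.2.toNat + 2) - 1 := by
    have := ct_pw (ω := 1) (ω' := ρ) (e := 2 * p.2.toNat) (m := 2 * p.2.toNat + 2)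
      zero_le_one hη0 hη1 hρη (by omega)
    rwa [one_pow, mul_one] at this
  have hr := wt.rat ω ω' η p hω0 hη0 hη1 hωη
  have e1 : W ω p * (bz * ρ ^ (2 * p.2.toNat)) - W ω' p * bz =
      bz * (W ω p * (ρ ^ (2 * p.2.toNat) - 1) - (W ω' p - W ω p)) := by ring
  rw [e1, abs_mul, abs_of_nonneg b1]
  have h3 : |W ω p * (ρ ^ (2 * p.2.toNat) - 1) - (W ω' p - W ω p)| ≤
      2 * ((1 + η) ^ (2 * p.2.toNat + 2) - 1) * W ω p := by
    refine (abs_sub _ _).trans ?_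
    rw [abs_mul, abs_of_nonneg hWn]
    have := mul_le_mul_of_nonneg_left hρp hWn
    linarith
  have h4 : 2 * ((1 + η) ^ (2 * p.2.toNat + 2) - 1) ≤
      8 * (((p.2.toNat : ℝ) + 1) * c / n) := by
    rw [b5] at hsm
    linarith
  calc bz * |W ω p * (ρ ^ (2 * p.2.toNat) - 1) - (W ω' p - W ω p)|
      ≤ bz * (2 * ((1 + η) ^ (2 * p.2.toNat + 2) - 1) * W ω p) :=
        mul_le_mul_of_nonneg_left h3 b1
    _ ≤ bz * (8 * (((p.2.toNat : ℝ) + 1) * c / n) * W ω p) :=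
        mul_le_mul_of_nonneg_left (mul_le_mul_of_nonneg_right h4 hWn) b1
    _ = 8 * (((p.2.toNat : ℝ) + 1) * c / n) * (W ω p * bz) := by ring
    _ ≤ 8 * (((p.2.toNat : ℝ) + 1) * c / n) * (β * K * θ ^ len p) :=
        mul_le_mul_of_nonneg_left hWB (by positivity)
    _ = 8 * c * β * K / n * (((p.2.toNat : ℝ) + 1) * θ ^ len p) := by ring
    _ ≤ 8 * c * β * K / n * (K2 * ϑ ^ len p) :=
        mul_le_mul_of_nonneg_left (hj p) (by positivity)
    _ = 8 * c * β * K * K2 / n * ϑ ^ len p := by ring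

private theorem ct_pt_A {W : ℝ → ℤ × ℤ → ℝ} {lp Cr K θ ϑ : ℝ} (wt : Wt W lp Cr K θ)
    (hK : 0 < K) (hϑ0 : 0 < ϑ) (hϑθ : ϑ * ϑ = θ)
    {n β η ω ρ bz : ℝ} (hβ : 1 ≤ β) (hω0 : 0 ≤ ω) (hωl : ω ≤ 1)
    (hη0 : 0 ≤ η) (hη1 : η ≤ 1) (hρ0 : 0 < ρ) (hρη : |ρ - 1| ≤ η * 1) (p : ℤ × ℤ)
    (b1 : 0 ≤ bz) (b2 : bz ≤ β * (lp ^ p.1.toNat * Cr ^ p.2.toNat))
    (b4 : ((2 * p.2.toNat + 2 : ℕ) : ℝ) * η ≤ 1) (ht1 : ϑ ^ len p ≤ 4 / n) :
    |W ω p * (bz * ρ ^ (2 * p.2.toNat))| ≤ 12 * β * K / n * ϑ ^ len p := by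
  have hsm := ct_small hη0 _ b4
  have hWd := wt.dom ω p hω0 hωl
  have hWn := wt.nn ω p hω0
  have hθϑ : θ ^ len p = ϑ ^ len p * ϑ ^ len p := by rw [← hϑθ, mul_pow]
  have hWB : W ω p * bz ≤ β * K * θ ^ len p := by
    calc W ω p * bz ≤ W ω p * (β * (lp ^ p.1.toNat * Cr ^ p.2.toNat)) :=
          mul_le_mul_of_nonneg_left b2 hWn
      _ = β * (W ω p * (lp ^ p.1.toNat * Cr ^ p.2.toNat)) := by ring
      _ ≤ β * (K * θ ^ len p) := mul_le_mul_of_nonneg_left hWd (by linarith)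
      _ = _ := by ring
  have hρp : |ρ ^ (2 * p.2.toNat) - 1| ≤ (1 + η) ^ (2 * p.2.toNat + 2) - 1 := by
    have := ct_pw (ω := 1) (ω' := ρ) (e := 2 * p.2.toNat) (m := 2 * p.2.toNat + 2)
      zero_le_one hη0 hη1 hρη (by omega)
    rwa [one_pow, mul_one] at this
  have hρ3 : ρ ^ (2 * p.2.toNat) ≤ 3 := by
    have := (abs_le.1 hρp).2
    linarith
  have e0 : 0 ≤ W ω p * (bz * ρ ^ (2 * p.2.toNat)) := by positivity
  rw [abs_of_nonneg e0]
  have hθ0 : 0 < θ := by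
    rw [← hϑθ]
    positivity
  calc W ω p * (bz * ρ ^ (2 * p.2.toNat))
      = (W ω p * bz) * ρ ^ (2 * p.2.toNat) := by ring
    _ ≤ (β * K * θ ^ len p) * 3 := mul_le_mul hWB hρ3 (by positivity) (by positivity)
    _ = 3 * β * K * ϑ ^ len p * ϑ ^ len p := by rw [hθϑ]; ring
    _ ≤ 3 * β * K * (4 / n) * ϑ ^ len p := by
        apply mul_le_mul_of_nonneg_right _ (by positivity)
        exact mul_le_mul_of_nonneg_left ht1 (by positivity)
    _ = 12 * β * K / n * ϑ ^ len p := by ring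

private theorem ct_pt_B {W : ℝ → ℤ × ℤ → ℝ} {lp Cr K θ ϑ : ℝ} (wt : Wt W lp Cr K θ)
    (hK : 0 < K) (hϑ0 : 0 < ϑ) (hϑθ : ϑ * ϑ = θ)
    {n β ω' bz : ℝ} (hβ : 1 ≤ β) (hω0 : 0 ≤ ω') (hωl : ω' ≤ 1) (p : ℤ × ℤ)
    (b1 : 0 ≤ bz) (b2 : bz ≤ β * (lp ^ p.1.toNat * Cr ^ p.2.toNat)) (ht1 : ϑ ^ len p ≤ 2 / n) :
    |W ω' p * bz| ≤ 2 * β * K / n * ϑ ^ len p := by
  have hWd := wt.dom ω' p hω0 hωl
  have hWn := wt.nn ω' p hω0
  have hθϑ : θ ^ len p = ϑ ^ len p * ϑ ^ len p := by rw [← hϑθ, mul_pow]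
  rw [abs_of_nonneg (mul_nonneg hWn b1)]
  calc W ω' p * bz ≤ W ω' p * (β * (lp ^ p.1.toNat * Cr ^ p.2.toNat)) :=
        mul_le_mul_of_nonneg_left b2 hWn
    _ = β * (W ω' p * (lp ^ p.1.toNat * Cr ^ p.2.toNat)) := by ring
    _ ≤ β * (K * θ ^ len p) := mul_le_mul_of_nonneg_left hWd (by linarith)
    _ = β * K * ϑ ^ len p * ϑ ^ len p := by rw [hθϑ]; ring
    _ ≤ β * K * (2 / n) * ϑ ^ len p := by
        apply mul_le_mul_of_nonneg_right _ (by positivity)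
        exact mul_le_mul_of_nonneg_left ht1 (by positivity)
    _ = 2 * β * K / n * ϑ ^ len p := by ring

private theorem ct_Bz {lp Cr δ Cu κ β ω1 ω2 : ℝ} {nr nu : ℕ} (hlp0 : 0 < lp) (hCr : 0 < Cr)
    (hδ : 0 < δ) (hCu : 0 < Cu) (hβ : β = 1 + Cu)
    (hrb : ∀ n w s g : ℕ, nr ≤ n → ω1 * n ≤ w → (w : ℝ) ≤ ω2 * n → (s : ℝ) ≤ δ * n →
      bc (n - s) (w - s + 2 * g) ≤ lp ^ s * (Cr / (n : ℝ) ^ 2) ^ g * bc n w)
    (hup : ∀ n w : ℕ, nu ≤ n → ω1 * n ≤ w → (w : ℝ) ≤ ω2 * n → bc (n + 1) (w + 1) ≤ Cu * bc n w)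
    (g : ℕ × ℕ) (n : ℝ) (hn0 : 0 < n) (g2 : n / 2 ≤ g.1)
    (hgr : nr ≤ g.1) (hgu : nu ≤ g.1) (g6 : ω1 * g.1 ≤ g.2) (g7 : (g.2 : ℝ) ≤ ω2 * g.1)
    (m6 : ω1 * ((g.1 + 1 : ℕ) : ℝ) ≤ ((g.2 + 1 : ℕ) : ℝ))
    (m7 : ((g.2 + 1 : ℕ) : ℝ) ≤ ω2 * ((g.1 + 1 : ℕ) : ℝ)) (g12 : 0 < bc g.1 g.2)
    (hgs : ∀ s : ℕ, (s : ℝ) ≤ κ / 2 * n → s ≤ g.1 ∧ s ≤ g.2)
    (p : ℤ × ℤ) (hp1 : -1 ≤ p.1) (hp2 : 0 ≤ p.2) (hps : (p.1.toNat : ℝ) ≤ δ / 2 * n)
    (hpk : (p.1.toNat : ℝ) ≤ κ / 2 * n) :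
    0 ≤ Bz g.1 g.2 p ∧ Bz g.1 g.2 p ≤ β * (lp ^ p.1.toNat * Cr ^ p.2.toNat) := by
  have hg0 : (0 : ℝ) < g.1 := by linarith
  refine ⟨by
    unfold Bz
    have := bc_nonneg (gpt g.1 g.2 p).1 (gpt g.1 g.2 p).2
    positivity, ?_⟩
  obtain ⟨j, hj'⟩ := Int.eq_ofNat_of_zero_le hp2
  have hjt : p.2.toNat = j := by omega
  unfold Bz
  rw [div_le_iff₀ g12, hjt]
  have hcan : (g.1 : ℝ) ^ (2 * j) * (Cr / (g.1 : ℝ) ^ 2) ^ j = Cr ^ j := by
    rw [pow_mul, ← mul_pow]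
    congr 1
    field_simp
  rcases lt_or_ge p.1 0 with hneg | hpos
  · have hs : p.1 = -1 := by omega
    have hst : p.1.toNat = 0 := by omega
    have eg : gpt g.1 g.2 p = (g.1 + 1, g.2 + 1 + 2 * j) := by
      unfold gpt
      apply Prod.ext
      · simp only
        omega
      · simp only
        omega
    rw [eg, hst, pow_zero, one_mul]
    simp only
    have b1 := hrb (g.1 + 1) (g.2 + 1) 0 j (by omega) m6 m7 (by
      push_cast
      positivity)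
    rw [pow_zero, one_mul] at b1
    simp only [Nat.sub_zero] at b1
    have b2 := hup g.1 g.2 hgu g6 g7
    have b3 : (Cr / ((g.1 + 1 : ℕ) : ℝ) ^ 2) ^ j ≤ (Cr / (g.1 : ℝ) ^ 2) ^ j := by
      apply pow_le_pow_left₀ (by positivity)
      apply div_le_div_of_nonneg_left hCr.le (by positivity)
      apply pow_le_pow_left₀ hg0.le
      push_cast
      linarith
    calc (g.1 : ℝ) ^ (2 * j) * bc (g.1 + 1) (g.2 + 1 + 2 * j)
        ≤ (g.1 : ℝ) ^ (2 * j) * ((Cr / (g.1 : ℝ) ^ 2) ^ j * (Cu * bc g.1 g.2)) := by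
          apply mul_le_mul_of_nonneg_left _ (by positivity)
          refine b1.trans ?_
          exact mul_le_mul b3 b2 (bc_nonneg _ _) (by positivity)
      _ = Cr ^ j * (Cu * bc g.1 g.2) := by rw [← mul_assoc, hcan]
      _ ≤ β * Cr ^ j * bc g.1 g.2 := by
          rw [hβ]
          have : 0 ≤ Cr ^ j * bc g.1 g.2 := by positivity
          nlinarith
  · obtain ⟨s, hs⟩ := Int.eq_ofNat_of_zero_le hpos
    have hst : p.1.toNat = s := by omega
    rw [hst] at hps hpk ⊢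
    have hsn : (s : ℝ) ≤ δ * g.1 := by
      have : δ / 2 * n ≤ δ * g.1 := by nlinarith
      linarith
    have b1 := hrb g.1 g.2 s j hgr g6 g7 hsn
    have hss := hgs s hpk
    have b2 : bc (gpt g.1 g.2 p).1 (gpt g.1 g.2 p).2 ≤
        lp ^ s * (Cr / (g.1 : ℝ) ^ 2) ^ j * bc g.1 g.2 := by
      have eg : gpt g.1 g.2 p = (g.1 - s, g.2 - s + 2 * j) := by
        unfold gpt
        apply Prod.ext
        · simp only
          omega
        · simp only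
          omega
      rw [eg]
      exact b1
    calc (g.1 : ℝ) ^ (2 * j) * bc (gpt g.1 g.2 p).1 (gpt g.1 g.2 p).2
        ≤ (g.1 : ℝ) ^ (2 * j) * (lp ^ s * (Cr / (g.1 : ℝ) ^ 2) ^ j * bc g.1 g.2) :=
          mul_le_mul_of_nonneg_left b2 (by positivity)
      _ = ((g.1 : ℝ) ^ (2 * j) * (Cr / (g.1 : ℝ) ^ 2) ^ j) * (lp ^ s * bc g.1 g.2) := by ring
      _ = Cr ^ j * (lp ^ s * bc g.1 g.2) := by rw [hcan]
      _ ≤ β * (lp ^ s * Cr ^ j) * bc g.1 g.2 := by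
          have : 0 ≤ Cr ^ j * (lp ^ s * bc g.1 g.2) := by positivity
          nlinarith

private theorem ct_sumdiff (A B : Finset (ℤ × ℤ)) (F G : ℤ × ℤ → ℝ) (D ϑ Z : ℝ) (hD : 0 ≤ D)
    (hZ : ∀ F : Finset (ℤ × ℤ), ∑ p ∈ F, ϑ ^ len p ≤ Z)
    (h : ∀ p, |(if p ∈ A then F p else 0) - (if p ∈ B then G p else 0)| ≤ D * ϑ ^ len p) :
    |∑ p ∈ A, F p - ∑ p ∈ B, G p| ≤ D * Z := by
  have es : ∀ (A U : Finset (ℤ × ℤ)) (F : ℤ × ℤ → ℝ), A ⊆ U →
      ∑ p ∈ A, F p = ∑ p ∈ U, if p ∈ A then F p else 0 := by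
    intro A U F hAU
    rw [← Finset.sum_filter, Finset.filter_mem_eq_inter, Finset.inter_eq_right.2 hAU]
  rw [es A (A ∪ B) _ Finset.subset_union_left, es B (A ∪ B) _ Finset.subset_union_right,
    ← Finset.sum_sub_distrib]
  refine (Finset.abs_sum_le_sum_abs _ _).trans ?_
  refine (Finset.sum_le_sum fun p _ => h p).trans ?_
  rw [← Finset.mul_sum]
  exact mul_le_mul_of_nonneg_left (hZ _) hD

/-- smallness of the constants -/
private theorem ct_sizes {lx κ δ c ε n J J' : ℝ} (hn0 : 0 < n) (hc0 : 1 ≤ c)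
    (ε0 : 0 < ε) (k0 : 0 < κ) (hδ : 0 < δ)
    (ε1 : ε ≤ κ / 64) (ε2 : ε ≤ δ / 64) (ε3 : ε ≤ 1 / (64 * c)) (hlx0 : 0 ≤ lx)
    (hεn : lx + 8 ≤ ε * n) (hJ : J ≤ ε * n) (hJ' : J' ≤ 4 * J + 4) :
    lx ≤ κ / 4 * n ∧ lx + 1 ≤ κ * n ∧ J ≤ 5 * (ε * n) ∧ J' ≤ 5 * (ε * n) ∧ c / n ≤ 1 ∧
      5 * (ε * n) ≤ δ / 2 * n ∧ 5 * (ε * n) ≤ κ / 2 * n ∧ 11 * (ε * n) ≤ κ / 2 * n ∧
      12 * (ε * n) * c ≤ n ∧ 8 ≤ ε * n := by
  have hεκ : ε * n ≤ κ / 64 * n := mul_le_mul_of_nonneg_right ε1 hn0.le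
  have hεδ : ε * n ≤ δ / 64 * n := mul_le_mul_of_nonneg_right ε2 hn0.le
  have hεc : ε * n * (64 * c) ≤ n := by
    have h3 : ε * (64 * c) ≤ 1 := by
      have := mul_le_mul_of_nonneg_right ε3 (by positivity : 0 ≤ 64 * c)
      rwa [one_div_mul_cancel (by positivity)] at this
    nlinarith
  have h8 : 8 ≤ ε * n := by linarith
  have hεn0 : 0 < ε * n := by positivity
  have hκn : 0 < κ * n := by positivity
  have hδn : 0 < δ * n := by positivity
  refine ⟨by linarith, by linarith, by linarith, by linarith, ?_, by linarith, by linarith,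
    by linarith, ?_, h8⟩
  · rw [div_le_one hn0]
    have : 8 * (64 * c) ≤ ε * n * (64 * c) := mul_le_mul_of_nonneg_right h8 (by positivity)
    linarith
  · have : 0 ≤ ε * n * c := by positivity
    nlinarith

private theorem ct_core {ω1 ω2 : ℝ} (h1 : 0 < ω1) (h2 : ω2 < 1) (x : ℤ × ℤ) (W : ℝ → ℤ × ℤ → ℝ)
    (hW : ∀ lp Cb : ℝ, 0 < lp → lp < lamc → 0 < Cb →
      ∃ K θ : ℝ, 0 < K ∧ 0 < θ ∧ θ < 1 ∧ Wt W lp Cb K θ) :
    ∃ C : ℝ, ∃ n0 : ℕ, 0 < C ∧ ∀ n w : ℕ, n0 ≤ n → ω1 * n ≤ w → (w : ℝ) ≤ ω2 * n →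
      w % 2 = n % 2 → ∀ B : Finset (ℤ × ℤ),
      (∀ p ∈ B, -1 ≤ p.1 ∧ 0 ≤ p.2 ∧ p.1 ≤ Jc (gpt n w x).1 ∧ p.2 ≤ Jc (gpt n w x).1) →
      (∀ p : ℤ × ℤ, -1 ≤ p.1 → 0 ≤ p.2 → p ∉ B → (∀ ω, W ω p = 0) ∨ Jc (gpt n w x).1 ≤ len p) →
      |∑ p ∈ bx n, W ((w : ℝ) / n) p * (lamw ((w : ℝ) / n) ^ p.1 * phw ((w : ℝ) / n) ^ p.2.toNat) *
          Real.exp (Xd n w (x + p) - Xd n w x) -
        ∑ p ∈ B, W (((gpt n w x).2 : ℝ) / (gpt n w x).1) p *
          Bz (gpt n w x).1 (gpt n w x).2 p| ≤ C / n := by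
  obtain ⟨κ, nG, k0, k3, hnG, geo⟩ := ct_geo h1 h2
  have h1' : 0 < ω1 / 2 := by linarith
  have h2' : (1 + ω2) / 2 < 1 := by linarith
  obtain ⟨lp, Cr, δ, nr, hlp0, hlp1, hCr, hδ, hrb⟩ := rb h1' h2'
  obtain ⟨Cu, nu, hCu, hup⟩ := rb_up h1' h2'
  obtain ⟨K, θ, hK, hθ0, hθ1, wt⟩ := hW lp Cr hlp0 hlp1 hCr
  obtain ⟨ϑ, hϑ⟩ : ∃ ϑ, ϑ = Real.sqrt θ := ⟨_, rfl⟩
  have hϑ0 : 0 < ϑ := by rw [hϑ]; exact Real.sqrt_pos.2 hθ0
  have hϑ1 : ϑ < 1 := by
    rw [hϑ, Real.sqrt_lt' one_pos]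
    linarith
  have hϑθ : ϑ * ϑ = θ := by rw [hϑ]; exact Real.mul_self_sqrt hθ0.le
  obtain ⟨K2, hK2, hj⟩ := ct_jlin hϑ0 hϑ1
  rw [hϑθ] at hj
  obtain ⟨Z, hZ0, hZ⟩ := ct_sum hϑ0 hϑ1
  obtain ⟨nt, hnt⟩ := ct_tail hϑ0 hϑ1
  obtain ⟨lx, hlx⟩ : ∃ lx : ℝ, lx = (len x : ℝ) := ⟨_, rfl⟩
  have hlx0 : 0 ≤ lx := by rw [hlx]; exact Nat.cast_nonneg _
  obtain ⟨c, hc⟩ : ∃ c : ℝ, c = 4 * lx / ω1 + 2 * lx + 1 := ⟨_, rfl⟩
  have hc0 : 1 ≤ c := by
    have : 0 ≤ 4 * lx / ω1 := by positivity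
    rw [hc]
    linarith
  obtain ⟨ε, hε⟩ : ∃ ε : ℝ, ε = min (min (κ / 64) (δ / 64)) (1 / (64 * c)) := ⟨_, rfl⟩
  have ε0 : 0 < ε := by
    rw [hε]
    exact lt_min (lt_min (by linarith) (by linarith)) (by positivity)
  have ε1 : ε ≤ κ / 64 := by rw [hε]; exact (min_le_left _ _).trans (min_le_left _ _)
  have ε2 : ε ≤ δ / 64 := by rw [hε]; exact (min_le_left _ _).trans (min_le_right _ _)
  have ε3 : ε ≤ 1 / (64 * c) := by rw [hε]; exact min_le_right _ _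
  obtain ⟨nL, hnL⟩ := ct_log 2 ε0
  obtain ⟨n1, hn1⟩ := exists_nat_ge ((lx + 8) / ε)
  obtain ⟨β, hβ⟩ : ∃ β : ℝ, β = 1 + Cu := ⟨_, rfl⟩
  have hβ1 : 1 ≤ β := by rw [hβ]; linarith
  obtain ⟨Cc, hCc⟩ : ∃ Cc : ℝ, Cc = 8 * c * β * K * K2 + 12 * β * K + 2 * β * K := ⟨_, rfl⟩
  have hCc0 : 0 < Cc := by rw [hCc]; positivity
  refine ⟨Cc * Z, max nG (max (2 * nr) (max (2 * nu) (max (2 * nt) (max nL (max n1 1))))),
    by positivity, ?_⟩
  intro n w hn ha hb hp B hB1 hB2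
  simp only [max_le_iff] at hn
  obtain ⟨hn_G, hn_r, hn_u, hn_t, hn_L, hn_1, hn_0⟩ := hn
  have hn0 : (0 : ℝ) < n := by exact_mod_cast (show 0 < n by omega)
  have hεn : lx + 8 ≤ ε * n := by
    have h3 : (lx + 8) / ε ≤ n := hn1.trans (by exact_mod_cast hn_1)
    rw [div_le_iff₀ ε0] at h3
    linarith
  have hJ : (Jc n : ℝ) ≤ ε * n := by
    unfold Jc
    push_cast
    exact hnL n hn_L
  obtain ⟨z1, z2, -, -, -, -, -, -, -, -⟩ := ct_sizes (J' := 4 * (Jc n : ℝ) + 4) hn0 hc0 ε0 k0 hδ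
    ε1 ε2 ε3 hlx0 hεn hJ le_rfl
  -- the point x
  obtain ⟨g1, g2, g3, g4, g5, g6, g7, g8, g9, g10, g11, g12⟩ := geo n w hn_G ha hb hp x (by
    rw [← hlx]
    linarith)
  have hgx : ∀ p : ℤ × ℤ, (len p : ℝ) ≤ κ / 2 * n →
      0 < bc (gpt (gpt n w x).1 (gpt n w x).2 p).1 (gpt (gpt n w x).1 (gpt n w x).2 p).2 := by
    intro p hp'
    have h3 : (len (x + p) : ℝ) ≤ κ * n := by
      have h4 : len (x + p) ≤ len x + len p := by
        unfold len
        simp only [Prod.fst_add, Prod.snd_add]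
        omega
      have h5 : (len (x + p) : ℝ) ≤ lx + len p := by
        rw [hlx]
        exact_mod_cast h4
      linarith
    obtain ⟨-, -, -, -, -, -, -, -, -, -, -, q12⟩ := geo n w hn_G ha hb hp (x + p) h3
    rwa [ct_add n w x p g1] at q12
  have hgs : ∀ s : ℕ, (s : ℝ) ≤ κ / 2 * n → s ≤ (gpt n w x).1 ∧ s ≤ (gpt n w x).2 := by
    intro s hs
    have h3 : (len (x + ((s : ℤ), 0)) : ℝ) ≤ κ * n := by
      have h4 : len (x + ((s : ℤ), 0)) ≤ len x + s := by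
        unfold len
        simp only [Prod.fst_add, Prod.snd_add]
        omega
      have h5 : (len (x + ((s : ℤ), 0)) : ℝ) ≤ lx + s := by
        rw [hlx]
        exact_mod_cast h4
      linarith
    obtain ⟨q1, -, -, q4, q5, -, -, -, -, -, -, -⟩ := geo n w hn_G ha hb hp _ h3
    have e1 := q1.1
    have e2 := q1.2
    have e3 := g1.1
    have e4 := g1.2
    simp only [Prod.fst_add, Prod.snd_add] at e1 e2
    constructor <;> omega
  -- the region for (n'+1, w'+1)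
  have hm1 : (len (x + (-1, 0)) : ℝ) ≤ κ * n := by
    have h4 : len (x + (-1, 0)) ≤ len x + 1 := by
      unfold len
      simp only [Prod.fst_add, Prod.snd_add]
      omega
    have h5 : (len (x + (-1, 0)) : ℝ) ≤ lx + 1 := by
      rw [hlx]
      exact_mod_cast h4
    linarith
  obtain ⟨-, -, -, -, -, m6, m7, -, -, -, -, -⟩ := geo n w hn_G ha hb hp _ hm1
  have hxp : ∀ p, Xd n w (x + p) = Real.log (bc (gpt (gpt n w x).1 (gpt n w x).2 p).1
      (gpt (gpt n w x).1 (gpt n w x).2 p).2) - Real.log (bc n w) -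
      ((x + p).1 : ℝ) * Real.log (lamw ((w : ℝ) / n)) -
      ((x + p).2 : ℝ) * (Real.log (phw ((w : ℝ) / n)) - 2 * Real.log n) := by
    intro p
    unfold Xd
    rw [ct_add n w x p g1]
  have hx : Xd n w x = Real.log (bc (gpt n w x).1 (gpt n w x).2) - Real.log (bc n w) -
      (x.1 : ℝ) * Real.log (lamw ((w : ℝ) / n)) -
      (x.2 : ℝ) * (Real.log (phw ((w : ℝ) / n)) - 2 * Real.log n) := rfl
  have em : gpt n w (x + (-1, 0)) = ((gpt n w x).1 + 1, (gpt n w x).2 + 1) := by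
    rw [ct_add n w x _ g1]
    unfold gpt
    apply Prod.ext
    · simp only
      omega
    · simp only
      omega
  rw [em] at m6 m7
  simp only at m6 m7
  clear geo em hm1 g1
  generalize gpt n w x = g at *
  have hg0 : (0 : ℝ) < g.1 := by linarith
  have hω := ct_reg h1 h2 (n := n) (w := w) (by omega) ha hb
  have hω0 : 0 < (w : ℝ) / n := lt_of_lt_of_le h1 hω.2.1
  have hωl : (w : ℝ) / n ≤ 1 := hω.2.2.trans h2.le
  have hω' := ct_reg' (n := g.1) (w := g.2) (by omega) g6 g7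
  have hω'0 : 0 ≤ (g.2 : ℝ) / g.1 := by positivity
  have hω'1 : (g.2 : ℝ) / g.1 ≤ 1 := hω'.2.trans h2'.le
  have hlam := lamw_lt (ω := (w : ℝ) / n) hω0 (lt_of_le_of_lt hω.2.2 h2)
  have hphi := phw_pos (ω := (w : ℝ) / n) hω0 (lt_of_le_of_lt hω.2.2 h2)
  have hJ'N : Jc g.1 ≤ 4 * Jc n + 4 := ct_Jc n (by exact_mod_cast g3) (by omega)
  obtain ⟨-, -, y3, y4, y5, y6, y7, y8, y9, y10⟩ := ct_sizes (J' := (Jc g.1 : ℝ)) hn0 hc0 ε0 k0 hδ
    ε1 ε2 ε3 hlx0 hεn hJ (by exact_mod_cast hJ'N)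
  obtain ⟨η, hη⟩ : ∃ η : ℝ, η = c / n := ⟨_, rfl⟩
  rw [← hη] at y5
  have hη0 : 0 ≤ η := by rw [hη]; positivity
  have hωη : |(g.2 : ℝ) / g.1 - (w : ℝ) / n| ≤ η * ((w : ℝ) / n) := by
    refine g10.trans ?_
    rw [← hlx]
    have h3 : 4 * lx / n ≤ c / n * ω1 := by
      rw [div_mul_eq_mul_div, div_le_div_iff_of_pos_right hn0]
      have h4 : 4 * lx / ω1 * ω1 ≤ c * ω1 := by
        apply mul_le_mul_of_nonneg_right _ h1.le
        rw [hc]
        linarith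
      rwa [div_mul_cancel₀ _ h1.ne'] at h4
    refine h3.trans ?_
    rw [← hη]
    exact mul_le_mul_of_nonneg_left hω.2.1 hη0
  obtain ⟨ρ, hρ⟩ : ∃ ρ : ℝ, ρ = (n : ℝ) / g.1 := ⟨_, rfl⟩
  have hρ0 : 0 < ρ := by rw [hρ]; exact div_pos hn0 hg0
  have hρη : |ρ - 1| ≤ η * 1 := by
    have e1 : ρ - 1 = -(((g.1 : ℝ) - n) / g.1) := by
      rw [hρ]
      field_simp
      ring
    rw [e1, abs_neg, abs_div, abs_of_pos hg0, mul_one, hη, div_le_div_iff₀ hg0 hn0]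
    rw [← hlx] at g11
    have h3 : |(g.1 : ℝ) - n| * n ≤ lx * n := mul_le_mul_of_nonneg_right g11 hn0.le
    have h4 : 2 * lx ≤ c := by
      have : 0 ≤ 4 * lx / ω1 := by positivity
      rw [hc]
      linarith
    have h5 : lx * n ≤ 2 * lx * g.1 := by nlinarith
    have h6 : 2 * lx * g.1 ≤ c * g.1 := mul_le_mul_of_nonneg_right h4 hg0.le
    linarith
  have hgr : nr ≤ g.1 := by
    have h3 : (nr : ℝ) ≤ g.1 := by
      have : (2 * nr : ℝ) ≤ n := by exact_mod_cast hn_r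
      linarith
    exact_mod_cast h3
  have hgu : nu ≤ g.1 := by
    have h3 : (nu : ℝ) ≤ g.1 := by
      have : (2 * nu : ℝ) ≤ n := by exact_mod_cast hn_u
      linarith
    exact_mod_cast h3
  have hgt : nt ≤ g.1 := by
    have h3 : (nt : ℝ) ≤ g.1 := by
      have : (2 * nt : ℝ) ≤ n := by exact_mod_cast hn_t
      linarith
    exact_mod_cast h3
  have hf : ∀ p : ℤ × ℤ, 0 ≤ p.2 → (len p : ℝ) ≤ κ / 2 * n →
      (lamw ((w : ℝ) / n) ^ p.1 * phw ((w : ℝ) / n) ^ p.2.toNat) *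
        Real.exp (Xd n w (x + p) - Xd n w x) = Bz g.1 g.2 p * ρ ^ (2 * p.2.toNat) := by
    intro p hp2 hpl
    rw [hxp p, hx]
    have h3 := ct_exp (n := n) (bg := bc g.1 g.2) (b2 := bc (gpt g.1 g.2 p).1 (gpt g.1 g.2 p).2)
      (bn := bc n w) (l := lamw ((w : ℝ) / n)) (f := phw ((w : ℝ) / n)) hn0 g12 (hgx p hpl)
      hlam.1 hphi x.1 p.1 (x + p).1 p.2 (x + p).2 hp2 rfl x.2 rfl
    rw [h3]
    unfold Bz
    have h4 : (n : ℝ) ^ (2 * p.2.toNat) = (g.1 : ℝ) ^ (2 * p.2.toNat) * ρ ^ (2 * p.2.toNat) := by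
      rw [← mul_pow, hρ, mul_div_cancel₀ _ hg0.ne']
    rw [h4]
    ring
  have hrange : ∀ p : ℤ × ℤ, -1 ≤ p.1 → 0 ≤ p.2 → (p.1 : ℝ) ≤ 5 * (ε * n) →
      (p.2 : ℝ) ≤ 5 * (ε * n) →
      0 ≤ Bz g.1 g.2 p ∧ Bz g.1 g.2 p ≤ β * (lp ^ p.1.toNat * Cr ^ p.2.toNat) ∧
      (len p : ℝ) ≤ κ / 2 * n ∧ ((2 * p.2.toNat + 2 : ℕ) : ℝ) * η ≤ 1 ∧
      ((2 * p.2.toNat + 2 : ℕ) : ℝ) * η = 2 * (((p.2.toNat : ℝ) + 1) * c / n) := by
    intro p hp1 hp2 hp3 hp4
    have t1 : (p.1.toNat : ℝ) ≤ 5 * (ε * n) := by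
      rcases lt_or_ge p.1 0 with hneg | hpos
      · have : p.1.toNat = 0 := by omega
        rw [this]
        push_cast
        linarith
      · have e1 : ((p.1.toNat : ℕ) : ℝ) = p.1 := by
          have := Int.toNat_of_nonneg hpos
          exact_mod_cast this
        rw [e1]
        exact hp3
    have t2 : ((p.2.toNat : ℕ) : ℝ) = p.2 := by
      have := Int.toNat_of_nonneg hp2
      exact_mod_cast this
    have t3 : len p ≤ p.1.toNat + 1 + p.2.toNat := by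
      unfold len
      omega
    have t4 : (len p : ℝ) ≤ p.1.toNat + 1 + p.2.toNat := by exact_mod_cast t3
    have t5 : (len p : ℝ) ≤ κ / 2 * n := by
      rw [t2] at t4
      linarith
    obtain ⟨b1, b2⟩ := ct_Bz hlp0 hCr hδ hCu hβ hrb hup g n hn0 g2 hgr hgu g6 g7 m6 m7 g12 hgs p
      hp1 hp2 (by linarith) (by linarith)
    have t6 : ((2 * p.2.toNat + 2 : ℕ) : ℝ) * η = 2 * (((p.2.toNat : ℝ) + 1) * c / n) := by
      rw [hη]
      push_cast
      ring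
    refine ⟨b1, b2, t5, ?_, t6⟩
    rw [t6, t2, ← mul_div_assoc, div_le_one hn0]
    have t8 : (p.2 : ℝ) + 1 ≤ 6 * (ε * n) := by linarith
    have t9 := mul_le_mul_of_nonneg_right t8 (by linarith : 0 ≤ c)
    linarith
  have hres := ct_sumdiff (bx n) B (fun p => W ((w : ℝ) / n) p *
    (lamw ((w : ℝ) / n) ^ p.1 * phw ((w : ℝ) / n) ^ p.2.toNat) *
          Real.exp (Xd n w (x + p) - Xd n w x)) (fun p => W ((g.2 : ℝ) / g.1) p * Bz g.1 g.2 p)
    (Cc / n) ϑ Z (by positivity) hZ ?_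
  · rwa [div_mul_eq_mul_div] at hres
  intro p
  have hϑl : 0 < ϑ ^ len p := by positivity
  have hCcn : Cc / n = 8 * c * β * K * K2 / n + 12 * β * K / n + 2 * β * K / n := by
    rw [hCc]
    ring
  have T1 : 0 ≤ 8 * c * β * K * K2 / n := by positivity
  have T2 : 0 ≤ 12 * β * K / n := by positivity
  have T3 : 0 ≤ 2 * β * K / n := by positivity
  by_cases hpA : p ∈ bx n
  · have hpA' := hpA
    unfold bx at hpA'
    rw [Finset.mem_product, Finset.mem_Icc, Finset.mem_Ico] at hpA'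
    obtain ⟨⟨a1, a2⟩, a3, a4⟩ := hpA'
    have a2' : (p.1 : ℝ) ≤ 5 * (ε * n) := by
      have : (p.1 : ℝ) ≤ (Jc n : ℝ) := by exact_mod_cast a2
      linarith
    have a4' : (p.2 : ℝ) ≤ 5 * (ε * n) := by
      have : (p.2 : ℝ) ≤ (Jc n : ℝ) := by exact_mod_cast a4.le
      linarith
    obtain ⟨b1, b2, b3, b4, b5⟩ := hrange p a1 a3 a2' a4'
    rw [if_pos hpA, mul_assoc, hf p a3 b3]
    by_cases hpB : p ∈ B
    · rw [if_pos hpB]
      refine (ct_pt_both wt hK hj hn0 hc0 hβ1 hω0.le hωl hη0 y5 hωη hρη p b1 b2 b4 b5).trans ?_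
      apply mul_le_mul_of_nonneg_right _ hϑl.le
      rw [hCcn]
      linarith
    · rw [if_neg hpB, sub_zero]
      rcases hB2 p a1 a3 hpB with h3 | h3
      · rw [h3 _, zero_mul, abs_zero]
        positivity
      · have ht1 : ϑ ^ len p ≤ 4 / n := by
          refine (pow_le_pow_of_le_one hϑ0.le hϑ1.le h3).trans ?_
          refine (hnt g.1 hgt).trans ?_
          rw [div_le_div_iff₀ hg0 hn0]
          linarith
        refine (ct_pt_A wt hK hϑ0 hϑθ hβ1 hω0.le hωl hη0 y5 hρ0 hρη p b1 b2 b4 ht1).trans ?_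
        apply mul_le_mul_of_nonneg_right _ hϑl.le
        rw [hCcn]
        linarith
  · rw [if_neg hpA]
    by_cases hpB : p ∈ B
    · rw [if_pos hpB, zero_sub, abs_neg]
      obtain ⟨a1, a3, a2, a4⟩ := hB1 p hpB
      have a2' : (p.1 : ℝ) ≤ 5 * (ε * n) := by
        have : (p.1 : ℝ) ≤ (Jc g.1 : ℝ) := by exact_mod_cast a2
        linarith
      have a4' : (p.2 : ℝ) ≤ 5 * (ε * n) := by
        have : (p.2 : ℝ) ≤ (Jc g.1 : ℝ) := by exact_mod_cast a4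
        linarith
      obtain ⟨b1, b2, b3, b4, b5⟩ := hrange p a1 a3 a2' a4'
      have hlenJ : Jc n ≤ len p := by
        unfold bx at hpA
        rw [Finset.mem_product, Finset.mem_Icc, Finset.mem_Ico] at hpA
        unfold len
        by_contra hcon
        apply hpA
        refine ⟨⟨a1, by omega⟩, a3, by omega⟩
      have ht1 : ϑ ^ len p ≤ 2 / n :=
        (pow_le_pow_of_le_one hϑ0.le hϑ1.le hlenJ).trans (hnt n (by omega))
      refine (ct_pt_B wt hK hϑ0 hϑθ hβ1 hω'0 hω'1 p b1 b2 ht1).trans ?_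
      apply mul_le_mul_of_nonneg_right _ hϑl.le
      rw [hCcn]
      linarith
    · rw [if_neg hpB, sub_zero, abs_zero]
      positivity

private theorem ct_rest {ω1 ω2 : ℝ} (h1 : 0 < ω1) (h2 : ω2 < 1) (Wf : ℝ → ℤ × ℤ → ℝ) (a : ℝ)
    (hs : ∀ ω, 0 < ω → ω < 1 → HasSum (Wf ω) a)
    (hd : ∃ C θ : ℝ, 0 < C ∧ 0 < θ ∧ θ < 1 ∧ ∀ ω ∈ Set.Icc ω1 ω2, ∀ p : ℤ × ℤ,
      0 ≤ Wf ω p ∧ Wf ω p ≤ C * θ ^ (p.1.natAbs + p.2.natAbs))
    (hz : ∀ ω p, ¬ (-1 ≤ p.1 ∧ 0 ≤ p.2) → Wf ω p = 0) :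
    ∃ C : ℝ, ∃ n0 : ℕ, 0 < C ∧ ∀ n w : ℕ, n0 ≤ n → ω1 * n ≤ w → (w : ℝ) ≤ ω2 * n →
      |a - ∑ p ∈ bx n, Wf ((w : ℝ) / n) p| ≤ C / n := by
  obtain ⟨K, θ, hK, hθ0, hθ1, hdom⟩ := hd
  obtain ⟨ϑ, hϑ⟩ : ∃ ϑ, ϑ = Real.sqrt θ := ⟨_, rfl⟩
  have hϑ0 : 0 < ϑ := by rw [hϑ]; exact Real.sqrt_pos.2 hθ0
  have hϑ1 : ϑ < 1 := by
    rw [hϑ, Real.sqrt_lt' one_pos]
    linarith
  have hϑθ : ϑ * ϑ = θ := by rw [hϑ]; exact Real.mul_self_sqrt hθ0.le
  obtain ⟨Z, hZ0, hZ⟩ := ct_sum hϑ0 hϑ1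
  obtain ⟨nt, hnt⟩ := ct_tail hϑ0 hϑ1
  refine ⟨2 * K * Z, max nt 1, by positivity, ?_⟩
  intro n w hn ha hb
  have hn1 : 1 ≤ n := le_trans (le_max_right _ _) hn
  have hnt' := hnt n (le_trans (le_max_left _ _) hn)
  have hω := ct_reg h1 h2 hn1 ha hb
  have hω0 : 0 < (w : ℝ) / n := lt_of_lt_of_le h1 hω.2.1
  have hsum := hs _ hω0 (lt_of_le_of_lt hω.2.2 h2)
  have hdo := hdom _ hω.2
  have hzz := hz ((w : ℝ) / n)
  generalize Wf ((w : ℝ) / n) = f at hsum hdo hzz ⊢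
  have lo : ∑ p ∈ bx n, f p ≤ a := sum_le_hasSum _ (fun p _ => (hdo p).1) hsum
  have up : a ≤ ∑ p ∈ bx n, f p + K * (2 / n) * Z := by
    refine hasSum_le_of_sum_le hsum fun s => ?_
    have e1 : ∑ p ∈ s, f p = ∑ p ∈ s ∩ bx n, f p + ∑ p ∈ s \ bx n, f p :=
      (Finset.sum_inter_add_sum_sdiff s (bx n) f).symm
    rw [e1]
    apply add_le_add
    · exact Finset.sum_le_sum_of_subset_of_nonneg Finset.inter_subset_right fun p _ _ => (hdo p).1
    · calc ∑ p ∈ s \ bx n, f p ≤ ∑ p ∈ s \ bx n, K * (2 / n) * ϑ ^ len p := by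
            refine Finset.sum_le_sum fun p hp => ?_
            rw [Finset.mem_sdiff] at hp
            by_cases hq : -1 ≤ p.1 ∧ 0 ≤ p.2
            · have hlenJ : Jc n ≤ len p := by
                have hpA := hp.2
                unfold bx at hpA
                rw [Finset.mem_product, Finset.mem_Icc, Finset.mem_Ico] at hpA
                unfold len
                by_contra hcon
                apply hpA
                refine ⟨⟨hq.1, by omega⟩, hq.2, by omega⟩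
              have ht1 : ϑ ^ len p ≤ 2 / n :=
                (pow_le_pow_of_le_one hϑ0.le hϑ1.le hlenJ).trans hnt'
              calc f p ≤ K * θ ^ (p.1.natAbs + p.2.natAbs) := (hdo p).2
                _ = K * ϑ ^ len p * ϑ ^ len p := by
                    rw [← hϑθ, mul_pow]
                    unfold len
                    ring
                _ ≤ K * (2 / n) * ϑ ^ len p := by
                    apply mul_le_mul_of_nonneg_right _ (by positivity)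
                    exact mul_le_mul_of_nonneg_left ht1 hK.le
            · rw [hzz p hq]
              positivity
        _ = K * (2 / n) * ∑ p ∈ s \ bx n, ϑ ^ len p := by rw [Finset.mul_sum]
        _ ≤ K * (2 / n) * Z := mul_le_mul_of_nonneg_left (hZ _) (by positivity)
  have e2 : 2 * K * Z / n = K * (2 / n) * Z := by ring
  rw [e2, abs_of_nonneg (by linarith)]
  linarith

private theorem ct_BzBn {g : ℕ × ℕ} (s j : ℕ) (h : s ≤ g.1 ∧ s ≤ g.2) :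
    Bz g.1 g.2 ((s : ℤ), (j : ℤ)) = Bn g.1 g.2 s j := by
  have eg : gpt g.1 g.2 ((s : ℤ), (j : ℤ)) = (g.1 - s, g.2 - s + 2 * j) := by
    unfold gpt
    apply Prod.ext
    · simp only
      omega
    · simp only
      omega
  unfold Bz Bn
  rw [eg]
  simp only [Int.toNat_natCast]

private theorem ct_BzBu {g : ℕ × ℕ} (j : ℕ) :
    Bz g.1 g.2 ((-1 : ℤ), (j : ℤ)) = Bu g.1 g.2 j := by
  have eg : gpt g.1 g.2 ((-1 : ℤ), (j : ℤ)) = (g.1 + 1, g.2 + 1 + 2 * j) := by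
    unfold gpt
    apply Prod.ext
    · simp only
      omega
    · simp only
      omega
  unfold Bz Bu
  rw [eg]
  simp only [Int.toNat_natCast]

private theorem ct_sumS {g : ℕ × ℕ} (hJ : 1 ≤ Jc g.1) (hgs : ∀ s : ℕ, s ≤ Jc g.1 → s ≤ g.1 ∧ s ≤ g.2) :
    ∑ j ∈ Finset.range (Jc g.1),
        ((g.2 : ℝ) / g.1) ^ (2 * j + 1) / ((2 * j + 1).factorial : ℝ) * Bn g.1 g.2 0 j +
      2 * Ms 1 g.1 g.2 +
      ∑ i ∈ Finset.range (Jc g.1), 6 * ((i : ℝ) + 2) * b0 i * Bn g.1 g.2 (i + 1) 0 =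
    ∑ p ∈ (Finset.range (Jc g.1 + 1) ×ˢ Finset.range (Jc g.1)).image
      (fun q : ℕ × ℕ => ((q.1 : ℤ), (q.2 : ℤ))), PS ((g.2 : ℝ) / g.1) 1 1 p * Bz g.1 g.2 p := by
  rw [Finset.sum_image (by
    intro a _ b _ hab
    simp only [Prod.mk.injEq, Nat.cast_inj] at hab
    exact Prod.ext hab.1 hab.2), Finset.sum_product, Finset.sum_range_succ']
  have e0 : ∑ j ∈ Finset.range (Jc g.1), PS ((g.2 : ℝ) / g.1) 1 1 (((0 : ℕ) : ℤ), (j : ℤ)) *
      Bz g.1 g.2 (((0 : ℕ) : ℤ), (j : ℤ)) = ∑ j ∈ Finset.range (Jc g.1),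
        ((g.2 : ℝ) / g.1) ^ (2 * j + 1) / ((2 * j + 1).factorial : ℝ) * Bn g.1 g.2 0 j := by
    refine Finset.sum_congr rfl fun j _ => ?_
    rw [ct_BzBn 0 j ⟨by omega, by omega⟩]
    unfold PS
    simp
  have e1 : ∀ i ∈ Finset.range (Jc g.1), ∑ j ∈ Finset.range (Jc g.1),
      PS ((g.2 : ℝ) / g.1) 1 1 (((i + 1 : ℕ) : ℤ), (j : ℤ)) *
      Bz g.1 g.2 (((i + 1 : ℕ) : ℤ), (j : ℤ)) =
      2 * ∑ j ∈ Finset.range (Jc g.1), (3 * (i : ℝ) + 2) * b0 i *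
        (((g.2 : ℝ) / g.1) ^ (2 * j + 1) / ((2 * j + 1).factorial : ℝ)) * Bn g.1 g.2 (i + 2 - 1) j +
      6 * ((i : ℝ) + 2) * b0 i * Bn g.1 g.2 (i + 1) 0 := by
    intro i hi
    have hgi := hgs (i + 1) (by
      have := Finset.mem_range.1 hi
      omega)
    have e2 : ∀ j ∈ Finset.range (Jc g.1), PS ((g.2 : ℝ) / g.1) 1 1 (((i + 1 : ℕ) : ℤ), (j : ℤ)) *
      Bz g.1 g.2 (((i + 1 : ℕ) : ℤ), (j : ℤ)) = 2 * ((3 * (i : ℝ) + 2) * b0 i *
        (((g.2 : ℝ) / g.1) ^ (2 * j + 1) / ((2 * j + 1).factorial : ℝ)) * Bn g.1 g.2 (i + 2 - 1) j) +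
        (if j = 0 then 6 * ((i : ℝ) + 2) * b0 i * Bn g.1 g.2 (i + 1) 0 else 0) := by
      intro j _
      rw [ct_BzBn (i + 1) j hgi]
      have c1 : (0 : ℤ) ≤ ((i + 1 : ℕ) : ℤ) ∧ (0 : ℤ) ≤ (j : ℤ) := ⟨by omega, by omega⟩
      have c2 : ¬ (((i + 1 : ℕ) : ℤ) = 0) := by omega
      have c3 : i + 2 - 1 = i + 1 := rfl
      unfold PS
      simp only
      rw [if_pos c1, if_neg c2, c3]
      simp only [Int.toNat_natCast, one_pow, mul_one, Nat.add_sub_cancel]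
      by_cases hj0 : j = 0
      · subst hj0
        simp only [Nat.cast_zero, if_true]
        ring
      · have c4 : ¬ ((j : ℤ) = 0) := by omega
        rw [if_neg c4, if_neg hj0]
        ring
    rw [Finset.sum_congr rfl e2, Finset.sum_add_distrib, ← Finset.mul_sum, Finset.sum_ite_eq',
      if_pos (Finset.mem_range.2 hJ)]
  rw [Finset.sum_congr rfl e1, e0, Finset.sum_add_distrib, ← Finset.mul_sum]
  unfold Ms
  ring

private theorem ct_sumG {g : ℕ × ℕ} (hgs : ∀ s : ℕ, s ≤ Jc g.1 → s ≤ g.1 ∧ s ≤ g.2) :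
    2 * ∑ j ∈ Finset.range (Jc g.1),
        ((g.2 : ℝ) / g.1) ^ (2 * j + 2) / ((2 * j + 2).factorial : ℝ) * Bu g.1 g.2 j +
      4 * Ms 2 g.1 g.2 =
    ∑ p ∈ (Finset.range (Jc g.1 + 1) ×ˢ Finset.range (Jc g.1)).image
      (fun q : ℕ × ℕ => ((q.1 : ℤ) - 1, (q.2 : ℤ))), PG ((g.2 : ℝ) / g.1) 1 1 p * Bz g.1 g.2 p := by
  rw [Finset.sum_image (by
    intro a _ b _ hab
    simp only [Prod.mk.injEq, Nat.cast_inj, sub_left_inj] at hab
    exact Prod.ext hab.1 hab.2), Finset.sum_product, Finset.sum_range_succ']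
  have e0 : ∑ j ∈ Finset.range (Jc g.1), PG ((g.2 : ℝ) / g.1) 1 1 (((0 : ℕ) : ℤ) - 1, (j : ℤ)) *
      Bz g.1 g.2 (((0 : ℕ) : ℤ) - 1, (j : ℤ)) = 2 * ∑ j ∈ Finset.range (Jc g.1),
        ((g.2 : ℝ) / g.1) ^ (2 * j + 2) / ((2 * j + 2).factorial : ℝ) * Bu g.1 g.2 j := by
    rw [Finset.mul_sum]
    refine Finset.sum_congr rfl fun j _ => ?_
    have c0 : (((0 : ℕ) : ℤ) - 1, (j : ℤ)) = ((-1 : ℤ), (j : ℤ)) := by simp
    rw [c0, ct_BzBu j]
    unfold PG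
    simp
    ring
  have e1 : ∀ i ∈ Finset.range (Jc g.1), ∑ j ∈ Finset.range (Jc g.1),
      PG ((g.2 : ℝ) / g.1) 1 1 (((i + 1 : ℕ) : ℤ) - 1, (j : ℤ)) *
      Bz g.1 g.2 (((i + 1 : ℕ) : ℤ) - 1, (j : ℤ)) =
      4 * ∑ j ∈ Finset.range (Jc g.1), (3 * (i : ℝ) + 2) * b0 i *
        (((g.2 : ℝ) / g.1) ^ (2 * j + 2) / ((2 * j + 2).factorial : ℝ)) * Bn g.1 g.2 (i + 2 - 2) j := by
    intro i hi
    have hgi := hgs i (by
      have := Finset.mem_range.1 hi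
      omega)
    rw [Finset.mul_sum]
    refine Finset.sum_congr rfl fun j _ => ?_
    have c0 : (((i + 1 : ℕ) : ℤ) - 1, (j : ℤ)) = ((i : ℤ), (j : ℤ)) := by
      push_cast
      simp
    rw [c0, ct_BzBn i j hgi]
    have c1 : (0 : ℤ) ≤ (j : ℤ) := by omega
    have c2 : ¬ ((i : ℤ) = -1) := by omega
    have c3 : i + 2 - 2 = i := rfl
    have c4 : (0 : ℤ) ≤ (i : ℤ) := by omega
    unfold PG
    simp only
    rw [if_pos c1, if_neg c2, if_pos c4, c3]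
    simp only [Int.toNat_natCast, one_pow, mul_one]
    ring
  rw [Finset.sum_congr rfl e1, e0, ← Finset.mul_sum]
  unfold Ms
  ring

/-- the facts on the shifted point that are needed for the two equations -/
private theorem ct_fin {ω1 ω2 : ℝ} (h1 : 0 < ω1) (h2 : ω2 < 1) (x : ℤ × ℤ) (N : ℕ) : ∃ n0 : ℕ, 1 ≤ n0 ∧
    ∀ n w : ℕ, n0 ≤ n → ω1 * n ≤ w → (w : ℝ) ≤ ω2 * n → w % 2 = n % 2 →
      N ≤ (gpt n w x).1 ∧ (n : ℝ) / 2 ≤ (gpt n w x).1 ∧
      ω1 / 2 * (gpt n w x).1 ≤ (gpt n w x).2 ∧ ((gpt n w x).2 : ℝ) ≤ (1 + ω2) / 2 * (gpt n w x).1 ∧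
      (gpt n w x).2 % 2 = (gpt n w x).1 % 2 ∧ 1 ≤ Jc (gpt n w x).1 ∧
      ∀ s : ℕ, s ≤ Jc (gpt n w x).1 → s ≤ (gpt n w x).1 ∧ s ≤ (gpt n w x).2 := by
  obtain ⟨κ, nG, k0, k3, hnG, geo⟩ := ct_geo h1 h2
  obtain ⟨nL, hnL⟩ := ct_log 2 (ε := min (ω1 / 2) 1) (lt_min (by linarith) one_pos)
  obtain ⟨n1, hn1⟩ := exists_nat_ge ((len x : ℝ) / κ)
  refine ⟨max nG (max n1 (2 * max N nL)), le_trans hnG (le_max_left _ _), ?_⟩
  intro n w hn ha hb hp
  simp only [max_le_iff] at hn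
  obtain ⟨hn_G, hn_1, hn_N⟩ := hn
  have hlen : (len x : ℝ) ≤ κ * n := by
    have h3 : (len x : ℝ) / κ ≤ n := hn1.trans (by exact_mod_cast hn_1)
    rw [div_le_iff₀ k0] at h3
    linarith
  obtain ⟨g1, g2, g3, g4, g5, g6, g7, g8, g9, g10, g11, g12⟩ := geo n w hn_G ha hb hp x hlen
  have hNL : max N nL ≤ (gpt n w x).1 := by
    have h3 : ((max N nL : ℕ) : ℝ) ≤ (gpt n w x).1 := by
      have : ((2 * max N nL : ℕ) : ℝ) ≤ n := by exact_mod_cast hn_N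
      push_cast at this ⊢
      linarith
    exact_mod_cast h3
  have hL := hnL (gpt n w x).1 (le_trans (le_max_right _ _) hNL)
  refine ⟨le_trans (le_max_left _ _) hNL, g2, g6, g7, g9, ?_, ?_⟩
  · unfold Jc
    have h3 : 1 ≤ Nat.log 2 (gpt n w x).1 := Nat.le_log_of_pow_le (by norm_num) (by simpa using g4)
    exact Nat.one_le_pow _ _ h3
  · intro s hs
    have h3 : (s : ℝ) ≤ min (ω1 / 2) 1 * (gpt n w x).1 := by
      refine le_trans ?_ hL
      have : (s : ℝ) ≤ (Jc (gpt n w x).1 : ℝ) := by exact_mod_cast hs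
      refine this.trans (le_of_eq ?_)
      unfold Jc
      push_cast
      rfl
    have hg0 : (0 : ℝ) ≤ (gpt n w x).1 := Nat.cast_nonneg _
    constructor
    · have h4 : min (ω1 / 2) 1 * ((gpt n w x).1 : ℝ) ≤ 1 * (gpt n w x).1 :=
        mul_le_mul_of_nonneg_right (min_le_right _ _) hg0
      have h5 : (s : ℝ) ≤ (gpt n w x).1 := by linarith
      exact_mod_cast h5
    · have h4 : min (ω1 / 2) 1 * ((gpt n w x).1 : ℝ) ≤ ω1 / 2 * (gpt n w x).1 :=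
        mul_le_mul_of_nonneg_right (min_le_left _ _) hg0
      have h5 : (s : ℝ) ≤ (gpt n w x).2 := by linarith
      exact_mod_cast h5

theorem xd_eq1 {ω1 ω2 : ℝ} (h1 : 0 < ω1) (h2 : ω2 < 1) (x : ℤ × ℤ) : ∃ C : ℝ, ∃ n0 : ℕ, 0 < C ∧
    ∀ n w : ℕ, n0 ≤ n → ω1 * n ≤ w → (w : ℝ) ≤ ω2 * n → w % 2 = n % 2 →
      |∑ p ∈ bx n, PS ((w : ℝ) / n) (lamw ((w : ℝ) / n)) (phw ((w : ℝ) / n)) p *
        (Real.exp (Xd n w (x + p) - Xd n w x) - 1)| ≤ C / n := by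
  obtain ⟨C0, n0, hC0, hcore⟩ := ct_core h1 h2 x (fun ω p => PS ω 1 1 p)
    (fun lp Cb a b c => ct_WS a b c)
  obtain ⟨Cs, ns, hCs, hsef⟩ := SEF (ω1 := ω1 / 2) (ω2 := (1 + ω2) / 2) (by linarith) (by linarith)
  obtain ⟨Cr, nr, hCr, hrest⟩ := ct_rest h1 h2 (fun ω p => PS ω (lamw ω) (phw ω) p) 3
    (fun ω a b => PS_sum a b) (by
      obtain ⟨C, θ, q1, q2, q3, q4⟩ := PSG_dom h1 h2
      exact ⟨C, θ, q1, q2, q3, fun ω hω p => (q4 ω hω p).1⟩) (fun ω p hp => by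
      simp only [PS]
      rw [if_neg]
      rintro ⟨a, b⟩
      exact hp ⟨by omega, b⟩)
  obtain ⟨nf, hnf, hfin⟩ := ct_fin h1 h2 x ns
  refine ⟨C0 + 2 * Cs + Cr, max n0 (max nr nf), by linarith, ?_⟩
  intro n w hn ha hb hp
  simp only [max_le_iff] at hn
  obtain ⟨hn_0, hn_r, hn_f⟩ := hn
  have hn0 : (0 : ℝ) < n := by exact_mod_cast (show 0 < n by omega)
  obtain ⟨f1, f2, f3, f4, f5, f6, f7⟩ := hfin n w hn_f ha hb hp
  have hc := hcore n w hn_0 ha hb hp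
    ((Finset.range (Jc (gpt n w x).1 + 1) ×ˢ Finset.range (Jc (gpt n w x).1)).image
      (fun q : ℕ × ℕ => ((q.1 : ℤ), (q.2 : ℤ)))) (by
      intro p hpm
      rw [Finset.mem_image] at hpm
      obtain ⟨q, hq, rfl⟩ := hpm
      rw [Finset.mem_product, Finset.mem_range, Finset.mem_range] at hq
      simp only
      omega) (by
      intro p hp1 hp2 hpm
      by_cases hp0 : p.1 = -1
      · left
        intro ω
        simp only [PS]
        rw [if_neg]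
        rintro ⟨a, b⟩
        omega
      · right
        by_contra hcon
        unfold len at hcon
        apply hpm
        rw [Finset.mem_image]
        refine ⟨(p.1.toNat, p.2.toNat), ?_, ?_⟩
        · rw [Finset.mem_product, Finset.mem_range, Finset.mem_range]
          simp only
          omega
        · apply Prod.ext
          · simp only
            omega
          · simp only
            omega)
  have hs := hsef (gpt n w x).1 (gpt n w x).2 f1 f3 f4 f5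
  rw [ct_sumS f6 f7] at hs
  have hr := hrest n w hn_r ha hb
  beta_reduce at hc hr
  set S' := ∑ p ∈ (Finset.range (Jc (gpt n w x).1 + 1) ×ˢ Finset.range (Jc (gpt n w x).1)).image
      (fun q : ℕ × ℕ => ((q.1 : ℤ), (q.2 : ℤ))),
      PS (((gpt n w x).2 : ℝ) / (gpt n w x).1) 1 1 p * Bz (gpt n w x).1 (gpt n w x).2 p with hS'
  have e1 : ∑ p ∈ bx n, PS ((w : ℝ) / n) (lamw ((w : ℝ) / n)) (phw ((w : ℝ) / n)) p *
        (Real.exp (Xd n w (x + p) - Xd n w x) - 1) =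
      ∑ p ∈ bx n, PS ((w : ℝ) / n) 1 1 p *
          (lamw ((w : ℝ) / n) ^ p.1 * phw ((w : ℝ) / n) ^ p.2.toNat) *
          Real.exp (Xd n w (x + p) - Xd n w x) -
      ∑ p ∈ bx n, PS ((w : ℝ) / n) (lamw ((w : ℝ) / n)) (phw ((w : ℝ) / n)) p := by
    rw [← Finset.sum_sub_distrib]
    refine Finset.sum_congr rfl fun p _ => ?_
    rw [← ct_PS ((w : ℝ) / n) (lamw ((w : ℝ) / n)) (phw ((w : ℝ) / n)) p]
    ring
  rw [e1]
  set T := ∑ p ∈ bx n, PS ((w : ℝ) / n) 1 1 p *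
          (lamw ((w : ℝ) / n) ^ p.1 * phw ((w : ℝ) / n) ^ p.2.toNat) *
          Real.exp (Xd n w (x + p) - Xd n w x) with hT
  have hs' : Cs / ((gpt n w x).1 : ℝ) ≤ 2 * Cs / n := by
    rw [div_le_div_iff₀ (by linarith) hn0]
    nlinarith
  have a1 := abs_le.1 hc
  have a2 := abs_le.1 (hs.trans hs')
  have a3 := abs_le.1 hr
  have e2 : (C0 + 2 * Cs + Cr) / n = C0 / n + 2 * Cs / n + Cr / n := by ring
  rw [e2, abs_le]
  constructor <;> linarith [a1.1, a1.2, a2.1, a2.2, a3.1, a3.2]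

theorem xd_eq2 {ω1 ω2 : ℝ} (h1 : 0 < ω1) (h2 : ω2 < 1) (x : ℤ × ℤ) : ∃ C : ℝ, ∃ n0 : ℕ, 0 < C ∧
    ∀ n w : ℕ, n0 ≤ n → ω1 * n ≤ w → (w : ℝ) ≤ ω2 * n → w % 2 = n % 2 →
      |∑ p ∈ bx n, PG ((w : ℝ) / n) (lamw ((w : ℝ) / n)) (phw ((w : ℝ) / n)) p *
        (Real.exp (Xd n w (x + p) - Xd n w x) - 1)| ≤ C / n := by
  obtain ⟨C0, n0, hC0, hcore⟩ := ct_core h1 h2 x (fun ω p => PG ω 1 1 p)
    (fun lp Cb a b c => ct_WG a b c)
  obtain ⟨Cs, ns, hCs, hsef⟩ := GJF (ω1 := ω1 / 2) (ω2 := (1 + ω2) / 2) (by linarith) (by linarith)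
  obtain ⟨Cr, nr, hCr, hrest⟩ := ct_rest h1 h2 (fun ω p => PG ω (lamw ω) (phw ω) p) 36
    (fun ω a b => PG_sum a b) (by
      obtain ⟨C, θ, q1, q2, q3, q4⟩ := PSG_dom h1 h2
      exact ⟨C, θ, q1, q2, q3, fun ω hω p => (q4 ω hω p).2⟩) (fun ω p hp => by
      simp only [PG]
      by_cases h : 0 ≤ p.2
      · rw [if_pos h, if_neg (by rintro h2; exact hp ⟨by omega, h⟩), if_neg (by
          intro h2
          exact hp ⟨by omega, h⟩)]
      · rw [if_neg h])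
  obtain ⟨nf, hnf, hfin⟩ := ct_fin h1 h2 x ns
  refine ⟨C0 + 2 * Cs + Cr, max n0 (max nr nf), by linarith, ?_⟩
  intro n w hn ha hb hp
  simp only [max_le_iff] at hn
  obtain ⟨hn_0, hn_r, hn_f⟩ := hn
  have hn0 : (0 : ℝ) < n := by exact_mod_cast (show 0 < n by omega)
  obtain ⟨f1, f2, f3, f4, f5, f6, f7⟩ := hfin n w hn_f ha hb hp
  have hc := hcore n w hn_0 ha hb hp
    ((Finset.range (Jc (gpt n w x).1 + 1) ×ˢ Finset.range (Jc (gpt n w x).1)).image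
      (fun q : ℕ × ℕ => ((q.1 : ℤ) - 1, (q.2 : ℤ)))) (by
      intro p hpm
      rw [Finset.mem_image] at hpm
      obtain ⟨q, hq, rfl⟩ := hpm
      rw [Finset.mem_product, Finset.mem_range, Finset.mem_range] at hq
      simp only
      omega) (by
      intro p hp1 hp2 hpm
      right
      by_contra hcon
      unfold len at hcon
      apply hpm
      rw [Finset.mem_image]
      refine ⟨((p.1 + 1).toNat, p.2.toNat), ?_, ?_⟩
      · rw [Finset.mem_product, Finset.mem_range, Finset.mem_range]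
        simp only
        omega
      · apply Prod.ext
        · simp only
          omega
        · simp only
          omega)
  have hs := hsef (gpt n w x).1 (gpt n w x).2 f1 f3 f4 f5
  rw [ct_sumG f7] at hs
  have hr := hrest n w hn_r ha hb
  beta_reduce at hc hr
  set S' := ∑ p ∈ (Finset.range (Jc (gpt n w x).1 + 1) ×ˢ Finset.range (Jc (gpt n w x).1)).image
      (fun q : ℕ × ℕ => ((q.1 : ℤ) - 1, (q.2 : ℤ))),
      PG (((gpt n w x).2 : ℝ) / (gpt n w x).1) 1 1 p * Bz (gpt n w x).1 (gpt n w x).2 p with hS'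
  have e1 : ∑ p ∈ bx n, PG ((w : ℝ) / n) (lamw ((w : ℝ) / n)) (phw ((w : ℝ) / n)) p *
        (Real.exp (Xd n w (x + p) - Xd n w x) - 1) =
      ∑ p ∈ bx n, PG ((w : ℝ) / n) 1 1 p *
          (lamw ((w : ℝ) / n) ^ p.1 * phw ((w : ℝ) / n) ^ p.2.toNat) *
          Real.exp (Xd n w (x + p) - Xd n w x) -
      ∑ p ∈ bx n, PG ((w : ℝ) / n) (lamw ((w : ℝ) / n)) (phw ((w : ℝ) / n)) p := by
    rw [← Finset.sum_sub_distrib]
    refine Finset.sum_congr rfl fun p _ => ?_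
    rw [← ct_PG ((w : ℝ) / n) (lamw ((w : ℝ) / n)) (phw ((w : ℝ) / n)) p]
    ring
  rw [e1]
  set T := ∑ p ∈ bx n, PG ((w : ℝ) / n) 1 1 p *
          (lamw ((w : ℝ) / n) ^ p.1 * phw ((w : ℝ) / n) ^ p.2.toNat) *
          Real.exp (Xd n w (x + p) - Xd n w x) with hT
  have hs' : Cs / ((gpt n w x).1 : ℝ) ≤ 2 * Cs / n := by
    rw [div_le_div_iff₀ (by linarith) hn0]
    nlinarith
  have a1 := abs_le.1 hc
  have a2 := abs_le.1 (hs.trans hs')
  have a3 := abs_le.1 hr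
  have e2 : (C0 + 2 * Cs + Cr) / n = C0 / n + 2 * Cs / n + Cr / n := by ring
  rw [e2, abs_le]
  constructor <;> linarith [a1.1, a1.2, a2.1, a2.2, a3.1, a3.2]

end UN39
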