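import Mathlib
import Pool.Agent.H39.UN.PlGb
import Pool.Agent.H39.UN.PlG
import Pool.Agent.H39.UN.RhoA
import Pool.Agent.H39.UP.Phi
import Pool.Agent.H39.UP.Trs

/-!
[H39 UP TRV]  (MP_bcc40c_pr)  The drifts of the two walks are linearly independent.

Notation: `h = thw ω`, `u = √(1-4h) ∈ (0,1)`, `A = √(1+8h) = Aof λ`, `λ = lamw ω = h/A^3`, `φ = phw ω`, `s = √φ = u A^2/(6h)`, `y = ω s = log((1+u)/(1-u))`,
`cosh y = (1+u^2)/(1-u^2)`, `sinh y = 2u/(1-u^2)`, `L = (A^2-1)/(3-A^2) = (1-u^2)/u^2`, `Y = y/u`.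
PROOF.  The four drifts (all sums converge absolutely by PSG_dom):
 `S1 = ∑' PS p * p.1 = 6 L/A`: `∑_i 2(3i+2)(i+1) b0 i λ^(i+1) * (3/A^2) + ∑ 6(i+2)(i+1) b0 i λ^(i+1) = A L * 3/A^2 + 3L/A` (derA: `A L`, derG: `3L/A`).
 `J1 = ∑' PS p * p.2 = A * ∑_j j ω^(2j+1) φ^j/(2j+1)! = (A/2) (ω cosh y - sinh y/s)`
    `= (3/(2A)) (Y (1+u^2)/2 - 1)`.
 `S2 = ∑' PG p * p.1 = 36 (L - 1)`: `(-1/λ + 2 ∑ (3i+2) i b0 i λ^i) * 2 (cosh y - 1)/φ`, where `2 ∑ (3i+2) i b0 i λ^(i+1) = A L - (A - 1)` and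
    `2 (cosh y - 1)/φ = 36 λ/A`; total `(36/A) (-1 + A L - A + 1)`.
 `J2 = ∑' PG p * p.2 = (A/λ) ∑_j 2 j ω^(2j+2) φ^j/(2j+2)! = (A/λ) (y sinh y/φ - 2 (cosh y - 1)/φ) = 18 (Y - 2)`.
    (here `∑_j 2 j ω^(2j+2) φ^j/(2j+2)!`: with `2j = (2j+2) - 2`, `= ω sinh y/s - 2 (cosh y - 1)/φ`; and `(A/λ) ω sinh y/s = 18 Y`, `(A/λ) 2 (cosh y - 1)/φ = 36`.)
 Determinant `S1 J2 - J1 S2 = (54/(A u^2)) [Y (3/2 - 3u^2/2 + u^4) - 3 + 2u^2]`, and by h58_log_ge `Y > 2 + 2u^2/3`, so the bracket is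
 `> (2 + 2u^2/3)(3/2 - 3u^2/2 + u^4) - 3 + 2u^2 = u^4 + 2u^6/3 > 0`.
 So `a S1 + b J1 = 0 = a S2 + b J2` implies `a = b = 0`.
-/

set_option autoImplicit false

namespace UN39

private theorem tv_prod {f g : ℕ → ℝ} {s t : ℝ} (hf : HasSum f s) (hg : HasSum g t) (f0 : ∀ i, 0 ≤ f i)
    (g0 : ∀ j, 0 ≤ g j) : HasSum (fun p : ℕ × ℕ => f p.1 * g p.2) (s * t) :=
  hf.mul hg (hf.summable.mul_of_nonneg hg.summable f0 g0)

/-- the parameters at `ω` -/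
private theorem tv_data {ω : ℝ} (h0 : 0 < ω) (h1 : ω < 1) : ∃ u A s y : ℝ, 0 < u ∧ u < 1 ∧ 0 < A ∧ 0 < s ∧
    A ^ 2 = 3 - 2 * u ^ 2 ∧ Aof (lamw ω) = A ∧ lamw ω = (1 - u ^ 2) / (4 * A ^ 3) ∧ phw ω = s ^ 2 ∧
    s = 2 * u * A ^ 2 / (3 * (1 - u ^ 2)) ∧ y = ω * s ∧ y = Real.log ((1 + u) / (1 - u)) := by
  obtain ⟨t0, t1, t2, -⟩ := thw_spec h0 h1
  obtain ⟨l0, l1, l2, -⟩ := lam_facts t0 t1
  have um := h58_u_mem ⟨t0, t1⟩
  have us := h58_sq (h := thw ω) t1.le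
  obtain ⟨h, hh⟩ : ∃ h, h = thw ω := ⟨_, rfl⟩
  obtain ⟨u, hu⟩ : ∃ u, u = Real.sqrt (1 - 4 * thw ω) := ⟨_, rfl⟩
  obtain ⟨A, hA⟩ : ∃ A, A = Real.sqrt (1 + 8 * thw ω) := ⟨_, rfl⟩
  have hA0 : 0 < A := by rw [hA]; exact Real.sqrt_pos.2 (by linarith)
  have hA2 : A ^ 2 = 1 + 8 * thw ω := by rw [hA]; exact Real.sq_sqrt (by linarith)
  have hphw : phw ω = (u * (1 + 8 * thw ω) / (6 * thw ω)) ^ 2 := by unfold phw; rw [← hu]
  have hdl : dl (thw ω) = thw ω / ((1 + 8 * thw ω) * u) * Real.log ((1 + u) / (1 - u)) := by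
    unfold dl; rw [← hu]
  rw [← hu] at um us
  have l2' : Aof (lamw ω) = A := by unfold lamw; rw [l2, hA]
  have hx : 8 * lamw ω * A ^ 3 = A ^ 2 - 1 := by
    have h3 := A_eq (x := lamw ω) l0.le (sum_P l0.le l1.le)
    rw [l2'] at h3
    linarith
  have hhu : thw ω = (1 - u ^ 2) / 4 := by rw [us]; ring
  have hu2 : 0 < 1 - u ^ 2 := by nlinarith [um.1, um.2]
  have hAu : A ^ 2 = 3 - 2 * u ^ 2 := by rw [hA2, hhu]; ring
  refine ⟨u, A, u * (1 + 8 * thw ω) / (6 * thw ω), ω * (u * (1 + 8 * thw ω) / (6 * thw ω)), um.1, um.2, hA0, ?_, hAu, l2',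
    ?_, hphw, ?_, rfl, ?_⟩
  · have := um.1
    positivity
  · rw [eq_div_iff (by positivity)]
    have : 2 * (lamw ω * (4 * A ^ 3)) = 2 * (1 - u ^ 2) := by
      calc 2 * (lamw ω * (4 * A ^ 3)) = 8 * lamw ω * A ^ 3 := by ring
        _ = A ^ 2 - 1 := hx
        _ = 2 * (1 - u ^ 2) := by rw [hAu]; ring
    linarith
  · rw [← hA2, hhu]
    field_simp
    ring
  · have h3 := um.1.ne'
    have h4 := t0.ne'
    have h5 : 1 + 8 * thw ω ≠ 0 := by positivity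
    have h6 : ω = 6 * (thw ω / ((1 + 8 * thw ω) * u) * Real.log ((1 + u) / (1 - u))) := by rw [← hdl, t2]
    clear hdl hx l2' hphw hA2 hA l0 l1 l2 t2 hh hu us hhu
    generalize thw ω = θ at *
    rw [h6]
    field_simp

private theorem tv_exp {u y : ℝ} (h0 : 0 < u) (h1 : u < 1) (hy : y = Real.log ((1 + u) / (1 - u))) :
    Real.cosh y = (1 + u ^ 2) / (1 - u ^ 2) ∧ Real.sinh y = 2 * u / (1 - u ^ 2) := by
  have ha : 0 < 1 + u := by linarith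
  have hb : 0 < 1 - u := by linarith
  have e1 : Real.exp y = (1 + u) / (1 - u) := by rw [hy, Real.exp_log (div_pos ha hb)]
  have e2 : Real.exp (-y) = (1 - u) / (1 + u) := by rw [Real.exp_neg, e1, inv_div]
  have hc : (1 - u ^ 2) = (1 + u) * (1 - u) := by ring
  rw [Real.cosh_eq, Real.sinh_eq, e1, e2, hc]
  constructor
  · field_simp
    ring
  · field_simp
    ring

private theorem tv_W {ω s y : ℝ} (hs : 0 < s) (hy : y = ω * s) :
    HasSum (fun j : ℕ => ω ^ (2 * j + 1) / ((2 * j + 1).factorial : ℝ) * (s ^ 2) ^ j) (Real.sinh y / s) ∧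
    HasSum (fun j : ℕ => (j : ℝ) * (ω ^ (2 * j + 1) / ((2 * j + 1).factorial : ℝ) * (s ^ 2) ^ j))
      ((ω * Real.cosh y - Real.sinh y / s) / 2) := by
  have h1 : HasSum (fun j : ℕ => ω ^ (2 * j + 1) / ((2 * j + 1).factorial : ℝ) * (s ^ 2) ^ j) (Real.sinh y / s) := by
    have h := (Real.hasSum_sinh y).div_const s
    have e : (fun j : ℕ => ω ^ (2 * j + 1) / ((2 * j + 1).factorial : ℝ) * (s ^ 2) ^ j) =
        fun j : ℕ => y ^ (2 * j + 1) / ((2 * j + 1).factorial : ℝ) / s := by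
      funext j
      rw [hy, mul_pow, ← pow_mul, pow_succ s (2 * j)]
      have := hs.ne'
      field_simp
    rw [e]
    exact h
  refine ⟨h1, ?_⟩
  have h2 := ((Real.hasSum_cosh y).mul_left ω).sub h1
  have h3 := h2.div_const 2
  have e : (fun j : ℕ => (j : ℝ) * (ω ^ (2 * j + 1) / ((2 * j + 1).factorial : ℝ) * (s ^ 2) ^ j)) =
      fun j : ℕ => (ω * (y ^ (2 * j) / ((2 * j).factorial : ℝ)) -
        ω ^ (2 * j + 1) / ((2 * j + 1).factorial : ℝ) * (s ^ 2) ^ j) / 2 := by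
    funext j
    rw [hy, mul_pow, ← pow_mul, pow_succ ω (2 * j), Nat.factorial_succ]
    have f1 : (((2 * j).factorial : ℕ) : ℝ) ≠ 0 := by positivity
    have f2 : (2 * (j : ℝ) + 1) ≠ 0 := by positivity
    push_cast
    field_simp
    ring
  rw [e]
  exact h3

private theorem tv_V {ω s y : ℝ} (hs : 0 < s) (hy : y = ω * s) :
    HasSum (fun j : ℕ => ω ^ (2 * j + 2) / ((2 * j + 2).factorial : ℝ) * (s ^ 2) ^ j) ((Real.cosh y - 1) / s ^ 2) ∧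
    HasSum (fun j : ℕ => (j : ℝ) * (ω ^ (2 * j + 2) / ((2 * j + 2).factorial : ℝ) * (s ^ 2) ^ j))
      ((y * Real.sinh y / s ^ 2 - 2 * ((Real.cosh y - 1) / s ^ 2)) / 2) := by
  have h1 : HasSum (fun j : ℕ => ω ^ (2 * j + 2) / ((2 * j + 2).factorial : ℝ) * (s ^ 2) ^ j) ((Real.cosh y - 1) / s ^ 2) := by
    have h0 := (hasSum_nat_add_iff' 1).2 (Real.hasSum_cosh y)
    rw [Finset.sum_range_one] at h0
    norm_num at h0
    have h := h0.div_const (s ^ 2)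
    have e : (fun j : ℕ => ω ^ (2 * j + 2) / ((2 * j + 2).factorial : ℝ) * (s ^ 2) ^ j) =
        fun j : ℕ => y ^ (2 * (j + 1)) / ((2 * (j + 1)).factorial : ℝ) / s ^ 2 := by
      funext j
      rw [hy, mul_pow, ← pow_mul, show 2 * (j + 1) = 2 * j + 2 by ring, pow_add s (2 * j) 2]
      have := hs.ne'
      field_simp
    rw [e]
    exact h
  refine ⟨h1, ?_⟩
  have h2 := ((Real.hasSum_sinh y).mul_left (y / s ^ 2)).sub (h1.mul_left 2)
  have h3 := h2.div_const 2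
  have hval : (y / s ^ 2 * Real.sinh y - 2 * ((Real.cosh y - 1) / s ^ 2)) / 2 =
      (y * Real.sinh y / s ^ 2 - 2 * ((Real.cosh y - 1) / s ^ 2)) / 2 := by ring
  rw [hval] at h3
  have e : (fun j : ℕ => (j : ℝ) * (ω ^ (2 * j + 2) / ((2 * j + 2).factorial : ℝ) * (s ^ 2) ^ j)) =
      fun j : ℕ => (y / s ^ 2 * (y ^ (2 * j + 1) / ((2 * j + 1).factorial : ℝ)) -
        2 * (ω ^ (2 * j + 2) / ((2 * j + 2).factorial : ℝ) * (s ^ 2) ^ j)) / 2 := by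
    funext j
    have hs' := hs.ne'
    rw [show 2 * j + 2 = (2 * j + 1) + 1 by ring, Nat.factorial_succ (2 * j + 1), pow_succ ω (2 * j + 1)]
    have e2 : y / s ^ 2 * (y ^ (2 * j + 1) / ((2 * j + 1).factorial : ℝ)) =
        ω * ω ^ (2 * j + 1) * (s ^ 2) ^ j / ((2 * j + 1).factorial : ℝ) := by
      rw [hy, mul_pow, ← pow_mul, pow_succ s (2 * j)]
      field_simp
    rw [e2]
    have f1 : (((2 * j + 1).factorial : ℕ) : ℝ) ≠ 0 := by positivity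
    have f2 : (2 * (j : ℝ) + 1 + 1) ≠ 0 := by positivity
    push_cast
    field_simp
    ring
  rw [e]
  exact h3

/-- first factor of the weights -/
private noncomputable def tvA (x : ℝ) (i : ℕ) : ℝ :=
  if i = 0 then 1 else 2 * (3 * ((i - 1 : ℕ) : ℝ) + 2) * b0 (i - 1) * x ^ i

private noncomputable def tvB (x : ℝ) (i : ℕ) : ℝ :=
  if i = 0 then 0 else 6 * (((i - 1 : ℕ) : ℝ) + 2) * b0 (i - 1) * x ^ i

private theorem tvA_nn {x : ℝ} (hx : 0 ≤ x) (i : ℕ) : 0 ≤ tvA x i := by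
  unfold tvA
  have := (b0_pos (i - 1)).le
  split_ifs
  · norm_num
  · positivity

private theorem tvB_nn {x : ℝ} (hx : 0 ≤ x) (i : ℕ) : 0 ≤ tvB x i := by
  unfold tvB
  have := (b0_pos (i - 1)).le
  split_ifs
  · norm_num
  · positivity

private theorem tvA_sum {x : ℝ} (h0 : 0 < x) (h1 : x < lamc) : HasSum (tvA x) (Aof x) := by
  have hP := (sum_P h0.le h1.le).hasSum
  have h2 := hP.mul_left (2 * x)
  rw [← hasSum_nat_add_iff' 1, Finset.sum_range_one]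
  have e1 : tvA x 0 = 1 := by unfold tvA; rw [if_pos rfl]
  have e2 : Aof x - 1 = 2 * x * ∑' i : ℕ, (3 * (i : ℝ) + 2) * b0 i * x ^ i := by unfold Aof; ring
  have e3 : (fun n => tvA x (n + 1)) = fun i : ℕ => 2 * x * ((3 * (i : ℝ) + 2) * b0 i * x ^ i) := by
    funext i
    unfold tvA
    rw [if_neg (by omega), Nat.add_sub_cancel, pow_succ]
    ring
  rw [e1, e2, e3]
  exact h2

private theorem tvA_sum1 {x : ℝ} (h0 : 0 < x) (h1 : x < lamc) :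
    HasSum (fun i : ℕ => (i : ℝ) * tvA x i) (Aof x * (Aof x ^ 2 - 1) / (3 - Aof x ^ 2)) := by
  rw [← hasSum_nat_add_iff' 1, Finset.sum_range_one, Nat.cast_zero, zero_mul, sub_zero]
  have e3 : (fun n : ℕ => (((n + 1 : ℕ) : ℝ)) * tvA x (n + 1)) =
      fun i : ℕ => 2 * (3 * (i : ℝ) + 2) * ((i : ℝ) + 1) * b0 i * x ^ (i + 1) := by
    funext i
    unfold tvA
    rw [if_neg (by omega), Nat.add_sub_cancel]
    push_cast
    ring
  rw [e3]
  exact derA h0 h1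

private theorem tvB_sum1 {x : ℝ} (h0 : 0 < x) (h1 : x < lamc) :
    HasSum (fun i : ℕ => (i : ℝ) * tvB x i) (3 * (Aof x ^ 2 - 1) / (Aof x * (3 - Aof x ^ 2))) := by
  rw [← hasSum_nat_add_iff' 1, Finset.sum_range_one, Nat.cast_zero, zero_mul, sub_zero]
  have e3 : (fun n : ℕ => (((n + 1 : ℕ) : ℝ)) * tvB x (n + 1)) =
      fun i : ℕ => 6 * ((i : ℝ) + 2) * ((i : ℝ) + 1) * b0 i * x ^ (i + 1) := by
    funext i
    unfold tvB
    rw [if_neg (by omega), Nat.add_sub_cancel]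
    push_cast
    ring
  rw [e3]
  exact derG h0 h1

private theorem tv_PS (ω x t : ℝ) (i j : ℕ) : PS ω x t ((i : ℤ), (j : ℤ)) =
    tvA x i * (ω ^ (2 * j + 1) / ((2 * j + 1).factorial : ℝ) * t ^ j) + tvB x i * (if j = 0 then 1 else 0) := by
  unfold PS tvA tvB
  simp only [Int.toNat_natCast, Int.natCast_nonneg, and_self, if_true, Nat.cast_eq_zero]
  by_cases hi : i = 0
  · rw [if_pos hi, if_pos hi, if_pos hi]
    ring
  · rw [if_neg hi, if_neg hi, if_neg hi]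
    by_cases hj : j = 0
    · rw [if_pos hj, if_pos hj]
      ring
    · rw [if_neg hj, if_neg hj]
      ring

private theorem tv_PG {x : ℝ} (hx : 0 < x) (ω t : ℝ) (i j : ℕ) : PG ω x t ((i : ℤ) - 1, (j : ℤ)) =
    tvA x i * (ω ^ (2 * j + 2) / ((2 * j + 2).factorial : ℝ) * t ^ j) * (2 / x) := by
  unfold PG tvA
  simp only [Int.toNat_natCast, Int.natCast_nonneg, if_true]
  by_cases hi : i = 0
  · rw [hi, if_pos (by norm_num), if_pos rfl]
    ring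
  · obtain ⟨k, rfl⟩ : ∃ k, i = k + 1 := ⟨i - 1, by omega⟩
    have e1 : (((k + 1 : ℕ) : ℤ) - 1) = (k : ℤ) := by push_cast; ring
    rw [e1, if_neg (by omega), if_pos (by omega), if_neg (by omega), Int.toNat_natCast, Nat.add_sub_cancel, pow_succ]
    have := hx.ne'
    field_simp
    ring

theorem trv {ω : ℝ} (h0 : 0 < ω) (h1 : ω < 1) (a b : ℝ)
    (ha : ∑' p : ℤ × ℤ, PS ω (lamw ω) (phw ω) p * (a * p.1 + b * p.2) = 0)
    (hb : ∑' p : ℤ × ℤ, PG ω (lamw ω) (phw ω) p * (a * p.1 + b * p.2) = 0) : a = 0 ∧ b = 0 := by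
  obtain ⟨u, A, s, y, u0, u1, A0, s0, hA, hAof, hx, hph, hs, hy, hyl⟩ := tv_data h0 h1
  obtain ⟨x0, x1⟩ := lamw_lt h0 h1
  rw [hph] at ha hb
  obtain ⟨x, hxd⟩ : ∃ x, x = lamw ω := ⟨_, rfl⟩
  rw [← hxd] at ha hb hx hAof x0 x1
  obtain ⟨ch, sh⟩ := tv_exp u0 u1 hyl
  obtain ⟨W0, W1⟩ := tv_W s0 hy
  obtain ⟨V0, V1⟩ := tv_V s0 hy
  have a0 := tvA_sum x0 x1
  have a1 := tvA_sum1 x0 x1
  have b1 := tvB_sum1 x0 x1
  rw [hAof] at a0 a1 b1
  have hω0 := h0.le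
  have Wnn : ∀ j : ℕ, 0 ≤ ω ^ (2 * j + 1) / ((2 * j + 1).factorial : ℝ) * (s ^ 2) ^ j := fun j => by positivity
  have Vnn : ∀ j : ℕ, 0 ≤ ω ^ (2 * j + 2) / ((2 * j + 2).factorial : ℝ) * (s ^ 2) ^ j := fun j => by positivity
  have Ann := tvA_nn x0.le
  have Bnn := tvB_nn x0.le
  have hδ : HasSum (fun j : ℕ => if j = 0 then (1 : ℝ) else 0) 1 := hasSum_ite_eq 0 1
  -- the four sums
  have p1 := tv_prod a1 W0 (fun i => mul_nonneg (Nat.cast_nonneg _) (Ann i)) Wnn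
  have p2 := tv_prod a0 W1 Ann (fun j => mul_nonneg (Nat.cast_nonneg _) (Wnn j))
  have p3 := tv_prod b1 hδ (fun i => mul_nonneg (Nat.cast_nonneg _) (Bnn i)) (fun j => by split_ifs <;> norm_num)
  have q1 := tv_prod a1 V0 (fun i => mul_nonneg (Nat.cast_nonneg _) (Ann i)) Vnn
  have q2 := tv_prod a0 V1 Ann (fun j => mul_nonneg (Nat.cast_nonneg _) (Vnn j))
  have q3 := tv_prod a0 V0 Ann Vnn
  have P := ((p1.mul_left a).add (p2.mul_left b)).add (p3.mul_left a)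
  have Q := (((q1.mul_left a).add (q2.mul_left b)).sub (q3.mul_left a)).mul_right (2 / x)
  -- transfer to `ℤ × ℤ`
  have inj1 : Function.Injective (fun p : ℕ × ℕ => ((p.1 : ℤ), (p.2 : ℤ))) := by
    intro p q h
    simp only [Prod.mk.injEq, Nat.cast_inj] at h
    exact Prod.ext h.1 h.2
  have inj2 : Function.Injective (fun p : ℕ × ℕ => ((p.1 : ℤ) - 1, (p.2 : ℤ))) := by
    intro p q h
    simp only [Prod.mk.injEq, Nat.cast_inj] at h
    exact Prod.ext (by omega) h.2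
  have PP : HasSum (fun p : ℤ × ℤ => PS ω x (s ^ 2) p * (a * p.1 + b * p.2))
      (a * (A * (A ^ 2 - 1) / (3 - A ^ 2) * (Real.sinh y / s)) + b * (A * ((ω * Real.cosh y - Real.sinh y / s) / 2)) +
        a * (3 * (A ^ 2 - 1) / (A * (3 - A ^ 2)) * 1)) := by
    rw [← inj1.hasSum_iff]
    · have e : ((fun p : ℤ × ℤ => PS ω x (s ^ 2) p * (a * p.1 + b * p.2)) ∘ fun p : ℕ × ℕ => ((p.1 : ℤ), (p.2 : ℤ))) =
          fun p : ℕ × ℕ => a * ((p.1 : ℝ) * tvA x p.1 * (ω ^ (2 * p.2 + 1) / ((2 * p.2 + 1).factorial : ℝ) * (s ^ 2) ^ p.2)) +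
            b * (tvA x p.1 * ((p.2 : ℝ) * (ω ^ (2 * p.2 + 1) / ((2 * p.2 + 1).factorial : ℝ) * (s ^ 2) ^ p.2))) +
            a * ((p.1 : ℝ) * tvB x p.1 * (if p.2 = 0 then 1 else 0)) := by
        funext p
        simp only [Function.comp]
        rw [tv_PS]
        push_cast
        by_cases hj : p.2 = 0
        · rw [if_pos hj, hj]
          push_cast
          ring
        · rw [if_neg hj]
          ring
      rw [e]
      exact P
    · intro p hp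
      have : PS ω x (s ^ 2) p = 0 := by
        unfold PS
        rw [if_neg]
        rintro ⟨c1, c2⟩
        exact hp ⟨(p.1.toNat, p.2.toNat), Prod.ext (Int.toNat_of_nonneg c1) (Int.toNat_of_nonneg c2)⟩
      rw [this, zero_mul]
  have QQ : HasSum (fun p : ℤ × ℤ => PG ω x (s ^ 2) p * (a * p.1 + b * p.2))
      ((a * (A * (A ^ 2 - 1) / (3 - A ^ 2) * ((Real.cosh y - 1) / s ^ 2)) +
        b * (A * ((y * Real.sinh y / s ^ 2 - 2 * ((Real.cosh y - 1) / s ^ 2)) / 2)) -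
        a * (A * ((Real.cosh y - 1) / s ^ 2))) * (2 / x)) := by
    rw [← inj2.hasSum_iff]
    · have e : ((fun p : ℤ × ℤ => PG ω x (s ^ 2) p * (a * p.1 + b * p.2)) ∘ fun p : ℕ × ℕ => ((p.1 : ℤ) - 1, (p.2 : ℤ))) =
          fun p : ℕ × ℕ => (a * ((p.1 : ℝ) * tvA x p.1 * (ω ^ (2 * p.2 + 2) / ((2 * p.2 + 2).factorial : ℝ) * (s ^ 2) ^ p.2)) +
            b * (tvA x p.1 * ((p.2 : ℝ) * (ω ^ (2 * p.2 + 2) / ((2 * p.2 + 2).factorial : ℝ) * (s ^ 2) ^ p.2))) -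
            a * (tvA x p.1 * (ω ^ (2 * p.2 + 2) / ((2 * p.2 + 2).factorial : ℝ) * (s ^ 2) ^ p.2))) * (2 / x) := by
        funext p
        simp only [Function.comp]
        rw [tv_PG x0]
        push_cast
        ring
      rw [e]
      exact Q
    · intro p hp
      have : PG ω x (s ^ 2) p = 0 := by
        unfold PG
        by_cases c1 : 0 ≤ p.2
        · rw [if_pos c1]
          by_cases c2 : p.1 = -1
          · exfalso
            exact hp ⟨(0, p.2.toNat), Prod.ext (by simp [c2]) (Int.toNat_of_nonneg c1)⟩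
          · rw [if_neg c2]
            by_cases c3 : 0 ≤ p.1
            · exfalso
              refine hp ⟨(p.1.toNat + 1, p.2.toNat), Prod.ext ?_ (Int.toNat_of_nonneg c1)⟩
              simp only
              push_cast
              rw [Int.toNat_of_nonneg c3]
              ring
            · rw [if_neg c3]
        · rw [if_neg c1]
      rw [this, zero_mul]
  rw [PP.tsum_eq] at ha
  rw [QQ.tsum_eq] at hb
  clear PP QQ P Q p1 p2 p3 q1 q2 q3 W0 W1 V0 V1 a0 a1 b1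
  -- algebra
  have hu2 : 0 < 1 - u ^ 2 := by nlinarith
  have hY := h58_log_ge u0 u1
  rw [← hyl] at hY
  have hω : ω = y / s := by rw [hy]; field_simp
  rw [hω, ch, sh] at ha
  rw [ch, sh, hx] at hb
  have A0' := A0.ne'
  have u0' := u0.ne'
  have hu2' := hu2.ne'
  have c1 : 2 * u / (1 - u ^ 2) / s = 3 / A ^ 2 := by
    rw [hs]
    field_simp
  have c2 : y / s * ((1 + u ^ 2) / (1 - u ^ 2)) = 3 * y * (1 + u ^ 2) / (2 * u * A ^ 2) := by
    rw [hs]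
    field_simp
  have c0 : (1 + u ^ 2) / (1 - u ^ 2) - 1 = 2 * u ^ 2 / (1 - u ^ 2) := by
    field_simp
    ring
  have c3 : 2 * u ^ 2 / (1 - u ^ 2) / s ^ 2 = 9 * (1 - u ^ 2) / (2 * A ^ 4) := by
    rw [hs]
    field_simp
    ring
  have c4 : y * (2 * u / (1 - u ^ 2)) / s ^ 2 = 9 * y * (1 - u ^ 2) / (2 * u * A ^ 4) := by
    rw [hs]
    field_simp
    ring
  have d1 : 3 - A ^ 2 = 2 * u ^ 2 := by rw [hA]; ring
  have d2 : A ^ 2 - 1 = 2 * (1 - u ^ 2) := by rw [hA]; ring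
  have c5 : A * (A ^ 2 - 1) / (3 - A ^ 2) = A * ((1 - u ^ 2) / u ^ 2) := by
    rw [d1, d2]
    field_simp
  have c7 : 3 * (A ^ 2 - 1) / (A * (3 - A ^ 2)) = 3 * ((1 - u ^ 2) / u ^ 2) / A := by
    rw [d1, d2]
    field_simp
  rw [c1, c2, c5, c7] at ha
  rw [c0, c3, c4, c5] at hb
  clear c0 c1 c2 c3 c4 c5 c7 d1 d2
  have E1 : 8 * a * (1 - u ^ 2) + b * (u * y * (1 + u ^ 2) - 2 * u ^ 2) = 0 := by
    have e : (a * (A * ((1 - u ^ 2) / u ^ 2) * (3 / A ^ 2)) +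
        b * (A * ((3 * y * (1 + u ^ 2) / (2 * u * A ^ 2) - 3 / A ^ 2) / 2)) +
        a * (3 * ((1 - u ^ 2) / u ^ 2) / A * 1)) * (4 * u ^ 2 * A / 3) =
        8 * a * (1 - u ^ 2) + b * (u * y * (1 + u ^ 2) - 2 * u ^ 2) := by
      field_simp
      ring
    rw [← e, ha, zero_mul]
  have E2 : 2 * a * (1 - 2 * u ^ 2) + b * (u * y - 2 * u ^ 2) = 0 := by
    have e : (a * (A * ((1 - u ^ 2) / u ^ 2) * (9 * (1 - u ^ 2) / (2 * A ^ 4))) +
        b * (A * ((9 * y * (1 - u ^ 2) / (2 * u * A ^ 4) - 2 * (9 * (1 - u ^ 2) / (2 * A ^ 4))) / 2)) -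
        a * (A * (9 * (1 - u ^ 2) / (2 * A ^ 4)))) * (2 / ((1 - u ^ 2) / (4 * A ^ 3))) * (u ^ 2 / 18) =
        2 * a * (1 - 2 * u ^ 2) + b * (u * y - 2 * u ^ 2) := by
      field_simp
      ring
    rw [← e, hb, zero_mul]
  have hY2 : 0 < u * y - 2 * u ^ 2 := by
    have k3 : 0 < u ^ 3 := by positivity
    have k4 : 0 < y - 2 * u := by linarith
    have k5 : 0 < u * (y - 2 * u) := mul_pos u0 k4
    have k6 : u * (y - 2 * u) = u * y - 2 * u ^ 2 := by ring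
    rwa [k6] at k5
  have det : 0 < 8 * (1 - u ^ 2) * (u * y - 2 * u ^ 2) - (u * y * (1 + u ^ 2) - 2 * u ^ 2) * (2 * (1 - 2 * u ^ 2)) := by
    have f1 : 0 < 6 - 6 * u ^ 2 + 4 * u ^ 4 := by nlinarith [pow_pos u0 4]
    have f2 : u * (2 * u + 2 * u ^ 3 / 3) * (6 - 6 * u ^ 2 + 4 * u ^ 4) < u * y * (6 - 6 * u ^ 2 + 4 * u ^ 4) :=
      mul_lt_mul_of_pos_right (mul_lt_mul_of_pos_left hY u0) f1
    have f3 : u * (2 * u + 2 * u ^ 3 / 3) * (6 - 6 * u ^ 2 + 4 * u ^ 4) =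
        12 * u ^ 2 - 8 * u ^ 4 + (4 * u ^ 6 + 8 / 3 * u ^ 8) := by ring
    have f4 : 0 < 4 * u ^ 6 + 8 / 3 * u ^ 8 := by positivity
    have f5 : 8 * (1 - u ^ 2) * (u * y - 2 * u ^ 2) - (u * y * (1 + u ^ 2) - 2 * u ^ 2) * (2 * (1 - 2 * u ^ 2)) =
        u * y * (6 - 6 * u ^ 2 + 4 * u ^ 4) - (12 * u ^ 2 - 8 * u ^ 4) := by ring
    rw [f5]
    linarith
  have ha0 : a = 0 := by
    have e : a * (8 * (1 - u ^ 2) * (u * y - 2 * u ^ 2) - (u * y * (1 + u ^ 2) - 2 * u ^ 2) * (2 * (1 - 2 * u ^ 2))) = 0 := by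
      have : a * (8 * (1 - u ^ 2) * (u * y - 2 * u ^ 2) - (u * y * (1 + u ^ 2) - 2 * u ^ 2) * (2 * (1 - 2 * u ^ 2))) =
          (8 * a * (1 - u ^ 2) + b * (u * y * (1 + u ^ 2) - 2 * u ^ 2)) * (u * y - 2 * u ^ 2) -
          (2 * a * (1 - 2 * u ^ 2) + b * (u * y - 2 * u ^ 2)) * (u * y * (1 + u ^ 2) - 2 * u ^ 2) := by ring
      rw [this, E1, E2]
      ring
    rcases mul_eq_zero.1 e with h | h
    · exact h
    · exact absurd h det.ne'
  refine ⟨ha0, ?_⟩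
  rw [ha0] at E2
  have e : b * (u * y - 2 * u ^ 2) = 0 := by linarith
  rcases mul_eq_zero.1 e with h | h
  · exact h
  · exact absurd h hY2.ne'

end UN39
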