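import Mathlib
import Pool.Agent.H39.UN.Ult
import Pool.Agent.H39.UN.RhoA
import Pool.Agent.H39.UN.Rho
import Pool.Agent.H39.UP.Phi
import Pool.Agent.H39.UP.Trs
import Pool.Agent.H39.UP.Trv
import Pool.Agent.H39.UP.Lip
import Pool.Agent.H39.UP.Absc
import Pool.Agent.H39.UP.Cta

/-!
[H39 UP CTB]  (MP_bcc40c_pr)  Contraction and regularity: `Dv n w ≤ C/n`.

PROOFS.
dv_small: rho and phi, `lamw`, `phw` bounded below on the interval (lam_bd): `|log a - log b| ≤ 2|a-b|/b` for `a` close to `b`.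
ctb: suppose not.  For every `k` (with `K = k`, `n0 = k`) there are `(n_k, w_k)`, `n_k ≥ k`, in the region, with `Dv n_k w_k > k/n_k` and `Dv n' w' < Dv n_k w_k/η` for all
`(n',w')` of equal parity at distance at most `Rc n_k`.  Let `U` be an ultrafilter `≤ atTop` (`Ultrafilter.of atTop`/hyperfilter), `ω = lim_U w_k/n_k ∈ [ω1, ω2]`.
Apply absc with `X k = Xd n_k w_k`, `D k = Dv n_k w_k`, `P k p = PS ω_k (lamw ω_k) (phw ω_k) p` (`ω_k = w_k/n_k`), `G` similarly, `P0 = PS ω (lamw ω) (phw ω)`,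
`R k = Rc n_k/4`, `box k = bx n_k` (`2 len p ≤ 2 (Jc + 1) + 2 Jc ≤ R k` for large `n_k`), `C`, `θ` from PSG_dom (on `[ω1, ω2]`) and the constants below.
hX: xd_inc: `len p ≤ R k`, the point `gpt n_k w_k p` is at distance `≤ 4 len p ≤ Rc n_k` (`|n'-n| + |w'-w| ≤ 2|s| + 2|j|`), so `Dv (..) < D k/η` and
`C len p/n_k ≤ C len p D k/k`.  hXs: xd_inc and dv_small (in the larger region).  hc: xd_zero.  hE: `≤ (C/n_k)/D k ≤ C/k`.  h10, h01: `PS (1,0) > 0`, `PS (0,1) > 0`.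
htr: trv.  (X k 0 = 0: by definition of Xd, `gpt n w 0 = (n,w)`.)
reg: apply ctb with the region `ω1/2, (1+ω2)/2` and `η = 1/3`.  Let `(n,w)` be in the region `ω1, ω2`, `n` large.  Construct a chain `z_0 = (n,w), z_1, ...`: as long as
`Dv z_i > K/n_i`, `z_{i+1}` is the point given by ctb: `Dv z_i ≤ (1/3) Dv z_{i+1}`, at distance `≤ Rc n_i`.  After `m ≤ 2 log n` steps the point has moved by at most
`2 log n * Rc (2n) ≤ √n`, so it is still in the larger region.  If the chain stops at step `m`: `Dv z_0 ≤ Dv z_m ≤ K/n_m ≤ 2K/n`.  Otherwise after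
`m = ⌈log n⌉` steps `Dv z_0 ≤ 3^(-m) Dv z_m ≤ 1/n` (dv_small with `ε = 1`).
rga: `log (bc (n-c) (w-c)/bc n w) = ∑_{j<c} log (bc (n-j-1) (w-j-1)/bc (n-j) (w-j))`, reg (in a larger region, `c ≤ δ n`), and lip:
`|(w-j)/(n-j) - w/n| ≤ j/(n-j) ≤ 2j/n`.
-/

set_option autoImplicit false

namespace UN39

open Filter Topology

private theorem ctb_log {a b c : ℝ} (hc : 0 < c) (hb : c ≤ b) (h : |a - b| ≤ c / 2) :
    |Real.log a - Real.log b| ≤ 2 * |a - b| / c := by
  have h1 := abs_le.1 h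
  have ha : c / 2 ≤ a := by linarith
  have ha0 : 0 < a := by linarith
  have hb0 : 0 < b := by linarith
  have hn := abs_nonneg (a - b)
  rw [abs_le]
  constructor
  · have h2 : Real.log b - Real.log a ≤ 2 * |a - b| / c := by
      rw [← Real.log_div hb0.ne' ha0.ne']
      refine (Real.log_le_sub_one_of_pos (by positivity)).trans ?_
      have h3 : b / a - 1 = (b - a) / a := by field_simp
      rw [h3, div_le_div_iff₀ ha0 hc]
      have h4 : b - a ≤ |a - b| := by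
        have := neg_abs_le (a - b)
        linarith
      nlinarith [mul_le_mul_of_nonneg_right h4 hc.le, mul_le_mul_of_nonneg_left ha hn]
    linarith
  · rw [← Real.log_div ha0.ne' hb0.ne']
    refine (Real.log_le_sub_one_of_pos (by positivity)).trans ?_
    have h3 : a / b - 1 = (a - b) / b := by field_simp
    rw [h3, div_le_div_iff₀ hb0 hc]
    have h4 : a - b ≤ |a - b| := le_abs_self _
    nlinarith [mul_le_mul_of_nonneg_right h4 hc.le, mul_le_mul_of_nonneg_left hb hn]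

private theorem ctb_icc {ω1 ω2 : ℝ} {n w : ℕ} (hn : 1 ≤ n) (h3 : ω1 * n ≤ w)
    (h4 : (w : ℝ) ≤ ω2 * n) : (w : ℝ) / n ∈ Set.Icc ω1 ω2 := by
  have hn0 : (0 : ℝ) < n := by exact_mod_cast hn
  exact ⟨by rwa [le_div_iff₀ hn0], by rwa [div_le_iff₀ hn0]⟩

private theorem ctb_small {ε : ℝ} (hε : 0 < ε) : ∃ n0 : ℕ, ∀ n : ℕ, n0 ≤ n →
    ((Nat.log 2 n : ℝ) + 2) ^ 4 ≤ ε * n := by
  have h1 := tendsto_pow_const_mul_const_pow_of_abs_lt_one 4
    (show |(1 / 2 : ℝ)| < 1 by rw [abs_of_pos (by norm_num)]; norm_num)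
  have h2 := h1.eventually_lt_const (show (0 : ℝ) < ε / 4 by positivity)
  obtain ⟨L0, hL⟩ := eventually_atTop.1 h2
  refine ⟨2 ^ L0, fun n hn => ?_⟩
  have hn0 : n ≠ 0 := by
    have : 0 < 2 ^ L0 := by positivity
    omega
  have h3 : L0 ≤ Nat.log 2 n := (Nat.le_log_iff_pow_le (by norm_num) hn0).2 hn
  have h4 := hL (Nat.log 2 n + 2) (by omega)
  have h5 : (2 : ℝ) ^ Nat.log 2 n ≤ n := by exact_mod_cast Nat.pow_log_le_self 2 hn0
  have h6 : (1 / 2 : ℝ) ^ (Nat.log 2 n + 2) * (4 * 2 ^ Nat.log 2 n) = 1 := by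
    rw [pow_add, one_div, inv_pow]
    field_simp
    norm_num
  push_cast at h4
  have h7 : ((Nat.log 2 n : ℝ) + 2) ^ 4 =
      (((Nat.log 2 n : ℝ) + 2) ^ 4 * (1 / 2 : ℝ) ^ (Nat.log 2 n + 2)) *
        (4 * 2 ^ Nat.log 2 n) := by
    rw [mul_assoc, h6, mul_one]
  rw [h7]
  calc _ ≤ (ε / 4) * (4 * 2 ^ Nat.log 2 n) :=
        mul_le_mul_of_nonneg_right h4.le (by positivity)
    _ = ε * 2 ^ Nat.log 2 n := by ring
    _ ≤ ε * n := mul_le_mul_of_nonneg_left h5 hε.le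

private theorem ctb_Rc (n : ℕ) : (Rc n : ℝ) ≤ ((Nat.log 2 n : ℝ) + 2) ^ 4 := by
  unfold Rc
  push_cast
  have h0 : (0 : ℝ) ≤ Nat.log 2 n := Nat.cast_nonneg _
  calc (Nat.log 2 n : ℝ) ^ 3 ≤ ((Nat.log 2 n : ℝ) + 2) ^ 3 := by gcongr; linarith
    _ ≤ ((Nat.log 2 n : ℝ) + 2) ^ 4 := pow_le_pow_right₀ (by linarith) (by norm_num)

private theorem ctb_logge {f : ℕ → ℕ} {F : Filter ℕ} (h : Tendsto f F atTop) (a : ℕ) :
    ∀ᶠ k in F, a ≤ Nat.log 2 (f k) := by
  filter_upwards [h.eventually_ge_atTop (2 ^ a)] with k hk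
  have h0 : f k ≠ 0 := by
    have : 0 < 2 ^ a := by positivity
    omega
  exact (Nat.le_log_iff_pow_le (by norm_num) h0).2 hk

theorem dv_small {ω1 ω2 : ℝ} (h1 : 0 < ω1) (h2 : ω2 < 1) {ε : ℝ} (hε : 0 < ε) : ∃ n0 : ℕ,
    ∀ n w : ℕ, n0 ≤ n → ω1 * n ≤ w → (w : ℝ) ≤ ω2 * n → w % 2 = n % 2 → Dv n w ≤ ε := by
  obtain ⟨c, C, l', hc, hC, hl', hb⟩ := lam_bd h1 h2
  obtain ⟨e, he⟩ : ∃ e, e = min (c / 2) (c * ε / 2) := ⟨_, rfl⟩
  have he0 : 0 < e := by rw [he]; exact lt_min (by positivity) (by positivity)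
  have he1 : e ≤ c / 2 := by rw [he]; exact min_le_left _ _
  have he2 : 2 * e / c ≤ ε := by
    have h3 : e ≤ c * ε / 2 := by rw [he]; exact min_le_right _ _
    rw [div_le_iff₀ hc]
    linarith
  obtain ⟨n1, H1⟩ := rho h1 h2 he0
  obtain ⟨n2, H2⟩ := phi h1 h2 he0
  refine ⟨n1 + n2 + 1, fun n w hn h3 h4 h5 => ?_⟩
  obtain ⟨b1, b2, b3, b4⟩ := hb _ (ctb_icc (by omega : 1 ≤ n) h3 h4)
  have r1 := H1 n w (by omega) h3 h4 h5
  have r2 := H2 n w (by omega) h3 h4 h5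
  unfold Dv
  refine max_le ?_ ?_
  · refine (ctb_log hc b1 (r1.trans he1)).trans (le_trans ?_ he2)
    exact div_le_div_of_nonneg_right (by linarith) hc.le
  · refine (ctb_log hc b3 (r2.trans he1)).trans (le_trans ?_ he2)
    exact div_le_div_of_nonneg_right (by linarith) hc.le

private theorem ctb_gpt {n w : ℕ} (hp : w % 2 = n % 2) (p : ℤ × ℤ) (hn : 4 * len p ≤ n)
    (hw : 4 * len p ≤ w) : (gpt n w p).2 % 2 = (gpt n w p).1 % 2 ∧
      |(((gpt n w p).1 : ℕ) : ℝ) - n| + |(((gpt n w p).2 : ℕ) : ℝ) - w| ≤ 4 * len p := by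
  obtain ⟨s, j⟩ := p
  unfold len at hn hw ⊢
  simp only at hn hw ⊢
  have e1 : (((gpt n w (s, j)).1 : ℕ) : ℤ) = n - s := by
    unfold gpt
    simp only
    omega
  have e2 : (((gpt n w (s, j)).2 : ℕ) : ℤ) = w - s + 2 * j := by
    unfold gpt
    simp only
    omega
  refine ⟨by omega, ?_⟩
  have f1 : (((gpt n w (s, j)).1 : ℕ) : ℝ) = n - s := by exact_mod_cast e1
  have f2 : (((gpt n w (s, j)).2 : ℕ) : ℝ) = w - s + 2 * j := by exact_mod_cast e2
  rw [f1, f2]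
  push_cast
  rw [Nat.cast_natAbs, Nat.cast_natAbs]
  push_cast
  have g1 : (n : ℝ) - s - n = -(s : ℝ) := by ring
  have g2 : (w : ℝ) - s + 2 * j - w = -(s : ℝ) + 2 * j := by ring
  rw [g1, g2, abs_neg]
  have g3 := abs_add_le (-(s : ℝ)) (2 * (j : ℝ))
  rw [abs_neg, abs_mul, abs_of_pos (show (0 : ℝ) < 2 by norm_num)] at g3
  have g4 := abs_nonneg (s : ℝ)
  have g5 := abs_nonneg (j : ℝ)
  linarith

private theorem ctb_box {f : ℤ × ℤ → ℝ} (n : ℕ)
    (hf : ∀ p : ℤ × ℤ, p.1 < -1 ∨ p.2 < 0 → f p = 0) :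
    ∑ p ∈ (Finset.Icc (-(Jc n : ℤ) - 1) (Jc n : ℤ)) ×ˢ (Finset.Ico (-(Jc n : ℤ) - 1) (Jc n : ℤ)),
      f p = ∑ p ∈ bx n, f p := by
  symm
  refine Finset.sum_subset ?_ ?_
  · intro p hp
    unfold bx at hp
    rw [Finset.mem_product, Finset.mem_Icc, Finset.mem_Ico] at hp ⊢
    omega
  · intro p hp hp2
    unfold bx at hp2
    rw [Finset.mem_product, Finset.mem_Icc, Finset.mem_Ico] at hp hp2
    refine hf p ?_
    omega

private theorem PS_zero {ω x t : ℝ} (p : ℤ × ℤ) (h : p.1 < -1 ∨ p.2 < 0) : PS ω x t p = 0 := by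
  unfold PS
  rw [if_neg]
  omega

private theorem PG_zero {ω x t : ℝ} (p : ℤ × ℤ) (h : p.1 < -1 ∨ p.2 < 0) : PG ω x t p = 0 := by
  unfold PG
  split_ifs with h1 h2 h3
  · omega
  · omega
  · rfl
  · rfl

theorem ctb {ω1 ω2 η : ℝ} (h1 : 0 < ω1) (h2 : ω2 < 1) (hη : 0 < η) : ∃ K : ℝ, ∃ n0 : ℕ, 0 < K ∧
    ∀ n w : ℕ, n0 ≤ n → ω1 * n ≤ w → (w : ℝ) ≤ ω2 * n → w % 2 = n % 2 → Dv n w ≤ K / n ∨
      ∃ n' w' : ℕ, w' % 2 = n' % 2 ∧ |(n' : ℝ) - n| + |(w' : ℝ) - w| ≤ Rc n ∧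
        Dv n w ≤ η * Dv n' w' := by
  by_contra hcon
  push Not at hcon
  have hsel : ∀ k : ℕ, ∃ n w : ℕ, k + 1 ≤ n ∧ ω1 * n ≤ w ∧ (w : ℝ) ≤ ω2 * n ∧ w % 2 = n % 2 ∧
      ((k : ℝ) + 1) / n < Dv n w ∧ ∀ n' w' : ℕ, w' % 2 = n' % 2 →
        |(n' : ℝ) - n| + |(w' : ℝ) - w| ≤ Rc n → η * Dv n' w' < Dv n w := by
    intro k
    obtain ⟨n, w, a1, a2, a3, a4, a5, a6⟩ := hcon ((k : ℝ) + 1) (k + 1) (by positivity)
    exact ⟨n, w, a1, a2, a3, a4, a5, a6⟩
  choose nn vv a1 a2 a3 a4 a5 a6 using hsel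
  obtain ⟨U, ω, hS⟩ := rho_ult h1 h2 (fun k => by have := a1 k; omega) a2 a3 a4
  have hU : (U : Filter ℕ) ≤ atTop := by
    rcases U.le_cofinite_or_eq_pure with h | ⟨a, ha⟩
    · rwa [Nat.cofinite_eq_atTop] at h
    · exfalso
      have h3 := hS.ntop.eventually_ge_atTop (nn a + 1)
      rw [ha] at h3
      have h4 : nn a + 1 ≤ nn a := h3
      omega
  have hnn1 : ∀ k, (0 : ℝ) < nn k := fun k => by
    have := a1 k
    exact_mod_cast (by omega : 0 < nn k)
  obtain ⟨D, hDd⟩ : ∃ D : ℕ → ℝ, D = fun k => Dv (nn k) (vv k) := ⟨_, rfl⟩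
  have hDk : ∀ k, D k = Dv (nn k) (vv k) := fun k => by rw [hDd]
  have hDlow : ∀ k : ℕ, ((k : ℝ) + 1) / nn k < D k := fun k => by rw [hDk]; exact a5 k
  have hDpos : ∀ k, 0 < D k := fun k =>
    lt_trans (div_pos (by positivity) (hnn1 k)) (hDlow k)
  have hinv : ∀ k, 1 / (nn k : ℝ) ≤ D k / (k + 1) := by
    intro k
    rw [le_div_iff₀ (by positivity), div_mul_eq_mul_div, one_mul]
    exact (hDlow k).le
  have hD0 : Tendsto D U (𝓝 0) := by
    rw [tendsto_order]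
    constructor
    · intro a ha
      exact Eventually.of_forall fun k => ha.trans (hDpos k)
    · intro a ha
      obtain ⟨n0, hn0⟩ := dv_small h1 h2 (show 0 < a / 2 by positivity)
      filter_upwards [hS.ntop.eventually_ge_atTop n0] with k hk
      have := hn0 (nn k) (vv k) hk (a2 k) (a3 k) (a4 k)
      rw [hDk]
      linarith
  obtain ⟨C1, θ, hC1, hθ0, hθ1, hdom⟩ := PSG_dom (ω1 := ω1) (ω2 := ω2) h1 h2
  obtain ⟨C2, n2, hC2, hinc⟩ := xd_inc h1 h2
  obtain ⟨n3, hz⟩ := xd_zero h1 h2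
  obtain ⟨n4, hn4⟩ := ctb_small (show 0 < min ω1 1 by positivity)
  have hCC1 : C1 ≤ C1 + C2 := by linarith
  have hCC2 : C2 ≤ C1 + C2 := by linarith
  -- the points of the walk stay close
  have hclose : ∀ᶠ k in (U : Filter ℕ), ∀ p, len p ≤ Rc (nn k) / 4 →
      Dv (gpt (nn k) (vv k) p).1 (gpt (nn k) (vv k) p).2 ≤ D k / η := by
    filter_upwards [hS.ntop.eventually_ge_atTop n4] with k hk p hp
    have h3 := (ctb_Rc (nn k)).trans (hn4 (nn k) hk)
    have h4 : (Rc (nn k) : ℝ) ≤ nn k := by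
      refine h3.trans ?_
      calc min ω1 1 * (nn k : ℝ) ≤ 1 * nn k :=
            mul_le_mul_of_nonneg_right (min_le_right _ _) (hnn1 k).le
        _ = _ := one_mul _
    have h5 : (Rc (nn k) : ℝ) ≤ vv k := by
      refine h3.trans (le_trans ?_ (a2 k))
      exact mul_le_mul_of_nonneg_right (min_le_left _ _) (hnn1 k).le
    have h4' : Rc (nn k) ≤ nn k := by exact_mod_cast h4
    have h5' : Rc (nn k) ≤ vv k := by exact_mod_cast h5
    obtain ⟨g1, g2⟩ := ctb_gpt (a4 k) p (by omega) (by omega)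
    have h6 : (4 * len p : ℝ) ≤ Rc (nn k) := by
      exact_mod_cast (by omega : 4 * len p ≤ Rc (nn k))
    have h7 := a6 k _ _ g1 (g2.trans h6)
    rw [le_div_iff₀ hη, hDk, mul_comm]
    exact h7.le
  have hxi : ∀ᶠ k in (U : Filter ℕ), ∀ p, len p ≤ Rc (nn k) / 4 →
      |Xd (nn k) (vv k) (p + (1, 0)) - Xd (nn k) (vv k) p| ≤ D k / η + C2 * len p / nn k ∧
      |Xd (nn k) (vv k) (p + (0, 1)) - Xd (nn k) (vv k) p| ≤ D k / η + C2 * len p / nn k := by
    filter_upwards [hclose, hS.ntop.eventually_ge_atTop n2] with k hk hk2 p hp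
    have h3 := hinc (nn k) (vv k) hk2 (a2 k) (a3 k) (a4 k) p (by omega)
    have h4 := hk p hp
    exact ⟨h3.1.trans (by linarith), h3.2.trans (by linarith)⟩
  have hlog := ctb_logge hS.ntop
  have hRlog : ∀ n : ℕ, Nat.log 2 n ≤ Rc n := fun n => by
    unfold Rc
    exact Nat.le_self_pow (by norm_num) _
  have hsum : ∀ (P : ℝ → ℝ → ℝ → ℤ × ℤ → ℝ),
      (∀ (ω x t : ℝ) (p : ℤ × ℤ), p.1 < -1 ∨ p.2 < 0 → P ω x t p = 0) → ∀ x : ℤ × ℤ,
      (∃ C : ℝ, ∃ n0 : ℕ, 0 < C ∧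
        ∀ n w : ℕ, n0 ≤ n → ω1 * n ≤ w → (w : ℝ) ≤ ω2 * n → w % 2 = n % 2 →
          |∑ p ∈ bx n, P ((w : ℝ) / n) (lamw ((w : ℝ) / n)) (phw ((w : ℝ) / n)) p *
            (Real.exp (Xd n w (x + p) - Xd n w x) - 1)| ≤ C / n) →
      Tendsto (fun k => (∑ p ∈ (Finset.Icc (-(Jc (nn k) : ℤ) - 1) (Jc (nn k) : ℤ)) ×ˢ
        (Finset.Ico (-(Jc (nn k) : ℤ) - 1) (Jc (nn k) : ℤ)),
          P ((vv k : ℝ) / nn k) (lamw ((vv k : ℝ) / nn k)) (phw ((vv k : ℝ) / nn k)) p *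
            (Real.exp (Xd (nn k) (vv k) (x + p) - Xd (nn k) (vv k) x) - 1)) / D k) U (𝓝 0) := by
    intro P hP x hE
    obtain ⟨C, n0, hC, hE⟩ := hE
    have hlim : Tendsto (fun k : ℕ => C * (1 / ((k : ℝ) + 1))) U (𝓝 0) := by
      have h3 := (tendsto_one_div_add_atTop_nhds_zero_nat (𝕜 := ℝ)).const_mul C
      rw [mul_zero] at h3
      exact h3.mono_left hU
    refine squeeze_zero_norm' ?_ hlim
    filter_upwards [hS.ntop.eventually_ge_atTop n0] with k hk
    have h3 := hE (nn k) (vv k) hk (a2 k) (a3 k) (a4 k)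
    rw [ctb_box (nn k) (fun p hp => by rw [hP _ _ _ p hp, zero_mul]), Real.norm_eq_abs, abs_div,
      abs_of_pos (hDpos k), div_le_iff₀ (hDpos k)]
    refine h3.trans ?_
    calc C / (nn k : ℝ) = C * (1 / (nn k : ℝ)) := by ring
      _ ≤ C * (D k / (k + 1)) := mul_le_mul_of_nonneg_left (hinv k) hC.le
      _ = _ := by ring
  have hdomk : ∀ k, ∀ p : ℤ × ℤ,
      (0 ≤ PS ((vv k : ℝ) / nn k) (lamw ((vv k : ℝ) / nn k)) (phw ((vv k : ℝ) / nn k)) p ∧
        PS ((vv k : ℝ) / nn k) (lamw ((vv k : ℝ) / nn k)) (phw ((vv k : ℝ) / nn k)) p ≤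
          (C1 + C2) * θ ^ len p) ∧
      (0 ≤ PG ((vv k : ℝ) / nn k) (lamw ((vv k : ℝ) / nn k)) (phw ((vv k : ℝ) / nn k)) p ∧
        PG ((vv k : ℝ) / nn k) (lamw ((vv k : ℝ) / nn k)) (phw ((vv k : ℝ) / nn k)) p ≤
          (C1 + C2) * θ ^ len p) := by
    intro k p
    obtain ⟨⟨q1, q2⟩, q3, q4⟩ := hdom _ (ctb_icc (by have := a1 k; omega) (a2 k) (a3 k)) p
    have hle : C1 * θ ^ (p.1.natAbs + p.2.natAbs) ≤ (C1 + C2) * θ ^ len p :=
      mul_le_mul_of_nonneg_right hCC1 (by positivity)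
    exact ⟨⟨q1, q2.trans hle⟩, q3, q4.trans hle⟩
  refine absc (U := U) hU (P := fun k => PS ((vv k : ℝ) / nn k) (lamw ((vv k : ℝ) / nn k))
      (phw ((vv k : ℝ) / nn k)))
    (G := fun k => PG ((vv k : ℝ) / nn k) (lamw ((vv k : ℝ) / nn k)) (phw ((vv k : ℝ) / nn k)))
    (X := fun k => Xd (nn k) (vv k)) (P0 := PS ω (lamw ω) (phw ω)) (G0 := PG ω (lamw ω) (phw ω))
    (D := D) (R := fun k => Rc (nn k) / 4)
    (box := fun k => (Finset.Icc (-(Jc (nn k) : ℤ) - 1) (Jc (nn k) : ℤ)) ×ˢ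
        (Finset.Ico (-(Jc (nn k) : ℤ) - 1) (Jc (nn k) : ℤ)))
    (C := C1 + C2) (θ := θ) (η := η) (by positivity) hη hθ0 hθ1
    (Eventually.of_forall hDpos) hD0 ?_ (Eventually.of_forall fun k p => (hdomk k p).1)
    (Eventually.of_forall fun k p => (hdomk k p).2) ?_ ?_ ?_ ?_ ?_ ?_ ?_ ?_
    (fun x => hsum PS (fun _ _ _ p hp => PS_zero p hp) x (xd_eq1 h1 h2 x))
    (fun x => hsum PG (fun _ _ _ p hp => PG_zero p hp) x (xd_eq2 h1 h2 x)) ?_ ?_ ?_
  · -- R → ∞
    rw [tendsto_atTop]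
    intro b
    filter_upwards [hlog (4 * b)] with k hk
    have := hRlog (nn k)
    omega
  · intro p
    have hc := ((PSG_cont p).1.continuousAt (Ioo_mem_nhds hS.ω0 hS.ω1)).tendsto.comp hS.lim
    exact hc
  · intro p
    have hc := ((PSG_cont p).2.continuousAt (Ioo_mem_nhds hS.ω0 hS.ω1)).tendsto.comp hS.lim
    exact hc
  · intro k
    simp [Xd, gpt]
  · filter_upwards [hxi, hU (eventually_ge_atTop 1)] with k hk hk1 p hp
    have hk0 : (1 : ℝ) ≤ k := by exact_mod_cast hk1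
    have h3 : C2 * (len p : ℝ) / nn k ≤ D k * ((C1 + C2) * len p / k) := by
      have h4 : 1 / (nn k : ℝ) ≤ D k / k := by
        refine (hinv k).trans ?_
        exact div_le_div_of_nonneg_left (hDpos k).le (by linarith) (by linarith)
      calc C2 * (len p : ℝ) / nn k = (C2 * len p) * (1 / nn k) := by ring
        _ ≤ ((C1 + C2) * len p) * (D k / k) :=
            mul_le_mul (mul_le_mul_of_nonneg_right hCC2 (Nat.cast_nonneg _)) h4 (by positivity)
              (by positivity)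
        _ = _ := by ring
    have h5 : D k / η + C2 * (len p : ℝ) / nn k ≤ D k * (1 / η + (C1 + C2) * len p / k) := by
      have h6 : D k / η = D k * (1 / η) := by ring
      rw [h6, mul_add]
      linarith
    exact ⟨(hk p hp).1.trans h5, (hk p hp).2.trans h5⟩
  · intro ε hε
    obtain ⟨n5, hn5⟩ := ctb_small (show 0 < ε / (2 * C2) by positivity)
    have hDη : ∀ᶠ k in (U : Filter ℕ), D k < η * (ε / 2) :=
      hD0.eventually_lt_const (by positivity)
    filter_upwards [hxi, hDη, hS.ntop.eventually_ge_atTop n5] with k hk hk1 hk5 p hp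
    have h3 : D k / η ≤ ε / 2 := by
      rw [div_le_iff₀ hη, mul_comm]
      exact hk1.le
    have h4 : C2 * (len p : ℝ) / nn k ≤ ε / 2 := by
      rw [div_le_iff₀ (hnn1 k)]
      have h5 : (len p : ℝ) ≤ Rc (nn k) := by exact_mod_cast (by omega : len p ≤ Rc (nn k))
      have h6 := h5.trans ((ctb_Rc (nn k)).trans (hn5 (nn k) hk5))
      calc C2 * (len p : ℝ) ≤ C2 * (ε / (2 * C2) * nn k) := mul_le_mul_of_nonneg_left h6 hC2.le
        _ = ε / 2 * nn k := by field_simp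
    exact ⟨(hk p hp).1.trans (by linarith), (hk p hp).2.trans (by linarith)⟩
  · filter_upwards [hS.ntop.eventually_ge_atTop n3] with k hk
    rw [hDk]
    exact (hz (nn k) (vv k) hk (a2 k) (a3 k) (a4 k)).2
  · filter_upwards [hlog 17] with k hk p hp
    rw [Finset.mem_product, Finset.mem_Icc, Finset.mem_Ico] at hp
    have h3 : len p ≤ 2 * (Jc (nn k) + 1) := by
      unfold len
      omega
    have h4 : 16 * Jc (nn k) + 16 ≤ Rc (nn k) := by
      unfold Jc Rc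
      nlinarith [Nat.mul_le_mul_right (Nat.log 2 (nn k) ^ 2) hk]
    omega
  · intro p
    filter_upwards [hlog (len p + 1)] with k hk
    have h3 : Nat.log 2 (nn k) ≤ Jc (nn k) := by
      unfold Jc
      exact Nat.le_self_pow (by norm_num) _
    rw [Finset.mem_product, Finset.mem_Icc, Finset.mem_Ico]
    unfold len at hk
    omega
  · have hl := (lamw_lt hS.ω0 hS.ω1).1
    have hb := b0_pos 0
    have hω := hS.ω0
    unfold PS
    norm_num
    positivity
  · have hph := phw_pos hS.ω0 hS.ω1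
    have hω := hS.ω0
    unfold PS
    norm_num
    positivity
  · intro a b ha hb
    exact trv hS.ω0 hS.ω1 a b ha hb

private theorem ctb_reg {ω1 ω2 ε : ℝ} (h1 : 0 < ω1) (h2 : ω2 < 1) (hle : ω1 ≤ ω2)
    (he0 : 0 < ε) (he1 : ε ≤ ω1 / 4) (he2 : ε ≤ (1 - ω2) / 4) {n w n' w' : ℕ}
    (hw1 : ω1 * n ≤ w) (hw2 : (w : ℝ) ≤ ω2 * n)
    (hd : |(n' : ℝ) - n| + |(w' : ℝ) - w| ≤ ε * n) :
    (1 / 2 * (n : ℝ) ≤ n' ∧ (n' : ℝ) ≤ 2 * n) ∧ ω1 / 2 * n' ≤ w' ∧
      (w' : ℝ) ≤ (1 + ω2) / 2 * n' := by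
  have hn := Nat.cast_nonneg (α := ℝ) n
  obtain ⟨x, hx⟩ : ∃ x, x = ε * (n : ℝ) := ⟨_, rfl⟩
  have hx0 : 0 ≤ x := by rw [hx]; positivity
  have hx1 : x ≤ ω1 * n / 4 := by
    rw [hx]
    have := mul_le_mul_of_nonneg_right he1 hn
    linarith
  have hx2 : x ≤ (1 - ω2) * n / 4 := by
    rw [hx]
    have := mul_le_mul_of_nonneg_right he2 hn
    linarith
  rw [← hx] at hd
  have d1 := abs_nonneg ((n' : ℝ) - n)
  have d2 := abs_nonneg ((w' : ℝ) - w)
  have d3 := abs_le.1 (show |(n' : ℝ) - n| ≤ x by linarith)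
  have d4 := abs_le.1 (show |(w' : ℝ) - w| ≤ x by linarith)
  have hω2n : ω2 * n ≤ 1 * n := mul_le_mul_of_nonneg_right h2.le hn
  have hω1n : ω1 * n ≤ ω2 * n := mul_le_mul_of_nonneg_right hle hn
  refine ⟨⟨by linarith, by linarith⟩, ?_, ?_⟩
  · have h3 : ω1 / 2 * (n' : ℝ) ≤ ω1 / 2 * (n + x) :=
      mul_le_mul_of_nonneg_left (by linarith) (by linarith)
    have h4 : ω1 / 2 * x ≤ x := by nlinarith
    linarith
  · have h3 : (1 + ω2) / 2 * ((n : ℝ) - x) ≤ (1 + ω2) / 2 * n' :=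
      mul_le_mul_of_nonneg_left (by linarith) (by linarith)
    have h4 : (1 + ω2) / 2 * x ≤ x := by nlinarith
    linarith

theorem reg {ω1 ω2 : ℝ} (h1 : 0 < ω1) (h2 : ω2 < 1) : ∃ C : ℝ, ∃ n0 : ℕ, 0 < C ∧
    ∀ n w : ℕ, n0 ≤ n → ω1 * n ≤ w → (w : ℝ) ≤ ω2 * n → w % 2 = n % 2 → Dv n w ≤ C / n := by
  rcases lt_or_ge ω2 ω1 with hlt | hle
  · refine ⟨1, 1, one_pos, fun n w hn h3 h4 _ => ?_⟩
    exfalso
    have hn0 : (0 : ℝ) < n := by exact_mod_cast hn
    have h5 : ω2 * n < ω1 * n := mul_lt_mul_of_pos_right hlt hn0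
    linarith
  obtain ⟨K, m0, hK, hctb⟩ := ctb (ω1 := ω1 / 2) (ω2 := (1 + ω2) / 2) (η := 1 / 3) (by linarith)
    (by linarith) (by norm_num)
  obtain ⟨m1, hds⟩ := dv_small (ω1 := ω1 / 2) (ω2 := (1 + ω2) / 2) (by linarith) (by linarith)
    one_pos
  obtain ⟨ε, hε⟩ : ∃ ε, ε = min (ω1 / 4) ((1 - ω2) / 4) := ⟨_, rfl⟩
  have he0 : 0 < ε := by rw [hε]; exact lt_min (by linarith) (by linarith)
  have he1 : ε ≤ ω1 / 4 := by rw [hε]; exact min_le_left _ _
  have he2 : ε ≤ (1 - ω2) / 4 := by rw [hε]; exact min_le_right _ _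
  obtain ⟨m2, hsm⟩ := ctb_small he0
  refine ⟨2 * K + 1, 2 * m0 + 2 * m1 + m2 + 1, by positivity, ?_⟩
  intro n w hn hw1 hw2 hp
  have hn0 : (0 : ℝ) < n := by exact_mod_cast (by omega : 0 < n)
  obtain ⟨L, hL⟩ : ∃ L, L = Nat.log 2 n := ⟨_, rfl⟩
  have hsm' := hsm n (by omega)
  rw [← hL] at hsm'
  have hnR : (2 * m0 + 2 * m1 : ℝ) ≤ n := by exact_mod_cast (by omega : 2 * m0 + 2 * m1 ≤ n)
  have hm0 := Nat.cast_nonneg (α := ℝ) m0
  have hm1 := Nat.cast_nonneg (α := ℝ) m1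
  -- the chain
  have key : ∀ m : ℕ, m ≤ L + 1 → ∀ n' w' : ℕ, w' % 2 = n' % 2 →
      |(n' : ℝ) - n| + |(w' : ℝ) - w| ≤ ((L + 1 - m : ℕ) : ℝ) * ((L : ℝ) + 1) ^ 3 →
        Dv n' w' ≤ max (2 * K / n) ((1 / 3) ^ m) := by
    intro m
    induction m with
    | zero =>
      intro _ n' w' hp' hd
      have hd' : |(n' : ℝ) - n| + |(w' : ℝ) - w| ≤ ε * n := by
        refine hd.trans (le_trans ?_ hsm')
        rw [Nat.sub_zero]
        push_cast
        have hL0 := Nat.cast_nonneg (α := ℝ) L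
        calc ((L : ℝ) + 1) * ((L : ℝ) + 1) ^ 3 = ((L : ℝ) + 1) ^ 4 := by ring
          _ ≤ ((L : ℝ) + 2) ^ 4 := by gcongr; norm_num
      obtain ⟨⟨b1, b2⟩, b3, b4⟩ := ctb_reg h1 h2 hle he0 he1 he2 hw1 hw2 hd'
      have h5 : m1 ≤ n' := by
        have : (m1 : ℝ) ≤ n' := by linarith
        exact_mod_cast this
      refine (hds n' w' h5 b3 b4 hp').trans (le_max_of_le_right ?_)
      norm_num
    | succ m ih =>
      intro hm n' w' hp' hd
      have hL0 := Nat.cast_nonneg (α := ℝ) L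
      have hd' : |(n' : ℝ) - n| + |(w' : ℝ) - w| ≤ ε * n := by
        refine hd.trans (le_trans ?_ hsm')
        have h6 : ((L + 1 - (m + 1) : ℕ) : ℝ) ≤ (L : ℝ) + 1 := by
          exact_mod_cast (by omega : L + 1 - (m + 1) ≤ L + 1)
        calc _ ≤ ((L : ℝ) + 1) * ((L : ℝ) + 1) ^ 3 :=
              mul_le_mul_of_nonneg_right h6 (by positivity)
          _ = ((L : ℝ) + 1) ^ 4 := by ring
          _ ≤ ((L : ℝ) + 2) ^ 4 := by gcongr; norm_num
      obtain ⟨⟨b1, b2⟩, b3, b4⟩ := ctb_reg h1 h2 hle he0 he1 he2 hw1 hw2 hd'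
      have h5 : m0 ≤ n' := by
        have : (m0 : ℝ) ≤ n' := by linarith
        exact_mod_cast this
      have hn'0 : (0 : ℝ) < n' := by linarith
      rcases hctb n' w' h5 b3 b4 hp' with h6 | ⟨n'', w'', h7, h8, h9⟩
      · refine le_max_of_le_left (h6.trans ?_)
        rw [div_le_div_iff₀ hn'0 hn0]
        nlinarith
      · have h10 : (Rc n' : ℝ) ≤ ((L : ℝ) + 1) ^ 3 := by
          unfold Rc
          push_cast
          have h11 : Nat.log 2 n' ≤ L + 1 := by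
            rw [hL, ← Nat.log_mul_base (by norm_num) (by omega : n ≠ 0)]
            refine Nat.log_mono_right ?_
            have : (n' : ℝ) ≤ ((n * 2 : ℕ) : ℝ) := by push_cast; linarith
            exact_mod_cast this
          have h12 : (Nat.log 2 n' : ℝ) ≤ (L : ℝ) + 1 := by exact_mod_cast h11
          gcongr
        have h13 : |(n'' : ℝ) - n| + |(w'' : ℝ) - w| ≤
            ((L + 1 - m : ℕ) : ℝ) * ((L : ℝ) + 1) ^ 3 := by
          have e1 : (n'' : ℝ) - n = (n'' - n') + (n' - n) := by ring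
          have e2 : (w'' : ℝ) - w = (w'' - w') + (w' - w) := by ring
          have e3 := abs_add_le ((n'' : ℝ) - n') ((n' : ℝ) - n)
          have e4 := abs_add_le ((w'' : ℝ) - w') ((w' : ℝ) - w)
          rw [← e1] at e3
          rw [← e2] at e4
          have e5 : ((L + 1 - m : ℕ) : ℝ) = ((L + 1 - (m + 1) : ℕ) : ℝ) + 1 := by
            exact_mod_cast (by omega : L + 1 - m = (L + 1 - (m + 1)) + 1)
          rw [e5, add_mul, one_mul]
          linarith
        have h14 := ih (by omega) n'' w'' h7 h13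
        refine h9.trans ?_
        have h15 := mul_le_mul_of_nonneg_left h14 (show (0 : ℝ) ≤ 1 / 3 by norm_num)
        refine h15.trans ?_
        rw [mul_max_of_nonneg _ _ (by norm_num : (0 : ℝ) ≤ 1 / 3)]
        refine max_le_max ?_ ?_
        · have h16 : 0 ≤ 2 * K / (n : ℝ) := by positivity
          linarith
        · rw [pow_succ]
          linarith
  have hfin := key (L + 1) le_rfl n w hp (by simp)
  refine hfin.trans (max_le ?_ ?_)
  · exact div_le_div_of_nonneg_right (by linarith) hn0.le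
  · have h3 : n < 2 ^ (L + 1) := by
      rw [hL]
      exact Nat.lt_pow_succ_log_self (by norm_num) n
    have h4 : (n : ℝ) ≤ 3 ^ (L + 1) := by
      have h5 : (n : ℝ) ≤ 2 ^ (L + 1) := by exact_mod_cast h3.le
      refine h5.trans (pow_le_pow_left₀ (by norm_num) (by norm_num) _)
    rw [one_div, inv_pow, inv_eq_one_div, div_le_div_iff₀ (by positivity) hn0]
    have h6 : (0 : ℝ) < 3 ^ (L + 1) := by positivity
    nlinarith

private theorem ctb_frac {n w j : ℕ} (hn : 0 < (n : ℝ)) (hwn : w ≤ n) (hj : 2 * j ≤ n)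
    (hjw : j ≤ w) : |(((w - j : ℕ) : ℝ) / ((n - j : ℕ) : ℝ)) - (w : ℝ) / n| ≤ 2 * j / n := by
  have h1 : ((w - j : ℕ) : ℝ) = w - j := by
    rw [Nat.cast_sub hjw]
  have h2 : ((n - j : ℕ) : ℝ) = n - j := by
    rw [Nat.cast_sub (by omega)]
  have h3 : 2 * (j : ℝ) ≤ n := by exact_mod_cast hj
  have h4 : (w : ℝ) ≤ n := by exact_mod_cast hwn
  have hj0 := Nat.cast_nonneg (α := ℝ) j
  have hw0 := Nat.cast_nonneg (α := ℝ) w
  have h5 : (0 : ℝ) < n - j := by linarith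
  rw [h1, h2]
  have h6 : ((w : ℝ) - j) / (n - j) - w / n = -(j * (n - w) / ((n - j) * n)) := by
    field_simp
    ring
  rw [h6, abs_neg, abs_of_nonneg (div_nonneg (mul_nonneg hj0 (by linarith)) (by positivity)),
    div_le_div_iff₀ (by positivity) hn]
  have h7 : (n : ℝ) - w ≤ 2 * (n - j) := by linarith
  have h8 : (j : ℝ) * (n - w) ≤ j * (2 * (n - j)) := mul_le_mul_of_nonneg_left h7 hj0
  nlinarith [mul_le_mul_of_nonneg_right h8 hn.le]

private theorem ctb_frac2 {n w j : ℕ} (hn : 0 < (n : ℝ)) (hwn : w ≤ n) :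
    |(((w + j : ℕ) : ℝ) / ((n + j : ℕ) : ℝ)) - (w : ℝ) / n| ≤ j / n := by
  have h4 : (w : ℝ) ≤ n := by exact_mod_cast hwn
  have hj0 := Nat.cast_nonneg (α := ℝ) j
  have hw0 := Nat.cast_nonneg (α := ℝ) w
  have h5 : (0 : ℝ) < n + j := by linarith
  push_cast
  have h6 : ((w : ℝ) + j) / (n + j) - w / n = j * (n - w) / ((n + j) * n) := by
    field_simp
    ring
  rw [h6, abs_of_nonneg (div_nonneg (mul_nonneg hj0 (by linarith)) (by positivity)),
    div_le_div_iff₀ (by positivity) hn]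
  have h7 : (n : ℝ) - w ≤ n + j := by linarith
  have h8 : (j : ℝ) * (n - w) ≤ j * (n + j) := mul_le_mul_of_nonneg_left h7 hj0
  nlinarith [mul_le_mul_of_nonneg_right h8 hn.le]

theorem rga {ω1 ω2 : ℝ} (h1 : 0 < ω1) (h2 : ω2 < 1) : ∃ C δ : ℝ, ∃ n0 : ℕ, 0 < C ∧ 0 < δ ∧
    ∀ n w c : ℕ, n0 ≤ n → ω1 * n ≤ w → (w : ℝ) ≤ ω2 * n → w % 2 = n % 2 → (c : ℝ) ≤ δ * n →
      |Real.log (bc (n - c) (w - c) / bc n w) - c * Real.log (lamw ((w : ℝ) / n))| ≤
        C * c * (c + 1) / n ∧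
      |Real.log (bc (n + c) (w + c) / bc n w) + c * Real.log (lamw ((w : ℝ) / n))| ≤
        C * c * (c + 1) / n := by
  rcases lt_or_ge ω2 ω1 with hlt | hle
  · refine ⟨1, 1, 1, one_pos, one_pos, fun n w c hn h3 h4 _ _ => ?_⟩
    exfalso
    have hn0 : (0 : ℝ) < n := by exact_mod_cast hn
    have h5 : ω2 * n < ω1 * n := mul_lt_mul_of_pos_right hlt hn0
    linarith
  obtain ⟨C1, m1, hC1, hreg⟩ := reg (ω1 := ω1 / 2) (ω2 := (1 + ω2) / 2) (by linarith)
    (by linarith)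
  obtain ⟨C2, hC2, hlip⟩ := lip (ω1 := ω1 / 2) (ω2 := (1 + ω2) / 2) (by linarith) (by linarith)
  refine ⟨2 * C1 + 2 * C2, ω1 / 2, 2 * m1 + 2, by positivity, by positivity, ?_⟩
  intro n w c hn hw1 hw2 hp hc
  have hn0 : (0 : ℝ) < n := by exact_mod_cast (by omega : 0 < n)
  have hwn : w ≤ n := by
    have : (w : ℝ) ≤ n := by nlinarith
    exact_mod_cast this
  have hω1 : ω1 < 1 := by linarith
  have hcn : 2 * c ≤ n := by
    have : ((2 * c : ℕ) : ℝ) ≤ n := by push_cast; nlinarith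
    exact_mod_cast this
  have hcw : 2 * c ≤ w := by
    have : ((2 * c : ℕ) : ℝ) ≤ w := by push_cast; linarith
    exact_mod_cast this
  have hw0 : 0 < w := by
    have : (0 : ℝ) < w := lt_of_lt_of_le (by positivity) hw1
    exact_mod_cast this
  have hm1 : 2 * m1 + 2 ≤ n := hn
  have hIcc0 : (w : ℝ) / n ∈ Set.Icc (ω1 / 2) ((1 + ω2) / 2) := by
    have := ctb_icc (by omega : 1 ≤ n) hw1 hw2
    exact ⟨by linarith [this.1], by linarith [this.2]⟩
  obtain ⟨l, hl⟩ : ∃ l, l = Real.log (lamw ((w : ℝ) / n)) := ⟨_, rfl⟩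
  rw [← hl]
  -- one step at a point of the diagonal
  have step : ∀ n' w' : ℕ, m1 ≤ n' → 1 ≤ n' → n ≤ 2 * n' → ω1 / 2 * n' ≤ w' →
      (w' : ℝ) ≤ (1 + ω2) / 2 * n' → w' % 2 = n' % 2 → ∀ t : ℝ, |(w' : ℝ) / n' - (w : ℝ) / n| ≤ t →
      |Real.log (bc (n' - 1) (w' - 1) / bc n' w') - l| ≤ 2 * C1 / n + C2 * t := by
    intro n' w' a0 a1 a2 a3 a4 a5 t ht
    have hn'0 : (0 : ℝ) < n' := by exact_mod_cast a1
    have h5 := hreg n' w' a0 a3 a4 a5
    have h6 := (hlip _ (ctb_icc a1 a3 a4) _ hIcc0).1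
    rw [← hl] at h6
    have h7 : |Real.log (bc (n' - 1) (w' - 1) / bc n' w') -
        Real.log (lamw ((w' : ℝ) / n'))| ≤ C1 / n' := (le_max_left _ _).trans h5
    have h8 : C1 / (n' : ℝ) ≤ 2 * C1 / n := by
      have h9 : (n : ℝ) ≤ 2 * n' := by exact_mod_cast a2
      rw [div_le_div_iff₀ hn'0 hn0]
      nlinarith
    have h9 : C2 * |(w' : ℝ) / n' - (w : ℝ) / n| ≤ C2 * t := mul_le_mul_of_nonneg_left ht hC2.le
    have h10 := abs_sub_le (Real.log (bc (n' - 1) (w' - 1) / bc n' w'))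
      (Real.log (lamw ((w' : ℝ) / n'))) l
    linarith
  have pos : ∀ n' w' : ℕ, 1 ≤ n' → 1 ≤ w' → w' ≤ n' → w' % 2 = n' % 2 → 0 < bc n' w' :=
    fun n' w' a b c d => bc_pos a b (by omega) d
  have down : ∀ j : ℕ, j ≤ c →
      |Real.log (bc (n - j) (w - j) / bc n w) - j * l| ≤ (2 * C1 + 2 * C2) * j * (j + 1) / n := by
    intro j
    induction j with
    | zero =>
      intro _
      rw [Nat.sub_zero, Nat.sub_zero, div_self (pos n w (by omega) hw0 hwn hp).ne']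
      simp
    | succ j ih =>
      intro hj
      have hjR : (j : ℝ) ≤ c := by exact_mod_cast (by omega : j ≤ c)
      have h5 := ih (by omega)
      have p0 := pos n w (by omega) hw0 hwn hp
      have p1 := pos (n - j) (w - j) (by omega) (by omega) (by omega) (by omega)
      have p2 := pos (n - j - 1) (w - j - 1) (by omega) (by omega) (by omega) (by omega)
      have c1 : ((n - j : ℕ) : ℝ) = n - j := Nat.cast_sub (by omega)
      have c2 : ((w - j : ℕ) : ℝ) = w - j := Nat.cast_sub (by omega)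
      have h6 := step (n - j) (w - j) (by omega) (by omega) (by omega)
        (by
          rw [c1, c2]
          have : ω1 / 2 * ((n : ℝ) - j) ≤ ω1 / 2 * n :=
            mul_le_mul_of_nonneg_left (by linarith [Nat.cast_nonneg (α := ℝ) j]) (by linarith)
          linarith)
        (by
          rw [c1, c2]
          have h7 : (1 + ω2) / 2 * (j : ℝ) ≤ 1 * j :=
            mul_le_mul_of_nonneg_right (by linarith) (Nat.cast_nonneg _)
          have h8 : ω2 * (n : ℝ) ≤ (1 + ω2) / 2 * n :=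
            mul_le_mul_of_nonneg_right (by linarith) hn0.le
          linarith)
        (by omega) (2 * j / n) (ctb_frac hn0 hwn (by omega) (by omega))
      have e1 : n - (j + 1) = n - j - 1 := by omega
      have e2 : w - (j + 1) = w - j - 1 := by omega
      rw [e1, e2, Real.log_div p2.ne' p0.ne']
      rw [Real.log_div p1.ne' p0.ne'] at h5
      rw [Real.log_div p2.ne' p1.ne'] at h6
      have h7 : Real.log (bc (n - j - 1) (w - j - 1)) - Real.log (bc n w) -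
          ((j + 1 : ℕ) : ℝ) * l = (Real.log (bc (n - j - 1) (w - j - 1)) -
            Real.log (bc (n - j) (w - j)) - l) +
            (Real.log (bc (n - j) (w - j)) - Real.log (bc n w) - j * l) := by
        push_cast
        ring
      rw [h7]
      refine (abs_add_le _ _).trans ?_
      have h8 : (2 * C1 + 2 * C2) * ((j + 1 : ℕ) : ℝ) * (((j + 1 : ℕ) : ℝ) + 1) / n =
          (2 * C1 + 2 * C2) * j * (j + 1) / n + 2 * (2 * C1 + 2 * C2) * (j + 1) / n := by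
        push_cast
        ring
      rw [h8]
      have h9 : 2 * C1 / (n : ℝ) + C2 * (2 * j / n) ≤ 2 * (2 * C1 + 2 * C2) * (j + 1) / n := by
        rw [← mul_div_assoc, ← add_div]
        refine div_le_div_of_nonneg_right ?_ hn0.le
        have := Nat.cast_nonneg (α := ℝ) j
        nlinarith [mul_nonneg hC1.le this, mul_nonneg hC2.le this]
      linarith
  have up : ∀ j : ℕ, j ≤ c →
      |Real.log (bc (n + j) (w + j) / bc n w) + j * l| ≤ (2 * C1 + 2 * C2) * j * (j + 1) / n := by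
    intro j
    induction j with
    | zero =>
      intro _
      rw [Nat.add_zero, Nat.add_zero, div_self (pos n w (by omega) hw0 hwn hp).ne']
      simp
    | succ j ih =>
      intro hj
      have h5 := ih (by omega)
      have p0 := pos n w (by omega) hw0 hwn hp
      have p1 := pos (n + j) (w + j) (by omega) (by omega) (by omega) (by omega)
      have p2 := pos (n + (j + 1)) (w + (j + 1)) (by omega) (by omega) (by omega) (by omega)
      have hjn : ((j : ℝ) + 1) ≤ n := by exact_mod_cast (by omega : j + 1 ≤ n)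
      have h6 := step (n + (j + 1)) (w + (j + 1)) (by omega) (by omega) (by omega)
        (by
          push_cast
          have h7 : ω1 / 2 * ((j : ℝ) + 1) ≤ 1 * (j + 1) :=
            mul_le_mul_of_nonneg_right (by linarith) (by positivity)
          have h8 : ω1 / 2 * (n : ℝ) ≤ ω1 * n :=
            mul_le_mul_of_nonneg_right (by linarith) hn0.le
          linarith)
        (by
          push_cast
          have h7 : (1 - (1 + ω2) / 2) * ((j : ℝ) + 1) ≤ (1 - (1 + ω2) / 2) * n :=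
            mul_le_mul_of_nonneg_left hjn (by linarith)
          have h8 : (1 - (1 + ω2) / 2) * (n : ℝ) = (1 + ω2) / 2 * n - ω2 * n := by ring
          linarith)
        (by omega) (((j + 1 : ℕ) : ℝ) / n) (ctb_frac2 hn0 hwn)
      have e1 : n + (j + 1) - 1 = n + j := by omega
      have e2 : w + (j + 1) - 1 = w + j := by omega
      rw [e1, e2] at h6
      rw [Real.log_div p2.ne' p0.ne']
      rw [Real.log_div p1.ne' p0.ne'] at h5
      rw [Real.log_div p1.ne' p2.ne', abs_sub_comm] at h6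
      have h7 : Real.log (bc (n + (j + 1)) (w + (j + 1))) - Real.log (bc n w) +
          ((j + 1 : ℕ) : ℝ) * l = (l - (Real.log (bc (n + j) (w + j)) -
            Real.log (bc (n + (j + 1)) (w + (j + 1))))) +
            (Real.log (bc (n + j) (w + j)) - Real.log (bc n w) + j * l) := by
        push_cast
        ring
      rw [h7]
      refine (abs_add_le _ _).trans ?_
      have h8 : (2 * C1 + 2 * C2) * ((j + 1 : ℕ) : ℝ) * (((j + 1 : ℕ) : ℝ) + 1) / n =
          (2 * C1 + 2 * C2) * j * (j + 1) / n + 2 * (2 * C1 + 2 * C2) * (j + 1) / n := by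
        push_cast
        ring
      rw [h8]
      have h9 : 2 * C1 / (n : ℝ) + C2 * (((j + 1 : ℕ) : ℝ) / n) ≤
          2 * (2 * C1 + 2 * C2) * (j + 1) / n := by
        rw [← mul_div_assoc, ← add_div]
        refine div_le_div_of_nonneg_right ?_ hn0.le
        push_cast
        have := Nat.cast_nonneg (α := ℝ) j
        nlinarith [mul_nonneg hC1.le this, mul_nonneg hC2.le this]
      linarith
  exact ⟨down c le_rfl, up c le_rfl⟩

end UN39
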